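import Pool.Agent.Lib.SD.SpecC

/-! # Lib/SD: from `MainStmt` to the hyperreal form -/

set_option autoImplicit false

namespace Pool.Agent.Lib.SD

open Filter Topology MP9f7b43.L

variable {ι L : Type} [Field L] [Algebra ℚ L]

/-- the coordinate ring as a subalgebra -/
noncomputable abbrev Cn_A (x : ι → L) : Subalgebra ℚ L :=
  (MvPolynomial.aeval x : MvPolynomial ι ℚ →ₐ[ℚ] L).range

/-- a polynomial as an element of the coordinate ring -/
noncomputable def Cn_el (x : ι → L) (g : MvPolynomial ι ℚ) : Cn_A x :=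
  ⟨MvPolynomial.aeval x g, ⟨g, rfl⟩⟩

private theorem Cn_key {x : ι → L} {p : ℕ → ι → ℚ} (hS : Specs x p) (n : ℕ)
    (g h : MvPolynomial ι ℚ) (hgh : MvPolynomial.aeval x g = MvPolynomial.aeval x h) :
    MvPolynomial.eval (p n) g = MvPolynomial.eval (p n) h := by
  have h1 : MvPolynomial.aeval x (g - h) = 0 := by rw [map_sub, hgh, sub_self]
  have h2 := hS.spec _ h1 n
  rw [map_sub, sub_eq_zero] at h2
  exact h2

/-- the evaluation at the point `p n` -/
noncomputable def Cn_ev {x : ι → L} {p : ℕ → ι → ℚ} (hS : Specs x p) (n : ℕ) : Cn_A x →ₐ[ℚ] ℚ where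
  toFun a := MvPolynomial.eval (p n) a.2.choose
  map_one' := by
    have h := (1 : Cn_A x).2.choose_spec
    rw [Cn_key hS n _ 1 (by rw [map_one]; exact h), map_one]
  map_mul' a b := by
    rw [← map_mul]
    refine Cn_key hS n _ _ ?_
    have h := (a * b : Cn_A x).2.choose_spec
    have ha := a.2.choose_spec
    have hb := b.2.choose_spec
    rw [map_mul]
    exact h.trans (congrArg₂ (· * ·) ha.symm hb.symm)
  map_zero' := by
    have h := (0 : Cn_A x).2.choose_spec
    rw [Cn_key hS n _ 0 (by rw [map_zero]; exact h), map_zero]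
  map_add' a b := by
    rw [← map_add]
    refine Cn_key hS n _ _ ?_
    have h := (a + b : Cn_A x).2.choose_spec
    have ha := a.2.choose_spec
    have hb := b.2.choose_spec
    rw [map_add]
    exact h.trans (congrArg₂ (· + ·) ha.symm hb.symm)
  commutes' q := by
    have h := (algebraMap ℚ (Cn_A x) q).2.choose_spec
    rw [Cn_key hS n _ (MvPolynomial.C q) (by rw [MvPolynomial.algHom_C]; exact h), MvPolynomial.eval_C]
    rfl

private theorem Cn_ev_el {x : ι → L} {p : ℕ → ι → ℚ} (hS : Specs x p) (n : ℕ)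
    (g : MvPolynomial ι ℚ) : Cn_ev hS n (Cn_el x g) = MvPolynomial.eval (p n) g :=
  Cn_key hS n _ _ (Cn_el x g).2.choose_spec

private theorem Cn_surj {x : ι → L} (a : Cn_A x) : ∃ g, a = Cn_el x g := by
  obtain ⟨g, hg⟩ := a.2
  exact ⟨g, Subtype.ext hg.symm⟩

private theorem Cn_phi {x : ι → L} {p : ℕ → ι → ℚ} (hS : Specs x p) (Φ : L →+* Hyperreal)
    (hΦ : EvHom x p Φ) (a : Cn_A x) :
    Φ (a : L) = Hyperreal.ofSeq fun n => ((Cn_ev hS n a : ℚ) : ℝ) := by
  obtain ⟨g, rfl⟩ := Cn_surj a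
  have h1 : (fun n => ((Cn_ev hS n (Cn_el x g) : ℚ) : ℝ)) =
      fun n => ((MvPolynomial.eval (p n) g : ℚ) : ℝ) := by
    funext n
    rw [Cn_ev_el]
  rw [h1]
  show Φ (MvPolynomial.aeval x g) = _
  induction g using MvPolynomial.induction_on with
  | C q =>
    rw [MvPolynomial.algHom_C, eq_ratCast, map_ratCast]
    have h2 : (fun n => ((MvPolynomial.eval (p n) (MvPolynomial.C q) : ℚ) : ℝ)) =
        fun _ => (q : ℝ) := by
      funext n
      rw [MvPolynomial.eval_C]
    rw [h2]
    exact (map_ratCast Hyperreal.coeRingHom q).symm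
  | add g h hg hh =>
    rw [map_add, map_add, hg (by funext n; rw [Cn_ev_el]), hh (by funext n; rw [Cn_ev_el])]
    have h2 : (fun n => ((MvPolynomial.eval (p n) (g + h) : ℚ) : ℝ)) =
        (fun n => ((MvPolynomial.eval (p n) g : ℚ) : ℝ)) +
          fun n => ((MvPolynomial.eval (p n) h : ℚ) : ℝ) := by
      funext n
      rw [map_add, Rat.cast_add]
      rfl
    rw [h2]
    rfl
  | mul_X g i hg =>
    rw [map_mul, map_mul, hg (by funext n; rw [Cn_ev_el]), MvPolynomial.aeval_X, hΦ i]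
    have h2 : (fun n => ((MvPolynomial.eval (p n) (g * MvPolynomial.X i) : ℚ) : ℝ)) =
        (fun n => ((MvPolynomial.eval (p n) g : ℚ) : ℝ)) * fun n => (p n i : ℝ) := by
      funext n
      rw [map_mul, MvPolynomial.eval_X, Rat.cast_mul]
      rfl
    rw [h2]
    rfl

theorem tCn : CnStmt := by
  intro hM ι _ L _ _ x p N hC hS hN hint ht hnear Φ hΦ
  let x' : ι → Cn_A x := fun i => Cn_el x (MvPolynomial.X i)
  have hx' : ∀ i, ((x' i : Cn_A x) : L) = x i := fun i => MvPolynomial.aeval_X x i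
  have hev : ∀ n i, Cn_ev hS n (x' i) = p n i := by
    intro n i
    rw [Cn_ev_el, MvPolynomial.eval_X]
  have hfrac : IsFractionRing (Cn_A x) L := by
    apply IsFractionRing.of_field
    intro z
    obtain ⟨g, h, _, hgh⟩ := hC.frac z
    exact ⟨Cn_el x g, Cn_el x h, hgh⟩
  have hnear' : NearInt x' (Cn_ev hS) N := by
    refine ⟨?_, ?_, ?_, hN, ?_, ?_⟩
    · rw [eq_top_iff]
      intro a _
      obtain ⟨g, rfl⟩ := Cn_surj a
      have hAX : ∀ g : MvPolynomial ι ℚ, Cn_el x g = MvPolynomial.aeval x' g := by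
        intro g
        apply Subtype.ext
        show MvPolynomial.aeval x g = (Cn_A x).val (MvPolynomial.aeval x' g)
        have h1 : (MvPolynomial.aeval x : MvPolynomial ι ℚ →ₐ[ℚ] L) =
            (Cn_A x).val.comp (MvPolynomial.aeval x') := by
          apply MvPolynomial.algHom_ext
          intro i
          rw [AlgHom.comp_apply, MvPolynomial.aeval_X, MvPolynomial.aeval_X]
          exact (hx' i).symm
        exact DFunLike.congr_fun h1 g
      rw [hAX]
      rw [Algebra.adjoin_range_eq_range_aeval]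
      exact ⟨g, rfl⟩
    · intro n m hnm
      apply hS.inj
      funext i
      rw [← hev n i, ← hev m i, hnm]
    · simpa only [hev] using ht
    · intro n i
      rw [hev]
      exact hint n i
    · intro ε hε
      simpa only [hev] using hnear ε hε
  obtain ⟨O, F, r, hO, hr, _, hrF, hfd, hrank, _, _, _, huniq⟩ :=
    hM (Cn_A x) L ι x' (Cn_ev hS) N hC.trdeg.le hnear' (hyperfilter ℕ) Nat.hyperfilter_le_atTop
  -- the value of a fraction
  have hval : ∀ (y : L) (a b : Cn_A x), algebraMap (Cn_A x) L a / algebraMap (Cn_A x) L b = y →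
      Φ y = Hyperreal.ofSeq fun n => ((Cn_ev hS n a : ℚ) : ℝ) / ((Cn_ev hS n b : ℚ) : ℝ) := by
    intro y a b hy
    rw [← hy, map_div₀]
    show Φ (a : L) / Φ (b : L) = _
    rw [Cn_phi hS Φ hΦ a, Cn_phi hS Φ hΦ b]
    rfl
  have hmem : ∀ y : L, y ∈ O ↔ 0 ≤ ArchimedeanClass.mk (Φ y) := by
    intro y
    rw [hO]
    constructor
    · rintro ⟨C, hC'⟩
      obtain ⟨a, b, hb, hy⟩ := IsFractionRing.div_surjective (A := Cn_A x) y
      have hb' : algebraMap (Cn_A x) L b ≠ 0 := by
        intro h0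
        exact nonZeroDivisors.ne_zero hb ((FaithfulSMul.algebraMap_injective _ _) (h0.trans (map_zero _).symm))
      have h1 := hC' a b hb' hy
      rw [hval y a b hy]
      have h2 : ∀ᶠ n in (hyperfilter ℕ : Filter ℕ),
          |((Cn_ev hS n a : ℚ) : ℝ) / ((Cn_ev hS n b : ℚ) : ℝ)| ≤ |C| := by
        filter_upwards [h1] with n hn
        rw [abs_div]
        refine div_le_of_le_mul₀ (abs_nonneg _) (abs_nonneg _) (hn.trans ?_)
        exact mul_le_mul_of_nonneg_right (le_abs_self C) (abs_nonneg _)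
      refine ArchimedeanClass.mk_nonneg_of_le_of_le_of_archimedean Hyperreal.coeRingHom
        (r := -|C|) (s := |C|) ?_ ?_
      · exact Hyperreal.ofSeq_le_ofSeq.2 (by
          filter_upwards [h2] with n hn
          exact (abs_le.1 hn).1)
      · exact Hyperreal.ofSeq_le_ofSeq.2 (by
          filter_upwards [h2] with n hn
          exact (abs_le.1 hn).2)
    · intro hy0
      obtain ⟨c1, h1⟩ := ArchimedeanClass.exists_int_lt_of_mk_nonneg hy0
      obtain ⟨c2, h2⟩ := ArchimedeanClass.exists_int_gt_of_mk_nonneg hy0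
      refine ⟨max |(c1 : ℝ)| |(c2 : ℝ)|, ?_⟩
      intro a b hb hy
      rw [hval y a b hy] at h1 h2
      have hb1 : Φ (b : L) ≠ 0 := by
        intro h0
        exact hb ((map_eq_zero Φ).1 h0)
      have hb2 : ∀ᶠ n in (hyperfilter ℕ : Filter ℕ), ((Cn_ev hS n b : ℚ) : ℝ) ≠ 0 := by
        rw [Cn_phi hS Φ hΦ b] at hb1
        refine (Ultrafilter.eventually_not (f := hyperfilter ℕ)).2 ?_
        intro hz
        apply hb1
        exact Filter.Germ.coe_eq.2 hz
      have h1' : ∀ᶠ n in (hyperfilter ℕ : Filter ℕ),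
          (c1 : ℝ) < ((Cn_ev hS n a : ℚ) : ℝ) / ((Cn_ev hS n b : ℚ) : ℝ) := by
        have h3 : (Hyperreal.ofSeq fun _ => (c1 : ℝ)) < Hyperreal.ofSeq fun n =>
            ((Cn_ev hS n a : ℚ) : ℝ) / ((Cn_ev hS n b : ℚ) : ℝ) := by
          refine lt_of_eq_of_lt ?_ h1
          exact map_intCast Hyperreal.coeRingHom c1
        exact Hyperreal.ofSeq_lt_ofSeq.1 h3
      have h2' : ∀ᶠ n in (hyperfilter ℕ : Filter ℕ),
          ((Cn_ev hS n a : ℚ) : ℝ) / ((Cn_ev hS n b : ℚ) : ℝ) < (c2 : ℝ) := by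
        have h3 : (Hyperreal.ofSeq fun n =>
            ((Cn_ev hS n a : ℚ) : ℝ) / ((Cn_ev hS n b : ℚ) : ℝ)) <
            Hyperreal.ofSeq fun _ => (c2 : ℝ) := by
          refine lt_of_lt_of_eq h2 ?_
          exact (map_intCast Hyperreal.coeRingHom c2).symm
        exact Hyperreal.ofSeq_lt_ofSeq.1 h3
      filter_upwards [hb2, h1', h2'] with n hn hn1 hn2
      have h4 : |((Cn_ev hS n a : ℚ) : ℝ) / ((Cn_ev hS n b : ℚ) : ℝ)| ≤
          max |(c1 : ℝ)| |(c2 : ℝ)| := by
        rw [abs_le]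
        constructor
        · have h5 := neg_abs_le (c1 : ℝ)
          have h6 := le_max_left |(c1 : ℝ)| |(c2 : ℝ)|
          linarith
        · have h5 := le_abs_self (c2 : ℝ)
          have h6 := le_max_right |(c1 : ℝ)| |(c2 : ℝ)|
          linarith
      rw [abs_div, div_le_iff₀ (abs_pos.2 hn)] at h4
      exact h4
  refine ⟨?_, F, hfd, hrank, ?_⟩
  · intro V hV hVx y
    have hVO : V = O := huniq V hV (by
      obtain ⟨i, hi⟩ := hVx
      exact ⟨i, by
        show ((x' i : Cn_A x) : L) ∉ V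
        rw [hx']
        exact hi⟩)
    rw [hVO]
    exact hmem y
  · intro y hy
    have hyO : y ∈ O := (hmem y).2 hy
    obtain ⟨a, b, hb, hab⟩ := IsFractionRing.div_surjective (A := Cn_A x) y
    have hb' : algebraMap (Cn_A x) L b ≠ 0 := by
      intro h0
      exact nonZeroDivisors.ne_zero hb ((FaithfulSMul.algebraMap_injective _ _) (h0.trans (map_zero _).symm))
    have h1 := hr ⟨y, hyO⟩ a b hb' hab
    have h2 : ArchimedeanClass.stdPart (Φ y) = r ⟨y, hyO⟩ := by
      rw [hval y a b hab]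
      exact Hyperreal.stdPart_of_tendsto h1
    rw [h2]
    have h3 : r ⟨y, hyO⟩ ∈ (r.range : Set ℝ) := ⟨⟨y, hyO⟩, rfl⟩
    rw [hrF] at h3
    exact h3

end Pool.Agent.Lib.SD
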