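import Pool.Agent.Lib.SD.Spec

namespace Pool.Agent.Lib.SD

open Filter Topology Polynomial

private lemma Cv_pow (z z' : ℝ) (hz : |z| ≤ 1) (hz' : |z'| ≤ 1) (b : ℕ) :
    |z ^ b - z' ^ b| ≤ (b : ℝ) * |z - z'| := by
  induction b with
  | zero => simp
  | succ b ih =>
    have e : z ^ (b + 1) - z' ^ (b + 1) = z * (z ^ b - z' ^ b) + (z - z') * z' ^ b := by ring
    rw [e]
    refine (abs_add_le _ _).trans ?_
    rw [abs_mul, abs_mul]
    have h1 : |z| * |z ^ b - z' ^ b| ≤ 1 * ((b : ℝ) * |z - z'|) :=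
      mul_le_mul hz ih (abs_nonneg _) zero_le_one
    have h2 : |z - z'| * |z' ^ b| ≤ |z - z'| * 1 := by
      apply mul_le_mul_of_nonneg_left _ (abs_nonneg _)
      rw [abs_pow]
      exact pow_le_one₀ (abs_nonneg _) hz'
    push_cast
    linarith

private lemma Cv_coef {F : Type} [Field F] (emb : F →+* ℝ) (p : F[X]) (s : ℝ) (hs : |s| ≤ 1) :
    |eval₂ emb s p| ≤ ∑ a ∈ Finset.range (p.natDegree + 1), |emb (p.coeff a)| := by
  rw [Polynomial.eval₂_eq_sum_range]
  refine (Finset.abs_sum_le_sum_abs _ _).trans ?_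
  apply Finset.sum_le_sum
  intro a _
  rw [abs_mul]
  calc |emb (p.coeff a)| * |s ^ a| ≤ |emb (p.coeff a)| * 1 := by
        apply mul_le_mul_of_nonneg_left _ (abs_nonneg _)
        rw [abs_pow]
        exact pow_le_one₀ (abs_nonneg _) hs
    _ = _ := mul_one _

private lemma Cv_lip {F : Type} [Field F] (emb : F →+* ℝ) (g : Polynomial F[X]) :
    ∃ Λ : ℝ, 0 ≤ Λ ∧ ∀ s z z' : ℝ, |s| ≤ 1 → |z| ≤ 1 → |z'| ≤ 1 →
      |evF emb s z g - evF emb s z' g| ≤ Λ * |z - z'| := by
  refine ⟨∑ b ∈ Finset.range (g.natDegree + 1),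
    (∑ a ∈ Finset.range ((g.coeff b).natDegree + 1), |emb ((g.coeff b).coeff a)|) * (b : ℝ), ?_, ?_⟩
  · apply Finset.sum_nonneg
    intro b _
    apply mul_nonneg _ (Nat.cast_nonneg _)
    exact Finset.sum_nonneg fun a _ => abs_nonneg _
  · intro s z z' hs hz hz'
    unfold evF
    rw [Polynomial.eval₂_eq_sum_range, Polynomial.eval₂_eq_sum_range, ← Finset.sum_sub_distrib,
      Finset.sum_mul]
    refine (Finset.abs_sum_le_sum_abs _ _).trans ?_
    apply Finset.sum_le_sum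
    intro b _
    rw [← mul_sub, abs_mul, mul_assoc]
    apply mul_le_mul _ (Cv_pow z z' hz hz' b) (abs_nonneg _)
    · exact Finset.sum_nonneg fun a _ => abs_nonneg _
    · have := Cv_coef emb (g.coeff b) s hs
      simpa using this

theorem tCv : FbStmt → EsStmt → CvStmt := by
  intro hFb hEs F _ emb g Z hZ
  obtain ⟨C, hC, hCb⟩ := hFb F g Z (Complex.ofRealHom.comp emb) hZ
  obtain ⟨-, hmul, hpol, hcv, heval⟩ := hEs F emb
  obtain ⟨Λ, hΛ, hlip⟩ := Cv_lip emb g
  have hCr : (1 : ℝ) ≤ C := by exact_mod_cast hC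
  have hC0 : (0 : ℝ) < C := by linarith
  have hb : ∀ n, |emb (PowerSeries.coeff n Z)| ≤ (C : ℝ) ^ n := by
    intro n
    have h := hCb n
    rw [RingHom.comp_apply, Complex.ofRealHom_eq_coe, Complex.norm_real, Real.norm_eq_abs] at h
    exact h
  have h0 : PowerSeries.coeff 0 Z = 0 := by
    rw [hZ]
    exact PowerSeries.coeff_zero_X_mul _
  refine ⟨min (1 / (2 * C)) (1 / (Λ + 1)), lt_min (by positivity) (by positivity), ?_⟩
  intro s z hs hz hzs
  have hs1 : |s| < 1 / (2 * C) := lt_of_lt_of_le hs (min_le_left _ _)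
  have hs2 : |s| < 1 / (Λ + 1) := lt_of_lt_of_le hs (min_le_right _ _)
  have hCs : (C : ℝ) * |s| < 1 / 2 := by
    rw [lt_div_iff₀ (by positivity)] at hs1
    nlinarith
  have hs3 : |s| ≤ 1 := by nlinarith [abs_nonneg s]
  obtain ⟨y, hy⟩ := hcv Z C s hC0 (by
    intro b
    refine (hb b).trans ?_
    exact pow_le_pow_right₀ hCr (Nat.le_succ b)) (by linarith)
  -- y is at most 1
  have hterm : ∀ n, |emb (PowerSeries.coeff n Z) * s ^ n| ≤ (1 / 2 : ℝ) ^ n := by
    intro n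
    rw [abs_mul, abs_pow]
    calc |emb (PowerSeries.coeff n Z)| * |s| ^ n ≤ (C : ℝ) ^ n * |s| ^ n :=
          mul_le_mul_of_nonneg_right (hb n) (by positivity)
      _ = ((C : ℝ) * |s|) ^ n := (mul_pow _ _ _).symm
      _ ≤ (1 / 2 : ℝ) ^ n := pow_le_pow_left₀ (by positivity) hCs.le n
  have hy1 : |y| ≤ 1 := by
    have h1 : y = ∑' b, emb (PowerSeries.coeff b Z) * s ^ b := hy.2.tsum_eq.symm
    have h2 : |y| ≤ ∑' b, |emb (PowerSeries.coeff b Z) * s ^ b| := by
      rw [h1]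
      have := norm_tsum_le_tsum_norm (f := fun b => emb (PowerSeries.coeff b Z) * s ^ b)
        (by simpa [Real.norm_eq_abs] using hy.1)
      simpa [Real.norm_eq_abs] using this
    have h3 : ∑' b, |emb (PowerSeries.coeff b Z) * s ^ b| =
        |emb (PowerSeries.coeff 0 Z) * s ^ 0| +
          ∑' b, |emb (PowerSeries.coeff (b + 1) Z) * s ^ (b + 1)| := hy.1.tsum_eq_zero_add
    have h4 : |emb (PowerSeries.coeff 0 Z) * s ^ 0| = 0 := by rw [h0]; simp
    have hs5 : Summable (fun b => |emb (PowerSeries.coeff (b + 1) Z) * s ^ (b + 1)|) :=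
      (summable_nat_add_iff 1).2 hy.1
    have hgeo : Summable (fun b : ℕ => (1 / 2 : ℝ) ^ (b + 1)) :=
      (summable_nat_add_iff 1).2 summable_geometric_two
    have h5 : ∑' b, |emb (PowerSeries.coeff (b + 1) Z) * s ^ (b + 1)| ≤
        ∑' b : ℕ, (1 / 2 : ℝ) ^ (b + 1) :=
      hs5.tsum_le_tsum (fun b => hterm (b + 1)) hgeo
    have h6 : ∑' b : ℕ, (1 / 2 : ℝ) ^ (b + 1) = 1 := by
      have e : (fun b : ℕ => (1 / 2 : ℝ) ^ (b + 1)) = fun b : ℕ => (1 / 2 : ℝ) * (1 / 2 : ℝ) ^ b := by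
        funext b
        ring
      rw [e, tsum_mul_left, tsum_geometric_two]
      norm_num
    rw [h3, h4] at h2
    linarith
  -- y is a solution
  have hyeq : y = s * evF emb s y g := by
    have h1 := heval Z g s y hy
    have h2 := hpol Polynomial.X s
    rw [Polynomial.coe_X, Polynomial.eval₂_X] at h2
    have h3 := hmul _ _ s _ _ h2 h1
    rw [← hZ] at h3
    exact hy.2.unique h3.2
  have hzy : z = y := by
    by_contra hne
    have hpos : 0 < |z - y| := abs_pos.2 (sub_ne_zero.2 hne)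
    have h1 : |z - y| ≤ |s| * (Λ * |z - y|) := by
      have e : z - y = s * (evF emb s z g - evF emb s y g) := by
        rw [mul_sub, ← hzs, ← hyeq]
      calc |z - y| = |s * (evF emb s z g - evF emb s y g)| := by rw [← e]
        _ = |s| * |evF emb s z g - evF emb s y g| := abs_mul _ _
        _ ≤ |s| * (Λ * |z - y|) :=
          mul_le_mul_of_nonneg_left (hlip s z y hs3 hz hy1) (abs_nonneg _)
    have h2 : |s| * (Λ + 1) < 1 := by
      rw [lt_div_iff₀ (by positivity)] at hs2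
      exact hs2
    have h3 : |s| * Λ < 1 := by nlinarith [abs_nonneg s]
    have h4 : |s| * (Λ * |z - y|) = (|s| * Λ) * |z - y| := by ring
    rw [h4] at h1
    nlinarith
  rw [hzy]
  exact hy

end Pool.Agent.Lib.SD
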