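import Pool.Agent.Lib.SD.Spec

/-! Module Dg: bounded functions are polynomials in the uniformizer up to a power of it. -/

set_option linter.unusedSectionVars false

namespace Pool.Agent.Lib.SD

open Filter Topology Polynomial

section

variable {L : Type} [Field L] [Algebra ℚ L] {U : Ultrafilter ℕ} {v : L → ℕ → ℝ} {T π : L} {m : ℕ}

private theorem Dg_le_one (h : Plc U v T π m) : ∀ᶠ i in (U : Filter ℕ), |v π i| ≤ 1 := by
  have h1 : Tendsto (fun i => |v π i|) (U : Filter ℕ) (𝓝 |0|) := h.pi0.abs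
  rw [abs_zero] at h1
  exact h1.eventually_le_const one_pos

private theorem Dg_small (h : Plc U v T π m)
    (hne : ∀ φ : L, φ ≠ 0 → ∀ᶠ i in (U : Filter ℕ), v φ i ≠ 0) {χ : L}
    (hχ : Tendsto (v χ) (U : Filter ℕ) (𝓝 0)) :
    ∃ C : ℝ, ∀ᶠ i in (U : Filter ℕ), |v χ i| ≤ C * |v π i| := by
  by_cases h0 : χ = 0
  · refine ⟨0, ?_⟩
    have h1 := h.vals.const 0
    rw [map_zero] at h1
    filter_upwards [h1] with i hi
    rw [h0, hi]
    simp
  · obtain ⟨k, c, hc, hlim⟩ := h.ord χ h0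
    have hk : 1 ≤ k := by
      by_contra hcon
      apply hc
      refine tendsto_nhds_unique hlim ?_
      refine squeeze_zero_norm' ?_ ((tendsto_norm_zero.comp hχ))
      filter_upwards [hne π h.pine, Dg_le_one h] with i h1 h2
      obtain ⟨n, hn⟩ : ∃ n : ℕ, k = -(n : ℤ) := ⟨(-k).toNat, by omega⟩
      rw [hn, zpow_neg, div_inv_eq_mul, zpow_natCast, norm_mul, norm_pow]
      show ‖v χ i‖ * ‖v π i‖ ^ n ≤ ‖v χ i‖
      exact mul_le_of_le_one_right (norm_nonneg _)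
        (pow_le_one₀ (norm_nonneg _) (by rw [Real.norm_eq_abs]; exact h2))
    refine ⟨|c| + 1, ?_⟩
    have hb : ∀ᶠ i in (U : Filter ℕ), |v χ i / v π i ^ k| ≤ |c| + 1 :=
      hlim.abs.eventually_le_const (by linarith)
    filter_upwards [hb, hne π h.pine, Dg_le_one h] with i h1 h2 h3
    obtain ⟨n, hn⟩ : ∃ n : ℕ, k = ((n + 1 : ℕ) : ℤ) := ⟨(k - 1).toNat, by omega⟩
    rw [hn, zpow_natCast, abs_div, abs_pow, div_le_iff₀ (pow_pos (abs_pos.2 h2) _)] at h1
    refine h1.trans ?_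
    have h4 : |v π i| ^ (n + 1) ≤ |v π i| := by
      have := pow_le_pow_of_le_one (abs_nonneg (v π i)) h3 (show 1 ≤ n + 1 by omega)
      rwa [pow_one] at this
    exact mul_le_mul_of_nonneg_left h4 (by positivity)

private theorem Dg_lim {φ : L} (h : ∃ C : ℝ, ∀ᶠ i in (U : Filter ℕ), |v φ i| ≤ C) :
    ∃ x : ℝ, Tendsto (v φ) (U : Filter ℕ) (𝓝 x) := by
  obtain ⟨C, hC⟩ := h
  have h1 : ((U.map (v φ) : Ultrafilter ℝ) : Filter ℝ) ≤ 𝓟 (Set.Icc (-C) C) := by
    rw [le_principal_iff]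
    show ∀ᶠ i in (U : Filter ℕ), v φ i ∈ Set.Icc (-C) C
    filter_upwards [hC] with i hi
    exact abs_le.1 hi
  obtain ⟨x, -, hx⟩ := isCompact_Icc.ultrafilter_le_nhds (U.map (v φ)) h1
  exact ⟨x, hx⟩

end

theorem tDg : VcStmt → LiStmt → DgStmt := by
  intro hVc hLi L _ _ U v T π m F hP hR hF φ hφ n
  obtain ⟨hne, hinv, -, hsub, -, -, -, -, -⟩ := hVc L U v hP.vals
  induction n generalizing φ with
  | zero =>
    obtain ⟨C, hC⟩ := hφ
    refine ⟨0, C, ?_⟩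
    filter_upwards [hC] with i hi
    rw [eval₂_zero, sub_zero, pow_zero, mul_one]
    exact hi
  | succ n ih =>
    obtain ⟨x, hx⟩ := Dg_lim hφ
    have hxF : x ∈ F := (hR x).2 ⟨φ, hx⟩
    have hxa : IsAlgebraic ℚ x := by
      have h1 : IsAlgebraic ℚ (⟨x, hxF⟩ : F) := Algebra.IsAlgebraic.isAlgebraic _
      exact IntermediateField.isAlgebraic_iff.1 h1
    obtain ⟨φ₀, C₁, hC₁⟩ := hLi L U v T π m hP x hxa ⟨φ, hx⟩ (n + 1)
    have hpow : Tendsto (fun i => |v π i| ^ (n + 1)) (U : Filter ℕ) (𝓝 0) := by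
      have h1 : Tendsto (fun i => |v π i|) (U : Filter ℕ) (𝓝 |0|) := hP.pi0.abs
      have h2 := h1.pow (n + 1)
      rwa [abs_zero, zero_pow (by omega)] at h2
    have hφ₀ : Tendsto (v φ₀) (U : Filter ℕ) (𝓝 x) := by
      rw [tendsto_iff_norm_sub_tendsto_zero]
      have h1 : Tendsto (fun i => C₁ * |v π i| ^ (n + 1)) (U : Filter ℕ) (𝓝 0) := by
        have := hpow.const_mul C₁
        rwa [mul_zero] at this
      refine squeeze_zero' (Eventually.of_forall fun i => norm_nonneg _) ?_ h1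
      filter_upwards [hC₁] with i hi
      rw [Real.norm_eq_abs]
      exact hi
    have hd : Tendsto (v (φ - φ₀)) (U : Filter ℕ) (𝓝 0) := by
      have h1 := hx.sub hφ₀
      rw [sub_self] at h1
      refine h1.congr' ?_
      filter_upwards [hsub φ φ₀] with i hi
      exact hi.symm
    obtain ⟨C₂, hC₂⟩ := Dg_small hP hne hd
    have hψ : ∀ᶠ i in (U : Filter ℕ), v ((φ - φ₀) * π⁻¹) i = (v φ i - v φ₀ i) * (v π i)⁻¹ := by
      filter_upwards [hP.vals.mul (φ - φ₀) π⁻¹, hinv π, hsub φ φ₀] with i h1 h2 h3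
      rw [h1, h2, h3]
    obtain ⟨q, C₃, hC₃⟩ := ih ((φ - φ₀) * π⁻¹) (by
      refine ⟨C₂, ?_⟩
      filter_upwards [hC₂, hψ, hsub φ φ₀, hne π hP.pine] with i h1 h2 h3 h4
      rw [h2, abs_mul, abs_inv, ← div_eq_mul_inv, div_le_iff₀ (abs_pos.2 h4), ← h3]
      exact h1)
    refine ⟨C ⟨x, hxF⟩ + X * q, C₁ + C₃, ?_⟩
    filter_upwards [hC₁, hC₃, hψ, hne π hP.pine] with i h1 h2 h3 h4
    rw [eval₂_add, eval₂_C, eval₂_mul, eval₂_X]
    have h5 : v φ i = v φ₀ i + v π i * v ((φ - φ₀) * π⁻¹) i := by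
      rw [h3]
      field_simp
      ring
    have h6 : v φ i - (algebraMap F ℝ ⟨x, hxF⟩ + v π i * eval₂ (algebraMap F ℝ) (v π i) q) =
        (v φ₀ i - x) + v π i * (v ((φ - φ₀) * π⁻¹) i - eval₂ (algebraMap F ℝ) (v π i) q) := by
      have h7 : algebraMap F ℝ ⟨x, hxF⟩ = x := rfl
      rw [h7]
      linear_combination h5
    rw [h6]
    refine (abs_add_le _ _).trans ?_
    rw [abs_mul, add_mul]
    refine add_le_add h1 ?_
    calc |v π i| * |v ((φ - φ₀) * π⁻¹) i - eval₂ (algebraMap F ℝ) (v π i) q|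
        ≤ |v π i| * (C₃ * |v π i| ^ n) := mul_le_mul_of_nonneg_left h2 (abs_nonneg _)
      _ = C₃ * |v π i| ^ (n + 1) := by ring

end Pool.Agent.Lib.SD
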