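import Pool.Agent.Lib.SD.Spec

namespace Pool.Agent.Lib.SD

open Filter Topology Polynomial

private lemma En_prim {L : Type} [Field L] [Algebra ℚ L] (hD : Dep L) (b x : L) (hb : b ≠ 0) :
    ∃ p : Polynomial ℚ[X], p.map (evalRingHom (0 : ℚ)) ≠ 0 ∧
      eval₂ ((aeval b : ℚ[X] →ₐ[ℚ] L) : ℚ[X] →+* L) x p = 0 := by
  obtain ⟨p, hp, hp0⟩ := hD b x
  -- divide by powers of X
  have key : ∀ n : ℕ, ∀ p : Polynomial ℚ[X], p ≠ 0 → p.leadingCoeff.natDegree ≤ n →
      eval₂ ((aeval b : ℚ[X] →ₐ[ℚ] L) : ℚ[X] →+* L) x p = 0 →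
      ∃ p : Polynomial ℚ[X], p.map (evalRingHom (0 : ℚ)) ≠ 0 ∧
        eval₂ ((aeval b : ℚ[X] →ₐ[ℚ] L) : ℚ[X] →+* L) x p = 0 := by
    intro n
    induction n with
    | zero =>
      intro p hp hn h0
      refine ⟨p, ?_, h0⟩
      intro h
      have h1 : (p.map (evalRingHom (0 : ℚ))).coeff p.natDegree = 0 := by rw [h]; simp
      rw [coeff_map] at h1
      have h2 : p.leadingCoeff ≠ 0 := leadingCoeff_ne_zero.mpr hp
      have h3 : p.leadingCoeff = C (p.leadingCoeff.coeff 0) :=
        eq_C_of_natDegree_le_zero hn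
      apply h2
      rw [h3]
      have h4 : p.leadingCoeff.coeff 0 = 0 := by
        rw [← leadingCoeff] at h1
        rw [h3] at h1
        simpa using h1
      rw [h4]; simp
    | succ n ih =>
      intro p hp hn h0
      by_cases h : p.map (evalRingHom (0 : ℚ)) = 0
      · -- all coefficients divisible by X
        have hdvd : (C (X : ℚ[X]) : Polynomial ℚ[X]) ∣ p := by
          rw [C_dvd_iff_dvd_coeff]
          intro i
          rw [X_dvd_iff, coeff_zero_eq_eval_zero]
          have := congrArg (fun q => coeff q i) h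
          simpa [coeff_map] using this
        obtain ⟨q, hq⟩ := hdvd
        have hq0 : q ≠ 0 := by
          rintro rfl
          exact hp (by rw [hq, mul_zero])
        have hlc : p.leadingCoeff = X * q.leadingCoeff := by
          rw [hq, leadingCoeff_mul, leadingCoeff_C]
        have hql : q.leadingCoeff ≠ 0 := leadingCoeff_ne_zero.mpr hq0
        have hdeg : q.leadingCoeff.natDegree ≤ n := by
          have : p.leadingCoeff.natDegree = q.leadingCoeff.natDegree + 1 := by
            rw [hlc, natDegree_X_mul hql]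
          omega
        apply ih q hq0 hdeg
        rw [hq, eval₂_mul, eval₂_C] at h0
        have : ((aeval b : ℚ[X] →ₐ[ℚ] L) : ℚ[X] →+* L) X = b := by simp
        rw [this] at h0
        exact (mul_eq_zero.mp h0).resolve_left hb
      · exact ⟨p, h, h0⟩
  exact key _ p hp le_rfl hp0

theorem tEn : EnStmt := by
  intro A L κ _ _ _ _ _ _ _ _ _ x ev hD hgen hinj b hb
  have inj : Function.Injective (algebraMap A L) := IsFractionRing.injective A L
  have hb' : algebraMap A L b ≠ 0 := fun h => hb (inj (by simpa using h))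
  -- relation in A
  have hrel : ∀ j : κ, ∃ p : Polynomial ℚ[X], p.map (evalRingHom (0 : ℚ)) ≠ 0 ∧
      eval₂ ((aeval b : ℚ[X] →ₐ[ℚ] A) : ℚ[X] →+* A) (x j) p = 0 := by
    intro j
    obtain ⟨p, hp, h0⟩ := En_prim hD (algebraMap A L b) (algebraMap A L (x j)) hb'
    refine ⟨p, hp, ?_⟩
    apply inj
    rw [map_zero, hom_eval₂, ← h0]
    congr 1
    ext q
    · simp
    · simp
  choose p hp hp0 using hrel
  -- the exceptional set is finite
  have hfin : {i | ev i b = 0}.Finite := by
    have hsub : (fun i => fun j => ev i (x j)) '' {i | ev i b = 0} ⊆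
        Set.pi Set.univ (fun j => ((p j).map (evalRingHom (0 : ℚ))).rootSet ℚ) := by
      rintro _ ⟨i, hi, rfl⟩ j -
      rw [mem_rootSet]
      refine ⟨hp j, ?_⟩
      have h1 := congrArg (ev i) (hp0 j)
      rw [map_zero] at h1
      have h2 : (ev i) (eval₂ ((aeval b : ℚ[X] →ₐ[ℚ] A) : ℚ[X] →+* A) (x j) (p j)) =
          eval₂ (((ev i : A →ₐ[ℚ] ℚ) : A →+* ℚ).comp ((aeval b : ℚ[X] →ₐ[ℚ] A) : ℚ[X] →+* A))
            (ev i (x j)) (p j) := by
        have := hom_eval₂ (p j) ((aeval b : ℚ[X] →ₐ[ℚ] A) : ℚ[X] →+* A)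
          ((ev i : A →ₐ[ℚ] ℚ) : A →+* ℚ) (x j)
        simpa using this
      rw [h2] at h1
      have hring : (evalRingHom (0 : ℚ)) =
          (((ev i : A →ₐ[ℚ] ℚ) : A →+* ℚ).comp ((aeval b : ℚ[X] →ₐ[ℚ] A) : ℚ[X] →+* A)) := by
        apply Polynomial.ringHom_ext
        · intro a; simp
        · have : ev i b = 0 := hi
          simp [this]
      rw [coe_aeval_eq_eval, eval_map, hring]
      exact h1
    have hfin2 : (Set.pi Set.univ (fun j => ((p j).map (evalRingHom (0 : ℚ))).rootSet ℚ)).Finite :=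
      Set.Finite.pi' (fun j => rootSet_finite _ _) |>.subset (by
        intro f hf j; exact hf j (Set.mem_univ j))
    refine Set.Finite.of_finite_image (hfin2.subset hsub) ?_
    intro i _ i' _ h
    apply hinj
    apply AlgHom.ext_of_adjoin_eq_top hgen
    rintro _ ⟨j, rfl⟩
    exact congrFun h j
  have := hfin.compl_mem_cofinite
  rw [Nat.cofinite_eq_atTop] at this
  filter_upwards [this] with i hi h
  exact hi h

end Pool.Agent.Lib.SD
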