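import Pool.Agent.Lib.SD.Spec

set_option autoImplicit false

namespace Pool.Agent.Lib.SD

open Filter Topology Polynomial

private theorem Es_add {F : Type} [Field F] (emb : F →+* ℝ) (Φ Ψ : PowerSeries F) (s y z : ℝ)
    (h1 : EvS emb Φ s y) (h2 : EvS emb Ψ s z) : EvS emb (Φ + Ψ) s (y + z) := by
  have e : ∀ b, emb (PowerSeries.coeff b (Φ + Ψ)) * s ^ b =
      emb (PowerSeries.coeff b Φ) * s ^ b + emb (PowerSeries.coeff b Ψ) * s ^ b := by
    intro b
    rw [map_add, map_add, add_mul]
  constructor
  · refine Summable.of_nonneg_of_le (fun b => abs_nonneg _) (fun b => ?_) (h1.1.add h2.1)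
    rw [e]
    exact abs_add_le _ _
  · have := h1.2.add h2.2
    simpa only [e] using this

private theorem Es_mul {F : Type} [Field F] (emb : F →+* ℝ) (Φ Ψ : PowerSeries F) (s y z : ℝ)
    (h1 : EvS emb Φ s y) (h2 : EvS emb Ψ s z) : EvS emb (Φ * Ψ) s (y * z) := by
  have e : ∀ n, emb (PowerSeries.coeff n (Φ * Ψ)) * s ^ n =
      ∑ kl ∈ Finset.HasAntidiagonal.antidiagonal n, (emb (PowerSeries.coeff kl.1 Φ) * s ^ kl.1) *
        (emb (PowerSeries.coeff kl.2 Ψ) * s ^ kl.2) := by
    intro n
    rw [PowerSeries.coeff_mul, map_sum, Finset.sum_mul]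
    refine Finset.sum_congr rfl ?_
    intro kl hkl
    have : kl.1 + kl.2 = n := Finset.HasAntidiagonal.mem_antidiagonal.mp hkl
    rw [map_mul, ← this, pow_add]
    ring
  have s1 : Summable (fun b => ‖emb (PowerSeries.coeff b Φ) * s ^ b‖) := h1.1
  have s2 : Summable (fun b => ‖emb (PowerSeries.coeff b Ψ) * s ^ b‖) := h2.1
  have s3 := summable_norm_sum_mul_antidiagonal_of_summable_norm s1 s2
  have s4 := tsum_mul_tsum_eq_tsum_sum_antidiagonal_of_summable_norm s1 s2
  rw [h1.2.tsum_eq, h2.2.tsum_eq] at s4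
  constructor
  · refine s3.congr ?_
    intro n
    rw [e, Real.norm_eq_abs]
  · rw [s4]
    have := s3.of_norm.hasSum
    simpa only [e] using this

private theorem Es_poly {F : Type} [Field F] (emb : F →+* ℝ) (p : F[X]) (s : ℝ) :
    EvS emb (p : PowerSeries F) s (eval₂ emb s p) := by
  have z : ∀ b, b ∉ Finset.range (p.natDegree + 1) → emb (PowerSeries.coeff b (p : PowerSeries F)) * s ^ b = 0 := by
    intro b hb
    rw [Finset.mem_range, not_lt] at hb
    rw [Polynomial.coeff_coe, Polynomial.coeff_eq_zero_of_natDegree_lt (by omega), map_zero, zero_mul]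
  constructor
  · refine summable_of_ne_finset_zero (s := Finset.range (p.natDegree + 1)) ?_
    intro b hb
    rw [z b hb, abs_zero]
  · rw [Polynomial.eval₂_eq_sum_range]
    have w : HasSum (fun b => emb (PowerSeries.coeff b (p : PowerSeries F)) * s ^ b)
        (∑ b ∈ Finset.range (p.natDegree + 1), emb (PowerSeries.coeff b (p : PowerSeries F)) * s ^ b) :=
      hasSum_sum_of_ne_finset_zero z
    simpa only [Polynomial.coeff_coe] using w

private theorem Es_pow {F : Type} [Field F] (emb : F →+* ℝ) (Φ : PowerSeries F) (s y : ℝ)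
    (h1 : EvS emb Φ s y) (n : ℕ) : EvS emb (Φ ^ n) s (y ^ n) := by
  induction n with
  | zero =>
    have := Es_poly emb (1 : F[X]) s
    rw [Polynomial.coe_one, Polynomial.eval₂_one] at this
    rwa [pow_zero, pow_zero]
  | succ n ih =>
    rw [pow_succ, pow_succ]
    exact Es_mul emb _ _ s _ _ ih h1

theorem tEs : EsStmt := by
  intro F _ emb
  refine ⟨Es_add emb, Es_mul emb, Es_poly emb, ?_, ?_⟩
  · intro Φ C s hC hb hs
    have hs1 : Summable (fun b => |emb (PowerSeries.coeff b Φ) * s ^ b|) := by
      have hg : Summable (fun b : ℕ => C * (C * |s|) ^ b) :=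
        (summable_geometric_of_lt_one (by positivity) hs).mul_left C
      refine Summable.of_nonneg_of_le (fun b => abs_nonneg _) (fun b => ?_) hg
      rw [abs_mul, abs_pow, mul_pow, ← mul_assoc, ← pow_succ']
      gcongr
      exact hb b
    exact ⟨_, hs1, (Summable.of_abs hs1).hasSum⟩
  · intro Φ g s y h
    induction g using Polynomial.induction_on' with
    | add p q hp hq =>
      rw [Polynomial.eval₂_add]
      have : evF emb s y (p + q) = evF emb s y p + evF emb s y q := by
        unfold evF
        rw [Polynomial.eval₂_add]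
      rw [this]
      exact Es_add emb _ _ s _ _ hp hq
    | monomial n a =>
      rw [Polynomial.eval₂_monomial]
      have : evF emb s y (monomial n a) = eval₂ emb s a * y ^ n := by
        unfold evF
        rw [Polynomial.eval₂_monomial]
        rfl
      rw [this]
      exact Es_mul emb _ _ s _ _ (Es_poly emb a s) (Es_pow emb Φ s y h n)

end Pool.Agent.Lib.SD
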