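import Pool.Agent.Lib.SD.Spec

namespace Pool.Agent.Lib.SD

open Filter Topology Polynomial

private lemma Ev_div {A L : Type} [CommRing A] [IsDomain A] [Field L] [Algebra A L] [IsFractionRing A L]
    (φ : L) : ∃ a b : A, b ≠ 0 ∧ algebraMap A L a / algebraMap A L b = φ := by
  obtain ⟨a, b, hb, h⟩ := IsFractionRing.div_surjective (A := A) φ
  exact ⟨a, b, nonZeroDivisors.ne_zero hb, h⟩

private lemma Ev_eq {A L : Type} [CommRing A] [IsDomain A] [Field L] [Algebra A L] [IsFractionRing A L]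
    {a b c d : A} (hb : b ≠ 0) (hd : d ≠ 0)
    (h : algebraMap A L a / algebraMap A L b = algebraMap A L c / algebraMap A L d) : a * d = c * b := by
  have inj : Function.Injective (algebraMap A L) := IsFractionRing.injective A L
  have hb' : algebraMap A L b ≠ 0 := (map_ne_zero_iff _ inj).2 hb
  have hd' : algebraMap A L d ≠ 0 := (map_ne_zero_iff _ inj).2 hd
  rw [div_eq_div_iff hb' hd'] at h
  apply inj
  rw [map_mul, map_mul]
  exact h

theorem tEv : EvStmt := by
  intro A L _ _ _ _ _ _ _ _ ev hev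
  choose nu de hde hdiv using fun φ : L => Ev_div (A := A) φ
  have inj : Function.Injective (algebraMap A L) := IsFractionRing.injective A L
  have key : ∀ a b : A, b ≠ 0 → ∀ᶠ i in atTop,
      ev i (nu (algebraMap A L a / algebraMap A L b)) / ev i (de (algebraMap A L a / algebraMap A L b))
        = ev i a / ev i b := by
    intro a b hb
    set φ := algebraMap A L a / algebraMap A L b with hφ
    have h1 : nu φ * b = a * de φ := Ev_eq (L := L) (hde φ) hb (hdiv φ)
    filter_upwards [hev b hb, hev (de φ) (hde φ)] with i h2 h3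
    rw [div_eq_div_iff h3 h2, ← map_mul, ← map_mul, h1]
  refine ⟨fun φ i => ev i (nu φ) / ev i (de φ), key, ?_⟩
  intro U hU
  constructor
  · intro φ ψ
    have hb : algebraMap A L (de φ) ≠ 0 := (map_ne_zero_iff _ inj).2 (hde φ)
    have hd : algebraMap A L (de ψ) ≠ 0 := (map_ne_zero_iff _ inj).2 (hde ψ)
    have h1 : φ + ψ = algebraMap A L (nu φ * de ψ + de φ * nu ψ) / algebraMap A L (de φ * de ψ) := by
      rw [map_add, map_mul, map_mul, map_mul]
      conv_lhs => rw [← hdiv φ, ← hdiv ψ]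
      rw [div_add_div _ _ hb hd]
    have h2 := key (nu φ * de ψ + de φ * nu ψ) (de φ * de ψ) (mul_ne_zero (hde φ) (hde ψ))
    rw [← h1] at h2
    filter_upwards [hU h2, hU (hev _ (hde φ)), hU (hev _ (hde ψ))] with i h3 h4 h5
    show (((ev i (nu (φ + ψ)) / ev i (de (φ + ψ)) : ℚ)) : ℝ) =
      ((ev i (nu φ) / ev i (de φ) : ℚ) : ℝ) + ((ev i (nu ψ) / ev i (de ψ) : ℚ) : ℝ)
    rw [h3, ← Rat.cast_add]
    congr 1
    rw [map_add, map_mul, map_mul, map_mul, div_add_div _ _ h4 h5]
  · intro φ ψ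
    have h1 : φ * ψ = algebraMap A L (nu φ * nu ψ) / algebraMap A L (de φ * de ψ) := by
      rw [map_mul, map_mul]
      conv_lhs => rw [← hdiv φ, ← hdiv ψ]
      rw [div_mul_div_comm]
    have h2 := key (nu φ * nu ψ) (de φ * de ψ) (mul_ne_zero (hde φ) (hde ψ))
    rw [← h1] at h2
    filter_upwards [hU h2] with i h3
    show (((ev i (nu (φ * ψ)) / ev i (de (φ * ψ)) : ℚ)) : ℝ) =
      ((ev i (nu φ) / ev i (de φ) : ℚ) : ℝ) * ((ev i (nu ψ) / ev i (de ψ) : ℚ) : ℝ)
    rw [h3, ← Rat.cast_mul]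
    congr 1
    rw [map_mul, map_mul, div_mul_div_comm]
  · intro q
    have h1 : algebraMap ℚ L q = algebraMap A L (algebraMap ℚ A q) / algebraMap A L 1 := by
      rw [map_one, div_one, ← IsScalarTower.algebraMap_apply ℚ A L]
    have h2 := key (algebraMap ℚ A q) 1 one_ne_zero
    rw [← h1] at h2
    filter_upwards [hU h2] with i h3
    show (((ev i (nu (algebraMap ℚ L q)) / ev i (de (algebraMap ℚ L q)) : ℚ)) : ℝ) = q
    rw [h3, map_one, div_one, AlgHom.commutes]
    simp

end Pool.Agent.Lib.SD
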