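import Pool.Agent.Lib.SD.Spec

/-!
# Lib/SD, module Ex: bounded functions are convergent power series in the uniformizer
-/

namespace Pool.Agent.Lib.SD

open Filter Topology Polynomial

/-- A bounded real sequence converges along an ultrafilter. -/
private lemma Ex_lim (U : Ultrafilter ℕ) (y : ℕ → ℝ) (C : ℝ)
    (h : ∀ᶠ i in (U : Filter ℕ), |y i| ≤ C) : ∃ l : ℝ, Tendsto y (U : Filter ℕ) (𝓝 l) := by
  have h1 : ((U.map y : Ultrafilter ℝ) : Filter ℝ) ≤ 𝓟 (Set.Icc (-C) C) := by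
    rw [Filter.le_principal_iff, Ultrafilter.coe_map, Filter.mem_map]
    filter_upwards [h] with i hi
    exact abs_le.1 hi
  obtain ⟨l, -, hl⟩ := (isCompact_Icc (a := -C) (b := C)).ultrafilter_le_nhds (U.map y) h1
  exact ⟨l, hl⟩

section
variable {L : Type} [Field L] [Algebra ℚ L] {U : Ultrafilter ℕ} {v : L → ℕ → ℝ}

/-- values of polynomials in two elements -/
private lemma Ex_val2 (hVc : VcStmt) (hv : Vals U v) (π φ : L) (p : Polynomial ℚ[X]) :
    ∀ᶠ i in (U : Filter ℕ), v (eval₂ ((aeval π : ℚ[X] →ₐ[ℚ] L) : ℚ[X] →+* L) φ p) i =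
      eval₂ ((aeval (v π i) : ℚ[X] →ₐ[ℚ] ℝ) : ℚ[X] →+* ℝ) (v φ i) p := by
  obtain ⟨-, -, -, -, hpow, -, hsum, hpol, -⟩ := hVc L U v hv
  have h1 : ∀ᶠ i in (U : Filter ℕ), ∀ n ∈ Finset.range (p.natDegree + 1),
      v (aeval π (p.coeff n) * φ ^ n) i = aeval (v π i) (p.coeff n) * (v φ i) ^ n := by
    rw [Filter.eventually_all_finset]
    intro n _
    filter_upwards [hv.mul (aeval π (p.coeff n)) (φ ^ n), hpow φ n, hpol π (p.coeff n)]
      with i h1 h2 h3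
    rw [h1, h2, h3]
  filter_upwards [h1, hsum ℕ (Finset.range (p.natDegree + 1))
    (fun n => aeval π (p.coeff n) * φ ^ n)] with i h1 h2
  rw [Polynomial.eval₂_eq_sum_range, Polynomial.eval₂_eq_sum_range]
  refine Eq.trans h2 (Finset.sum_congr rfl fun n hn => ?_)
  rw [h1 n hn]
  rfl

/-- a uniformizer is transcendental -/
private lemma Ex_tr (hVc : VcStmt) (hv : Vals U v) (π : L) (hπ : π ≠ 0)
    (h0 : Tendsto (v π) (U : Filter ℕ) (𝓝 0)) : Transcendental ℚ π := by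
  intro hal
  have hint : IsIntegral ℚ π := hal.isIntegral
  have hc := minpoly.coeff_zero_ne_zero hint hπ
  obtain ⟨-, -, -, -, -, -, -, hpol, -⟩ := hVc L U v hv
  have h1 := hpol π (minpoly ℚ π)
  have h2 := hv.const 0
  have h3 : ∀ᶠ i in (U : Filter ℕ), aeval (v π i) (minpoly ℚ π) = (0 : ℝ) := by
    filter_upwards [h1, h2] with i h1 h2
    rw [minpoly.aeval] at h1
    rw [map_zero, Rat.cast_zero] at h2
    rw [← h1, h2]
  have h4 : Tendsto (fun i => aeval (v π i) (minpoly ℚ π)) (U : Filter ℕ)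
      (𝓝 (aeval (0 : ℝ) (minpoly ℚ π))) :=
    ((Polynomial.continuous_aeval (minpoly ℚ π)).tendsto (0 : ℝ)).comp h0
  have h5 : Tendsto (fun i => aeval (v π i) (minpoly ℚ π)) (U : Filter ℕ) (𝓝 (0 : ℝ)) :=
    tendsto_const_nhds.congr' (h3.mono fun i hi => hi.symm)
  have h6 := tendsto_nhds_unique h4 h5
  rw [Polynomial.aeval_def, Polynomial.eval₂_at_zero] at h6
  exact hc ((algebraMap ℚ ℝ).injective (h6.trans (map_zero _).symm))

end

/-- comparison of the two evaluations -/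
private lemma Ex_evF {F : Type} [Field F] [Algebra ℚ F] (emb : F →+* ℝ) (s y : ℝ)
    (p : Polynomial ℚ[X]) :
    evF emb s y (p.map (mapRingHom (algebraMap ℚ F))) =
      eval₂ ((aeval s : ℚ[X] →ₐ[ℚ] ℝ) : ℚ[X] →+* ℝ) y p := by
  unfold evF
  rw [Polynomial.eval₂_map]
  congr 1
  refine Polynomial.ringHom_ext' (RingHom.ext_rat _ _) ?_
  rw [RingHom.comp_apply, coe_mapRingHom, Polynomial.map_X, coe_eval₂RingHom, Polynomial.eval₂_X]
  exact (Polynomial.aeval_X s).symm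

/-- two-variable polynomials are continuous along a filter -/
private lemma Ex_cont (p : Polynomial ℚ[X]) {l : Filter ℕ} {s y : ℕ → ℝ} {a b : ℝ}
    (hs : Tendsto s l (𝓝 a)) (hy : Tendsto y l (𝓝 b)) :
    Tendsto (fun i => eval₂ ((aeval (s i) : ℚ[X] →ₐ[ℚ] ℝ) : ℚ[X] →+* ℝ) (y i) p) l
      (𝓝 (eval₂ ((aeval a : ℚ[X] →ₐ[ℚ] ℝ) : ℚ[X] →+* ℝ) b p)) := by
  simp only [Polynomial.eval₂_eq_sum_range]
  refine tendsto_finsetSum _ fun n _ => ?_
  refine Tendsto.mul ?_ (hy.pow n)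
  exact ((Polynomial.continuous_aeval (p.coeff n)).tendsto a).comp hs

/-- a common denominator of the coefficients of a polynomial -/
private lemma Ex_den {F : Type} [Field F] [NumberField F] (p : F[X]) :
    ∃ D : ℕ, 0 < D ∧ ∀ n, IsIntegral ℤ ((D : F) * p.coeff n) := by
  have h1 : ∀ a : F, ∃ D : ℕ, 0 < D ∧ IsIntegral ℤ ((D : F) * a) := by
    intro a
    have ha : IsAlgebraic ℚ a := Algebra.IsAlgebraic.isAlgebraic a
    have ha' : IsAlgebraic ℤ a := (IsFractionRing.isAlgebraic_iff ℤ ℚ F).2 ha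
    obtain ⟨y, hy, hya⟩ := ha'.exists_integral_multiple
    refine ⟨y.natAbs, Int.natAbs_pos.2 hy, ?_⟩
    have h2 : y • a = (y : F) * a := by rw [zsmul_eq_mul]
    rw [h2] at hya
    rcases Int.natAbs_eq y with h | h
    · have h3 : ((y.natAbs : ℕ) : F) = (y : F) := by
        rw [← Int.cast_natCast, ← h]
      rw [h3]
      exact hya
    · have h3 : ((y.natAbs : ℕ) : F) = -(y : F) := by
        have h4 : ((y.natAbs : ℕ) : ℤ) = -y := by omega
        rw [← Int.cast_natCast, h4, Int.cast_neg]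
      rw [h3, neg_mul]
      exact hya.neg
  choose D hD hDa using h1
  refine ⟨∏ n ∈ Finset.range (p.natDegree + 1), D (p.coeff n),
    Finset.prod_pos fun n _ => hD _, ?_⟩
  intro n
  by_cases hn : n ∈ Finset.range (p.natDegree + 1)
  · rw [← Finset.mul_prod_erase _ _ hn, Nat.cast_mul, mul_comm ((D (p.coeff n) : ℕ) : F), mul_assoc]
    refine IsIntegral.mul ?_ (hDa _)
    have : ((∏ x ∈ (Finset.range (p.natDegree + 1)).erase n, D (p.coeff x) : ℕ) : F) =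
        algebraMap ℤ F ((∏ x ∈ (Finset.range (p.natDegree + 1)).erase n, D (p.coeff x) : ℕ) : ℤ) := by
      rw [eq_intCast, Int.cast_natCast]
    rw [this]
    exact isIntegral_algebraMap
  · rw [Finset.mem_range, not_lt] at hn
    rw [Polynomial.coeff_eq_zero_of_natDegree_lt (by omega), mul_zero]
    exact isIntegral_zero

private lemma Ex_natint {F : Type} [Field F] (n : ℕ) : IsIntegral ℤ ((n : ℕ) : F) := by
  have : ((n : ℕ) : F) = algebraMap ℤ F (n : ℤ) := by rw [eq_intCast, Int.cast_natCast]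
  rw [this]
  exact isIntegral_algebraMap

/-- bounds of Eisenstein type for the sum of a polynomial and a shifted series -/
private lemma Ex_eis {F : Type} [Field F] [NumberField F] (p : F[X]) (k : ℕ) (Z : PowerSeries F)
    (hD : ∃ D : ℕ, 0 < D ∧ ∀ n : ℕ, IsIntegral ℤ ((D : F) ^ n * PowerSeries.coeff n Z))
    (hC : ∀ σ : F →+* ℂ, ∃ C : ℕ, 0 < C ∧ ∀ n : ℕ, ‖σ (PowerSeries.coeff n Z)‖ ≤ (C : ℝ) ^ n) :
    EisBd ((p : PowerSeries F) + PowerSeries.X ^ k * Z) := by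
  obtain ⟨D₁, hD₁, hD₁i⟩ := hD
  obtain ⟨D₂, hD₂, hD₂i⟩ := Ex_den p
  choose C hCpos hCb using hC
  obtain ⟨B, hB⟩ : ∃ B : ℝ, B = ∑ σ : F →+* ℂ, ∑ n ∈ Finset.range (p.natDegree + 1),
      ‖σ (p.coeff n)‖ := ⟨_, rfl⟩
  have hBle : ∀ (σ : F →+* ℂ) (n : ℕ), ‖σ (p.coeff n)‖ ≤ B := by
    intro σ n
    by_cases hn : n ∈ Finset.range (p.natDegree + 1)
    · calc ‖σ (p.coeff n)‖ ≤ ∑ n ∈ Finset.range (p.natDegree + 1), ‖σ (p.coeff n)‖ :=
            Finset.single_le_sum (f := fun n => ‖σ (p.coeff n)‖) (fun _ _ => norm_nonneg _) hn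
        _ ≤ B := by
            rw [hB]
            exact Finset.single_le_sum
              (f := fun σ : F →+* ℂ => ∑ n ∈ Finset.range (p.natDegree + 1), ‖σ (p.coeff n)‖)
              (fun _ _ => Finset.sum_nonneg fun _ _ => norm_nonneg _) (Finset.mem_univ σ)
    · rw [Finset.mem_range, not_lt] at hn
      rw [Polynomial.coeff_eq_zero_of_natDegree_lt (by omega), map_zero, norm_zero, hB]
      exact Finset.sum_nonneg fun _ _ => Finset.sum_nonneg fun _ _ => norm_nonneg _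
  obtain ⟨C₁, hC₁⟩ : ∃ C₁ : ℕ, C₁ = ∑ σ : F →+* ℂ, C σ + 1 := ⟨_, rfl⟩
  have hC₁pos : 1 ≤ C₁ := by omega
  have hCle : ∀ σ : F →+* ℂ, C σ ≤ C₁ := by
    intro σ
    have := Finset.single_le_sum (f := fun σ : F →+* ℂ => C σ) (fun _ _ => Nat.zero_le _)
      (Finset.mem_univ σ)
    rw [hC₁]
    exact this.trans (Nat.le_succ _)
  obtain ⟨C₂, hC₂⟩ : ∃ C₂ : ℕ, C₂ = ⌈B⌉₊ + 1 := ⟨_, rfl⟩
  have hBC₂ : B ≤ C₂ := by
    rw [hC₂]
    push_cast
    have := Nat.le_ceil B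
    linarith
  refine ⟨D₁ * D₂, C₁ * (C₂ + 1), Nat.mul_pos hD₁ hD₂, by positivity, ?_⟩
  intro b
  have hcoeff : PowerSeries.coeff b ((p : PowerSeries F) + PowerSeries.X ^ k * Z) =
      p.coeff b + if k ≤ b then PowerSeries.coeff (b - k) Z else 0 := by
    rw [map_add, Polynomial.coeff_coe, PowerSeries.coeff_X_pow_mul']
  rw [hcoeff]
  constructor
  · rw [mul_add]
    refine IsIntegral.add ?_ ?_
    · have e : (((D₁ * D₂ : ℕ) : F)) ^ (b + 1) * p.coeff b =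
          (((D₁ ^ (b + 1) * D₂ ^ b : ℕ) : F)) * ((D₂ : F) * p.coeff b) := by
        push_cast
        ring
      rw [e]
      exact (Ex_natint _).mul (hD₂i b)
    · split_ifs with hkb
      · have e : (((D₁ * D₂ : ℕ) : F)) ^ (b + 1) * PowerSeries.coeff (b - k) Z =
            (((D₁ ^ (k + 1) * D₂ ^ (b + 1) : ℕ) : F)) *
              ((D₁ : F) ^ (b - k) * PowerSeries.coeff (b - k) Z) := by
          have e1 : b + 1 = (b - k) + (k + 1) := by omega
          push_cast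
          rw [mul_pow]
          conv_lhs => rw [e1, pow_add (D₁ : F)]
          rw [← e1]
          ring
        rw [e]
        exact (Ex_natint _).mul (hD₁i _)
      · rw [mul_zero]
        exact isIntegral_zero
  · intro σ
    rw [map_add]
    have hC₁r : (1 : ℝ) ≤ (C₁ : ℝ) := by exact_mod_cast hC₁pos
    have hC₂r : (0 : ℝ) ≤ (C₂ : ℝ) := Nat.cast_nonneg _
    have h1 : ‖σ (if k ≤ b then PowerSeries.coeff (b - k) Z else 0)‖ ≤ (C₁ : ℝ) ^ (b + 1) := by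
      split_ifs with hkb
      · refine (hCb σ (b - k)).trans ?_
        have g1 : ((C σ : ℕ) : ℝ) ≤ (C₁ : ℝ) := by exact_mod_cast hCle σ
        calc ((C σ : ℕ) : ℝ) ^ (b - k) ≤ (C₁ : ℝ) ^ (b - k) :=
              pow_le_pow_left₀ (Nat.cast_nonneg _) g1 _
          _ ≤ (C₁ : ℝ) ^ (b + 1) := pow_le_pow_right₀ hC₁r (by omega)
      · rw [map_zero, norm_zero]
        positivity
    have h2 : ‖σ (p.coeff b)‖ ≤ (C₂ : ℝ) := (hBle σ b).trans hBC₂
    have h3 : (1 : ℝ) ≤ (C₁ : ℝ) ^ (b + 1) := one_le_pow₀ hC₁r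
    have h4 : ((C₂ : ℝ) + 1) ≤ ((C₂ : ℝ) + 1) ^ (b + 1) :=
      le_self_pow₀ (by linarith) (by omega)
    calc ‖σ (p.coeff b) + σ (if k ≤ b then PowerSeries.coeff (b - k) Z else 0)‖ ≤
        (C₂ : ℝ) + (C₁ : ℝ) ^ (b + 1) := (norm_add_le _ _).trans (add_le_add h2 h1)
      _ ≤ (C₁ : ℝ) ^ (b + 1) * ((C₂ : ℝ) + 1) := by nlinarith
      _ ≤ (C₁ : ℝ) ^ (b + 1) * ((C₂ : ℝ) + 1) ^ (b + 1) :=
          mul_le_mul_of_nonneg_left h4 (by positivity)
      _ = (((C₁ * (C₂ + 1) : ℕ) : ℝ)) ^ (b + 1) := by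
          push_cast
          rw [mul_pow]

theorem tEx : VcStmt → DgStmt → SeStmt → NfStmt → FxStmt → FiStmt → FbStmt → EsStmt → CvStmt →
    ExStmt := by
  intro hVc hDg hSe hNf hFx hFi hFb hEs hCv L _ _ U v T π m F _ hdep hplc hres φ hφ
  have hv := hplc.vals
  obtain ⟨hne, -, -, -, -, -, -, -, -⟩ := hVc L U v hv
  have hs0 := hplc.pi0
  have hsne := hne π hplc.pine
  have htr := Ex_tr hVc hv π hplc.pine hs0
  obtain ⟨p, hp1, hp2⟩ := hSe L hdep π φ htr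
  obtain ⟨C, hC⟩ := hφ
  obtain ⟨l, hl⟩ := Ex_lim U (v φ) C hC
  -- the order of the derivative
  obtain ⟨k, c, hc, hk⟩ := hplc.ord _ hp2
  have hval := Ex_val2 hVc hv π φ (derivative p)
  have hlim := Ex_cont (derivative p) hs0 hl
  have hk0 : 0 ≤ k := by
    by_contra hneg
    push Not at hneg
    obtain ⟨n, hn⟩ : ∃ n : ℕ, -k = (n : ℤ) + 1 := ⟨(-k - 1).toNat, by omega⟩
    have h1 : Tendsto (fun i => eval₂ ((aeval (v π i) : ℚ[X] →ₐ[ℚ] ℝ) : ℚ[X] →+* ℝ) (v φ i)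
        (derivative p) * v π i ^ (n + 1)) (U : Filter ℕ)
        (𝓝 (eval₂ ((aeval (0 : ℝ) : ℚ[X] →ₐ[ℚ] ℝ) : ℚ[X] →+* ℝ) l (derivative p) *
          0 ^ (n + 1))) := hlim.mul (hs0.pow (n + 1))
    rw [zero_pow (by omega), mul_zero] at h1
    have h2 : Tendsto (fun i => v (eval₂ ((aeval π : ℚ[X] →ₐ[ℚ] L) : ℚ[X] →+* L) φ
        (derivative p)) i / v π i ^ k) (U : Filter ℕ) (𝓝 0) := by
      refine h1.congr' ?_
      filter_upwards [hval, hsne] with i h3 h4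
      rw [h3, div_eq_mul_inv, ← zpow_neg, hn]
      congr 1
    exact hc (tendsto_nhds_unique hk h2)
  obtain ⟨κ, rfl⟩ := Int.eq_ofNat_of_zero_le hk0
  -- the polynomial over the residue field
  obtain ⟨H, hH⟩ : ∃ H : Polynomial (Polynomial F), H = p.map (mapRingHom (algebraMap ℚ F)) :=
    ⟨_, rfl⟩
  have hH0 : ∀ᶠ i in (U : Filter ℕ), evF (algebraMap F ℝ) (v π i) (v φ i) H = 0 := by
    filter_upwards [Ex_val2 hVc hv π φ p, hv.const 0] with i h1 h2
    rw [hH, Ex_evF, ← h1, hp1]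
    rw [map_zero, Rat.cast_zero] at h2
    exact h2
  have hH1 : Tendsto (fun i => evF (algebraMap F ℝ) (v π i) (v φ i) (derivative H) / v π i ^ κ)
      (U : Filter ℕ) (𝓝 c) := by
    refine hk.congr' ?_
    filter_upwards [hval] with i h1
    rw [hH, Polynomial.derivative_map, Ex_evF, ← h1, zpow_natCast]
  have hfd : FiniteDimensional ℚ F := inferInstance
  obtain ⟨p₁, g, k₁, hz0, hz⟩ := hNf F (algebraMap F ℝ) U (v π) (v φ) H κ c hs0 hsne hH0 hc hH1
    (hDg L U v T π m F hplc hres hfd φ ⟨C, hC⟩)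
  obtain ⟨Z, hZ⟩ := hFx F g
  obtain ⟨s₀, hs₀, hcv⟩ := hCv F (algebraMap F ℝ) g Z hZ
  refine ⟨(p₁ : PowerSeries F) + PowerSeries.X ^ k₁ * Z,
    Ex_eis p₁ k₁ Z (hFi F g Z hZ) (fun σ => hFb F g Z σ hZ), ?_⟩
  obtain ⟨es1, es2, es3, -, -⟩ := hEs F (algebraMap F ℝ)
  have hsmall : ∀ᶠ i in (U : Filter ℕ), |v π i| < s₀ := by
    have := hs0.abs
    rw [abs_zero] at this
    exact this.eventually (gt_mem_nhds hs₀)
  have hzsmall : ∀ᶠ i in (U : Filter ℕ),
      |(v φ i - eval₂ (algebraMap F ℝ) (v π i) p₁) / v π i ^ k₁| ≤ 1 := by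
    have := hz0.abs
    rw [abs_zero] at this
    exact (this.eventually (gt_mem_nhds one_pos)).mono fun i hi => hi.le
  filter_upwards [hsmall, hzsmall, hz, hsne] with i h1 h2 h3 h4
  have h5 := hcv (v π i) _ h1 h2 h3
  have h6 := es2 _ _ (v π i) _ _ (es3 (X ^ k₁) (v π i)) h5
  have h7 := es1 _ _ (v π i) _ _ (es3 p₁ (v π i)) h6
  rw [Polynomial.coe_pow, Polynomial.coe_X, Polynomial.eval₂_pow, Polynomial.eval₂_X,
    mul_div_cancel₀ _ (pow_ne_zero k₁ h4), add_sub_cancel] at h7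
  exact h7

end Pool.Agent.Lib.SD
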