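import Pool.Agent.Lib.SD.Spec

/-!
# Lib/SD, module Fb: size of the coefficients of the formal solution
-/

namespace Pool.Agent.Lib.SD

open Filter Topology Polynomial

/-- `|W|_n = ∑_{k ≤ n} ‖σ (coeff k W)‖ ρ^k`. -/
private noncomputable def Fb_N {F : Type} [Field F] (σ : F →+* ℂ) (ρ : ℝ) (n : ℕ)
    (W : PowerSeries F) : ℝ :=
  ∑ k ∈ Finset.range (n + 1), ‖σ (PowerSeries.coeff k W)‖ * ρ ^ k

private theorem Fb_nonneg {F : Type} [Field F] (σ : F →+* ℂ) {ρ : ℝ} (hρ : 0 ≤ ρ) (n : ℕ)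
    (W : PowerSeries F) : 0 ≤ Fb_N σ ρ n W :=
  Finset.sum_nonneg fun k _ => mul_nonneg (norm_nonneg _) (pow_nonneg hρ k)

private theorem Fb_mul {F : Type} [Field F] (σ : F →+* ℂ) {ρ : ℝ} (hρ : 0 ≤ ρ) (n : ℕ)
    (W V : PowerSeries F) : Fb_N σ ρ n (W * V) ≤ Fb_N σ ρ n W * Fb_N σ ρ n V := by
  unfold Fb_N
  rw [Finset.sum_mul_sum, ← Finset.sum_product']
  have h1 : ∀ k ∈ Finset.range (n + 1), ‖σ (PowerSeries.coeff k (W * V))‖ * ρ ^ k
      ≤ ∑ p ∈ Finset.HasAntidiagonal.antidiagonal k, (‖σ (PowerSeries.coeff p.1 W)‖ * ρ ^ p.1) *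
        (‖σ (PowerSeries.coeff p.2 V)‖ * ρ ^ p.2) := by
    intro k _
    rw [PowerSeries.coeff_mul, map_sum]
    refine (mul_le_mul_of_nonneg_right (norm_sum_le _ _) (pow_nonneg hρ k)).trans ?_
    rw [Finset.sum_mul]
    refine Finset.sum_le_sum ?_
    intro p hp
    rw [Finset.HasAntidiagonal.mem_antidiagonal] at hp
    rw [map_mul, norm_mul, ← hp, pow_add]
    apply le_of_eq
    ring
  refine (Finset.sum_le_sum h1).trans ?_
  rw [← Finset.sum_biUnion]
  · refine Finset.sum_le_sum_of_subset_of_nonneg ?_ ?_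
    · intro p hp
      rw [Finset.mem_biUnion] at hp
      obtain ⟨k, hk, hp⟩ := hp
      rw [Finset.HasAntidiagonal.mem_antidiagonal] at hp
      rw [Finset.mem_range] at hk
      rw [Finset.mem_product, Finset.mem_range, Finset.mem_range]
      omega
    · intro p _ _
      exact mul_nonneg (mul_nonneg (norm_nonneg _) (pow_nonneg hρ _))
        (mul_nonneg (norm_nonneg _) (pow_nonneg hρ _))
  · intro k _ l _ hkl
    rw [Function.onFun, Finset.disjoint_left]
    intro p hp hp'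
    rw [Finset.HasAntidiagonal.mem_antidiagonal] at hp hp'
    exact hkl (hp.symm.trans hp')

private theorem Fb_one {F : Type} [Field F] (σ : F →+* ℂ) {ρ : ℝ} (n : ℕ) :
    Fb_N σ ρ n (1 : PowerSeries F) = 1 := by
  unfold Fb_N
  rw [Finset.sum_eq_single 0]
  · simp
  · intro k _ hk
    rw [PowerSeries.coeff_one, if_neg hk]; simp
  · intro h
    exact absurd (Finset.mem_range.mpr (by omega)) h

private theorem Fb_pow {F : Type} [Field F] (σ : F →+* ℂ) {ρ : ℝ} (hρ : 0 ≤ ρ) (n : ℕ)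
    (W : PowerSeries F) (hW : Fb_N σ ρ n W ≤ 1) (b : ℕ) : Fb_N σ ρ n (W ^ b) ≤ 1 := by
  induction b with
  | zero => rw [pow_zero, Fb_one]
  | succ b ih =>
      rw [pow_succ]
      refine (Fb_mul σ hρ n _ _).trans ?_
      exact mul_le_one₀ ih (Fb_nonneg σ hρ n _) hW

private theorem Fb_poly {F : Type} [Field F] (σ : F →+* ℂ) {ρ : ℝ} (hρ : 0 ≤ ρ) (hρ1 : ρ ≤ 1)
    (n : ℕ) (p : F[X]) : Fb_N σ ρ n (p : PowerSeries F)
      ≤ ∑ a ∈ Finset.range (p.natDegree + 1), ‖σ (p.coeff a)‖ := by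
  unfold Fb_N
  have h1 : ∀ k, ‖σ (PowerSeries.coeff k (p : PowerSeries F))‖ * ρ ^ k ≤ ‖σ (p.coeff k)‖ := by
    intro k
    rw [Polynomial.coeff_coe]
    exact mul_le_of_le_one_right (norm_nonneg _) (pow_le_one₀ hρ hρ1)
  refine (Finset.sum_le_sum fun k _ => h1 k).trans ?_
  have h2 : ∑ k ∈ Finset.range (n + 1), ‖σ (p.coeff k)‖
      ≤ ∑ k ∈ Finset.range (max (n + 1) (p.natDegree + 1)), ‖σ (p.coeff k)‖ :=
    Finset.sum_le_sum_of_subset_of_nonneg
      (Finset.range_mono (le_max_left _ _)) (fun _ _ _ => norm_nonneg _)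
  refine h2.trans (le_of_eq ?_)
  symm
  refine Finset.sum_subset (Finset.range_mono (le_max_right _ _)) ?_
  intro k _ hk
  rw [Finset.mem_range] at hk
  rw [coeff_eq_zero_of_natDegree_lt (by omega), map_zero, norm_zero]

/-- **Fb.** -/
theorem tFb : FbStmt := by
  intro F _ g Z σ hZ
  set M : ℝ := ∑ b ∈ Finset.range (g.natDegree + 1),
    ∑ a ∈ Finset.range ((g.coeff b).natDegree + 1), ‖σ ((g.coeff b).coeff a)‖ with hM
  have hM0 : 0 ≤ M := Finset.sum_nonneg fun _ _ => Finset.sum_nonneg fun _ _ => norm_nonneg _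
  set ρ : ℝ := 1 / (1 + M) with hρdef
  have h1M : 0 < 1 + M := by linarith
  have hρ : 0 < ρ := by positivity
  have hρ1 : ρ ≤ 1 := by
    rw [hρdef, div_le_one h1M]; linarith
  have hρM : ρ * M ≤ 1 := by
    rw [hρdef, div_mul_eq_mul_div, one_mul, div_le_one h1M]; linarith
  have key : ∀ n, Fb_N σ ρ n Z ≤ 1 := by
    intro n
    induction n with
    | zero =>
        unfold Fb_N
        rw [Finset.sum_range_one, hZ, PowerSeries.coeff_zero_X_mul]
        simp
    | succ n ih =>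
        have e1 : Fb_N σ ρ (n + 1) Z
            = ρ * Fb_N σ ρ n (eval₂ (Polynomial.coeToPowerSeries.ringHom) Z g) := by
          conv_lhs => rw [hZ]
          unfold Fb_N
          rw [Finset.sum_range_succ', PowerSeries.coeff_zero_X_mul, map_zero, norm_zero, zero_mul,
            add_zero, Finset.mul_sum]
          refine Finset.sum_congr rfl ?_
          intro k _
          rw [PowerSeries.coeff_succ_X_mul, pow_succ]; ring
        have e2 : Fb_N σ ρ n (eval₂ (Polynomial.coeToPowerSeries.ringHom) Z g) ≤ M := by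
          have e3 : Fb_N σ ρ n (eval₂ (Polynomial.coeToPowerSeries.ringHom) Z g)
              ≤ ∑ b ∈ Finset.range (g.natDegree + 1),
                Fb_N σ ρ n (((g.coeff b : F[X]) : PowerSeries F) * Z ^ b) := by
            rw [eval₂_eq_sum_range]
            unfold Fb_N
            rw [Finset.sum_comm]
            refine Finset.sum_le_sum ?_
            intro k _
            rw [← Finset.sum_mul, map_sum, map_sum]
            exact mul_le_mul_of_nonneg_right (norm_sum_le _ _) (pow_nonneg hρ.le k)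
          refine e3.trans (Finset.sum_le_sum ?_)
          intro b _
          refine (Fb_mul σ hρ.le n _ _).trans ?_
          have h4 := Fb_poly σ hρ.le hρ1 n (g.coeff b)
          have h5 := Fb_pow σ hρ.le n Z ih b
          have h6 := Fb_nonneg σ hρ.le n (((g.coeff b : F[X]) : PowerSeries F))
          calc Fb_N σ ρ n (((g.coeff b : F[X]) : PowerSeries F)) * Fb_N σ ρ n (Z ^ b)
              ≤ Fb_N σ ρ n (((g.coeff b : F[X]) : PowerSeries F)) * 1 :=
                mul_le_mul_of_nonneg_left h5 h6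
            _ ≤ _ := by rw [mul_one]; exact h4
        rw [e1]
        exact (mul_le_mul_of_nonneg_left e2 hρ.le).trans hρM
  obtain ⟨C, hC⟩ := exists_nat_gt (1 + M)
  have hC0 : (0 : ℝ) < C := lt_trans h1M hC
  refine ⟨C, by exact_mod_cast hC0, ?_⟩
  intro n
  have h7 : ‖σ (PowerSeries.coeff n Z)‖ * ρ ^ n ≤ 1 := by
    refine le_trans ?_ (key n)
    unfold Fb_N
    exact Finset.single_le_sum (f := fun k => ‖σ (PowerSeries.coeff k Z)‖ * ρ ^ k)
      (fun k _ => mul_nonneg (norm_nonneg _) (pow_nonneg hρ.le k))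
      (Finset.mem_range.mpr (Nat.lt_succ_self n))
  have h8 : ρ ^ n * (1 + M) ^ n = 1 := by
    rw [← mul_pow, hρdef, one_div, inv_mul_cancel₀ h1M.ne', one_pow]
  have h9 : ‖σ (PowerSeries.coeff n Z)‖ ≤ (1 + M) ^ n := by
    calc ‖σ (PowerSeries.coeff n Z)‖ = (‖σ (PowerSeries.coeff n Z)‖ * ρ ^ n) * (1 + M) ^ n := by
          rw [mul_assoc, h8, mul_one]
      _ ≤ 1 * (1 + M) ^ n := mul_le_mul_of_nonneg_right h7 (pow_nonneg h1M.le n)
      _ = _ := one_mul _
  exact h9.trans (pow_le_pow_left₀ h1M.le hC.le n)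

end Pool.Agent.Lib.SD
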