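import Pool.Agent.Lib.SD.Spec

/-! # Lib/SD: `L` is finite over `ℚ(T)` -/

set_option autoImplicit false

namespace Pool.Agent.Lib.SD

open Filter Topology Polynomial

theorem tFd : FdStmt := by
  intro A L κ _ _ _ _ _ _ _ _ _ x hD hgen T hT
  have hinj : Function.Injective ((aeval T : ℚ[X] →ₐ[ℚ] L) : ℚ[X] →+* L) :=
    transcendental_iff_injective.1 hT
  let f : RatFunc ℚ →+* L := IsFractionRing.lift hinj
  have hf : ∀ p : ℚ[X], f (algebraMap ℚ[X] (RatFunc ℚ) p) = aeval T p :=
    fun p => IsFractionRing.lift_algebraMap hinj p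
  refine ⟨f, hf, ?_⟩
  let : Algebra (RatFunc ℚ) L := f.toAlgebra
  have hcomp : (algebraMap (RatFunc ℚ) L).comp (algebraMap ℚ[X] (RatFunc ℚ)) =
      ((aeval T : ℚ[X] →ₐ[ℚ] L) : ℚ[X] →+* L) := RingHom.ext hf
  have hint : ∀ φ : L, IsIntegral (RatFunc ℚ) φ := by
    intro φ
    obtain ⟨p, hp, hp0⟩ := hD T φ
    have hP : p.map (algebraMap ℚ[X] (RatFunc ℚ)) ≠ 0 :=
      (Polynomial.map_ne_zero_iff (IsFractionRing.injective ℚ[X] (RatFunc ℚ))).2 hp
    have halg : IsAlgebraic (RatFunc ℚ) φ := by
      refine ⟨_, hP, ?_⟩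
      rw [aeval_def, eval₂_map, hcomp]
      exact hp0
    exact halg.isIntegral
  have hfin : FiniteDimensional (RatFunc ℚ)
      (IntermediateField.adjoin (RatFunc ℚ) (Set.range fun j => algebraMap A L (x j))) :=
    IntermediateField.finiteDimensional_adjoin fun y _ => hint y
  have htop : IntermediateField.adjoin (RatFunc ℚ) (Set.range fun j => algebraMap A L (x j)) = ⊤ := by
    rw [eq_top_iff]
    intro φ _
    have hA : ∀ a : A, algebraMap A L a ∈
        IntermediateField.adjoin (RatFunc ℚ) (Set.range fun j => algebraMap A L (x j)) := by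
      intro a
      have ha : a ∈ Algebra.adjoin ℚ (Set.range x) := by
        rw [hgen]
        exact Algebra.mem_top
      induction ha using Algebra.adjoin_induction with
      | mem y hy =>
        obtain ⟨j, rfl⟩ := hy
        exact IntermediateField.subset_adjoin _ _ ⟨j, rfl⟩
      | algebraMap r =>
        have h1 : algebraMap A L (algebraMap ℚ A r) =
            algebraMap (RatFunc ℚ) L (algebraMap ℚ[X] (RatFunc ℚ) (C r)) := by
          have h2 : algebraMap (RatFunc ℚ) L (algebraMap ℚ[X] (RatFunc ℚ) (C r)) = aeval T (C r) :=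
            hf (C r)
          rw [h2, aeval_C, ← IsScalarTower.algebraMap_apply ℚ A L]
        rw [h1]
        exact IntermediateField.algebraMap_mem _ _
      | add y z _ _ h1 h2 =>
        rw [map_add]
        exact add_mem h1 h2
      | mul y z _ _ h1 h2 =>
        rw [map_mul]
        exact mul_mem h1 h2
    obtain ⟨a, b, _, rfl⟩ := IsFractionRing.div_surjective (A := A) φ
    exact div_mem (hA a) (hA b)
  rw [htop] at hfin
  exact Module.Finite.equiv (IntermediateField.topEquiv (F := RatFunc ℚ) (E := L)).toLinearEquiv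

end Pool.Agent.Lib.SD
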