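import Pool.Agent.Lib.SD.Spec

/-!
# Lib/SD, module Fi: denominators of the coefficients of the formal solution
-/

namespace Pool.Agent.Lib.SD

open Filter Topology Polynomial

/-- `D^k * coeff k W` is integral for `k ≤ n`. -/
private def Fi_good {F : Type} [Field F] (D : ℕ) (n : ℕ) (W : PowerSeries F) : Prop :=
  ∀ k ≤ n, IsIntegral ℤ ((D : F) ^ k * PowerSeries.coeff k W)

private theorem Fi_mul {F : Type} [Field F] {D n : ℕ} {W V : PowerSeries F}
    (hW : Fi_good D n W) (hV : Fi_good D n V) : Fi_good D n (W * V) := by
  intro k hk
  rw [PowerSeries.coeff_mul, Finset.mul_sum]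
  refine IsIntegral.sum _ ?_
  intro p hp
  rw [Finset.HasAntidiagonal.mem_antidiagonal] at hp
  have e : (D : F) ^ k * (PowerSeries.coeff p.1 W * PowerSeries.coeff p.2 V)
      = ((D : F) ^ p.1 * PowerSeries.coeff p.1 W) * ((D : F) ^ p.2 * PowerSeries.coeff p.2 V) := by
    rw [← hp, pow_add]; ring
  rw [e]
  exact (hW _ (by omega)).mul (hV _ (by omega))

private theorem Fi_one {F : Type} [Field F] {D n : ℕ} : Fi_good D n (1 : PowerSeries F) := by
  intro k _
  rw [PowerSeries.coeff_one]
  split_ifs with h
  · subst h; simpa using isIntegral_one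
  · simpa using isIntegral_zero

private theorem Fi_pow {F : Type} [Field F] {D n : ℕ} {W : PowerSeries F}
    (hW : Fi_good D n W) (b : ℕ) : Fi_good D n (W ^ b) := by
  induction b with
  | zero => rw [pow_zero]; exact Fi_one
  | succ b ih => rw [pow_succ]; exact Fi_mul ih hW

private theorem Fi_natpow {F : Type} [Field F] (D k : ℕ) : IsIntegral ℤ ((D : F) ^ k) := by
  have h : IsIntegral ℤ ((D : ℕ) : F) := by
    have := (isIntegral_algebraMap : IsIntegral ℤ (algebraMap ℤ F (D : ℤ)))
    simpa using this
  exact h.pow k

/-- **Fi.** -/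
theorem tFi : FiStmt := by
  intro F _ _ g Z hZ
  classical
  obtain ⟨y, hy0, hy⟩ := exists_integral_multiples ℤ ℚ
    ((Finset.range (g.natDegree + 1)).biUnion (fun b =>
      (Finset.range ((g.coeff b).natDegree + 1)).image (fun a => (g.coeff b).coeff a)))
  set D : ℕ := y.natAbs with hD
  have hDpos : 0 < D := Int.natAbs_pos.mpr hy0
  have hDint : ∀ a b : ℕ, IsIntegral ℤ ((D : F) * (g.coeff b).coeff a) := by
    intro a b
    by_cases hb : b ≤ g.natDegree
    · by_cases ha : a ≤ (g.coeff b).natDegree
      · have h1 := hy ((g.coeff b).coeff a) (by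
          rw [Finset.mem_biUnion]
          exact ⟨b, Finset.mem_range.mpr (by omega),
            Finset.mem_image.mpr ⟨a, Finset.mem_range.mpr (by omega), rfl⟩⟩)
        rcases Int.natAbs_eq y with h | h
        · rw [h] at h1
          simpa [zsmul_eq_mul, hD] using h1
        · rw [h] at h1
          have h2 := h1.neg
          simpa [zsmul_eq_mul, hD] using h2
      · rw [coeff_eq_zero_of_natDegree_lt (by omega), mul_zero]
        exact isIntegral_zero
    · rw [coeff_eq_zero_of_natDegree_lt (by omega : g.natDegree < b), coeff_zero, mul_zero]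
      exact isIntegral_zero
  refine ⟨D, hDpos, ?_⟩
  have key : ∀ n, Fi_good D n Z := by
    intro n
    induction n with
    | zero =>
        intro k hk
        obtain rfl : k = 0 := by omega
        rw [hZ, pow_zero, one_mul, PowerSeries.coeff_zero_X_mul]
        exact isIntegral_zero
    | succ n ih =>
        intro k hk
        rcases Nat.lt_or_ge k (n + 1) with h | h
        · exact ih k (by omega)
        · obtain rfl : k = n + 1 := by omega
          rw [hZ, PowerSeries.coeff_succ_X_mul, eval₂_eq_sum_range, map_sum, Finset.mul_sum]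
          refine IsIntegral.sum _ ?_
          intro b _
          have hgood : Fi_good D n
              ((PowerSeries.C (D : F) * ((g.coeff b : F[X]) : PowerSeries F)) * Z ^ b) := by
            refine Fi_mul ?_ (Fi_pow ih b)
            intro k _
            rw [PowerSeries.coeff_C_mul, Polynomial.coeff_coe]
            exact (Fi_natpow D k).mul (hDint k b)
          have h3 := hgood n le_rfl
          rw [mul_assoc, PowerSeries.coeff_C_mul] at h3
          have e : (D : F) ^ (n + 1) * PowerSeries.coeff n
              ((Polynomial.coeToPowerSeries.ringHom (g.coeff b)) * Z ^ b)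
              = (D : F) ^ n * ((D : F) * PowerSeries.coeff n
                (((g.coeff b : F[X]) : PowerSeries F) * Z ^ b)) := by
            rw [Polynomial.coeToPowerSeries.ringHom_apply, pow_succ]; ring
          rw [e]
          exact h3
  intro n
  exact key n n le_rfl

end Pool.Agent.Lib.SD
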