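import Pool.Agent.Lib.SD.Spec

/-!
# Lib/SD/Fo: the formal equation of the curve
-/

namespace Pool.Agent.Lib.SD

open Filter Topology Polynomial

private def Fo_Rep {F : Type} [Field F] (emb : F →+* ℝ) (Xs Ys : PowerSeries F) (m μ : ℕ)
    (w : LaurentSeries F) (f : ℝ → ℝ → ℝ) : Prop :=
  ∃ (K : ℕ) (Q : PowerSeries F), (Q : LaurentSeries F) = HahnSeries.single (K : ℤ) 1 * w ∧
    ∀ s T S : ℝ, s ≠ 0 → EvS emb Xs s (T * s ^ m) → EvS emb Ys s (S * s ^ μ) →
      EvS emb Q s (s ^ K * f T S)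

private theorem Fo_X {F : Type} [Field F] (K : ℕ) :
    (((PowerSeries.X : PowerSeries F) ^ K : PowerSeries F) : LaurentSeries F)
      = HahnSeries.single (K : ℤ) 1 := by
  rw [PowerSeries.coe_pow, PowerSeries.coe_X, HahnSeries.single_pow, one_pow, nsmul_one]

private theorem Fo_single {F : Type} [Field F] (a b : ℤ) :
    (HahnSeries.single (a + b) (1 : F) : LaurentSeries F)
      = HahnSeries.single a 1 * HahnSeries.single b 1 := by
  rw [HahnSeries.single_mul_single, one_mul]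

private theorem Fo_evX (hEs : EsStmt) {F : Type} [Field F] (emb : F →+* ℝ) (K : ℕ) (s : ℝ) :
    EvS emb ((PowerSeries.X : PowerSeries F) ^ K) s (s ^ K) := by
  have h := (hEs F emb).2.2.1 (X ^ K) s
  rwa [Polynomial.coe_pow, Polynomial.coe_X, eval₂_pow, eval₂_X] at h

private theorem Fo_add (hEs : EsStmt) {F : Type} [Field F] {emb : F →+* ℝ} {Xs Ys : PowerSeries F}
    {m μ : ℕ} {w₁ w₂ : LaurentSeries F} {f₁ f₂ : ℝ → ℝ → ℝ} (h₁ : Fo_Rep emb Xs Ys m μ w₁ f₁)
    (h₂ : Fo_Rep emb Xs Ys m μ w₂ f₂) :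
    Fo_Rep emb Xs Ys m μ (w₁ + w₂) (fun T S => f₁ T S + f₂ T S) := by
  obtain ⟨K₁, Q₁, hQ₁, hE₁⟩ := h₁
  obtain ⟨K₂, Q₂, hQ₂, hE₂⟩ := h₂
  refine ⟨K₁ + K₂, PowerSeries.X ^ K₂ * Q₁ + PowerSeries.X ^ K₁ * Q₂, ?_, ?_⟩
  · rw [PowerSeries.coe_add, PowerSeries.coe_mul, PowerSeries.coe_mul, Fo_X, Fo_X, hQ₁, hQ₂,
      Nat.cast_add, Fo_single]
    ring
  · intro s T S hs hX hY
    have h1 := (hEs F emb).2.1 _ _ _ _ _ (Fo_evX hEs emb K₂ s) (hE₁ s T S hs hX hY)
    have h2 := (hEs F emb).2.1 _ _ _ _ _ (Fo_evX hEs emb K₁ s) (hE₂ s T S hs hX hY)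
    have h3 := (hEs F emb).1 _ _ _ _ _ h1 h2
    have h4 : s ^ K₂ * (s ^ K₁ * f₁ T S) + s ^ K₁ * (s ^ K₂ * f₂ T S)
        = s ^ (K₁ + K₂) * (f₁ T S + f₂ T S) := by
      rw [pow_add]
      ring
    rwa [h4] at h3

private theorem Fo_mul (hEs : EsStmt) {F : Type} [Field F] {emb : F →+* ℝ} {Xs Ys : PowerSeries F}
    {m μ : ℕ} {w₁ w₂ : LaurentSeries F} {f₁ f₂ : ℝ → ℝ → ℝ} (h₁ : Fo_Rep emb Xs Ys m μ w₁ f₁)
    (h₂ : Fo_Rep emb Xs Ys m μ w₂ f₂) :
    Fo_Rep emb Xs Ys m μ (w₁ * w₂) (fun T S => f₁ T S * f₂ T S) := by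
  obtain ⟨K₁, Q₁, hQ₁, hE₁⟩ := h₁
  obtain ⟨K₂, Q₂, hQ₂, hE₂⟩ := h₂
  refine ⟨K₁ + K₂, Q₁ * Q₂, ?_, ?_⟩
  · rw [PowerSeries.coe_mul, hQ₁, hQ₂, Nat.cast_add, Fo_single]
    ring
  · intro s T S hs hX hY
    have h3 := (hEs F emb).2.1 _ _ _ _ _ (hE₁ s T S hs hX hY) (hE₂ s T S hs hX hY)
    have h4 : s ^ K₁ * f₁ T S * (s ^ K₂ * f₂ T S) = s ^ (K₁ + K₂) * (f₁ T S * f₂ T S) := by
      rw [pow_add]
      ring
    rwa [h4] at h3

private theorem Fo_int (hEs : EsStmt) {F : Type} [Field F] (emb : F →+* ℝ) (Xs Ys : PowerSeries F)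
    (m μ : ℕ) (z : ℤ) : Fo_Rep emb Xs Ys m μ (z : LaurentSeries F) (fun _ _ => (z : ℝ)) := by
  refine ⟨0, ((C (z : F) : F[X]) : PowerSeries F), ?_, ?_⟩
  · rw [Nat.cast_zero, Polynomial.coe_C, PowerSeries.coe_C]
    have h1 : (HahnSeries.single (0 : ℤ) (1 : F) : LaurentSeries F) = 1 := rfl
    rw [h1, one_mul, map_intCast]
  · intro s T S _ _ _
    have h := (hEs F emb).2.2.1 (C (z : F)) s
    have h1 : eval₂ emb s (C (z : F)) = s ^ 0 * (z : ℝ) := by
      rw [eval₂_C, map_intCast, pow_zero, one_mul]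
    rw [h1] at h
    exact h

private theorem Fo_pow (hEs : EsStmt) {F : Type} [Field F] {emb : F →+* ℝ} {Xs Ys : PowerSeries F}
    {m μ : ℕ} {w : LaurentSeries F} {f : ℝ → ℝ → ℝ} (h : Fo_Rep emb Xs Ys m μ w f) (n : ℕ) :
    Fo_Rep emb Xs Ys m μ (w ^ n) (fun T S => f T S ^ n) := by
  induction n with
  | zero =>
    have h1 := Fo_int hEs emb Xs Ys m μ 1
    simp only [Int.cast_one] at h1
    simpa only [pow_zero] using h1
  | succ n ih =>
    have h1 := Fo_mul hEs ih h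
    simpa only [pow_succ] using h1

private theorem Fo_inner (hEs : EsStmt) {F : Type} [Field F] {emb : F →+* ℝ} {Xs Ys : PowerSeries F}
    {m μ : ℕ} {w : LaurentSeries F} {f : ℝ → ℝ → ℝ} (h : Fo_Rep emb Xs Ys m μ w f) (p : ℤ[X]) :
    Fo_Rep emb Xs Ys m μ (eval₂RingHom (Int.castRingHom (LaurentSeries F)) w p)
      (fun T S => eval₂RingHom (Int.castRingHom ℝ) (f T S) p) := by
  induction p using Polynomial.induction_on' with
  | add p q hp hq =>
    have h1 := Fo_add hEs hp hq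
    simpa only [map_add] using h1
  | monomial n z =>
    have h1 := Fo_mul hEs (Fo_int hEs emb Xs Ys m μ z) (Fo_pow hEs h n)
    simpa only [coe_eval₂RingHom, eval₂_monomial, eq_intCast] using h1

private theorem Fo_outer (hEs : EsStmt) {F : Type} [Field F] {emb : F →+* ℝ} {Xs Ys : PowerSeries F}
    {m μ : ℕ} {w₁ w₂ : LaurentSeries F} {f₁ f₂ : ℝ → ℝ → ℝ} (h₁ : Fo_Rep emb Xs Ys m μ w₁ f₁)
    (h₂ : Fo_Rep emb Xs Ys m μ w₂ f₂) (G : Polynomial (Polynomial ℤ)) :
    Fo_Rep emb Xs Ys m μ (ev2 w₁ w₂ G) (fun T S => ev2 (f₁ T S) (f₂ T S) G) := by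
  unfold ev2
  induction G using Polynomial.induction_on' with
  | add p q hp hq =>
    have h1 := Fo_add hEs hp hq
    simpa only [eval₂_add] using h1
  | monomial n z =>
    have h1 := Fo_mul hEs (Fo_inner hEs h₁ z) (Fo_pow hEs h₂ n)
    simpa only [eval₂_monomial] using h1

private theorem Fo_lau {F : Type} [Field F] (n : ℕ) (X : PowerSeries F) :
    (X : LaurentSeries F) = HahnSeries.single (n : ℤ) 1 * lau n X := by
  unfold lau
  rw [← mul_assoc, ← Fo_single, add_neg_cancel]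
  have h1 : (HahnSeries.single (0 : ℤ) (1 : F) : LaurentSeries F) = 1 := rfl
  rw [h1, one_mul]

/-- the constant term of an absolutely convergent power series with zeros tending to `0` -/
private theorem Fo_zero {U : Ultrafilter ℕ} {s : ℕ → ℝ} (q : ℕ → ℝ)
    (hs : Tendsto s (U : Filter ℕ) (𝓝 0)) (hs0 : ∀ᶠ i in (U : Filter ℕ), s i ≠ 0)
    (hq : ∀ᶠ i in (U : Filter ℕ), Summable (fun b => |q b * s i ^ b|) ∧
      HasSum (fun b => q b * s i ^ b) 0) : q 0 = 0 := by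
  obtain ⟨i₀, hi₀, hi₁⟩ := (hs0.and hq).exists
  set r := |s i₀| with hr
  have hrpos : 0 < r := abs_pos.2 hi₀
  have hsum : Summable (fun b => |q b| * r ^ b) := by
    refine hi₁.1.congr fun b => ?_
    rw [abs_mul, abs_pow]
  set M := ∑' b, |q b| * r ^ b with hM
  have hMb : ∀ᶠ i in (U : Filter ℕ), |q 0| ≤ |s i| * (M / r) := by
    have hsr : ∀ᶠ i in (U : Filter ℕ), |s i| < r := by
      have h1 : Tendsto (fun i => |s i|) (U : Filter ℕ) (𝓝 0) := by
        simpa using hs.abs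
      exact h1.eventually (gt_mem_nhds hrpos)
    filter_upwards [hsr, hq] with i hi hqi
    have h1 : HasSum (fun b => q (b + 1) * s i ^ (b + 1)) (-q 0) := by
      have h2 := (hasSum_nat_add_iff' 1).2 hqi.2
      simpa using h2
    have h3 : ∀ b, |q (b + 1) * s i ^ (b + 1)| ≤ |s i| / r * (|q (b + 1)| * r ^ (b + 1)) := by
      intro b
      rw [abs_mul, abs_pow, pow_succ, pow_succ]
      have h4 : |s i| ^ b ≤ r ^ b := pow_le_pow_left₀ (abs_nonneg _) hi.le b
      have h5 : |s i| / r * (|q (b + 1)| * (r ^ b * r)) = |q (b + 1)| * (r ^ b * |s i|) := by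
        field_simp
      rw [h5]
      exact mul_le_mul_of_nonneg_left (mul_le_mul_of_nonneg_right h4 (abs_nonneg _)) (abs_nonneg _)
    have h6 : Summable (fun b => |q (b + 1)| * r ^ (b + 1)) := (summable_nat_add_iff 1).2 hsum
    have h7 : Summable (fun b => |s i| / r * (|q (b + 1)| * r ^ (b + 1))) := h6.mul_left _
    have h8 : |q 0| ≤ ∑' b, |s i| / r * (|q (b + 1)| * r ^ (b + 1)) := by
      have h9 : |(-q 0)| ≤ ∑' b, |s i| / r * (|q (b + 1)| * r ^ (b + 1)) := by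
        rw [← h1.tsum_eq]
        have h10 := tsum_of_norm_bounded h7.hasSum (f := fun b => q (b + 1) * s i ^ (b + 1)) h3
        exact h10
      rwa [abs_neg] at h9
    have h11 : ∑' b, |q (b + 1)| * r ^ (b + 1) ≤ M := by
      have h12 := hsum.sum_add_tsum_nat_add 1
      have h13 : 0 ≤ ∑ b ∈ Finset.range 1, |q b| * r ^ b :=
        Finset.sum_nonneg fun b _ => mul_nonneg (abs_nonneg _) (pow_nonneg hrpos.le _)
      linarith
    rw [tsum_mul_left] at h8
    refine h8.trans ?_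
    have h14 : |s i| * (M / r) = |s i| / r * M := by ring
    rw [h14]
    exact mul_le_mul_of_nonneg_left h11 (div_nonneg (abs_nonneg _) hrpos.le)
  have h1 : Tendsto (fun i => |s i| * (M / r)) (U : Filter ℕ) (𝓝 0) := by
    have h2 := (hs.abs).mul_const (M / r)
    simpa using h2
  have h2 : |q 0| ≤ 0 := le_of_tendsto_of_tendsto tendsto_const_nhds h1 hMb
  exact abs_eq_zero.1 (le_antisymm h2 (abs_nonneg _))

private theorem Fo_series {U : Ultrafilter ℕ} {s : ℕ → ℝ} (q : ℕ → ℝ)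
    (hs : Tendsto s (U : Filter ℕ) (𝓝 0)) (hs0 : ∀ᶠ i in (U : Filter ℕ), s i ≠ 0)
    (hq : ∀ᶠ i in (U : Filter ℕ), Summable (fun b => |q b * s i ^ b|) ∧
      HasSum (fun b => q b * s i ^ b) 0) : ∀ k, q k = 0 := by
  intro k
  induction k using Nat.strong_induction_on with
  | _ k ih =>
    have h1 : (fun b => q (b + k)) 0 = 0 := by
      refine Fo_zero (fun b => q (b + k)) hs hs0 ?_
      filter_upwards [hs0, hq] with i hi hqi
      have hk : s i ^ k ≠ 0 := pow_ne_zero _ hi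
      constructor
      · have h2 : Summable (fun b => |q (b + k) * s i ^ (b + k)|) := (summable_nat_add_iff k).2 hqi.1
        have h3 : Summable (fun b => |q (b + k) * s i ^ (b + k)| * |s i ^ k|⁻¹) := h2.mul_right _
        refine h3.congr fun b => ?_
        rw [← abs_inv, ← abs_mul, pow_add]
        congr 1
        field_simp
      · have h2 : HasSum (fun b => q (b + k) * s i ^ (b + k)) 0 := by
          have h4 := (hasSum_nat_add_iff' k).2 hqi.2
          have h5 : ∑ b ∈ Finset.range k, q b * s i ^ b = 0 :=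
            Finset.sum_eq_zero fun b hb => by rw [ih b (Finset.mem_range.1 hb), zero_mul]
          rwa [h5, sub_zero] at h4
        have h3 := h2.mul_right (s i ^ k)⁻¹
        rw [zero_mul] at h3
        have h6 : (fun b => q (b + k) * s i ^ (b + k) * (s i ^ k)⁻¹) = fun b => q (b + k) * s i ^ b := by
          funext b
          rw [pow_add]
          field_simp
        rwa [h6] at h3
    simpa using h1

theorem tFo : EsStmt → FoStmt := by
  intro hEs F _ emb U s T S Xs Ys m μ G hs hs0 hX hY hG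
  have hRX : Fo_Rep emb Xs Ys m μ (lau m Xs) (fun T _ => T) :=
    ⟨m, Xs, Fo_lau m Xs, fun s T S _ h _ => by rwa [mul_comm]⟩
  have hRY : Fo_Rep emb Xs Ys m μ (lau μ Ys) (fun _ S => S) :=
    ⟨μ, Ys, Fo_lau μ Ys, fun s T S _ _ h => by rwa [mul_comm]⟩
  obtain ⟨K, Q, hQ, hE⟩ := Fo_outer hEs hRX hRY G
  have hQ0 : Q = 0 := by
    have h1 := Fo_series (U := U) (s := s) (fun b => emb (PowerSeries.coeff b Q)) hs hs0 (by
      filter_upwards [hs0, hX, hY, hG] with i h0 h1 h2 h3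
      have h4 : EvS emb Q (s i) (s i ^ K * ev2 (T i) (S i) G) := hE (s i) (T i) (S i) h0 h1 h2
      rw [h3, mul_zero] at h4
      exact h4)
    ext b
    rw [map_zero]
    exact (map_eq_zero emb).1 (h1 b)
  rw [hQ0] at hQ
  have h1 : (HahnSeries.single (K : ℤ) (1 : F) : LaurentSeries F) ≠ 0 := by
    rw [Ne, HahnSeries.single_eq_zero_iff]
    exact one_ne_zero
  have h2 : HahnSeries.single (K : ℤ) 1 * ev2 (lau m Xs) (lau μ Ys) G = 0 := by
    rw [← hQ, PowerSeries.coe_zero]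
  rcases mul_eq_zero.1 h2 with h3 | h3
  · exact absurd h3 h1
  · exact h3

end Pool.Agent.Lib.SD
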