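import Pool.Agent.Lib.SD.Spec

namespace Pool.Agent.Lib.SD

open Filter Topology Polynomial

private lemma Fu_indep (hK : KeStmt) {L : Type} [Field L] [Algebra ℚ L] {U : Ultrafilter ℕ}
    {v : L → ℕ → ℝ} {T π : L} {m : ℕ} (hP : Plc U v T π m) {ι : Type} [Fintype ι] (ω : ι → L)
    (f : ι → ℝ) (hf : ∀ l, Tendsto (v (ω l)) (U : Filter ℕ) (𝓝 (f l))) (hl : LinearIndependent ℚ f)
    (a : Fin m → ι → ℚ[X]) (h0 : ∑ k, ∑ l, aeval T (a k l) * (π ^ (k : ℕ) * ω l) = 0) :
    ∀ k l, a k l = 0 := by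
  classical
  by_contra hcon
  push Not at hcon
  obtain ⟨k1, l1, h1⟩ := hcon
  obtain ⟨⟨k0, l0⟩, hk0, hmax⟩ := Finset.exists_max_image
    (Finset.univ.filter fun kl : Fin m × ι => a kl.1 kl.2 ≠ 0)
    (fun kl => (a kl.1 kl.2).natDegree) ⟨(k1, l1), by simpa using h1⟩
  have hne : a k0 l0 ≠ 0 := (Finset.mem_filter.1 hk0).2
  obtain ⟨k₀, c, -, hc, hlim⟩ := hK L U v T π m hP ι ω f hf hl a (a k0 l0).natDegree (by
    intro k l
    by_cases h : a k l = 0
    · rw [h]
      simp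
    · exact hmax (k, l) (Finset.mem_filter.2 ⟨Finset.mem_univ _, h⟩)) ⟨k0, l0, by
      have := Polynomial.leadingCoeff_ne_zero.2 hne
      exact this⟩
  rw [h0] at hlim
  have hv0 : ∀ᶠ i in (U : Filter ℕ), v 0 i = 0 := by
    have h := hP.vals.const 0
    rw [map_zero] at h
    simpa using h
  have hlim0 : Tendsto (fun i => v 0 i / (v T i ^ (a k0 l0).natDegree * v π i ^ k₀))
      (U : Filter ℕ) (𝓝 0) := by
    apply tendsto_const_nhds.congr'
    filter_upwards [hv0] with i hi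
    rw [hi, zero_div]
  exact hc (tendsto_nhds_unique hlim hlim0)

theorem tFu : VcStmt → RlStmt → KeStmt → FuStmt := by
  intro _ hR hK L _ _ U v T π m S G d hP hPr
  obtain ⟨hRa, hRb⟩ := hR L T S G d hPr
  have main : ∀ (ι : Type) [Fintype ι] (ω : ι → L) (f : ι → ℝ),
      (∀ l, Tendsto (v (ω l)) (U : Filter ℕ) (𝓝 (f l))) → LinearIndependent ℚ f →
      m * Fintype.card ι ≤ d ∧
      (m * Fintype.card ι = d → ∀ ψ : L, ∃ (q : ℚ[X]) (p : Fin m → ι → ℚ[X]), q ≠ 0 ∧
        aeval T q * ψ = ∑ k, ∑ l, aeval T (p k l) * (π ^ (k : ℕ) * ω l)) := by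
    intro ι _ ω f hf hl
    have hcard : Fintype.card (Fin m × ι) = m * Fintype.card ι := by
      rw [Fintype.card_prod, Fintype.card_fin]
    have hind : ∀ a : Fin m × ι → ℚ[X],
        ∑ j, aeval T (a j) * (π ^ (j.1 : ℕ) * ω j.2) = 0 → ∀ j, a j = 0 := by
      intro a ha j
      rw [Fintype.sum_prod_type] at ha
      exact Fu_indep hK hP ω f hf hl (fun k l => a (k, l)) ha j.1 j.2
    constructor
    · by_contra hcon
      push Not at hcon
      rw [← hcard] at hcon
      obtain ⟨a, ⟨j, hj⟩, ha⟩ := hRa (Fin m × ι) (fun j => π ^ (j.1 : ℕ) * ω j.2) hcon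
      exact hj (hind a ha j)
    · intro hd ψ
      rw [← hcard] at hd
      obtain ⟨q, p, hq, hp⟩ := hRb (Fin m × ι) (fun j => π ^ (j.1 : ℕ) * ω j.2) hd hind ψ
      refine ⟨q, fun k l => p (k, l), hq, ?_⟩
      rw [hp, Fintype.sum_prod_type]
  refine ⟨main, ?_⟩
  intro F hF
  have fam : ∀ (ι : Type) [Fintype ι] (b : ι → F), LinearIndependent ℚ b →
      m * Fintype.card ι ≤ d := by
    intro ι _ b hb
    have hl : LinearIndependent ℚ (fun l => ((b l : F) : ℝ)) := by
      have := hb.map' F.val.toLinearMap (LinearMap.ker_eq_bot.2 F.val.injective)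
      exact this
    have hlift : ∀ l, ∃ φ : L, Tendsto (v φ) (U : Filter ℕ) (𝓝 ((b l : F) : ℝ)) := fun l =>
      (hF _).1 (b l).2
    choose ω hω using hlift
    exact (main ι ω (fun l => ((b l : F) : ℝ)) hω hl).1
  have hm : 1 ≤ m := hP.pos
  have hrank : Module.rank ℚ F ≤ (d : Cardinal) := by
    apply rank_le
    intro s hs
    have h1 := fam s (fun i => (i : F)) hs
    rw [Fintype.card_coe] at h1
    calc s.card = 1 * s.card := (one_mul _).symm
      _ ≤ m * s.card := Nat.mul_le_mul_right _ hm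
      _ ≤ d := h1
  have hfin : Module.Finite ℚ F := by
    rw [← Module.rank_lt_aleph0_iff]
    exact hrank.trans_lt (Cardinal.natCast_lt_aleph0)
  refine ⟨hfin, ?_⟩
  have h1 := fam (Fin (Module.finrank ℚ F)) (Module.finBasis ℚ F)
    (Module.finBasis ℚ F).linearIndependent
  rwa [Fintype.card_fin] at h1

end Pool.Agent.Lib.SD
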