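import Pool.Agent.Lib.SD.Spec

/-!
# Lib/SD, module Fx: the formal solution of `Z = X g(X, Z)`
-/

namespace Pool.Agent.Lib.SD

open Filter Topology Polynomial

/-- The iterates `Z₀ = 0`, `Z_(n+1) = X g(X, Z_n)`. -/
private noncomputable def Fx_seq {F : Type} [Field F] (g : Polynomial F[X]) : ℕ → PowerSeries F
  | 0 => 0
  | n + 1 => PowerSeries.X * eval₂ (Polynomial.coeToPowerSeries.ringHom) (Fx_seq g n) g

private theorem Fx_contr {F : Type} [Field F] (g : Polynomial F[X]) (Z W : PowerSeries F) (n : ℕ)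
    (h : (PowerSeries.X : PowerSeries F) ^ n ∣ Z - W) :
    (PowerSeries.X : PowerSeries F) ^ (n + 1) ∣
      PowerSeries.X * eval₂ (Polynomial.coeToPowerSeries.ringHom) Z g -
      PowerSeries.X * eval₂ (Polynomial.coeToPowerSeries.ringHom) W g := by
  rw [← mul_sub, pow_succ']
  refine mul_dvd_mul_left _ (h.trans ?_)
  rw [eval₂_eq_eval_map, eval₂_eq_eval_map]
  exact Polynomial.sub_dvd_eval_sub _ _ _

private theorem Fx_step {F : Type} [Field F] (g : Polynomial F[X]) (n : ℕ) :
    (PowerSeries.X : PowerSeries F) ^ (n + 1) ∣ Fx_seq g (n + 1) - Fx_seq g n := by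
  induction n with
  | zero =>
      refine ⟨eval₂ (Polynomial.coeToPowerSeries.ringHom) (Fx_seq g 0) g, ?_⟩
      simp [Fx_seq]
  | succ n ih => exact Fx_contr g _ _ _ ih

private theorem Fx_le {F : Type} [Field F] (g : Polynomial F[X]) (n k : ℕ) :
    (PowerSeries.X : PowerSeries F) ^ (n + 1) ∣ Fx_seq g (n + k) - Fx_seq g n := by
  induction k with
  | zero => simp
  | succ k ih =>
      have h1 : (PowerSeries.X : PowerSeries F) ^ (n + 1) ∣
          Fx_seq g (n + k + 1) - Fx_seq g (n + k) :=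
        (pow_dvd_pow _ (by omega)).trans (Fx_step g (n + k))
      have h2 := dvd_add h1 ih
      have e : Fx_seq g (n + k + 1) - Fx_seq g (n + k) + (Fx_seq g (n + k) - Fx_seq g n)
          = Fx_seq g (n + (k + 1)) - Fx_seq g n := by
        rw [← add_assoc]; ring
      rwa [e] at h2

/-- **Fx.** -/
theorem tFx : FxStmt := by
  intro F _ g
  set Z : PowerSeries F := PowerSeries.mk (fun n => PowerSeries.coeff n (Fx_seq g n)) with hZ
  have hc : ∀ n : ℕ, (PowerSeries.X : PowerSeries F) ^ (n + 1) ∣ Z - Fx_seq g n := by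
    intro n
    rw [PowerSeries.X_pow_dvd_iff]
    intro m hm
    have h1 := Fx_le g m (n - m)
    rw [show m + (n - m) = n by omega] at h1
    rw [PowerSeries.X_pow_dvd_iff] at h1
    have h2 := h1 m (by omega)
    rw [map_sub, sub_eq_zero] at h2
    rw [map_sub, hZ, PowerSeries.coeff_mk, h2, sub_self]
  refine ⟨Z, ?_⟩
  ext n
  have h1 := Fx_contr g _ _ _ (hc n)
  rw [PowerSeries.X_pow_dvd_iff] at h1
  have h2 := h1 n (by omega)
  rw [map_sub, sub_eq_zero] at h2
  rw [h2]
  have h3 := hc (n + 1)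
  rw [PowerSeries.X_pow_dvd_iff] at h3
  have h4 := h3 n (by omega)
  rw [map_sub, sub_eq_zero] at h4
  rw [h4]
  rfl

end Pool.Agent.Lib.SD
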