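import Pool.Agent.Lib.SD.Spec

/-! # Lib/SD: every function grows at most like a power of `|T|` -/

set_option autoImplicit false

namespace Pool.Agent.Lib.SD

open Filter Topology Polynomial

/-- upper bound for the values of a polynomial -/
private theorem Gr_up {l : Filter ℕ} {t : ℕ → ℝ} (ht : Tendsto (fun i => |t i|) l atTop)
    (a : ℚ[X]) : ∃ K : ℕ, ∀ᶠ i in l, |(aeval (t i) a : ℝ)| ≤ |t i| ^ K := by
  refine ⟨a.natDegree + 1, ?_⟩
  filter_upwards [ht.eventually_ge_atTop 1,
    ht.eventually_ge_atTop (∑ k ∈ Finset.range (a.natDegree + 1), |((a.coeff k : ℚ) : ℝ)|)]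
    with i h1 h2
  rw [aeval_eq_sum_range]
  calc |∑ k ∈ Finset.range (a.natDegree + 1), a.coeff k • t i ^ k|
      ≤ ∑ k ∈ Finset.range (a.natDegree + 1), |a.coeff k • t i ^ k| :=
        Finset.abs_sum_le_sum_abs _ _
    _ ≤ ∑ k ∈ Finset.range (a.natDegree + 1), |((a.coeff k : ℚ) : ℝ)| * |t i| ^ a.natDegree := by
        refine Finset.sum_le_sum fun k hk => ?_
        have hk' : k ≤ a.natDegree := Nat.lt_succ_iff.1 (Finset.mem_range.1 hk)
        rw [Rat.smul_def, abs_mul, abs_pow]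
        exact mul_le_mul_of_nonneg_left (pow_le_pow_right₀ h1 hk') (abs_nonneg _)
    _ = (∑ k ∈ Finset.range (a.natDegree + 1), |((a.coeff k : ℚ) : ℝ)|) * |t i| ^ a.natDegree := by
        rw [Finset.sum_mul]
    _ ≤ |t i| * |t i| ^ a.natDegree :=
        mul_le_mul_of_nonneg_right h2 (pow_nonneg (abs_nonneg _) _)
    _ = |t i| ^ (a.natDegree + 1) := by ring

/-- lower bound for the values of a nonzero polynomial -/
private theorem Gr_low {l : Filter ℕ} {t : ℕ → ℝ} (ht : Tendsto (fun i => |t i|) l atTop)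
    (a : ℚ[X]) (ha : a ≠ 0) : ∃ c : ℝ, 0 < c ∧ ∀ᶠ i in l, c ≤ |(aeval (t i) a : ℝ)| := by
  have hmap : ∀ s : ℝ, (aeval s a : ℝ) = (a.map (algebraMap ℚ ℝ)).eval s := by
    intro s
    rw [eval_map_algebraMap]
  rcases Nat.eq_zero_or_pos a.natDegree with h | h
  · obtain ⟨q, rfl⟩ := natDegree_eq_zero.1 h
    have hq : q ≠ 0 := fun h0 => ha (by rw [h0, C_0])
    refine ⟨|(q : ℝ)|, abs_pos.2 (Rat.cast_ne_zero.2 hq), Eventually.of_forall fun i => ?_⟩
    rw [aeval_C]
    exact le_rfl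
  · refine ⟨1, one_pos, ?_⟩
    have hdeg : 0 < (a.map (algebraMap ℚ ℝ)).degree := by
      rw [degree_map_eq_of_injective (algebraMap ℚ ℝ).injective]
      exact natDegree_pos_iff_degree_pos.1 h
    have h1 : Tendsto (fun i => ‖(a.map (algebraMap ℚ ℝ)).eval (t i)‖) l atTop :=
      Polynomial.tendsto_norm_atTop _ hdeg (by simpa only [Real.norm_eq_abs] using ht)
    filter_upwards [h1.eventually_ge_atTop 1] with i hi
    rw [hmap, ← Real.norm_eq_abs]
    exact hi

theorem tGr (hVc : VcStmt) (hRl : RlStmt) : GrStmt := by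
  classical
  intro L _ _ U v T S G d hv hP ht φ
  obtain ⟨_, _, _, _, hpow, _, hsum, hpoly, _⟩ := hVc L U v hv
  obtain ⟨a, ⟨j0, hj0⟩, ha⟩ := (hRl L T S G d hP).1 (Fin (d + 1)) (fun j => φ ^ (j : ℕ)) (by
    rw [Fintype.card_fin]
    exact Nat.lt_succ_self d)
  -- the largest index
  let s : Finset (Fin (d + 1)) := Finset.univ.filter fun j => a j ≠ 0
  have hs : s.Nonempty := ⟨j0, Finset.mem_filter.2 ⟨Finset.mem_univ _, hj0⟩⟩
  set J := s.max' hs with hJ
  have hJne : a J ≠ 0 := (Finset.mem_filter.1 (s.max'_mem hs)).2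
  have hJmax : ∀ j, J < j → a j = 0 := by
    intro j hj
    by_contra h
    exact absurd (s.le_max' j (Finset.mem_filter.2 ⟨Finset.mem_univ _, h⟩)) (not_le.2 hj)
  have hJpos : 0 < (J : ℕ) := by
    rcases Nat.eq_zero_or_pos (J : ℕ) with h | h
    · exfalso
      have h1 : ∑ j, aeval T (a j) * φ ^ (j : ℕ) = aeval T (a J) := by
        rw [Finset.sum_eq_single J]
        · rw [h, pow_zero, mul_one]
        · intro j _ hj
          have hlt : J < j := by
            rw [Fin.lt_def, h]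
            have : (j : ℕ) ≠ 0 := fun h2 => hj (Fin.ext (h2.trans h.symm))
            omega
          rw [hJmax j hlt, map_zero, zero_mul]
        · intro h2
          exact absurd (Finset.mem_univ _) h2
      rw [h1] at ha
      exact hP.tr ⟨a J, hJne, ha⟩
    · exact h
  obtain ⟨c, hc, hlow⟩ := Gr_low ht (a J) hJne
  choose K hK using fun j => Gr_up ht (a j)
  set M := Finset.univ.sup K with hM
  refine ⟨M + 1, ?_⟩
  have hrel : ∀ᶠ i in (U : Filter ℕ), ∑ j, (aeval (v T i) (a j) : ℝ) * v φ i ^ (j : ℕ) = 0 := by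
    have h1 : ∀ᶠ i in (U : Filter ℕ), ∀ j : Fin (d + 1),
        v (aeval T (a j) * φ ^ (j : ℕ)) i = aeval (v T i) (a j) * v φ i ^ (j : ℕ) := by
      rw [Filter.eventually_all]
      intro j
      filter_upwards [hv.mul (aeval T (a j)) (φ ^ (j : ℕ)), hpoly T (a j), hpow φ (j : ℕ)]
        with i h1 h2 h3
      rw [h1, h2, h3]
    filter_upwards [h1, hsum (Fin (d + 1)) Finset.univ (fun j => aeval T (a j) * φ ^ (j : ℕ)),
      hv.const 0] with i h1 h2 h3
    rw [ha] at h2
    rw [map_zero, Rat.cast_zero] at h3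
    rw [h3] at h2
    rw [Finset.sum_congr rfl fun j _ => (h1 j).symm]
    exact h2.symm
  have hKall : ∀ᶠ i in (U : Filter ℕ), ∀ j, |(aeval (v T i) (a j) : ℝ)| ≤ |v T i| ^ K j :=
    Filter.eventually_all.2 hK
  filter_upwards [hrel, hKall, hlow, ht.eventually_ge_atTop 1,
    ht.eventually_ge_atTop ((d + 1 : ℕ) / c)] with i h1 h2 h3 h4 h5
  set t := v T i
  set y := v φ i
  by_cases hy : |y| < 1
  · exact hy.le.trans (one_le_pow₀ h4)
  · have hy1 : 1 ≤ |y| := not_lt.1 hy
    have h6 : |(aeval t (a J) : ℝ)| * |y| ^ (J : ℕ) ≤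
        ((d + 1 : ℕ) * |t| ^ M) * |y| ^ ((J : ℕ) - 1) := by
      have e : (aeval t (a J) : ℝ) * y ^ (J : ℕ) =
          -∑ j ∈ Finset.univ.erase J, (aeval t (a j) : ℝ) * y ^ (j : ℕ) := by
        rw [← Finset.add_sum_erase _ _ (Finset.mem_univ J)] at h1
        exact eq_neg_of_add_eq_zero_left h1
      calc |(aeval t (a J) : ℝ)| * |y| ^ (J : ℕ)
          = |∑ j ∈ Finset.univ.erase J, (aeval t (a j) : ℝ) * y ^ (j : ℕ)| := by
            rw [← abs_pow, ← abs_mul, e, abs_neg]
        _ ≤ ∑ j ∈ Finset.univ.erase J, |(aeval t (a j) : ℝ) * y ^ (j : ℕ)| :=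
            Finset.abs_sum_le_sum_abs _ _
        _ ≤ ∑ j ∈ Finset.univ.erase J, |t| ^ M * |y| ^ ((J : ℕ) - 1) := by
            refine Finset.sum_le_sum fun j hj => ?_
            rw [abs_mul, abs_pow]
            rcases lt_or_gt_of_ne (Finset.ne_of_mem_erase hj) with hlt | hgt
            · refine mul_le_mul ((h2 j).trans (pow_le_pow_right₀ h4
                (Finset.le_sup (f := K) (Finset.mem_univ j)))) (pow_le_pow_right₀ hy1 ?_)
                (pow_nonneg (abs_nonneg _) _) (pow_nonneg (abs_nonneg _) _)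
              have := Fin.lt_def.1 hlt
              omega
            · rw [hJmax j hgt, map_zero, abs_zero, zero_mul]
              positivity
        _ ≤ ∑ j : Fin (d + 1), |t| ^ M * |y| ^ ((J : ℕ) - 1) :=
            Finset.sum_le_sum_of_subset_of_nonneg (Finset.erase_subset _ _)
              (fun _ _ _ => by positivity)
        _ = ((d + 1 : ℕ) * |t| ^ M) * |y| ^ ((J : ℕ) - 1) := by
            rw [Finset.sum_const, Finset.card_univ, Fintype.card_fin, nsmul_eq_mul]
            ring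
    have h7 : c * |y| ≤ (d + 1 : ℕ) * |t| ^ M := by
      have hpos : 0 < |y| ^ ((J : ℕ) - 1) := pow_pos (lt_of_lt_of_le one_pos hy1) _
      refine le_of_mul_le_mul_right ?_ hpos
      calc c * |y| * |y| ^ ((J : ℕ) - 1) = c * |y| ^ (J : ℕ) := by
            rw [mul_assoc, ← pow_succ']
            congr 2
            omega
        _ ≤ |(aeval t (a J) : ℝ)| * |y| ^ (J : ℕ) :=
            mul_le_mul_of_nonneg_right h3 (pow_nonneg (abs_nonneg _) _)
        _ ≤ _ := h6
    rw [div_le_iff₀ hc] at h5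
    refine le_of_mul_le_mul_left ?_ hc
    calc c * |y| ≤ (d + 1 : ℕ) * |t| ^ M := h7
      _ ≤ (|t| * c) * |t| ^ M := mul_le_mul_of_nonneg_right h5 (pow_nonneg (abs_nonneg _) _)
      _ = c * |t| ^ (M + 1) := by ring

end Pool.Agent.Lib.SD
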