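import Pool.Agent.Lib.SD.Spec

/-!
# Lib/SD, module Ke: leading terms
-/

namespace Pool.Agent.Lib.SD

open Filter Topology Polynomial

private theorem Ke_poly (p : ℚ[X]) (n : ℕ) (hp : p.natDegree ≤ n) (x : ℝ) (hx : x ≠ 0) :
    aeval x p / x ^ n = ∑ j ∈ Finset.range (n + 1), (p.coeff j : ℝ) * x⁻¹ ^ (n - j) := by
  rw [aeval_eq_sum_range' (Nat.lt_succ_of_le hp), Finset.sum_div]
  apply Finset.sum_congr rfl
  intro j hj
  have hj' : j ≤ n := Nat.lt_succ_iff.1 (Finset.mem_range.1 hj)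
  rw [Algebra.smul_def, mul_div_assoc]
  congr 1
  rw [inv_pow, div_eq_iff (pow_ne_zero _ hx), eq_inv_mul_iff_mul_eq₀ (pow_ne_zero _ hx), ← pow_add,
    Nat.sub_add_cancel hj']

private theorem Ke_poly0 (p : ℚ[X]) (n : ℕ) (hp : p.natDegree ≤ n) (h0 : p.coeff n = 0) (x : ℝ) (hx : x ≠ 0) :
    aeval x p / x ^ n = x⁻¹ * ∑ j ∈ Finset.range n, (p.coeff j : ℝ) * x⁻¹ ^ (n - j - 1) := by
  rw [Ke_poly p n hp x hx, Finset.sum_range_succ, h0, Rat.cast_zero, zero_mul, add_zero, Finset.mul_sum]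
  apply Finset.sum_congr rfl
  intro j hj
  have hj' := Finset.mem_range.1 hj
  have e : n - j = (n - j - 1) + 1 := by omega
  conv_lhs => rw [e, pow_succ]
  ring

section
variable {U : Filter ℕ} {t s w : ℕ → ℝ}

private theorem Ke_ge (ht : Tendsto (fun i => (t i)⁻¹) U (𝓝 0)) (htne : ∀ᶠ i in U, t i ≠ 0)
    (hs : Tendsto s U (𝓝 0)) (hsne : ∀ᶠ i in U, s i ≠ 0) (f : ℝ) (hw : Tendsto w U (𝓝 f)) (p : ℚ[X]) (n k k₀ : ℕ)
    (hp : p.natDegree ≤ n) (hk : k₀ ≤ k) :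
    Tendsto (fun i => aeval (t i) p * (s i ^ k * w i) / (t i ^ n * s i ^ k₀)) U
      (𝓝 ((p.coeff n : ℝ) * 0 ^ (k - k₀) * f)) := by
  have h1 : Tendsto (fun i => ∑ j ∈ Finset.range (n + 1), (p.coeff j : ℝ) * (t i)⁻¹ ^ (n - j)) U
      (𝓝 (∑ j ∈ Finset.range (n + 1), (p.coeff j : ℝ) * 0 ^ (n - j))) := by
    apply tendsto_finsetSum
    intro j _
    exact (ht.pow _).const_mul _
  have h2 : ∑ j ∈ Finset.range (n + 1), (p.coeff j : ℝ) * 0 ^ (n - j) = p.coeff n := by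
    rw [Finset.sum_range_succ, Nat.sub_self, pow_zero, mul_one, Finset.sum_eq_zero, zero_add]
    intro j hj
    rw [zero_pow (by have := Finset.mem_range.1 hj; omega), mul_zero]
  rw [h2] at h1
  have h3 := (h1.mul (hs.pow (k - k₀))).mul hw
  refine h3.congr' ?_
  filter_upwards [htne, hsne] with i a1 a2
  rw [← Ke_poly p n hp (t i) a1]
  have e : s i ^ k = s i ^ (k - k₀) * s i ^ k₀ := by rw [← pow_add, Nat.sub_add_cancel hk]
  rw [e]
  field_simp

private theorem Ke_lt (htne : ∀ᶠ i in U, t i ≠ 0)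
    (ht : Tendsto (fun i => (t i)⁻¹) U (𝓝 0))
    (hs : Tendsto s U (𝓝 0)) (hsne : ∀ᶠ i in U, s i ≠ 0) (f : ℝ) (hw : Tendsto w U (𝓝 f)) (p : ℚ[X]) (n k k₀ m : ℕ)
    (hp : p.natDegree ≤ n) (h0 : p.coeff n = 0) (hk : k < k₀) (hkm : k₀ < m) (c₁ : ℝ) (hc₁ : c₁ ≠ 0)
    (hts : Tendsto (fun i => t i * s i ^ m) U (𝓝 c₁)) :
    Tendsto (fun i => aeval (t i) p * (s i ^ k * w i) / (t i ^ n * s i ^ k₀)) U (𝓝 0) := by
  have h1 : Tendsto (fun i => ∑ j ∈ Finset.range n, (p.coeff j : ℝ) * (t i)⁻¹ ^ (n - j - 1)) U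
      (𝓝 (∑ j ∈ Finset.range n, (p.coeff j : ℝ) * 0 ^ (n - j - 1))) := by
    apply tendsto_finsetSum
    intro j _
    exact (ht.pow _).const_mul _
  have h2 : Tendsto (fun i => s i ^ (m - (k₀ - k)) * (t i * s i ^ m)⁻¹) U (𝓝 0) := by
    have := (hs.pow (m - (k₀ - k))).mul (hts.inv₀ hc₁)
    rwa [zero_pow (by omega), zero_mul] at this
  have h3 := (h1.mul hw).mul h2
  rw [mul_zero] at h3
  refine h3.congr' ?_
  filter_upwards [htne, hsne] with i a1 a2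
  have e1 : aeval (t i) p = (aeval (t i) p / t i ^ n) * t i ^ n := by
    rw [div_mul_cancel₀ _ (pow_ne_zero _ a1)]
  rw [e1, Ke_poly0 p n hp h0 (t i) a1]
  have e2 : s i ^ m = s i ^ (m - (k₀ - k)) * s i ^ (k₀ - k) := by rw [← pow_add, Nat.sub_add_cancel (by omega)]
  have e3 : s i ^ k₀ = s i ^ (k₀ - k) * s i ^ k := by rw [← pow_add, Nat.sub_add_cancel hk.le]
  rw [e2, e3]
  set B := ∑ j ∈ Finset.range n, (p.coeff j : ℝ) * (t i)⁻¹ ^ (n - j - 1)
  have n1 : s i ^ (m - (k₀ - k)) ≠ 0 := pow_ne_zero _ a2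
  have n2 : s i ^ (k₀ - k) ≠ 0 := pow_ne_zero _ a2
  have n3 : s i ^ k ≠ 0 := pow_ne_zero _ a2
  have n4 : t i ^ n ≠ 0 := pow_ne_zero _ a1
  field_simp

end

theorem tKe : VcStmt → KeStmt := by
  intro hVc L _ _ U v T π m hpl ι _ ω f hω hf a n hdeg hex
  classical
  obtain ⟨hne, -, -, -, hpow, -, hsum, haev, -⟩ := hVc L U v hpl.vals
  obtain ⟨c₁, hc₁, hts⟩ := hpl.ordT
  have hs := hpl.pi0
  have hsne : ∀ᶠ i in (U : Filter ℕ), v π i ≠ 0 := hne π hpl.pine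
  have htne : ∀ᶠ i in (U : Filter ℕ), v T i ≠ 0 := by
    filter_upwards [hts.eventually_ne hc₁] with i h1 h2
    exact h1 (by rw [h2, zero_mul])
  have ht : Tendsto (fun i => (v T i)⁻¹) (U : Filter ℕ) (𝓝 0) := by
    have h1 := (hs.pow m).mul (hts.inv₀ hc₁)
    rw [zero_pow hpl.pos.ne', zero_mul] at h1
    refine h1.congr' ?_
    filter_upwards [htne, hsne] with i a1 a2
    field_simp
  -- the smallest index
  have hex' : ∃ k : ℕ, ∃ h : k < m, ∃ l, (a ⟨k, h⟩ l).coeff n ≠ 0 := by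
    obtain ⟨k, l, h⟩ := hex
    exact ⟨k, k.2, l, h⟩
  let k₀ := Nat.find hex'
  obtain ⟨hk₀, l₀, hl₀⟩ := Nat.find_spec hex'
  have hmin : ∀ (k : Fin m) (l : ι), (k : ℕ) < k₀ → (a k l).coeff n = 0 := by
    intro k l hk
    by_contra hcon
    exact Nat.find_min hex' hk ⟨k.2, l, hcon⟩
  have hterm : ∀ (k : Fin m) (l : ι), Tendsto (fun i => aeval (v T i) (a k l) * (v π i ^ (k : ℕ) * v (ω l) i) /
      (v T i ^ n * v π i ^ k₀)) (U : Filter ℕ) (𝓝 (if (k : ℕ) = k₀ then ((a k l).coeff n : ℝ) * f l else 0)) := by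
    intro k l
    rcases lt_trichotomy (k : ℕ) k₀ with h | h | h
    · rw [if_neg (by omega)]
      exact Ke_lt htne ht hs hsne (f l) (hω l) (a k l) n k k₀ m (hdeg k l) (hmin k l h) h hk₀ c₁ hc₁ hts
    · rw [if_pos h]
      have := Ke_ge ht htne hs hsne (f l) (hω l) (a k l) n k k₀ (hdeg k l) h.ge
      have e : (k : ℕ) - k₀ = 0 := by omega
      rwa [e, pow_zero, mul_one] at this
    · rw [if_neg (by omega)]
      have := Ke_ge ht htne hs hsne (f l) (hω l) (a k l) n k k₀ (hdeg k l) h.le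
      rwa [zero_pow (by omega), mul_zero, zero_mul] at this
  refine ⟨k₀, ∑ k : Fin m, ∑ l, (if (k : ℕ) = k₀ then ((a k l).coeff n : ℝ) * f l else 0), hk₀, ?_, ?_⟩
  · rw [Finset.sum_eq_single (⟨k₀, hk₀⟩ : Fin m)]
    · simp only [if_true]
      intro h
      have h1 : ∑ l, (a ⟨k₀, hk₀⟩ l).coeff n • f l = 0 := by
        rw [← h]
        apply Finset.sum_congr rfl
        intro l _
        rw [Rat.smul_def]
      exact hl₀ (Fintype.linearIndependent_iff.1 hf _ h1 l₀)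
    · intro k _ hk
      apply Finset.sum_eq_zero
      intro l _
      rw [if_neg]
      intro h
      exact hk (Fin.ext h)
    · intro h
      exact absurd (Finset.mem_univ _) h
  · have h1 := tendsto_finsetSum (Finset.univ : Finset (Fin m)) (fun k _ =>
      tendsto_finsetSum (Finset.univ : Finset ι) (fun l _ => hterm k l))
    refine h1.congr' ?_
    have e1 := hsum (Fin m) Finset.univ (fun k => ∑ l, aeval T (a k l) * (π ^ (k : ℕ) * ω l))
    have e2 : ∀ᶠ i in (U : Filter ℕ), ∀ k : Fin m, v (∑ l, aeval T (a k l) * (π ^ (k : ℕ) * ω l)) i =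
        ∑ l, v (aeval T (a k l) * (π ^ (k : ℕ) * ω l)) i :=
      eventually_all.2 fun k => hsum ι Finset.univ _
    have e3 : ∀ᶠ i in (U : Filter ℕ), ∀ k : Fin m, ∀ l, v (aeval T (a k l) * (π ^ (k : ℕ) * ω l)) i =
        aeval (v T i) (a k l) * (v π i ^ (k : ℕ) * v (ω l) i) := by
      refine eventually_all.2 fun k => eventually_all.2 fun l => ?_
      filter_upwards [hpl.vals.mul (aeval T (a k l)) (π ^ (k : ℕ) * ω l), hpl.vals.mul (π ^ (k : ℕ)) (ω l),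
        hpow π k, haev T (a k l)] with i b1 b2 b3 b4
      rw [b1, b2, b3, b4]
    filter_upwards [e1, e2, e3] with i b1 b2 b3
    rw [b1, Finset.sum_div]
    apply Finset.sum_congr rfl
    intro k _
    rw [b2 k, Finset.sum_div]
    apply Finset.sum_congr rfl
    intro l _
    rw [b3 k l]

end Pool.Agent.Lib.SD
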