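import Pool.Agent.Lib.SD.Spec

/-!
# Lib/SD, module Lg: growth exponents
-/

namespace Pool.Agent.Lib.SD

open Filter Topology Polynomial

private theorem Lg_compact (U : Ultrafilter ℕ) (f : ℕ → ℝ) (a b : ℝ)
    (h : ∀ᶠ i in (U : Filter ℕ), f i ∈ Set.Icc a b) : ∃ w : ℝ, Tendsto f (U : Filter ℕ) (𝓝 w) := by
  obtain ⟨w, -, hw⟩ := (isCompact_Icc (a := a) (b := b)).ultrafilter_le_nhds (U.map f) (by
    rw [le_principal_iff]
    exact h)
  exact ⟨w, hw⟩

section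
variable {U : Ultrafilter ℕ} {y t : ℕ → ℝ}

private theorem Lg_log (ht : Tendsto (fun i => |t i|) (U : Filter ℕ) atTop) :
    Tendsto (fun i => Real.log |t i|) (U : Filter ℕ) atTop :=
  Real.tendsto_log_atTop.comp ht

private theorem Lg_exists (ht : Tendsto (fun i => |t i|) (U : Filter ℕ) atTop) (y' : ℕ → ℝ)
    (hne : ∀ᶠ i in (U : Filter ℕ), y i ≠ 0) (hy' : ∀ᶠ i in (U : Filter ℕ), y' i = (y i)⁻¹) (k k' : ℕ)
    (h1 : ∀ᶠ i in (U : Filter ℕ), |y i| ≤ |t i| ^ k) (h2 : ∀ᶠ i in (U : Filter ℕ), |y' i| ≤ |t i| ^ k') :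
    ∃ w : ℝ, Tendsto (fun i => Real.log |y i| / Real.log |t i|) (U : Filter ℕ) (𝓝 w) := by
  apply Lg_compact U _ (-(k' : ℝ)) k
  filter_upwards [hne, hy', h1, h2, (Lg_log ht).eventually_gt_atTop 0] with i a1 a2 a3 a4 a5
  have hpos : 0 < |y i| := abs_pos.2 a1
  have b1 : Real.log |y i| ≤ k * Real.log |t i| := by
    rw [← Real.log_pow]
    exact Real.log_le_log hpos a3
  have b2 : -Real.log |y i| ≤ k' * Real.log |t i| := by
    rw [a2, abs_inv] at a4
    rw [← Real.log_pow, ← Real.log_inv]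
    exact Real.log_le_log (inv_pos.2 hpos) a4
  constructor
  · rw [le_div_iff₀ a5]
    linarith
  · rw [div_le_iff₀ a5]
    exact b1

private theorem Lg_neg (ht : Tendsto (fun i => |t i|) (U : Filter ℕ) atTop)
    (hne : ∀ᶠ i in (U : Filter ℕ), y i ≠ 0) (w : ℝ)
    (hw : Tendsto (fun i => Real.log |y i| / Real.log |t i|) (U : Filter ℕ) (𝓝 w)) (h0 : w < 0) :
    Tendsto y (U : Filter ℕ) (𝓝 0) := by
  have h1 := Filter.Tendsto.neg_mul_atTop h0 hw (Lg_log ht)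
  have h2 : Tendsto (fun i => Real.log |y i|) (U : Filter ℕ) atBot := by
    refine h1.congr' ?_
    filter_upwards [(Lg_log ht).eventually_gt_atTop 0] with i a5
    rw [div_mul_cancel₀ _ a5.ne']
  have h3 := Real.tendsto_exp_atBot.comp h2
  have h4 : Tendsto (fun i => |y i|) (U : Filter ℕ) (𝓝 0) := by
    refine h3.congr' ?_
    filter_upwards [hne] with i a1
    exact Real.exp_log (abs_pos.2 a1)
  exact (tendsto_zero_iff_abs_tendsto_zero _).2 h4

private theorem Lg_le (ht : Tendsto (fun i => |t i|) (U : Filter ℕ) atTop)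
    (hne : ∀ᶠ i in (U : Filter ℕ), y i ≠ 0) (w : ℝ) (d : ℕ)
    (hw : Tendsto (fun i => Real.log |y i| / Real.log |t i|) (U : Filter ℕ) (𝓝 w)) (C : ℝ)
    (hC : ∀ᶠ i in (U : Filter ℕ), |y i| ^ d * |t i| ≤ C) : (d : ℝ) * w + 1 ≤ 0 := by
  have h1 : Tendsto (fun i => (d : ℝ) * (Real.log |y i| / Real.log |t i|) + 1) (U : Filter ℕ) (𝓝 ((d : ℝ) * w + 1)) :=
    (hw.const_mul _).add_const _
  have h2 : Tendsto (fun i => Real.log C / Real.log |t i|) (U : Filter ℕ) (𝓝 0) :=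
    (Lg_log ht).const_div_atTop _
  refine le_of_tendsto_of_tendsto h1 h2 ?_
  filter_upwards [hne, hC, (Lg_log ht).eventually_gt_atTop 0, ht.eventually_gt_atTop 0] with i a1 a2 a5 a6
  have hpos : 0 < |y i| := abs_pos.2 a1
  have hp : 0 < |y i| ^ d := pow_pos hpos d
  have b1 : Real.log (|y i| ^ d * |t i|) ≤ Real.log C := Real.log_le_log (mul_pos hp a6) a2
  rw [Real.log_mul hp.ne' a6.ne', Real.log_pow] at b1
  rw [le_div_iff₀ a5, add_mul, one_mul, mul_assoc, div_mul_cancel₀ _ a5.ne']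
  exact b1

end

theorem tLg : VcStmt → SmStmt → GrStmt → LgStmt := by
  intro hVc hSm hGr L _ _ U v T S G d hv hP ht φ hφ
  obtain ⟨hne, hinv, -⟩ := hVc L U v hv
  have hφ' : φ⁻¹ ≠ 0 := inv_ne_zero hφ
  obtain ⟨k, hk⟩ := hGr L U v T S G d hv hP ht φ
  obtain ⟨k', hk'⟩ := hGr L U v T S G d hv hP ht φ⁻¹
  have n1 := hne φ hφ
  have n2 := hne φ⁻¹ hφ'
  obtain ⟨w, hw⟩ := Lg_exists ht (v φ⁻¹) n1 (hinv φ) k k' hk hk'
  have hw' : Tendsto (fun i => Real.log |v φ⁻¹ i| / Real.log |v T i|) (U : Filter ℕ) (𝓝 (-w)) := by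
    refine hw.neg.congr' ?_
    filter_upwards [hinv φ] with i a1
    rw [a1, abs_inv, Real.log_inv, neg_div]
  have hd : (0 : ℝ) < d := by exact_mod_cast hP.pos
  have key : ∀ ψ : L, ψ ≠ 0 → ∀ u : ℝ,
      Tendsto (fun i => Real.log |v ψ i| / Real.log |v T i|) (U : Filter ℕ) (𝓝 u) →
      Tendsto (v ψ) (U : Filter ℕ) (𝓝 0) → (d : ℝ) * u + 1 ≤ 0 := by
    intro ψ hψ u hu h0
    obtain ⟨C, hC⟩ := hSm L U v T S G d hv hP ht ψ h0
    exact Lg_le ht (hne ψ hψ) u d hu C hC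
  refine ⟨w, hw, fun h0 => Lg_neg ht n1 w hw h0, ?_, ?_⟩
  · intro hw0
    rcases lt_or_gt_of_ne hw0 with h | h
    · have := key φ hφ w hw (Lg_neg ht n1 w hw h)
      rw [abs_of_neg h, div_le_iff₀ hd]
      linarith
    · have hn : -w < 0 := by linarith
      have := key φ⁻¹ hφ' (-w) hw' (Lg_neg ht n2 (-w) hw' hn)
      rw [abs_of_pos h, div_le_iff₀ hd]
      linarith
  · intro hw0
    have hb : ∃ C : ℝ, ∀ᶠ i in (U : Filter ℕ), |v φ i| ≤ C := by
      by_contra hcon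
      have h1 : Tendsto (fun i => |v φ i|) (U : Filter ℕ) atTop := by
        rw [tendsto_atTop]
        intro C
        have h2 : ¬ ∀ᶠ i in (U : Filter ℕ), |v φ i| ≤ C := fun h3 => hcon ⟨C, h3⟩
        rw [← Ultrafilter.eventually_not] at h2
        exact h2.mono fun i hi => (not_le.1 hi).le
      have h2 : Tendsto (v φ⁻¹) (U : Filter ℕ) (𝓝 0) := by
        rw [tendsto_zero_iff_abs_tendsto_zero]
        have h3 := tendsto_inv_atTop_zero.comp h1
        refine h3.congr' ?_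
        filter_upwards [hinv φ] with i a1
        simp only [Function.comp_apply]
        rw [a1, abs_inv]
      have := key φ⁻¹ hφ' (-w) hw' h2
      rw [hw0] at this
      linarith
    obtain ⟨C, hC⟩ := hb
    obtain ⟨c, hc⟩ := Lg_compact U (v φ) (-C) C (hC.mono fun i hi => abs_le.1 hi)
    refine ⟨c, ?_, hc⟩
    intro hc0
    rw [hc0] at hc
    have := key φ hφ w hw hc
    rw [hw0] at this
    linarith

end Pool.Agent.Lib.SD
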