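import Pool.Agent.Lib.SD.Spec

namespace Pool.Agent.Lib.SD

open Filter Topology Polynomial

/-- Eventually `|f i| ≤ |c| + 1` if `f → c`. -/
private theorem Li_bdd {l : Filter ℕ} {f : ℕ → ℝ} {c : ℝ} (h : Tendsto f l (𝓝 c)) :
    ∀ᶠ i in l, |f i| ≤ |c| + 1 := by
  have h1 : Tendsto (fun i => |f i|) l (𝓝 |c|) := h.abs
  exact (h1.eventually_lt_const (lt_add_one |c|)).mono fun i hi => hi.le

private theorem Li_low {l : Filter ℕ} {f : ℕ → ℝ} {c : ℝ} (hc : c ≠ 0)
    (h : Tendsto f l (𝓝 c)) : ∀ᶠ i in l, |c| / 2 < |f i| := by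
  have h1 : Tendsto (fun i => |f i|) l (𝓝 |c|) := h.abs
  exact h1.eventually_const_lt (half_lt_self (abs_pos.mpr hc))

/-- A function with values tending to `0` is `O(π)`. -/
private theorem Li_small (hV : VcStmt) {L : Type} [Field L] [Algebra ℚ L] (U : Ultrafilter ℕ)
    (v : L → ℕ → ℝ) (T π : L) (m : ℕ) (P : Plc U v T π m) (ψ : L)
    (h0 : Tendsto (v ψ) (U : Filter ℕ) (𝓝 0)) :
    ∃ C : ℝ, 0 ≤ C ∧ ∀ᶠ i in (U : Filter ℕ), |v ψ i| ≤ C * |v π i| := by
  by_cases hψ : ψ = 0
  · refine ⟨0, le_rfl, ?_⟩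
    have hz := P.vals.const 0
    rw [map_zero] at hz
    refine hz.mono fun i hi => ?_
    rw [hψ, hi]
    simp
  · obtain ⟨k, c, hc, hk⟩ := P.ord ψ hψ
    have hne : ∀ᶠ i in (U : Filter ℕ), v π i ≠ 0 := (hV L U v P.vals).1 π P.pine
    have hs1 : ∀ᶠ i in (U : Filter ℕ), |v π i| < 1 := by
      have := P.pi0.abs
      rw [abs_zero] at this
      exact this.eventually_lt_const one_pos
    have hk1 : 1 ≤ k := by
      by_contra hlt
      rw [not_le] at hlt
      obtain ⟨n, hn⟩ : ∃ n : ℕ, k = -(n : ℤ) := ⟨k.natAbs, by omega⟩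
      have hz : Tendsto (fun i => v ψ i / v π i ^ k) (U : Filter ℕ) (𝓝 0) := by
        rw [tendsto_zero_iff_abs_tendsto_zero]
        have h0' := h0.abs
        rw [abs_zero] at h0'
        refine squeeze_zero' (Eventually.of_forall fun i => abs_nonneg _) ?_ h0'
        refine hs1.mono fun i hi => ?_
        show |v ψ i / v π i ^ k| ≤ |v ψ i|
        rw [hn, zpow_neg, div_inv_eq_mul, zpow_natCast, abs_mul, abs_pow]
        exact mul_le_of_le_one_right (abs_nonneg _) (pow_le_one₀ (abs_nonneg _) hi.le)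
      exact hc (tendsto_nhds_unique hk hz)
    obtain ⟨n, hn⟩ : ∃ n : ℕ, k = ((n + 1 : ℕ) : ℤ) := ⟨(k - 1).toNat, by omega⟩
    refine ⟨|c| + 1, by positivity, ?_⟩
    filter_upwards [Li_bdd hk, hne, hs1] with i h1 h2 h3
    have h4 : v ψ i = v ψ i / v π i ^ k * v π i ^ k := by
      field_simp
    rw [h4, abs_mul]
    refine mul_le_mul h1 ?_ (abs_nonneg _) (by positivity)
    rw [hn, zpow_natCast, abs_pow, pow_succ]
    exact mul_le_of_le_one_left (abs_nonneg _) (pow_le_one₀ (abs_nonneg _) h3.le)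

/-- The factorization of the minimal polynomial over `ℝ`. -/
private theorem Li_fac (x : ℝ) (hx : IsAlgebraic ℚ x) :
    ∃ (g : ℚ[X]) (h : ℝ[X]), h.eval x ≠ 0 ∧ aeval x (derivative g) ≠ 0 ∧
      (∀ y : ℝ, aeval y g = (y - x) * h.eval y) ∧
      ∀ y : ℝ, aeval y (derivative g) = h.eval y + (y - x) * (derivative h).eval y := by
  set g := minpoly ℚ x with hg
  have hint : IsIntegral ℚ x := hx.isIntegral
  have h0 : aeval x g = 0 := minpoly.aeval ℚ x
  have hsep : g.Separable := (minpoly.irreducible hint).separable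
  have hd : aeval x (derivative g) ≠ 0 := hsep.aeval_derivative_ne_zero h0
  have hroot : (g.map (algebraMap ℚ ℝ)).IsRoot x := by
    rw [Polynomial.IsRoot.def, Polynomial.eval_map_algebraMap]
    exact h0
  obtain ⟨h, hh⟩ := Polynomial.dvd_iff_isRoot.mpr hroot
  have e1 : ∀ y : ℝ, aeval y g = (y - x) * h.eval y := by
    intro y
    rw [← Polynomial.eval_map_algebraMap, hh]
    simp
  have e2 : ∀ y : ℝ, aeval y (derivative g) = h.eval y + (y - x) * (derivative h).eval y := by
    intro y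
    rw [← Polynomial.eval_map_algebraMap, ← Polynomial.derivative_map, hh, derivative_mul]
    simp
  refine ⟨g, h, ?_, hd, e1, e2⟩
  have := e2 x
  rw [sub_self, zero_mul, add_zero] at this
  rwa [← this]

theorem tLi : VcStmt → LiStmt := by
  intro hV L _ _ U v T π m P x hx hφ
  obtain ⟨g, h, hhx, hdx, e1, e2⟩ := Li_fac x hx
  obtain ⟨-, Vinv, -, Vsub, -, -, -, Vae, -⟩ := hV L U v P.vals
  have hs1 : ∀ᶠ i in (U : Filter ℕ), |v π i| < 1 := by
    have := P.pi0.abs
    rw [abs_zero] at this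
    exact this.eventually_lt_const one_pos
  have hcg : ∀ p : ℚ[X], Continuous (fun y : ℝ => aeval y p) := fun p => Polynomial.continuous_aeval p
  -- first order
  have base : ∃ (φ : L) (C : ℝ), 0 ≤ C ∧ Tendsto (v φ) (U : Filter ℕ) (𝓝 x) ∧
      ∀ᶠ i in (U : Filter ℕ), |v φ i - x| ≤ C * |v π i| ^ 1 := by
    obtain ⟨φ, hφ⟩ := hφ
    have t1 : Tendsto (fun i => aeval (v φ i) g) (U : Filter ℕ) (𝓝 0) := by
      have := ((hcg g).tendsto x).comp hφ
      have hz : aeval x g = 0 := by rw [e1, sub_self, zero_mul]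
      rw [hz] at this
      exact this
    have t2 : Tendsto (v (aeval φ g)) (U : Filter ℕ) (𝓝 0) :=
      t1.congr' ((Vae φ g).mono fun i hi => hi.symm)
    obtain ⟨C, hC, hb⟩ := Li_small hV U v T π m P _ t2
    have t3 : Tendsto (fun i => h.eval (v φ i)) (U : Filter ℕ) (𝓝 (h.eval x)) :=
      (h.continuous.tendsto x).comp hφ
    have hpos : 0 < |h.eval x| := abs_pos.mpr hhx
    refine ⟨φ, C / (|h.eval x| / 2), by positivity, hφ, ?_⟩
    filter_upwards [hb, Li_low hhx t3, Vae φ g] with i h1 h2 h3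
    rw [h3, e1, abs_mul] at h1
    rw [pow_one, div_mul_eq_mul_div, le_div_iff₀ (by positivity)]
    calc |v φ i - x| * (|h.eval x| / 2) ≤ |v φ i - x| * |h.eval (v φ i)| :=
          mul_le_mul_of_nonneg_left h2.le (abs_nonneg _)
      _ ≤ C * |v π i| := h1
  have main : ∀ n : ℕ, ∃ (φ : L) (C : ℝ), 0 ≤ C ∧ Tendsto (v φ) (U : Filter ℕ) (𝓝 x) ∧
      ∀ᶠ i in (U : Filter ℕ), |v φ i - x| ≤ C * |v π i| ^ (n + 1) := by
    intro n
    induction n with
    | zero => simpa using base
    | succ n ih =>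
      obtain ⟨φ, C, hC, hφ, hb⟩ := ih
      set φ' : L := φ - aeval φ g * (aeval φ (derivative g))⁻¹ with hφ'
      have td : Tendsto (fun i => aeval (v φ i) (derivative g)) (U : Filter ℕ)
          (𝓝 (aeval x (derivative g))) := ((hcg _).tendsto x).comp hφ
      have tq : Tendsto (fun i => (derivative h).eval (v φ i) / aeval (v φ i) (derivative g))
          (U : Filter ℕ) (𝓝 ((derivative h).eval x / aeval x (derivative g))) :=
        Tendsto.div (((derivative h).continuous.tendsto x).comp hφ) td hdx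
      have hne : ∀ᶠ i in (U : Filter ℕ), aeval (v φ i) (derivative g) ≠ 0 :=
        td.eventually_ne hdx
      have key : ∀ᶠ i in (U : Filter ℕ), v φ' i - x = (v φ i - x) ^ 2 *
          ((derivative h).eval (v φ i) / aeval (v φ i) (derivative g)) := by
        filter_upwards [Vsub φ (aeval φ g * (aeval φ (derivative g))⁻¹),
          P.vals.mul (aeval φ g) (aeval φ (derivative g))⁻¹, Vinv (aeval φ (derivative g)),
          Vae φ g, Vae φ (derivative g), hne] with i a1 a2 a3 a4 a5 a6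
        rw [hφ', a1, a2, a3, a4, a5, e1]
        have a7 := e2 (v φ i)
        field_simp
        rw [a7]
        ring
      set K := |(derivative h).eval x / aeval x (derivative g)| + 1 with hK
      have hKpos : 0 ≤ K := by positivity
      have hb' : ∀ᶠ i in (U : Filter ℕ), |v φ' i - x| ≤ C ^ 2 * K * |v π i| ^ (n + 1 + 1) := by
        filter_upwards [key, hb, Li_bdd tq, hs1] with i b1 b2 b3 b4
        rw [b1, abs_mul, abs_pow]
        have c1 : |v φ i - x| ^ 2 ≤ (C * |v π i| ^ (n + 1)) ^ 2 :=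
          pow_le_pow_left₀ (abs_nonneg _) b2 2
        have c2 : (|v π i| ^ (n + 1)) ^ 2 ≤ |v π i| ^ (n + 1 + 1) := by
          rw [← pow_mul]
          exact pow_le_pow_of_le_one (abs_nonneg _) b4.le (by omega)
        calc |v φ i - x| ^ 2 * |(derivative h).eval (v φ i) / aeval (v φ i) (derivative g)|
            ≤ (C * |v π i| ^ (n + 1)) ^ 2 * K :=
              mul_le_mul c1 b3 (abs_nonneg _) (by positivity)
          _ = C ^ 2 * K * (|v π i| ^ (n + 1)) ^ 2 := by ring
          _ ≤ C ^ 2 * K * |v π i| ^ (n + 1 + 1) :=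
              mul_le_mul_of_nonneg_left c2 (by positivity)
      refine ⟨φ', C ^ 2 * K, by positivity, ?_, hb'⟩
      have tz : Tendsto (fun i => C ^ 2 * K * |v π i| ^ (n + 1 + 1)) (U : Filter ℕ) (𝓝 0) := by
        have := P.pi0.abs
        rw [abs_zero] at this
        have := (this.pow (n + 1 + 1)).const_mul (C ^ 2 * K)
        simpa using this
      have ts : Tendsto (fun i => v φ' i - x) (U : Filter ℕ) (𝓝 0) := by
        rw [tendsto_zero_iff_abs_tendsto_zero]
        exact squeeze_zero' (Eventually.of_forall fun i => abs_nonneg _) hb' tz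
      have := ts.add_const x
      simpa using this
  intro n
  cases n with
  | zero =>
    obtain ⟨φ, hφ⟩ := hφ
    refine ⟨φ, 1, ?_⟩
    have t : Tendsto (fun i => |v φ i - x|) (U : Filter ℕ) (𝓝 0) := by
      have := (hφ.sub_const x).abs
      rw [sub_self, abs_zero] at this
      exact this
    refine (t.eventually_lt_const one_pos).mono fun i hi => ?_
    rw [pow_zero, mul_one]
    exact hi.le
  | succ n =>
    obtain ⟨φ, C, -, -, hb⟩ := main n
    exact ⟨φ, C, hb⟩

end Pool.Agent.Lib.SD
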