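import Pool.Agent.Lib.SD.Spec

/-!
# Lib/SD, module Nf: normal form of the equation of an algebraic function
-/

namespace Pool.Agent.Lib.SD

open Filter Topology Polynomial

private lemma Nf_bd1 {F : Type} [Field F] (emb : F →+* ℝ) (a : F[X]) :
    ∃ M : ℝ, 0 ≤ M ∧ ∀ s : ℝ, |s| ≤ 1 → |eval₂ emb s a| ≤ M := by
  induction a using Polynomial.induction_on' with
  | add p q hp hq =>
    obtain ⟨M, hM, h1⟩ := hp
    obtain ⟨M', hM', h2⟩ := hq
    refine ⟨M + M', by positivity, fun s hs => ?_⟩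
    rw [eval₂_add]
    exact (abs_add_le _ _).trans (add_le_add (h1 s hs) (h2 s hs))
  | monomial n c =>
    refine ⟨|emb c|, abs_nonneg _, fun s hs => ?_⟩
    rw [eval₂_monomial, abs_mul, abs_pow]
    exact mul_le_of_le_one_right (abs_nonneg _) (pow_le_one₀ (abs_nonneg _) hs)

private lemma Nf_bd {F : Type} [Field F] (emb : F →+* ℝ) (g : Polynomial F[X]) :
    ∃ M : ℝ, 0 ≤ M ∧ ∀ s w : ℝ, |s| ≤ 1 → |w| ≤ 1 → |evF emb s w g| ≤ M := by
  induction g using Polynomial.induction_on' with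
  | add p q hp hq =>
    obtain ⟨M, hM, h1⟩ := hp
    obtain ⟨M', hM', h2⟩ := hq
    refine ⟨M + M', by positivity, fun s w hs hw => ?_⟩
    unfold evF at h1 h2 ⊢
    rw [eval₂_add]
    exact (abs_add_le _ _).trans (add_le_add (h1 s w hs hw) (h2 s w hs hw))
  | monomial n a =>
    obtain ⟨M, hM, h1⟩ := Nf_bd1 emb a
    refine ⟨M, hM, fun s w hs hw => ?_⟩
    unfold evF
    rw [eval₂_monomial, abs_mul, abs_pow, coe_eval₂RingHom]
    exact (mul_le_of_le_one_right (abs_nonneg _) (pow_le_one₀ (abs_nonneg _) hw)).trans (h1 s hs)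

theorem tNf (hOr : OrStmt) : NfStmt := by
  intro F _ emb U s y H κ c hs0 hsne hH hc hH' hdig
  obtain ⟨p, C₁, hp⟩ := hdig (κ + 2)
  obtain ⟨A, hAdef⟩ : ∃ A : Polynomial F[X], A = taylor p H := ⟨_, rfl⟩
  obtain ⟨D, hDdef⟩ : ∃ D : Polynomial F[X], D = divX (divX A) := ⟨_, rfl⟩
  obtain ⟨a0, ha0⟩ : ∃ a : F[X], a = A.coeff 0 := ⟨_, rfl⟩
  obtain ⟨a1, ha1⟩ : ∃ a : F[X], a = A.coeff 1 := ⟨_, rfl⟩
  have hA : A = C a0 + X * (C a1 + X * D) := by
    have h1 := divX_mul_X_add A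
    have h2 := divX_mul_X_add (divX A)
    rw [coeff_divX, zero_add, ← hDdef, ← ha1] at h2
    rw [← ha0, ← h2] at h1
    rw [← h1]
    ring
  have hev : ∀ s y : ℝ, evF emb s (y - eval₂ emb s p) A = evF emb s y H := by
    intro s y
    unfold evF
    rw [hAdef, taylor_apply, eval₂_comp]
    congr 1
    rw [eval₂_add, eval₂_X, eval₂_C, coe_eval₂RingHom]
    ring
  have hev' : ∀ s y : ℝ, evF emb s (y - eval₂ emb s p) (derivative A) =
      evF emb s y (derivative H) := by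
    intro s y
    unfold evF
    rw [hAdef, taylor_apply, derivative_comp, derivative_add, derivative_X, derivative_C,
      add_zero, one_mul, eval₂_comp]
    congr 1
    rw [eval₂_add, eval₂_X, eval₂_C, coe_eval₂RingHom]
    ring
  have e1 : ∀ s w : ℝ, evF emb s w A =
      eval₂ emb s a0 + w * (eval₂ emb s a1 + w * evF emb s w D) := by
    intro s w
    conv_lhs => rw [hA]
    unfold evF
    simp only [eval₂_add, eval₂_mul, eval₂_C, eval₂_X, coe_eval₂RingHom]
  obtain ⟨R, hR⟩ : ∃ R : Polynomial F[X], derivative A = C a1 + X * R := by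
    refine ⟨2 * D + X * derivative D, ?_⟩
    conv_lhs => rw [hA]
    simp only [derivative_add, derivative_mul, derivative_C, derivative_X]
    ring
  have e2 : ∀ s w : ℝ, evF emb s w (derivative A) = eval₂ emb s a1 + w * evF emb s w R := by
    intro s w
    rw [hR]
    unfold evF
    simp only [eval₂_add, eval₂_mul, eval₂_C, eval₂_X, coe_eval₂RingHom]
  -- the sequence
  obtain ⟨w, hw⟩ : ∃ w : ℕ → ℝ, ∀ i, w i = y i - eval₂ emb (s i) p := ⟨_, fun _ => rfl⟩
  have hsabs : Tendsto (fun i => |s i|) (U : Filter ℕ) (𝓝 0) := by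
    have := hs0.abs
    rwa [abs_zero] at this
  have hs1 : ∀ᶠ i in (U : Filter ℕ), |s i| ≤ 1 :=
    (hsabs.eventually (gt_mem_nhds one_pos)).mono fun i hi => hi.le
  have hp' : ∀ᶠ i in (U : Filter ℕ), |w i| ≤ C₁ * |s i| ^ (κ + 2) :=
    hp.mono fun i hi => by rw [hw]; exact hi
  have hC1 : 0 ≤ C₁ := by
    obtain ⟨i, hi1, hi2⟩ := (hp'.and hsne).exists
    by_contra hneg
    push Not at hneg
    have h1 : 0 < |s i| ^ (κ + 2) := pow_pos (abs_pos.2 hi2) _
    have h2 : C₁ * |s i| ^ (κ + 2) < 0 := mul_neg_of_neg_of_pos hneg h1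
    linarith [abs_nonneg (w i)]
  have hw0 : Tendsto (fun i => |w i|) (U : Filter ℕ) (𝓝 0) := by
    have h1 : Tendsto (fun i => C₁ * |s i| ^ (κ + 2)) (U : Filter ℕ) (𝓝 0) := by
      have h2 := (hsabs.pow (κ + 2)).const_mul C₁
      rwa [zero_pow (by omega), mul_zero] at h2
    exact tendsto_of_tendsto_of_tendsto_of_le_of_le' tendsto_const_nhds h1
      (Eventually.of_forall fun i => abs_nonneg _) hp'
  have hw1 : ∀ᶠ i in (U : Filter ℕ), |w i| ≤ 1 :=
    (hw0.eventually (gt_mem_nhds one_pos)).mono fun i hi => hi.le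
  -- the coefficient `a1`
  obtain ⟨M, hM, hMR⟩ := Nf_bd emb R
  have hT1 : Tendsto (fun i => eval₂ emb (s i) a1 / s i ^ κ) (U : Filter ℕ) (𝓝 c) := by
    have h0 : Tendsto (fun i => w i * evF emb (s i) (w i) R / s i ^ κ) (U : Filter ℕ) (𝓝 0) := by
      have h1 : Tendsto (fun i => C₁ * M * |s i| ^ 2) (U : Filter ℕ) (𝓝 0) := by
        have h2 := (hsabs.pow 2).const_mul (C₁ * M)
        rwa [zero_pow (by norm_num), mul_zero] at h2
      refine squeeze_zero_norm' ?_ h1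
      filter_upwards [hp', hs1, hw1, hsne] with i h1 h2 h3 h4
      have h5 : 0 < |s i| ^ κ := pow_pos (abs_pos.2 h4) _
      rw [Real.norm_eq_abs, abs_div, abs_mul, abs_pow, div_le_iff₀ h5]
      calc |w i| * |evF emb (s i) (w i) R| ≤ (C₁ * |s i| ^ (κ + 2)) * M :=
            mul_le_mul h1 (hMR _ _ h2 h3) (abs_nonneg _) (by positivity)
        _ = C₁ * M * |s i| ^ 2 * |s i| ^ κ := by ring
    have h1 := hH'.sub h0
    rw [sub_zero] at h1
    refine h1.congr' (Eventually.of_forall fun i => ?_)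
    have h2 := hev' (s i) (y i)
    rw [← hw, e2] at h2
    rw [← h2]
    ring
  obtain ⟨u, hu, huc⟩ := (hOr F emb U s hs0 hsne a1).2 κ c hT1
  obtain ⟨Mu, hMu, hMub⟩ := Nf_bd1 emb u
  obtain ⟨MD, hMD, hMDb⟩ := Nf_bd emb D
  have ha1u : ∀ s : ℝ, eval₂ emb s a1 = s ^ κ * eval₂ emb s u := by
    intro s
    rw [hu, eval₂_mul, eval₂_X_pow]
  -- the coefficient `a0`
  have hrel : ∀ᶠ i in (U : Filter ℕ), eval₂ emb (s i) a0 +
      w i * (eval₂ emb (s i) a1 + w i * evF emb (s i) (w i) D) = 0 := by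
    filter_upwards [hH] with i hi
    rw [← e1, hw, hev, hi]
  have hO0 : ∀ᶠ i in (U : Filter ℕ), |eval₂ emb (s i) a0| ≤
      (C₁ * Mu + C₁ * C₁ * MD) * |s i| ^ (2 * κ + 2) := by
    filter_upwards [hrel, hp', hs1, hw1] with i h1 h2 h3 h4
    have h5 : eval₂ emb (s i) a0 =
        -(w i * eval₂ emb (s i) a1) - w i * w i * evF emb (s i) (w i) D := by linarith
    have h6 : |w i * eval₂ emb (s i) a1| ≤ C₁ * Mu * |s i| ^ (2 * κ + 2) := by
      rw [ha1u, abs_mul, abs_mul, abs_pow]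
      calc |w i| * (|s i| ^ κ * |eval₂ emb (s i) u|) ≤
            (C₁ * |s i| ^ (κ + 2)) * (|s i| ^ κ * Mu) := by
            refine mul_le_mul h2 ?_ (by positivity) (by positivity)
            exact mul_le_mul_of_nonneg_left (hMub _ h3) (by positivity)
        _ = C₁ * Mu * |s i| ^ (2 * κ + 2) := by ring
    have h7 : |w i * w i * evF emb (s i) (w i) D| ≤ C₁ * C₁ * MD * |s i| ^ (2 * κ + 2) := by
      rw [abs_mul, abs_mul]
      calc |w i| * |w i| * |evF emb (s i) (w i) D| ≤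
            (C₁ * |s i| ^ (κ + 2)) * (C₁ * |s i| ^ (κ + 2)) * MD := by
            refine mul_le_mul ?_ (hMDb _ _ h3 h4) (abs_nonneg _) (by positivity)
            exact mul_le_mul h2 h2 (abs_nonneg _) (by positivity)
        _ = (C₁ * C₁ * MD * |s i| ^ (2 * κ + 2)) * |s i| ^ 2 := by ring
        _ ≤ (C₁ * C₁ * MD * |s i| ^ (2 * κ + 2)) * 1 := by
            refine mul_le_mul_of_nonneg_left ?_ (by positivity)
            exact pow_le_one₀ (abs_nonneg _) h3
        _ = _ := mul_one _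
    rw [h5]
    calc |-(w i * eval₂ emb (s i) a1) - w i * w i * evF emb (s i) (w i) D| ≤
          |-(w i * eval₂ emb (s i) a1)| + |w i * w i * evF emb (s i) (w i) D| := abs_sub _ _
      _ ≤ C₁ * Mu * |s i| ^ (2 * κ + 2) + C₁ * C₁ * MD * |s i| ^ (2 * κ + 2) := by
          rw [abs_neg]
          exact add_le_add h6 h7
      _ = _ := by ring
  obtain ⟨b, hb⟩ := (hOr F emb U s hs0 hsne a0).1 (2 * κ + 2) _ hO0
  have ha0b : ∀ s : ℝ, eval₂ emb s a0 = s ^ (2 * κ + 2) * eval₂ emb s b := by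
    intro s
    rw [hb, eval₂_mul, eval₂_X_pow]
  have huX : ∀ s : ℝ, eval₂ emb s u = c + s * eval₂ emb s (divX u) := by
    intro s
    conv_lhs => rw [← divX_mul_X_add u]
    rw [eval₂_add, eval₂_mul, eval₂_X, eval₂_C, huc]
    ring
  have hu0 : emb (-(u.coeff 0)⁻¹) = -c⁻¹ := by rw [map_neg, map_inv₀, huc]
  refine ⟨p, C (C (-(u.coeff 0)⁻¹)) * (C b + C (divX u) * X + X ^ 2 * D.comp (C (X ^ (κ + 1)) * X)),
    κ + 1, ?_, ?_⟩
  · have h1 : Tendsto (fun i => C₁ * |s i|) (U : Filter ℕ) (𝓝 0) := by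
      have h2 := hsabs.const_mul C₁
      rwa [mul_zero] at h2
    refine squeeze_zero_norm' ?_ h1
    filter_upwards [hp', hsne] with i h1 h2
    have h5 : 0 < |s i| ^ (κ + 1) := pow_pos (abs_pos.2 h2) _
    rw [← hw, Real.norm_eq_abs, abs_div, abs_pow, div_le_iff₀ h5]
    calc |w i| ≤ C₁ * |s i| ^ (κ + 2) := h1
      _ = C₁ * |s i| * |s i| ^ (κ + 1) := by ring
  · filter_upwards [hrel, hsne] with i h1 h2
    rw [← hw]
    obtain ⟨z, hz⟩ : ∃ z : ℝ, z = w i / s i ^ (κ + 1) := ⟨_, rfl⟩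
    have hwz : w i = s i ^ (κ + 1) * z := by
      rw [hz]
      field_simp
    rw [← hz]
    have h3 : evF emb (s i) z (C (C (-(u.coeff 0)⁻¹)) *
        (C b + C (divX u) * X + X ^ 2 * D.comp (C (X ^ (κ + 1)) * X))) =
        -c⁻¹ * (eval₂ emb (s i) b + eval₂ emb (s i) (divX u) * z +
          z ^ 2 * evF emb (s i) (w i) D) := by
      unfold evF
      rw [hwz]
      simp only [eval₂_add, eval₂_mul, eval₂_C, eval₂_X, eval₂_X_pow, eval₂_comp,
        coe_eval₂RingHom, hu0]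
    rw [h3]
    rw [ha0b, ha1u, huX] at h1
    have h4 : s i ^ (2 * κ + 1) * (s i * eval₂ emb (s i) b +
        z * (c + s i * eval₂ emb (s i) (divX u)) + s i * z ^ 2 * evF emb (s i) (w i) D) = 0 := by
      rw [← h1]
      conv_rhs => rw [hwz]
      rw [hwz]
      ring
    have h5 := (mul_eq_zero.1 h4).resolve_left (pow_ne_zero _ h2)
    have h6 : c * z = -(s i * (eval₂ emb (s i) b + eval₂ emb (s i) (divX u) * z +
          z ^ 2 * evF emb (s i) (w i) D)) := by linarith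
    calc z = c⁻¹ * (c * z) := by field_simp
      _ = _ := by rw [h6]; ring

end Pool.Agent.Lib.SD
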