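import Pool.Agent.Lib.SD.Spec

/-!
# Lib/SD/Ni: near-integrality of `T` and `S`
-/

namespace Pool.Agent.Lib.SD

open Filter Topology Polynomial

private theorem Ni_hom (a b : ℚ) (G : Polynomial (Polynomial ℤ)) :
    ((ev2 a b G : ℚ) : ℝ) = ev2 (a : ℝ) (b : ℝ) G := by
  unfold ev2
  have h1 : (algebraMap ℚ ℝ).comp (eval₂RingHom (Int.castRingHom ℚ) a)
      = eval₂RingHom (Int.castRingHom ℝ) (a : ℝ) := by
    refine Polynomial.ringHom_ext (fun z => ?_) ?_
    · simp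
    · simp
  have h2 := hom_eval₂ G (eval₂RingHom (Int.castRingHom ℚ) a) (algebraMap ℚ ℝ) b
  rw [h1] at h2
  exact h2

/-- denominators of the elements of the coordinate ring -/
private theorem Ni_den {A κ : Type} [CommRing A] [Algebra ℚ A] [Fintype κ] {x : κ → A}
    {ev : ℕ → A →ₐ[ℚ] ℚ} {N : ℕ → ℕ} (h : NearInt x ev N) (a : A) :
    ∃ M D : ℕ, 0 < M ∧ ∀ i, ∃ z : ℤ, ((M : ℚ) * (N i : ℚ) ^ D) * ev i a = z := by
  have ha : a ∈ Algebra.adjoin ℚ (Set.range x) := by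
    rw [h.gen]
    exact Algebra.mem_top
  induction ha using Algebra.adjoin_induction with
  | mem y hy =>
    obtain ⟨j, rfl⟩ := hy
    refine ⟨1, 1, one_pos, fun i => ?_⟩
    obtain ⟨z, hz⟩ := h.int i j
    refine ⟨z, ?_⟩
    rw [Nat.cast_one, one_mul, pow_one, hz]
  | algebraMap q =>
    refine ⟨q.den, 0, q.den_pos, fun i => ⟨q.num, ?_⟩⟩
    rw [AlgHom.commutes, pow_zero, mul_one]
    exact Rat.den_mul_eq_num q
  | add y z _ _ hy hz =>
    obtain ⟨M₁, D₁, hM₁, h₁⟩ := hy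
    obtain ⟨M₂, D₂, hM₂, h₂⟩ := hz
    refine ⟨M₁ * M₂, D₁ + D₂, Nat.mul_pos hM₁ hM₂, fun i => ?_⟩
    obtain ⟨a₁, ha₁⟩ := h₁ i
    obtain ⟨a₂, ha₂⟩ := h₂ i
    refine ⟨M₂ * N i ^ D₂ * a₁ + M₁ * N i ^ D₁ * a₂, ?_⟩
    push_cast
    rw [← ha₁, ← ha₂, map_add, pow_add]
    ring
  | mul y z _ _ hy hz =>
    obtain ⟨M₁, D₁, hM₁, h₁⟩ := hy
    obtain ⟨M₂, D₂, hM₂, h₂⟩ := hz
    refine ⟨M₁ * M₂, D₁ + D₂, Nat.mul_pos hM₁ hM₂, fun i => ?_⟩
    obtain ⟨a₁, ha₁⟩ := h₁ i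
    obtain ⟨a₂, ha₂⟩ := h₂ i
    refine ⟨a₁ * a₂, ?_⟩
    push_cast
    rw [← ha₁, ← ha₂, map_mul, pow_add]
    ring

/-- a rational number whose `K`-multiple is an integer: values of integer polynomials -/
private theorem Ni_poly {K : ℕ} {t : ℚ} (h : ∃ z : ℤ, (K : ℚ) * t = z) (g : ℤ[X]) (n : ℕ)
    (hn : g.natDegree ≤ n) :
    ∃ z : ℤ, (K : ℚ) ^ n * eval₂RingHom (Int.castRingHom ℚ) t g = z := by
  obtain ⟨z, hz⟩ := h
  refine ⟨∑ a ∈ Finset.range (n + 1), g.coeff a * ((K : ℤ) ^ (n - a) * z ^ a), ?_⟩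
  rw [coe_eval₂RingHom, eval₂_eq_sum_range' _ (Nat.lt_succ_of_le hn), Finset.mul_sum]
  push_cast
  refine Finset.sum_congr rfl fun a ha => ?_
  have h1 : a ≤ n := Nat.lt_succ_iff.1 (Finset.mem_range.1 ha)
  rw [← hz, mul_pow]
  have h2 : (K : ℚ) ^ n = (K : ℚ) ^ (n - a) * (K : ℚ) ^ a := by
    rw [← pow_add, Nat.sub_add_cancel h1]
  rw [h2, eq_intCast]
  ring

/-- integrality of a multiple of a root -/
private theorem Ni_root {K : ℕ} {t s : ℚ} (h : ∃ z : ℤ, (K : ℚ) * t = z)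
    {G : Polynomial (Polynomial ℤ)} (hG : G.Monic) (n : ℕ) (hn : ∀ j, (G.coeff j).natDegree ≤ n)
    (hr : ev2 t s G = 0) : ∃ z : ℤ, (K : ℚ) ^ n * s = z := by
  set f := eval₂RingHom (Int.castRingHom ℚ) t with hf
  set p := G.map f with hp
  have hpm : p.Monic := hG.map f
  have hp0 : eval₂ (RingHom.id ℚ) s p = 0 := by
    rw [hp, eval₂_map]
    exact hr
  set P := p.scaleRoots ((K : ℚ) ^ n) with hP
  have hPm : P.Monic := (monic_scaleRoots_iff _).2 hpm
  have hP0 : eval₂ (RingHom.id ℚ) ((K : ℚ) ^ n * s) P = 0 := by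
    have h1 := scaleRoots_eval₂_eq_zero (RingHom.id ℚ) (s := (K : ℚ) ^ n) hp0
    exact h1
  have hlift : P ∈ lifts (algebraMap ℤ ℚ) := by
    rw [lifts_iff_coeff_lifts]
    intro j
    rw [hP, coeff_scaleRoots]
    rcases lt_trichotomy j p.natDegree with h1 | h1 | h1
    · obtain ⟨z, hz⟩ := Ni_poly h (G.coeff j) n (hn j)
      refine ⟨z * ((K : ℤ) ^ n) ^ (p.natDegree - j - 1), ?_⟩
      have h2 : p.natDegree - j = (p.natDegree - j - 1) + 1 := by omega
      rw [h2, pow_succ, hp, coeff_map]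
      simp only [Nat.add_sub_cancel]
      rw [eq_intCast]
      push_cast
      rw [← hz]
      ring
    · rw [h1, Nat.sub_self, pow_zero, mul_one]
      refine ⟨1, ?_⟩
      rw [map_one]
      exact hpm.coeff_natDegree.symm
    · rw [coeff_eq_zero_of_natDegree_lt h1, zero_mul]
      exact ⟨0, map_zero _⟩
  obtain ⟨q, hq1, -, hq2⟩ := lifts_and_degree_eq_and_monic hlift hPm
  have hint : IsIntegral ℤ ((K : ℚ) ^ n * s) := by
    refine ⟨q, hq2, ?_⟩
    rw [← hq1, eval₂_map, RingHom.id_comp] at hP0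
    exact hP0
  obtain ⟨z, hz⟩ := IsIntegrallyClosed.isIntegral_iff.1 hint
  exact ⟨z, hz.symm⟩

theorem tNi : VcStmt → GrStmt → NiStmt := by
  intro hVc hGr A L κ _ _ _ _ _ _ _ _ _ x ev N U v hN hU hv hvals T S G d hprim htend
  obtain ⟨M, D, hM, hMD⟩ := Ni_den hN T
  have hev : ∀ a : A, ∀ᶠ i in (U : Filter ℕ), v (algebraMap A L a) i = ev i a := by
    intro a
    have h1 := hU (hv a 1 one_ne_zero)
    filter_upwards [h1] with i hi
    rw [map_one, div_one, map_one, div_one] at hi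
    exact hi
  have hroot : ∀ᶠ i in (U : Filter ℕ), ev2 (v (algebraMap A L T) i) (v S i) G = 0 := by
    have h1 := (hVc L U _ hvals).2.2.2.2.2.2.2.2 (algebraMap A L T) S G
    have h2 := hvals.const 0
    filter_upwards [h1, h2] with i h1 h2
    rw [hprim.root] at h1
    rw [map_zero, Rat.cast_zero] at h2
    rw [h2, ← Ni_hom] at h1
    exact_mod_cast h1.symm
  obtain ⟨D', hD'⟩ : ∃ D' : ℕ, ∀ j, (G.coeff j).natDegree ≤ D' := by
    refine ⟨(Finset.range (G.natDegree + 1)).sup fun j => (G.coeff j).natDegree, fun j => ?_⟩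
    by_cases hj : j ≤ G.natDegree
    · exact Finset.le_sup (f := fun j => (G.coeff j).natDegree) (Finset.mem_range.2 (by omega))
    · rw [coeff_eq_zero_of_natDegree_lt (by omega), natDegree_zero]
      exact Nat.zero_le _
  refine ⟨fun i => (M * N i ^ D) ^ (D' + 1), fun i => ?_, ?_, ?_⟩
  · exact pow_pos (Nat.mul_pos hM (pow_pos (hN.pos i) _)) _
  · filter_upwards [hev T, hroot] with i hT hr
    have hK : ∃ z : ℤ, ((M * N i ^ D : ℕ) : ℚ) * v (algebraMap A L T) i = z := by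
      obtain ⟨z, hz⟩ := hMD i
      refine ⟨z, ?_⟩
      rw [hT]
      push_cast
      exact hz
    refine ⟨?_, ?_⟩
    · obtain ⟨z, hz⟩ := hK
      refine ⟨((M * N i ^ D : ℕ) : ℤ) ^ D' * z, ?_⟩
      rw [Nat.cast_pow, pow_succ, mul_assoc, hz]
      push_cast
      ring
    · obtain ⟨z, hz⟩ := Ni_root hK hprim.monic D' hD' hr
      refine ⟨((M * N i ^ D : ℕ) : ℤ) * z, ?_⟩
      rw [Nat.cast_pow, pow_succ, mul_right_comm, hz]
      push_cast
      ring
  · intro ε hε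
    -- the size of the coordinates
    have hgr : ∀ j, ∃ k : ℕ, ∀ᶠ i in (U : Filter ℕ),
        |((v (algebraMap A L (x j)) i : ℚ) : ℝ)| ≤ |((v (algebraMap A L T) i : ℚ) : ℝ)| ^ k := fun j =>
      hGr L U _ (algebraMap A L T) S G d hvals hprim htend (algebraMap A L (x j))
    choose k hk using hgr
    set k₁ := Finset.univ.sup k with hk₁
    have hsum : ∀ᶠ i in (U : Filter ℕ), (∑ j, |((ev i (x j) : ℚ) : ℝ)|)
        ≤ |((v (algebraMap A L T) i : ℚ) : ℝ)| ^ (k₁ + 1) := by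
      have h1 : ∀ᶠ i in (U : Filter ℕ), ∀ j, |((v (algebraMap A L (x j)) i : ℚ) : ℝ)|
          ≤ |((v (algebraMap A L T) i : ℚ) : ℝ)| ^ (k j) := eventually_all.2 hk
      have h2 : ∀ᶠ i in (U : Filter ℕ), ∀ j, v (algebraMap A L (x j)) i = ev i (x j) :=
        eventually_all.2 fun j => hev (x j)
      have h3 := htend.eventually (eventually_ge_atTop (1 : ℝ))
      have h4 := htend.eventually (eventually_ge_atTop (Fintype.card κ : ℝ))
      filter_upwards [h1, h2, h3, h4] with i h1 h2 h3 h4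
      calc ∑ j, |((ev i (x j) : ℚ) : ℝ)|
          ≤ ∑ _j : κ, |((v (algebraMap A L T) i : ℚ) : ℝ)| ^ k₁ := by
            refine Finset.sum_le_sum fun j _ => ?_
            rw [← h2 j]
            exact (h1 j).trans (pow_le_pow_right₀ h3 (Finset.le_sup (Finset.mem_univ j)))
        _ = (Fintype.card κ : ℝ) * |((v (algebraMap A L T) i : ℚ) : ℝ)| ^ k₁ := by
            rw [Finset.sum_const, Finset.card_univ, nsmul_eq_mul]
        _ ≤ |((v (algebraMap A L T) i : ℚ) : ℝ)| ^ (k₁ + 1) := by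
            rw [pow_succ, mul_comm]
            exact mul_le_mul_of_nonneg_left h4 (pow_nonneg (abs_nonneg _) _)
    set n := D * (D' + 1) with hn
    set δ := ε / (2 * ((k₁ + 1 : ℕ) * n + 1)) with hδ
    have hden : (0 : ℝ) < 2 * ((k₁ + 1 : ℕ) * n + 1) := by positivity
    have hδ0 : 0 < δ := div_pos hε hden
    have hδ1 : ((k₁ + 1 : ℕ) : ℝ) * δ * n ≤ ε / 2 := by
      rw [hδ]
      rw [mul_div_assoc', div_mul_eq_mul_div, div_le_div_iff₀ hden two_pos]
      nlinarith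
    have hnear := hU (hN.near δ hδ0)
    have h1 := htend.eventually (eventually_ge_atTop (1 : ℝ))
    have h2 : ∀ᶠ i in (U : Filter ℕ),
        ((M : ℝ) ^ (D' + 1)) ≤ |((v (algebraMap A L T) i : ℚ) : ℝ)| ^ (ε / 2) :=
      ((tendsto_rpow_atTop (half_pos hε)).comp htend).eventually (eventually_ge_atTop _)
    filter_upwards [hsum, hnear, h1, h2] with i hs hne h1 h2
    set t := |((v (algebraMap A L T) i : ℚ) : ℝ)| with ht
    have ht0 : 0 ≤ t := abs_nonneg _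
    have h3 : (N i : ℝ) ≤ t ^ (((k₁ + 1 : ℕ) : ℝ) * δ) := by
      refine hne.trans ?_
      rw [Real.rpow_mul ht0, Real.rpow_natCast]
      exact Real.rpow_le_rpow (Finset.sum_nonneg fun j _ => abs_nonneg _) hs hδ0.le
    have h4 : (N i : ℝ) ^ n ≤ t ^ (ε / 2) := by
      calc (N i : ℝ) ^ n ≤ (t ^ (((k₁ + 1 : ℕ) : ℝ) * δ)) ^ n := pow_le_pow_left₀ (Nat.cast_nonneg _) h3 n
        _ = t ^ (((k₁ + 1 : ℕ) : ℝ) * δ * n) := by
          rw [← Real.rpow_natCast, ← Real.rpow_mul ht0]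
        _ ≤ t ^ (ε / 2) := Real.rpow_le_rpow_of_exponent_le h1 hδ1
    have h5 : (((M * N i ^ D) ^ (D' + 1) : ℕ) : ℝ) = (M : ℝ) ^ (D' + 1) * (N i : ℝ) ^ n := by
      push_cast
      rw [mul_pow, ← pow_mul]
    rw [h5]
    calc (M : ℝ) ^ (D' + 1) * (N i : ℝ) ^ n ≤ t ^ (ε / 2) * t ^ (ε / 2) :=
          mul_le_mul h2 h4 (pow_nonneg (Nat.cast_nonneg _) _) (Real.rpow_nonneg ht0 _)
      _ = t ^ ε := by
          rw [← Real.rpow_add (lt_of_lt_of_le one_pos h1)]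
          congr 1
          ring

end Pool.Agent.Lib.SD
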