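import Pool.Agent.Lib.SD.Spec

set_option autoImplicit false

namespace Pool.Agent.Lib.SD

open Filter Topology Polynomial

private theorem Or_lim {F : Type} [Field F] (emb : F →+* ℝ) (U : Ultrafilter ℕ) (s : ℕ → ℝ)
    (hs : Tendsto s (U : Filter ℕ) (𝓝 0)) (b : F[X]) :
    Tendsto (fun i => eval₂ emb (s i) b) (U : Filter ℕ) (𝓝 (emb (b.coeff 0))) := by
  have h := (Polynomial.continuous_eval₂ b emb).tendsto 0
  rw [Polynomial.eval₂_at_zero] at h
  exact h.comp hs

private theorem Or_a {F : Type} [Field F] (emb : F →+* ℝ) (U : Ultrafilter ℕ) (s : ℕ → ℝ)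
    (hs : Tendsto s (U : Filter ℕ) (𝓝 0)) (hs0 : ∀ᶠ i in (U : Filter ℕ), s i ≠ 0) (k : ℕ) :
    ∀ (a : F[X]) (C : ℝ), (∀ᶠ i in (U : Filter ℕ), |eval₂ emb (s i) a| ≤ C * |s i| ^ k) → X ^ k ∣ a := by
  induction k with
  | zero =>
    intro a C _
    simp
  | succ k ih =>
    intro a C h
    have hs1 : ∀ᶠ i in (U : Filter ℕ), |s i| ≤ 1 := by
      have h1 : Tendsto (fun i => |s i|) (U : Filter ℕ) (𝓝 0) := by
        have := hs.abs
        rwa [abs_zero] at this
      exact h1.eventually (ge_mem_nhds zero_lt_one)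
    have h' : ∀ᶠ i in (U : Filter ℕ), |eval₂ emb (s i) a| ≤ |C| * |s i| ^ k := by
      filter_upwards [h, hs1] with i hi hi1
      refine hi.trans ?_
      rw [pow_succ, ← mul_assoc]
      calc C * |s i| ^ k * |s i| ≤ |C| * |s i| ^ k * |s i| := by
            gcongr
            exact le_abs_self C
        _ ≤ |C| * |s i| ^ k * 1 := by gcongr
        _ = |C| * |s i| ^ k := mul_one _
    obtain ⟨b, rfl⟩ := ih a |C| h'
    have hb : ∀ᶠ i in (U : Filter ℕ), |eval₂ emb (s i) b| ≤ C * |s i| := by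
      filter_upwards [h, hs0] with i hi hi0
      rw [Polynomial.eval₂_mul, Polynomial.eval₂_X_pow, abs_mul, abs_pow, pow_succ] at hi
      have hpos : 0 < |s i| ^ k := pow_pos (abs_pos.mpr hi0) k
      have : |s i| ^ k * |eval₂ emb (s i) b| ≤ |s i| ^ k * (C * |s i|) := by
        calc |s i| ^ k * |eval₂ emb (s i) b| ≤ C * (|s i| ^ k * |s i|) := hi
          _ = |s i| ^ k * (C * |s i|) := by ring
      exact le_of_mul_le_mul_left this hpos
    have hlim0 : Tendsto (fun i => eval₂ emb (s i) b) (U : Filter ℕ) (𝓝 0) := by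
      rw [tendsto_zero_iff_abs_tendsto_zero]
      have h1 : Tendsto (fun i => C * |s i|) (U : Filter ℕ) (𝓝 0) := by
        have := (hs.abs).const_mul C
        rwa [abs_zero, mul_zero] at this
      refine squeeze_zero' (Filter.Eventually.of_forall fun i => abs_nonneg _) ?_ h1
      exact hb
    have he : emb (b.coeff 0) = 0 := tendsto_nhds_unique (Or_lim emb U s hs b) hlim0
    have hc : b.coeff 0 = 0 := by
      rwa [map_eq_zero] at he
    obtain ⟨b', rfl⟩ := Polynomial.X_dvd_iff.mpr hc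
    exact ⟨b', by rw [pow_succ, mul_assoc]⟩

theorem tOr : OrStmt := by
  intro F _ emb U s hs hs0 a
  refine ⟨fun k C h => Or_a emb U s hs hs0 k a C h, ?_⟩
  intro k c hc
  have h1 : ∀ᶠ i in (U : Filter ℕ), |eval₂ emb (s i) a| ≤ (|c| + 1) * |s i| ^ k := by
    have h2 : ∀ᶠ i in (U : Filter ℕ), |eval₂ emb (s i) a / s i ^ k| ≤ |c| + 1 :=
      hc.abs.eventually (ge_mem_nhds (lt_add_one _))
    filter_upwards [h2, hs0] with i hi hi0
    rw [abs_div, abs_pow, div_le_iff₀ (pow_pos (abs_pos.mpr hi0) k)] at hi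
    exact hi
  obtain ⟨u, rfl⟩ := Or_a emb U s hs hs0 k a _ h1
  refine ⟨u, rfl, ?_⟩
  refine tendsto_nhds_unique (Or_lim emb U s hs u) (hc.congr' ?_)
  filter_upwards [hs0] with i hi0
  rw [Polynomial.eval₂_mul, Polynomial.eval₂_X_pow, mul_div_assoc, mul_div_cancel₀]
  exact pow_ne_zero k hi0

end Pool.Agent.Lib.SD
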