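import Pool.Agent.Lib.SD.Spec

/-!
# Lib/SD, module Pe: primitive element, integral over `ℤ[T]`
-/

namespace Pool.Agent.Lib.SD

open Filter Topology Polynomial

/-- the map `ℤ[X] → ℚ(X)` -/
private noncomputable def Pe_io : ℤ[X] →+* RatFunc ℚ :=
  (algebraMap (Polynomial ℚ) (RatFunc ℚ)).comp (Polynomial.mapRingHom (Int.castRingHom ℚ))

private theorem Pe_io_inj : Function.Injective Pe_io := by
  unfold Pe_io
  rw [RingHom.coe_comp]
  refine (IsFractionRing.injective ℚ[X] (RatFunc ℚ)).comp ?_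
  rw [coe_mapRingHom]
  exact Polynomial.map_injective _ (RingHom.injective_int (Int.castRingHom ℚ))

private theorem Pe_io_ne {q : ℤ[X]} (hq : q ≠ 0) : Pe_io q ≠ 0 := by
  intro h
  exact hq (Pe_io_inj (by rw [h, map_zero]))

private theorem Pe_den (p : ℚ[X]) : ∃ (M : ℤ) (g : ℤ[X]), M ≠ 0 ∧
    g.map (Int.castRingHom ℚ) = C (M : ℚ) * p := by
  obtain ⟨b, hb, h⟩ := IsLocalization.integerNormalization_spec (nonZeroDivisors ℤ) p
  refine ⟨b, IsLocalization.integerNormalization (nonZeroDivisors ℤ) p, nonZeroDivisors.ne_zero hb, ?_⟩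
  change Polynomial.map (algebraMap ℤ ℚ) _ = _
  rw [h]
  ext n
  simp

private theorem Pe_one (z : RatFunc ℚ) : ∃ (q g : ℤ[X]), q ≠ 0 ∧ Pe_io q * z = Pe_io g := by
  obtain ⟨a, b, hb, rfl⟩ := IsFractionRing.div_surjective (A := ℚ[X]) z
  have hb0 : b ≠ 0 := nonZeroDivisors.ne_zero hb
  obtain ⟨M, g, hM, hg⟩ := Pe_den a
  obtain ⟨M', g', hM', hg'⟩ := Pe_den b
  have hb1 : algebraMap ℚ[X] (RatFunc ℚ) b ≠ 0 := by
    intro h
    exact hb0 (IsFractionRing.injective ℚ[X] (RatFunc ℚ) (by rw [h, map_zero]))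
  have hg'0 : g' ≠ 0 := by
    intro h
    rw [h, Polynomial.map_zero] at hg'
    have hc : (C (M' : ℚ) : ℚ[X]) ≠ 0 := by
      rw [Ne, C_eq_zero]
      exact_mod_cast hM'
    exact mul_ne_zero hc hb0 hg'.symm
  refine ⟨C M * g', C M' * g, mul_ne_zero (by rw [Ne, C_eq_zero]; exact hM) hg'0, ?_⟩
  unfold Pe_io
  simp only [RingHom.comp_apply, coe_mapRingHom, Polynomial.map_C, hg, hg', map_mul]
  field_simp
  simp only [eq_intCast]
  ring

private theorem Pe_many (d : ℕ) (z : ℕ → RatFunc ℚ) : ∃ (q : ℤ[X]) (g : ℕ → ℤ[X]), q ≠ 0 ∧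
    ∀ j < d, Pe_io q * z j = Pe_io (g j) := by
  induction d with
  | zero => exact ⟨1, fun _ => 0, one_ne_zero, fun j hj => absurd hj (Nat.not_lt_zero j)⟩
  | succ d ih =>
    obtain ⟨q, g, hq, h⟩ := ih
    obtain ⟨q', g', hq', h'⟩ := Pe_one (z d)
    refine ⟨q * q', fun j => if j < d then g j * q' else q * g', mul_ne_zero hq hq', ?_⟩
    intro j hj
    by_cases hjd : j < d
    · simp only [if_pos hjd]
      rw [map_mul, map_mul, ← h j hjd]
      ring
    · have : j = d := by omega
      subst this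
      simp only [if_neg hjd]
      rw [map_mul, map_mul, ← h']
      ring

private theorem Pe_G (d : ℕ) (P : (RatFunc ℚ)[X]) (hP : P.Monic) (hPd : P.natDegree = d) (q : ℤ[X])
    (g : ℕ → ℤ[X]) (h : ∀ j < d, Pe_io q * P.coeff j = Pe_io (g j)) :
    ∃ G : Polynomial (Polynomial ℤ), G.Monic ∧ G.natDegree = d ∧ G.map Pe_io = P.scaleRoots (Pe_io q) := by
  let r : Polynomial (Polynomial ℤ) := ∑ i : Fin d, C (g i * q ^ (d - 1 - i)) * X ^ (i : ℕ)
  have hr : r.degree < (d : WithBot ℕ) := degree_sum_fin_lt _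
  refine ⟨X ^ d + r, monic_X_pow_add hr, ?_, ?_⟩
  · rw [natDegree_add_eq_left_of_degree_lt, natDegree_X_pow]
    rw [degree_X_pow]
    exact hr
  · ext1 j
    rw [coeff_map, coeff_scaleRoots, hPd, coeff_add, coeff_X_pow]
    by_cases hj : j < d
    · have hrj : r.coeff j = g j * q ^ (d - 1 - j) := by
        have e : r = ∑ i : Fin d, C ((fun k : ℕ => g k * q ^ (d - 1 - k)) i) * X ^ (i : ℕ) := rfl
        rw [e, Fin.sum_univ_eq_sum_range (fun k => C (g k * q ^ (d - 1 - k)) * (X : (Polynomial (Polynomial ℤ))) ^ k) d,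
          finsetSum_coeff]
        simp only [coeff_C_mul_X_pow]
        rw [Finset.sum_ite_eq (Finset.range d) j, if_pos (Finset.mem_range.2 hj)]
      rw [if_neg (by omega), hrj, zero_add, map_mul, map_pow, ← h j hj]
      have e : d - j = (d - 1 - j) + 1 := by omega
      rw [e, pow_succ]
      ring
    · have hrj : r.coeff j = 0 := by
        apply coeff_eq_zero_of_degree_lt
        refine lt_of_lt_of_le hr ?_
        exact_mod_cast Nat.le_of_not_lt hj
      rw [hrj, add_zero]
      by_cases hjd : j = d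
      · rw [if_pos hjd, hjd, Nat.sub_self, pow_zero, mul_one, map_one]
        have := hP.coeff_natDegree
        rw [hPd] at this
        exact this.symm
      · rw [if_neg hjd, map_zero, coeff_eq_zero_of_natDegree_lt (by omega), zero_mul]

theorem tPe : PeStmt := by
  rintro L _ _ T hT ⟨f, hf, hfin⟩
  let _ : Algebra (RatFunc ℚ) L := f.toAlgebra
  have hfa : ∀ x : RatFunc ℚ, algebraMap (RatFunc ℚ) L x = f x := fun _ => rfl
  have : Module.Finite (RatFunc ℚ) L := hfin
  have : CharZero (RatFunc ℚ) := charZero_of_injective_algebraMap (algebraMap ℚ (RatFunc ℚ)).injective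
  have : Algebra.IsAlgebraic (RatFunc ℚ) L := Algebra.IsAlgebraic.of_finite _ _
  have : Algebra.IsSeparable (RatFunc ℚ) L := inferInstance
  obtain ⟨S₀, hS₀⟩ := Field.exists_primitive_element (RatFunc ℚ) L
  set P := minpoly (RatFunc ℚ) S₀ with hPdef
  set d := Module.finrank (RatFunc ℚ) L with hd
  have hd0 : 0 < d := Module.finrank_pos
  have hPd : P.natDegree = d := (Field.primitive_element_iff_minpoly_natDegree_eq (RatFunc ℚ) S₀).1 hS₀
  have hint₀ : IsIntegral (RatFunc ℚ) S₀ := Algebra.IsIntegral.isIntegral _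
  have hPm : P.Monic := minpoly.monic hint₀
  obtain ⟨q, g, hq, hg⟩ := Pe_many d (fun j => P.coeff j)
  obtain ⟨G, hGm, hGd, hG⟩ := Pe_G d P hPm hPd q g hg
  set S : L := f (Pe_io q) * S₀ with hS
  have hfq : f (Pe_io q) ≠ 0 := by
    intro h
    exact Pe_io_ne hq (f.injective (by rw [h, map_zero]))
  have hadj : IntermediateField.adjoin (RatFunc ℚ) {S} = ⊤ := by
    rw [eq_top_iff, ← hS₀, IntermediateField.adjoin_simple_le_iff]
    have h1 : S ∈ IntermediateField.adjoin (RatFunc ℚ) {S} := IntermediateField.mem_adjoin_simple_self _ _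
    have h2 : algebraMap (RatFunc ℚ) L (Pe_io q)⁻¹ ∈ IntermediateField.adjoin (RatFunc ℚ) {S} :=
      IntermediateField.algebraMap_mem _ _
    have h3 := mul_mem h2 h1
    rw [hfa, map_inv₀, hS, inv_mul_cancel_left₀ hfq] at h3
    exact h3
  have hSd : (minpoly (RatFunc ℚ) S).natDegree = d :=
    (Field.primitive_element_iff_minpoly_natDegree_eq (RatFunc ℚ) S).1 hadj
  have hint : IsIntegral (RatFunc ℚ) S := Algebra.IsIntegral.isIntegral _
  have hroot : aeval S (P.scaleRoots (Pe_io q)) = 0 := by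
    have := scaleRoots_aeval_eq_zero (r := Pe_io q) (minpoly.aeval (RatFunc ℚ) S₀)
    exact this
  have hmin : P.scaleRoots (Pe_io q) = minpoly (RatFunc ℚ) S := by
    refine Polynomial.eq_of_monic_of_dvd_of_natDegree_le (minpoly.monic hint)
      ((monic_scaleRoots_iff _).2 hPm) (minpoly.dvd _ _ hroot) ?_
    rw [natDegree_scaleRoots, hPd, hSd]
  have hrat : ratG G = G.map Pe_io := rfl
  -- the power basis
  have hAdj : Algebra.adjoin (RatFunc ℚ) {S} = ⊤ := by
    rw [← IntermediateField.adjoin_simple_toSubalgebra_of_isAlgebraic hint.isAlgebraic, hadj,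
      IntermediateField.top_toSubalgebra]
  let pb := PowerBasis.ofAdjoinEqTop hint hAdj
  have hgen : pb.gen = S := PowerBasis.ofAdjoinEqTop_gen hint hAdj
  have hdim : pb.dim = d := hSd
  have hcomp : f.comp Pe_io = eval₂RingHom (Int.castRingHom L) T := by
    apply Polynomial.ringHom_ext
    · intro n
      simp
    · rw [RingHom.comp_apply, coe_eval₂RingHom, eval₂_X]
      unfold Pe_io
      rw [RingHom.comp_apply, coe_mapRingHom, Polynomial.map_X, hf, aeval_X]
  refine ⟨S, G, d, hT, hGm, hGd, hd0, ?_, ?_, ?_, ?_⟩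
  · unfold ev2
    rw [← hcomp, ← eval₂_map, hG]
    exact hroot
  · rw [hrat, hG, hmin]
    exact minpoly.irreducible hint
  · intro φ
    have h1 : ∑ i, pb.basis.repr φ i • pb.basis i = φ := pb.basis.sum_repr φ
    have h2 : ∑ j : Fin d, f (pb.basis.repr φ (Fin.cast hdim.symm j)) * S ^ (j : ℕ) = φ := by
      rw [← (finCongr hdim).sum_comp (fun j : Fin d => f (pb.basis.repr φ (Fin.cast hdim.symm j)) * S ^ (j : ℕ))]
      conv_rhs => rw [← h1]
      apply Finset.sum_congr rfl
      intro i _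
      rw [pb.basis_eq_pow, hgen, Algebra.smul_def, hfa]
      rfl
    obtain ⟨b, hb⟩ := IsLocalization.exist_integer_multiples_of_finite (nonZeroDivisors ℚ[X])
      (fun j : Fin d => pb.basis.repr φ (Fin.cast hdim.symm j))
    choose p hp using hb
    refine ⟨b, p, nonZeroDivisors.ne_zero b.2, ?_⟩
    conv_lhs => rw [← h2]
    rw [Finset.mul_sum]
    apply Finset.sum_congr rfl
    intro j _
    rw [← hf, ← hf, hp j, Algebra.smul_def, map_mul, mul_assoc]
  · intro p hp j
    have h1 : ∑ i : Fin pb.dim, (algebraMap ℚ[X] (RatFunc ℚ) (p (Fin.cast hdim i))) • pb.basis i = 0 := by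
      rw [← hp, ← (finCongr hdim).sum_comp (fun j : Fin d => aeval T (p j) * S ^ (j : ℕ))]
      apply Finset.sum_congr rfl
      intro i _
      rw [pb.basis_eq_pow, hgen, Algebra.smul_def, hfa, hf]
      rfl
    have h2 := Fintype.linearIndependent_iff.1 pb.basis.linearIndependent _ h1 (Fin.cast hdim.symm j)
    exact IsFractionRing.injective ℚ[X] (RatFunc ℚ) (by rw [map_zero]; exact h2)

end Pool.Agent.Lib.SD
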