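import Pool.Agent.Lib.SD.Spec

/-! Module Pl: existence of a uniformizer. -/

set_option linter.unusedSectionVars false

namespace Pool.Agent.Lib.SD

open Filter Topology Polynomial

section

variable {L : Type} [Field L] [Algebra ℚ L] {U : Ultrafilter ℕ} {v : L → ℕ → ℝ} {T : L}

/-- the growth exponent of `φ` -/
private def Pl_W (U : Ultrafilter ℕ) (v : L → ℕ → ℝ) (T φ : L) (w : ℝ) : Prop :=
  Tendsto (fun i => Real.log |v φ i| / Real.log |v T i|) (U : Filter ℕ) (𝓝 w)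

private theorem Pl_unique {φ : L} {w w' : ℝ} (h : Pl_W U v T φ w) (h' : Pl_W U v T φ w') :
    w = w' := tendsto_nhds_unique h h'

private theorem Pl_mul (hv : Vals U v) (hne : ∀ φ : L, φ ≠ 0 → ∀ᶠ i in (U : Filter ℕ), v φ i ≠ 0)
    {φ ψ : L} {w w' : ℝ} (h0 : φ ≠ 0) (h0' : ψ ≠ 0) (h : Pl_W U v T φ w)
    (h' : Pl_W U v T ψ w') : Pl_W U v T (φ * ψ) (w + w') := by
  refine (Tendsto.add h h').congr' ?_
  filter_upwards [hv.mul φ ψ, hne φ h0, hne ψ h0'] with i h1 h2 h3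
  rw [h1, abs_mul, Real.log_mul (abs_ne_zero.2 h2) (abs_ne_zero.2 h3)]
  ring

private theorem Pl_zpow
    (hz : ∀ (φ : L) (n : ℤ), ∀ᶠ i in (U : Filter ℕ), v (φ ^ n) i = v φ i ^ n)
    {φ : L} {w : ℝ} (h : Pl_W U v T φ w) (k : ℤ) : Pl_W U v T (φ ^ k) (k * w) := by
  refine (Tendsto.const_mul (k : ℝ) h).congr' ?_
  filter_upwards [hz φ k] with i h1
  rw [h1, abs_zpow, Real.log_zpow]
  ring

end

theorem tPl : VcStmt → LgStmt → PlStmt := by
  intro hVc hLg L _ _ U v T S G d hv hP hT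
  obtain ⟨hne, hinv, -, -, hpow, hz, -, -, -⟩ := hVc L U v hv
  have hlg := hLg L U v T S G d hv hP hT
  choose w hw hneg hiso hzero using hlg
  have hT0 : T ≠ 0 := by
    rintro rfl
    exact hP.tr isAlgebraic_zero
  have hd : (0 : ℝ) < 1 / (d : ℝ) := by
    have := hP.pos
    positivity
  have hlogT : ∀ᶠ i in (U : Filter ℕ), Real.log |v T i| ≠ 0 := by
    filter_upwards [hT.eventually_gt_atTop 1] with i hi
    exact (Real.log_pos hi).ne'
  have hwT : w T hT0 = 1 := by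
    refine tendsto_nhds_unique (hw T hT0) ?_
    refine tendsto_const_nhds.congr' ?_
    filter_upwards [hlogT] with i hi
    rw [div_self hi]
  have hwmul : ∀ (φ ψ : L) (h : φ ≠ 0) (h' : ψ ≠ 0), w (φ * ψ) (mul_ne_zero h h') =
      w φ h + w ψ h' := fun φ ψ h h' =>
    Pl_unique (hw _ _) (Pl_mul hv hne h h' (hw φ h) (hw ψ h'))
  have hwz : ∀ (φ : L) (h : φ ≠ 0) (k : ℤ), w (φ ^ k) (zpow_ne_zero k h) = k * w φ h :=
    fun φ h k => Pl_unique (hw _ _) (Pl_zpow hz (hw φ h) k)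
  -- the value group
  let H : AddSubgroup ℝ :=
    { carrier := {x | ∃ (φ : L) (h : φ ≠ 0), w φ h = x}
      add_mem' := by
        rintro a b ⟨φ, h, rfl⟩ ⟨ψ, h', rfl⟩
        exact ⟨φ * ψ, mul_ne_zero h h', hwmul φ ψ h h'⟩
      zero_mem' := by
        refine ⟨T ^ (0 : ℤ), zpow_ne_zero 0 hT0, ?_⟩
        rw [hwz T hT0 0]
        push_cast
        ring
      neg_mem' := by
        rintro a ⟨φ, h, rfl⟩
        refine ⟨φ ^ (-1 : ℤ), zpow_ne_zero _ h, ?_⟩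
        rw [hwz φ h (-1)]
        push_cast
        ring }
  have hmem : ∀ (φ : L) (h : φ ≠ 0), w φ h ∈ H := fun φ h => ⟨φ, h, rfl⟩
  have hdis : Disjoint (H : Set ℝ) (Set.Ioo 0 (1 / (d : ℝ))) := by
    rw [Set.disjoint_left]
    rintro x ⟨φ, h, rfl⟩ ⟨h1, h2⟩
    have h3 := hiso φ h h1.ne'
    rw [abs_of_pos h1] at h3
    linarith
  obtain ⟨b, hb⟩ := AddSubgroup.cyclic_of_isolated_zero hd hdis
  have hb1 : ∀ x ∈ H, ∃ n : ℤ, (n : ℝ) * b = x := by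
    intro x hx
    rw [hb, AddSubgroup.mem_closure_singleton] at hx
    obtain ⟨n, hn⟩ := hx
    exact ⟨n, by rw [← hn, zsmul_eq_mul]⟩
  have hbH : b ∈ H := by
    rw [hb]
    exact AddSubgroup.subset_closure (Set.mem_singleton b)
  have h1H : (1 : ℝ) ∈ H := by
    rw [← hwT]
    exact hmem T hT0
  have hb0 : b ≠ 0 := by
    rintro rfl
    obtain ⟨n, hn⟩ := hb1 1 h1H
    simp at hn
  -- the negative generator
  obtain ⟨c, hcH, hc0, hc1⟩ : ∃ c ∈ H, c < 0 ∧ ∀ x ∈ H, ∃ n : ℤ, (n : ℝ) * c = x := by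
    rcases lt_or_gt_of_ne hb0 with h | h
    · exact ⟨b, hbH, h, hb1⟩
    · refine ⟨-b, H.neg_mem hbH, by linarith, fun x hx => ?_⟩
      obtain ⟨n, hn⟩ := hb1 x hx
      refine ⟨-n, ?_⟩
      rw [← hn]
      push_cast
      ring
  obtain ⟨π, hπ0, hπ⟩ := hcH
  obtain ⟨n, hn⟩ := hc1 1 h1H
  have hn0 : n < 0 := by
    by_contra hcon
    have h1 : (0 : ℝ) ≤ n := by exact_mod_cast not_lt.1 hcon
    nlinarith
  refine ⟨π, (-n).toNat, ⟨hv, ?_, hπ0, hneg π hπ0 (by rw [hπ]; exact hc0), ?_, ?_⟩⟩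
  · omega
  · intro φ hφ
    obtain ⟨k, hk⟩ := hc1 _ (hmem φ hφ)
    have hne1 : φ * π ^ (-k) ≠ 0 := mul_ne_zero hφ (zpow_ne_zero _ hπ0)
    have hw0 : w (φ * π ^ (-k)) hne1 = 0 := by
      rw [hwmul φ (π ^ (-k)) hφ (zpow_ne_zero _ hπ0), hwz π hπ0 (-k), hπ, ← hk]
      push_cast
      ring
    obtain ⟨c', hc', hlim⟩ := hzero _ hne1 hw0
    refine ⟨k, c', hc', hlim.congr' ?_⟩
    filter_upwards [hv.mul φ (π ^ (-k)), hz π (-k)] with i h1 h2
    rw [h1, h2, zpow_neg, div_eq_mul_inv]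
  · have hne1 : T * π ^ (-n) ≠ 0 := mul_ne_zero hT0 (zpow_ne_zero _ hπ0)
    have hw0 : w (T * π ^ (-n)) hne1 = 0 := by
      rw [hwmul T (π ^ (-n)) hT0 (zpow_ne_zero _ hπ0), hwz π hπ0 (-n), hπ, hwT]
      push_cast
      linarith
    obtain ⟨c', hc', hlim⟩ := hzero _ hne1 hw0
    refine ⟨c', hc', hlim.congr' ?_⟩
    filter_upwards [hv.mul T (π ^ (-n)), hz π (-n)] with i h1 h2
    rw [h1, h2]
    congr 1
    rw [← zpow_natCast, Int.toNat_of_nonneg (by omega)]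

end Pool.Agent.Lib.SD
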