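import Pool.Agent.Lib.SD.Spec

/-! Module Rg: the valuation ring and the residue field of an ultrafilter. -/

set_option linter.unusedSectionVars false

namespace Pool.Agent.Lib.SD

open Filter Topology Polynomial

section

variable {L : Type} [Field L] [Algebra ℚ L] {U : Ultrafilter ℕ} {v : L → ℕ → ℝ}

private def Rg_Bd (U : Ultrafilter ℕ) (v : L → ℕ → ℝ) (φ : L) : Prop :=
  ∃ C : ℝ, ∀ᶠ i in (U : Filter ℕ), |v φ i| ≤ C

private theorem Rg_const (hv : Vals U v) (q : ℚ) :
    Tendsto (v (algebraMap ℚ L q)) (U : Filter ℕ) (𝓝 (q : ℝ)) := by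
  refine tendsto_const_nhds.congr' ?_
  filter_upwards [hv.const q] with i hi
  exact hi.symm

private theorem Rg_bd_of_tends {φ : L} {x : ℝ} (h : Tendsto (v φ) (U : Filter ℕ) (𝓝 x)) :
    Rg_Bd U v φ := by
  refine ⟨|x| + 1, ?_⟩
  have h1 : Tendsto (fun i => |v φ i|) (U : Filter ℕ) (𝓝 |x|) := h.abs
  exact h1.eventually_le_const (by linarith)

private theorem Rg_tends_of_bd {φ : L} (h : Rg_Bd U v φ) :
    ∃ x : ℝ, Tendsto (v φ) (U : Filter ℕ) (𝓝 x) := by
  obtain ⟨C, hC⟩ := h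
  have h1 : ((U.map (v φ) : Ultrafilter ℝ) : Filter ℝ) ≤ 𝓟 (Set.Icc (-C) C) := by
    rw [le_principal_iff]
    show ∀ᶠ i in (U : Filter ℕ), v φ i ∈ Set.Icc (-C) C
    filter_upwards [hC] with i hi
    exact abs_le.1 hi
  obtain ⟨x, -, hx⟩ := isCompact_Icc.ultrafilter_le_nhds (U.map (v φ)) h1
  exact ⟨x, hx⟩

private theorem Rg_add (hv : Vals U v) {φ ψ : L} {x y : ℝ}
    (h : Tendsto (v φ) (U : Filter ℕ) (𝓝 x)) (h' : Tendsto (v ψ) (U : Filter ℕ) (𝓝 y)) :
    Tendsto (v (φ + ψ)) (U : Filter ℕ) (𝓝 (x + y)) := by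
  refine (h.add h').congr' ?_
  filter_upwards [hv.add φ ψ] with i hi
  exact hi.symm

private theorem Rg_mul (hv : Vals U v) {φ ψ : L} {x y : ℝ}
    (h : Tendsto (v φ) (U : Filter ℕ) (𝓝 x)) (h' : Tendsto (v ψ) (U : Filter ℕ) (𝓝 y)) :
    Tendsto (v (φ * ψ)) (U : Filter ℕ) (𝓝 (x * y)) := by
  refine (h.mul h').congr' ?_
  filter_upwards [hv.mul φ ψ] with i hi
  exact hi.symm

end

theorem tRg : VcStmt → RgStmt := by
  intro hVc L _ _ U v hv
  obtain ⟨hne, hinv, hneg, -, -, -, -, -, -⟩ := hVc L U v hv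
  -- the valuation ring
  let O : ValuationSubring L :=
    { carrier := {φ | Rg_Bd U v φ}
      mul_mem' := by
        rintro a b ⟨C, hC⟩ ⟨D, hD⟩
        refine ⟨C * D, ?_⟩
        filter_upwards [hC, hD, hv.mul a b] with i h1 h2 h3
        rw [h3, abs_mul]
        exact mul_le_mul h1 h2 (abs_nonneg _) ((abs_nonneg _).trans h1)
      one_mem' := by
        have h := Rg_const hv 1
        rw [map_one] at h
        exact Rg_bd_of_tends h
      add_mem' := by
        rintro a b ⟨C, hC⟩ ⟨D, hD⟩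
        refine ⟨C + D, ?_⟩
        filter_upwards [hC, hD, hv.add a b] with i h1 h2 h3
        rw [h3]
        exact (abs_add_le _ _).trans (add_le_add h1 h2)
      zero_mem' := by
        have h := Rg_const hv 0
        rw [map_zero] at h
        exact Rg_bd_of_tends h
      neg_mem' := by
        rintro a ⟨C, hC⟩
        refine ⟨C, ?_⟩
        filter_upwards [hC, hneg a] with i h1 h2
        rw [h2, abs_neg]
        exact h1
      mem_or_inv_mem' := by
        intro a
        by_cases h : ∀ᶠ i in (U : Filter ℕ), |v a i| ≤ 1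
        · exact Or.inl ⟨1, h⟩
        · right
          rw [← Ultrafilter.eventually_not] at h
          refine ⟨1, ?_⟩
          filter_upwards [h, hinv a] with i h1 h2
          rw [h2, abs_inv]
          exact inv_le_one_of_one_le₀ (not_le.1 h1).le }
  have hO : ∀ φ : L, φ ∈ O ↔ Rg_Bd U v φ := fun φ => Iff.rfl
  have hlim : ∀ φ : O, ∃ x : ℝ, Tendsto (v (φ : L)) (U : Filter ℕ) (𝓝 x) := fun φ =>
    Rg_tends_of_bd ((hO φ).1 φ.2)
  choose l hl using hlim
  let r : O →+* ℝ :=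
    { toFun := l
      map_one' := by
        have h := Rg_const hv 1
        rw [map_one, Rat.cast_one] at h
        exact tendsto_nhds_unique (hl 1) h
      map_mul' := fun a b => tendsto_nhds_unique (hl (a * b)) (Rg_mul hv (hl a) (hl b))
      map_zero' := by
        have h := Rg_const hv 0
        rw [map_zero, Rat.cast_zero] at h
        exact tendsto_nhds_unique (hl 0) h
      map_add' := fun a b => tendsto_nhds_unique (hl (a + b)) (Rg_add hv (hl a) (hl b)) }
  have hr : ∀ φ : O, Tendsto (v (φ : L)) (U : Filter ℕ) (𝓝 (r φ)) := hl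
  -- inverses
  have hinvlim : ∀ (φ : L) (x : ℝ), x ≠ 0 → Tendsto (v φ) (U : Filter ℕ) (𝓝 x) →
      Tendsto (v φ⁻¹) (U : Filter ℕ) (𝓝 x⁻¹) := by
    intro φ x hx h
    refine (h.inv₀ hx).congr' ?_
    filter_upwards [hinv φ] with i hi
    exact hi.symm
  let F : IntermediateField ℚ ℝ :=
    { carrier := {x | ∃ φ : L, Tendsto (v φ) (U : Filter ℕ) (𝓝 x)}
      mul_mem' := by
        rintro a b ⟨φ, h⟩ ⟨ψ, h'⟩
        exact ⟨φ * ψ, Rg_mul hv h h'⟩
      add_mem' := by
        rintro a b ⟨φ, h⟩ ⟨ψ, h'⟩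
        exact ⟨φ + ψ, Rg_add hv h h'⟩
      algebraMap_mem' := by
        intro q
        exact ⟨algebraMap ℚ L q, Rg_const hv q⟩
      inv_mem' := by
        rintro a ⟨φ, h⟩
        by_cases ha : a = 0
        · refine ⟨φ, ?_⟩
          rw [ha, inv_zero]
          rwa [ha] at h
        · exact ⟨φ⁻¹, hinvlim φ a ha h⟩ }
  have hF : ∀ x : ℝ, x ∈ F ↔ ∃ φ : L, Tendsto (v φ) (U : Filter ℕ) (𝓝 x) := fun x => Iff.rfl
  refine ⟨O, r, F, hO, hr, ?_, ?_, hF⟩
  · intro φ
    constructor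
    · intro h0
      by_contra hcon
      rw [not_or, not_not] at hcon
      obtain ⟨h1, h2⟩ := hcon
      have h3 : φ * ⟨(φ : L)⁻¹, h2⟩ = 1 := by
        apply Subtype.ext
        exact mul_inv_cancel₀ h1
      have h4 := congrArg r h3
      rw [map_mul, h0, zero_mul, map_one] at h4
      exact zero_ne_one h4
    · rintro (h | h)
      · have h1 : φ = 0 := Subtype.ext h
        rw [h1, map_zero]
      · by_contra hcon
        exact h ((hO _).2 (Rg_bd_of_tends (hinvlim φ (r φ) hcon (hr φ))))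
  · ext x
    constructor
    · rintro ⟨φ, rfl⟩
      exact ⟨φ, hr φ⟩
    · rintro ⟨φ, h⟩
      exact ⟨⟨φ, (hO φ).2 (Rg_bd_of_tends h)⟩, tendsto_nhds_unique (hr _) h⟩

end Pool.Agent.Lib.SD
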