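import Pool.Agent.Lib.SD.Spec

/-! # Lib/SD: linear algebra over `ℚ(T)` -/

set_option autoImplicit false

namespace Pool.Agent.Lib.SD

open Filter Topology Polynomial

private theorem Rl_a (L : Type) [Field L] [Algebra ℚ L] (T S : L) (G : Polynomial (Polynomial ℤ))
    (d : ℕ) (hP : Prim T S G d) (ι : Type) [Fintype ι] (φ : ι → L) (hd : d < Fintype.card ι) :
    ∃ a : ι → ℚ[X], (∃ j, a j ≠ 0) ∧ ∑ j, aeval T (a j) * φ j = 0 := by
  choose q p hq hqp using fun j => hP.span (φ j)
  have hnl : ¬ LinearIndependent ℚ[X] p := by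
    intro h
    have h1 := h.fintype_card_le_finrank
    rw [Module.finrank_fintype_fun_eq_card, Fintype.card_fin] at h1
    omega
  obtain ⟨b, hb, j0, hj0⟩ := Fintype.not_linearIndependent_iff.1 hnl
  refine ⟨fun j => b j * q j, ⟨j0, mul_ne_zero hj0 (hq j0)⟩, ?_⟩
  have hbk : ∀ k, ∑ j, b j * p j k = 0 := by
    intro k
    have h1 := congrFun hb k
    simpa [Finset.sum_apply] using h1
  calc ∑ j, aeval T (b j * q j) * φ j
      = ∑ j, ∑ k : Fin d, aeval T (b j * p j k) * S ^ (k : ℕ) := by
        refine Finset.sum_congr rfl fun j _ => ?_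
        rw [map_mul, mul_assoc, hqp j, Finset.mul_sum]
        refine Finset.sum_congr rfl fun k _ => ?_
        rw [map_mul, mul_assoc]
    _ = ∑ k : Fin d, aeval T (∑ j, b j * p j k) * S ^ (k : ℕ) := by
        rw [Finset.sum_comm]
        refine Finset.sum_congr rfl fun k _ => ?_
        rw [map_sum, Finset.sum_mul]
    _ = 0 := by
        refine Finset.sum_eq_zero fun k _ => ?_
        rw [hbk k, map_zero, zero_mul]

theorem tRl : RlStmt := by
  intro L _ _ T S G d hP
  refine ⟨fun ι _ φ hd => Rl_a L T S G d hP ι φ hd, ?_⟩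
  intro ι _ φ hcard hind ψ
  obtain ⟨a, ⟨j0, hj0⟩, ha⟩ := Rl_a L T S G d hP (Option ι) (fun o => o.elim ψ φ) (by
    rw [Fintype.card_option, hcard]
    exact Nat.lt_succ_self d)
  rw [Fintype.sum_option] at ha
  simp only [Option.elim_none, Option.elim_some] at ha
  have hne : a none ≠ 0 := by
    intro h0
    rw [h0, map_zero, zero_mul, zero_add] at ha
    have h1 := hind _ ha
    cases j0 with
    | none => exact hj0 h0
    | some j => exact hj0 (h1 j)
  refine ⟨a none, fun j => -a (some j), hne, ?_⟩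
  have h2 : ∑ j, aeval T (-a (some j)) * φ j = -∑ j, aeval T (a (some j)) * φ j := by
    rw [← Finset.sum_neg_distrib]
    refine Finset.sum_congr rfl fun j _ => ?_
    rw [map_neg, neg_mul]
  rw [h2]
  exact eq_neg_of_add_eq_zero_left ha

end Pool.Agent.Lib.SD
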