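import Pool.Agent.Lib.SD.Spec

/-! # Module Ru: Runge's method -/

namespace Pool.Agent.Lib.SD

open Filter Topology Polynomial

private noncomputable def Ru_p {d n : ℕ} (c : Fin d × Fin (n + 1) → ℚ) (j : Fin d) : ℚ[X] :=
  ∑ a : Fin (n + 1), C (c (j, a)) * X ^ (a : ℕ)

private theorem Ru_coeff {d n : ℕ} (c : Fin d × Fin (n + 1) → ℚ) (j : Fin d) (a : Fin (n + 1)) :
    (Ru_p c j).coeff a = c (j, a) := by
  unfold Ru_p
  rw [Polynomial.finsetSum_coeff, Finset.sum_eq_single a]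
  · simp
  · intro b _ hb
    rw [Polynomial.coeff_C_mul, Polynomial.coeff_X_pow, if_neg, mul_zero]
    intro h
    exact hb (Fin.ext h.symm)
  · intro h
    exact absurd (Finset.mem_univ a) h

private theorem Ru_eval {L : Type} [Field L] [Algebra ℚ L] (T S : L) {d n : ℕ}
    (c : Fin d × Fin (n + 1) → ℚ) :
    ∑ j, aeval T (Ru_p c j) * S ^ (j : ℕ) =
      ∑ q : Fin d × Fin (n + 1), c q • (T ^ (q.2 : ℕ) * S ^ (q.1 : ℕ)) := by
  rw [Fintype.sum_prod_type]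
  refine Finset.sum_congr rfl fun j _ => ?_
  unfold Ru_p
  rw [map_sum, Finset.sum_mul]
  refine Finset.sum_congr rfl fun a _ => ?_
  rw [map_mul, aeval_C, map_pow, aeval_X, Algebra.smul_def, mul_assoc]

private theorem Ru_indep {L : Type} [Field L] [Algebra ℚ L] {T S : L}
    {G : Polynomial (Polynomial ℤ)} {d : ℕ} (Pr : Prim T S G d) (n : ℕ) :
    LinearIndependent ℚ (fun q : Fin d × Fin (n + 1) => T ^ (q.2 : ℕ) * S ^ (q.1 : ℕ)) := by
  rw [Fintype.linearIndependent_iff]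
  intro c hc q
  rw [← Ru_eval] at hc
  have h := Pr.indep (Ru_p c) hc q.1
  have h2 := Ru_coeff c q.1 q.2
  rw [h, Polynomial.coeff_zero] at h2
  exact h2.symm

/-- the basic growth bound -/
private theorem Ru_bound (hV : VcStmt) {L : Type} [Field L] [Algebra ℚ L] {U : Ultrafilter ℕ}
    {v : L → ℕ → ℝ} {T π : L} {m : ℕ} (P : Plc U v T π m) (S : L) :
    ∃ c : ℕ, ∀ n d : ℕ, ∀ a j : ℕ, a ≤ n → j ≤ d → ∃ C : ℝ, ∀ᶠ i in (U : Filter ℕ),
      |v (T ^ a * S ^ j) i| ≤ C * |v π i| ^ (-((m * n + c * d : ℕ) : ℤ)) := by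
  obtain ⟨hne, -, -, -, hpow, -, -, -, -⟩ := hV L U v P.vals
  have hs0 : ∀ᶠ i in (U : Filter ℕ), v π i ≠ 0 := hne π P.pine
  have hs1 : ∀ᶠ i in (U : Filter ℕ), |v π i| ≤ 1 := by
    have h1 : Tendsto (fun i => |v π i|) (U : Filter ℕ) (𝓝 0) := by
      have := P.pi0.abs
      rwa [abs_zero] at this
    exact h1.eventually (ge_mem_nhds one_pos) |>.mono fun i hi => hi
  -- bound for T
  obtain ⟨cT, -, hcT⟩ := P.ordT
  have hT : ∀ᶠ i in (U : Filter ℕ), |v T i| ≤ (|cT| + 1) * |v π i| ^ (-(m : ℤ)) := by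
    have h1 : ∀ᶠ i in (U : Filter ℕ), |v T i * v π i ^ m| ≤ |cT| + 1 :=
      hcT.abs.eventually (ge_mem_nhds (by linarith)) |>.mono fun i hi => hi
    filter_upwards [h1, hs0] with i h1 h0
    rw [abs_mul, abs_pow] at h1
    rw [zpow_neg, zpow_natCast, ← div_eq_mul_inv, le_div_iff₀ (pow_pos (abs_pos.mpr h0) m)]
    exact h1
  -- bound for S
  have hS : ∃ (c : ℕ) (C : ℝ), 0 ≤ C ∧ ∀ᶠ i in (U : Filter ℕ),
      |v S i| ≤ C * |v π i| ^ (-(c : ℤ)) := by
    by_cases hS0 : S = 0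
    · refine ⟨0, 0, le_rfl, ?_⟩
      filter_upwards [P.vals.const 0] with i hi
      rw [map_zero] at hi
      rw [hS0, hi]
      simp
    · obtain ⟨k, c, -, hk⟩ := P.ord S hS0
      refine ⟨k.natAbs, |c| + 1, by positivity, ?_⟩
      have h1 : ∀ᶠ i in (U : Filter ℕ), |v S i / v π i ^ k| ≤ |c| + 1 :=
        hk.abs.eventually (ge_mem_nhds (by linarith)) |>.mono fun i hi => hi
      filter_upwards [h1, hs0, hs1] with i h1 h0 h2
      have hp : 0 < |v π i| := abs_pos.mpr h0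
      rw [abs_div, abs_zpow, div_le_iff₀ (zpow_pos hp k)] at h1
      refine h1.trans (mul_le_mul_of_nonneg_left ?_ (by positivity))
      apply zpow_le_zpow_right_of_le_one₀ hp h2
      rw [Int.natCast_natAbs]
      exact neg_abs_le k
  obtain ⟨c, CS, hCS, hS⟩ := hS
  refine ⟨c, fun n d a j ha hj => ⟨(|cT| + 1) ^ a * CS ^ j, ?_⟩⟩
  filter_upwards [hT, hS, hs0, hs1, hpow T a, hpow S j, P.vals.mul (T ^ a) (S ^ j)] with i hT hS
    h0 h1 e1 e2 e3
  have hp : 0 < |v π i| := abs_pos.mpr h0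
  rw [e3, e1, e2, abs_mul, abs_pow, abs_pow]
  have b1 : |v T i| ^ a ≤ ((|cT| + 1) * |v π i| ^ (-(m : ℤ))) ^ a :=
    pow_le_pow_left₀ (abs_nonneg _) hT a
  have b2 : |v S i| ^ j ≤ (CS * |v π i| ^ (-(c : ℤ))) ^ j :=
    pow_le_pow_left₀ (abs_nonneg _) hS j
  have b3 : |v T i| ^ a * |v S i| ^ j ≤
      ((|cT| + 1) * |v π i| ^ (-(m : ℤ))) ^ a * (CS * |v π i| ^ (-(c : ℤ))) ^ j :=
    mul_le_mul b1 b2 (by positivity) (by positivity)
  refine b3.trans ?_
  have e4 : ((|cT| + 1) * |v π i| ^ (-(m : ℤ))) ^ a * (CS * |v π i| ^ (-(c : ℤ))) ^ j =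
      (|cT| + 1) ^ a * CS ^ j * |v π i| ^ (-((m * a + c * j : ℕ) : ℤ)) := by
    rw [mul_pow, mul_pow, ← zpow_natCast (|v π i| ^ (-(m : ℤ))) a,
      ← zpow_natCast (|v π i| ^ (-(c : ℤ))) j, ← zpow_mul, ← zpow_mul]
    have e5 : (-((m * a + c * j : ℕ) : ℤ)) = -(m : ℤ) * (a : ℤ) + -(c : ℤ) * (j : ℤ) := by
      push_cast; ring
    rw [e5, zpow_add₀ hp.ne']
    ring
  rw [e4]
  refine mul_le_mul_of_nonneg_left ?_ (by positivity)
  apply zpow_le_zpow_right_of_le_one₀ hp h1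
  have h3 : m * a + c * j ≤ m * n + c * d :=
    Nat.add_le_add (Nat.mul_le_mul_left m ha) (Nat.mul_le_mul_left c hj)
  have h4 : ((m * a + c * j : ℕ) : ℤ) ≤ ((m * n + c * d : ℕ) : ℤ) := by exact_mod_cast h3
  exact neg_le_neg h4

/-- **Ru.** -/
theorem tRu (hV : VcStmt) (hFu : FuStmt) (hSt : StStmt) : RuStmt := by
  intro L _ _ U v T π m S G d F P Pr R hlt
  obtain ⟨hfin, -⟩ := (hFu L U v T π m S G d P Pr).2 F R
  obtain ⟨W', hW', hstep⟩ := hSt L U v T π m P F R hfin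
  obtain ⟨c, hc⟩ := Ru_bound hV P S
  set e := Module.finrank ℚ F with he
  set n : ℕ := e * (c * d + 1) with hn
  set W : Submodule ℚ L :=
    Submodule.span ℚ (Set.range (fun q : Fin d × Fin (n + 1) => T ^ (q.2 : ℕ) * S ^ (q.1 : ℕ)))
    with hW
  have hWfin : FiniteDimensional ℚ W := by
    rw [hW]
    exact FiniteDimensional.span_of_finite ℚ (Set.finite_range _)
  have hWrank : Module.finrank ℚ W = d * (n + 1) := by
    rw [hW, finrank_span_eq_card (Ru_indep Pr n)]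
    simp
  have hWle : W ≤ W' (-((m * n + c * d : ℕ) : ℤ)) := by
    rw [hW, Submodule.span_le]
    rintro _ ⟨q, rfl⟩
    exact (hW' _ _).mpr (hc n d q.2 q.1 (Nat.lt_succ_iff.mp q.2.2) q.1.2.le)
  have hiter : ∀ r : ℕ, Module.finrank ℚ W ≤ r * e +
      Module.finrank ℚ (W ⊓ W' (-((m * n + c * d : ℕ) : ℤ) + r) : Submodule ℚ L) := by
    intro r
    induction r with
    | zero =>
      rw [Nat.cast_zero, add_zero, inf_eq_left.mpr hWle]
      simp
    | succ r ih =>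
      set k : ℤ := -((m * n + c * d : ℕ) : ℤ) + r with hk
      have hfd : FiniteDimensional ℚ (W ⊓ W' k : Submodule ℚ L) :=
        Submodule.finiteDimensional_of_le inf_le_left
      have h1 := hstep k (W ⊓ W' k) hfd inf_le_right
      have h2 : (W ⊓ W' k) ⊓ W' (k + 1) ≤ W ⊓ W' (k + 1) :=
        inf_le_inf_right _ inf_le_left
      have hfd2 : FiniteDimensional ℚ (W ⊓ W' (k + 1) : Submodule ℚ L) :=
        Submodule.finiteDimensional_of_le inf_le_left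
      have h3 := Submodule.finrank_mono h2
      have h4 : -((m * n + c * d : ℕ) : ℤ) + ((r + 1 : ℕ) : ℤ) = k + 1 := by
        rw [hk]; push_cast; ring
      rw [h4, Nat.succ_mul]
      omega
  have hfinal := hiter (m * n + c * d + 1)
  have hk1 : -((m * n + c * d : ℕ) : ℤ) + ((m * n + c * d + 1 : ℕ) : ℤ) = 1 := by
    push_cast; ring
  rw [hk1, hWrank] at hfinal
  have hne : (W ⊓ W' 1 : Submodule ℚ L) ≠ ⊥ := by
    intro hbot
    rw [hbot, finrank_bot, add_zero] at hfinal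
    have h5 : (m * e + 1) * (n + 1) ≤ d * (n + 1) := Nat.mul_le_mul_right _ hlt
    have h6 : (m * e + 1) * (n + 1) = e * m * n + (e * m + 1 + n) := by ring
    have h7 : (m * n + c * d + 1) * e = e * m * n + n := by rw [hn]; ring
    have h8 := h5.trans hfinal
    rw [h6, h7] at h8
    omega
  obtain ⟨φ, hφ, hφ0⟩ := Submodule.exists_mem_ne_zero_of_ne_bot hne
  obtain ⟨hφW, hφ1⟩ := hφ
  obtain ⟨a, ha⟩ := (Submodule.mem_span_range_iff_exists_fun ℚ).mp hφW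
  have hsum : ∑ j, aeval T (Ru_p a j) * S ^ (j : ℕ) = φ := by
    rw [Ru_eval]; exact ha
  refine ⟨Ru_p a, by rw [hsum]; exact hφ0, ?_⟩
  rw [hsum]
  obtain ⟨C, hC⟩ := (hW' 1 φ).mp hφ1
  have hz : Tendsto (fun i => C * |v π i| ^ (1 : ℤ)) (U : Filter ℕ) (𝓝 0) := by
    have h1 := (P.pi0.abs).const_mul C
    rw [abs_zero, mul_zero] at h1
    refine h1.congr fun i => ?_
    rw [zpow_one]
  exact squeeze_zero_norm' (hC.mono fun i hi => by rw [Real.norm_eq_abs]; exact hi) hz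

end Pool.Agent.Lib.SD
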