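import Pool.Agent.Lib.SD.Spec

namespace Pool.Agent.Lib.SD

open Filter Topology Polynomial

theorem tSb : SbStmt := by
  intro U P Q hU hP hQ
  have h1 : ∀ n : ℕ, ∃ᶠ k in atTop, P k ∧ ∀ k' ∈ {k' : ℕ | k' ≤ n}, Q k' k := by
    intro n
    have h2 : ∀ᶠ k in (U : Filter ℕ), P k ∧ ∀ k' ∈ {k' : ℕ | k' ≤ n}, Q k' k :=
      hP.and ((Filter.eventually_all_finite (Set.finite_le_nat n)).2 fun k' _ => hQ k')
    exact h2.frequently.filter_mono hU
  obtain ⟨f, hf, hf'⟩ := Filter.extraction_forall_of_frequently h1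
  exact ⟨f, hf, fun k => (hf' k).1, fun k' k hk => (hf' k).2 k' hk⟩

end Pool.Agent.Lib.SD
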