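import Pool.Agent.Lib.SD.Spec

/-!
# Lib/SD: module Se, a separable equation
-/

namespace Pool.Agent.Lib.SD

open Filter Topology Polynomial

theorem tSe : SeStmt := by
  classical
  intro L _ _ hdep π φ hπ
  obtain ⟨ε, hε⟩ : ∃ ε : ℚ[X] →+* L, ε = ((aeval π : ℚ[X] →ₐ[ℚ] L) : ℚ[X] →+* L) := ⟨_, rfl⟩
  rw [← hε]
  have hex : ∃ n : ℕ, ∃ p : Polynomial ℚ[X], p ≠ 0 ∧ eval₂ ε φ p = 0 ∧ p.natDegree = n := by
    obtain ⟨p, hp, hp0⟩ := hdep π φ
    exact ⟨p.natDegree, p, hp, by rw [hε]; exact hp0, rfl⟩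
  obtain ⟨p, hp, hp0, hpn⟩ := Nat.find_spec hex
  have hmin : ∀ q : Polynomial ℚ[X], q ≠ 0 → eval₂ ε φ q = 0 → p.natDegree ≤ q.natDegree := by
    intro q hq hq0
    rw [hpn]
    exact Nat.find_min' hex ⟨q, hq, hq0, rfl⟩
  -- the degree is positive
  have hdeg : p.natDegree ≠ 0 := by
    intro h
    rw [Polynomial.natDegree_eq_zero] at h
    obtain ⟨q, hq⟩ := h
    rw [← hq, eval₂_C, hε] at hp0
    have hq0 : q ≠ 0 := by
      rintro rfl
      rw [map_zero] at hq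
      exact hp hq.symm
    exact hq0 ((transcendental_iff.1 hπ) q hp0)
  refine ⟨p, hp0, fun hd => ?_⟩
  have h1 : derivative p ≠ 0 := by
    intro h
    exact hdeg (natDegree_eq_zero_of_derivative_eq_zero h)
  have h2 := hmin _ h1 hd
  have h3 := natDegree_derivative_lt hdeg
  omega

end Pool.Agent.Lib.SD
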