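import Pool.Agent.Lib.SD.Spec

namespace Pool.Agent.Lib.SD

open Filter Topology Polynomial

private lemma Sm_bound (n : ℕ) (q : ℚ[X]) (hq : q.natDegree ≤ n) :
    ∃ B : ℝ, 0 ≤ B ∧ ∀ t : ℝ, 1 ≤ |t| →
      |aeval t q - (q.coeff n : ℝ) * t ^ n| * |t| ≤ B * |t| ^ n := by
  refine ⟨∑ k ∈ Finset.range n, |(q.coeff k : ℝ)|, Finset.sum_nonneg fun _ _ => abs_nonneg _, ?_⟩
  intro t ht
  have h1 : aeval t q = ∑ k ∈ Finset.range (n + 1), (q.coeff k : ℝ) * t ^ k := by
    rw [Polynomial.aeval_eq_sum_range' (Nat.lt_succ_of_le hq)]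
    refine Finset.sum_congr rfl fun k _ => ?_
    rw [Algebra.smul_def]
    rfl
  rw [h1, Finset.sum_range_succ, add_sub_cancel_right]
  have h2 : |∑ k ∈ Finset.range n, (q.coeff k : ℝ) * t ^ k| ≤
      ∑ k ∈ Finset.range n, |(q.coeff k : ℝ)| * |t| ^ k := by
    refine (Finset.abs_sum_le_sum_abs _ _).trans (le_of_eq ?_)
    refine Finset.sum_congr rfl fun k _ => ?_
    rw [abs_mul, abs_pow]
  refine (mul_le_mul_of_nonneg_right h2 (abs_nonneg t)).trans ?_
  rw [Finset.sum_mul, Finset.sum_mul]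
  refine Finset.sum_le_sum fun k hk => ?_
  rw [mul_assoc, ← pow_succ]
  exact mul_le_mul_of_nonneg_left (pow_le_pow_right₀ ht (Finset.mem_range.mp hk)) (abs_nonneg _)

private lemma Sm_core (F : Filter ℕ) (t y : ℕ → ℝ) (d : ℕ) (a : Fin (d + 1) → ℚ[X])
    (ha : ∃ j, a j ≠ 0) (ht : Tendsto (fun i => |t i|) F atTop) (hy : Tendsto y F (𝓝 0))
    (h : ∀ᶠ i in F, ∑ j : Fin (d + 1), aeval (t i) (a j) * y i ^ (j : ℕ) = 0) :
    ∃ C : ℝ, ∀ᶠ i in F, |y i| ^ d * |t i| ≤ C := by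
  classical
  -- the maximal degree
  obtain ⟨j1, hj1, hmax⟩ := Finset.exists_max_image (Finset.univ.filter fun j => a j ≠ 0)
    (fun j => (a j).natDegree) (by
      obtain ⟨j, hj⟩ := ha
      exact ⟨j, by simpa using hj⟩)
  set n := (a j1).natDegree with hn
  have hj1' : a j1 ≠ 0 := by simpa using hj1
  have hdeg : ∀ j, (a j).natDegree ≤ n := by
    intro j
    by_cases hj : a j = 0
    · rw [hj]
      simp
    · exact hmax j (by simpa using hj)
  -- the smallest index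
  obtain ⟨j0, hj0, hmin⟩ := Finset.exists_min_image
    (Finset.univ.filter fun j => (a j).coeff n ≠ 0) (fun j => (j : ℕ)) (by
      refine ⟨j1, ?_⟩
      simpa [hn] using hj1')
  have hj0' : (a j0).coeff n ≠ 0 := by simpa using hj0
  have hlow : ∀ j : Fin (d + 1), (j : ℕ) < j0 → (a j).coeff n = 0 := by
    intro j hj
    by_contra hne
    have := hmin j (by simpa using hne)
    omega
  choose B hB0 hB using fun j => Sm_bound n (a j) (hdeg j)
  set g : ℝ → ℝ := fun z => ∑ j : Fin (d + 1),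
    (if (j0 : ℕ) ≤ j then ((a j).coeff n : ℝ) * z ^ ((j : ℕ) - j0) else 0) with hg
  have hgc : Continuous g := by
    refine continuous_finsetSum _ fun j _ => ?_
    split_ifs
    · fun_prop
    · fun_prop
  have hg0 : g 0 = (a j0).coeff n := by
    rw [hg]
    simp only
    rw [Finset.sum_eq_single j0]
    · simp
    · intro j _ hj
      split_ifs with h1
      · have : (j : ℕ) - j0 ≠ 0 := by
          have : (j : ℕ) ≠ j0 := fun h2 => hj (Fin.ext h2)
          omega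
        rw [zero_pow this, mul_zero]
      · rfl
    · simp
  have hα : 0 < |((a j0).coeff n : ℝ)| := by
    rw [abs_pos]
    exact_mod_cast hj0'
  have hglim : Tendsto (fun i => |g (y i)|) F (𝓝 |((a j0).coeff n : ℝ)|) := by
    rw [← hg0]
    exact ((hgc.tendsto 0).comp hy).abs
  have hgev : ∀ᶠ i in F, |((a j0).coeff n : ℝ)| / 2 < |g (y i)| :=
    hglim.eventually (lt_mem_nhds (by linarith))
  have hy1 : ∀ᶠ i in F, |y i| < 1 := by
    have h1 : Tendsto (fun i => |y i|) F (𝓝 |0|) := hy.abs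
    rw [abs_zero] at h1
    exact h1.eventually (gt_mem_nhds one_pos)
  have ht1 : ∀ᶠ i in F, 1 ≤ |t i| := ht.eventually (eventually_ge_atTop 1)
  refine ⟨2 * (∑ j, B j) / |((a j0).coeff n : ℝ)|, ?_⟩
  filter_upwards [h, hgev, hy1, ht1] with i h1 h2 h3 h4
  have htn : 0 < |t i| ^ n := by positivity
  -- the main identity
  have key : t i ^ n * y i ^ (j0 : ℕ) * g (y i) =
      -∑ j : Fin (d + 1), (aeval (t i) (a j) - ((a j).coeff n : ℝ) * t i ^ n) * y i ^ (j : ℕ) := by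
    have e1 : t i ^ n * y i ^ (j0 : ℕ) * g (y i) =
        ∑ j : Fin (d + 1), ((a j).coeff n : ℝ) * t i ^ n * y i ^ (j : ℕ) := by
      rw [hg]
      simp only
      rw [Finset.mul_sum]
      refine Finset.sum_congr rfl fun j _ => ?_
      split_ifs with h5
      · have : y i ^ (j : ℕ) = y i ^ (j0 : ℕ) * y i ^ ((j : ℕ) - j0) := by
          rw [← pow_add]
          congr 1
          omega
        rw [this]
        ring
      · rw [hlow j (by omega)]
        simp
    have e2 : ∑ j : Fin (d + 1), (aeval (t i) (a j) - ((a j).coeff n : ℝ) * t i ^ n) *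
        y i ^ (j : ℕ) = ∑ j : Fin (d + 1), aeval (t i) (a j) * y i ^ (j : ℕ) -
        ∑ j : Fin (d + 1), ((a j).coeff n : ℝ) * t i ^ n * y i ^ (j : ℕ) := by
      rw [← Finset.sum_sub_distrib]
      refine Finset.sum_congr rfl fun j _ => ?_
      ring
    rw [e1, e2, h1]
    ring
  have hbd : |t i| ^ n * |y i| ^ (j0 : ℕ) * |g (y i)| * |t i| ≤ (∑ j, B j) * |t i| ^ n := by
    have e3 : |t i| ^ n * |y i| ^ (j0 : ℕ) * |g (y i)| = |t i ^ n * y i ^ (j0 : ℕ) * g (y i)| := by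
      rw [abs_mul, abs_mul, abs_pow, abs_pow]
    rw [e3, key, abs_neg]
    refine (mul_le_mul_of_nonneg_right (Finset.abs_sum_le_sum_abs _ _) (abs_nonneg _)).trans ?_
    rw [Finset.sum_mul, Finset.sum_mul]
    refine Finset.sum_le_sum fun j _ => ?_
    rw [abs_mul, abs_pow]
    have h5 : |y i| ^ (j : ℕ) ≤ 1 := pow_le_one₀ (abs_nonneg _) h3.le
    calc |aeval (t i) (a j) - ((a j).coeff n : ℝ) * t i ^ n| * |y i| ^ (j : ℕ) * |t i|
        = (|aeval (t i) (a j) - ((a j).coeff n : ℝ) * t i ^ n| * |t i|) * |y i| ^ (j : ℕ) := by ring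
      _ ≤ (|aeval (t i) (a j) - ((a j).coeff n : ℝ) * t i ^ n| * |t i|) * 1 :=
          mul_le_mul_of_nonneg_left h5 (by positivity)
      _ ≤ B j * |t i| ^ n := by
          rw [mul_one]
          exact hB j (t i) h4
  have hbd2 : |y i| ^ (j0 : ℕ) * |g (y i)| * |t i| ≤ ∑ j, B j := by
    have e4 : |t i| ^ n * |y i| ^ (j0 : ℕ) * |g (y i)| * |t i| =
        (|y i| ^ (j0 : ℕ) * |g (y i)| * |t i|) * |t i| ^ n := by ring
    rw [e4] at hbd
    exact le_of_mul_le_mul_right hbd htn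
  have hbd3 : |y i| ^ d * |t i| * (|((a j0).coeff n : ℝ)| / 2) ≤ ∑ j, B j := by
    have h6 : |y i| ^ d ≤ |y i| ^ (j0 : ℕ) :=
      pow_le_pow_of_le_one (abs_nonneg _) h3.le (by have := j0.isLt; omega)
    calc |y i| ^ d * |t i| * (|((a j0).coeff n : ℝ)| / 2)
        ≤ |y i| ^ (j0 : ℕ) * |t i| * |g (y i)| :=
          mul_le_mul (mul_le_mul_of_nonneg_right h6 (abs_nonneg _)) h2.le (by positivity)
            (by positivity)
      _ = |y i| ^ (j0 : ℕ) * |g (y i)| * |t i| := by ring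
      _ ≤ ∑ j, B j := hbd2
  rw [le_div_iff₀ hα]
  linarith

theorem tSm : VcStmt → RlStmt → SmStmt := by
  intro hVc hRl L _ _ U v T S G d hV hP hT φ hφ
  obtain ⟨a, ha, hrel⟩ := (hRl L T S G d hP).1 (Fin (d + 1)) (fun j => φ ^ (j : ℕ)) (by simp)
  obtain ⟨-, -, -, -, hpow, -, hsum, hpoly, -⟩ := hVc L U v hV
  refine Sm_core (U : Filter ℕ) (v T) (v φ) d a ha hT hφ ?_
  have h0 := hV.const 0
  have h1 := hsum (Fin (d + 1)) Finset.univ (fun j => aeval T (a j) * φ ^ (j : ℕ))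
  have h2 : ∀ᶠ i in (U : Filter ℕ), ∀ j : Fin (d + 1),
      v (aeval T (a j) * φ ^ (j : ℕ)) i = aeval (v T i) (a j) * v φ i ^ (j : ℕ) := by
    rw [Filter.eventually_all]
    intro j
    filter_upwards [hV.mul (aeval T (a j)) (φ ^ (j : ℕ)), hpoly T (a j), hpow φ j] with i h3 h4 h5
    rw [h3, h4, h5]
  filter_upwards [h0, h1, h2] with i h3 h4 h5
  rw [hrel] at h4
  rw [map_zero] at h3
  rw [← Finset.sum_congr rfl fun j _ => h5 j, ← h4, h3]
  simp

end Pool.Agent.Lib.SD
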