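import Pool.Agent.Lib.SD.Spec

/-!
# Lib/SD, module St: one step of the filtration by the order at the place
-/

namespace Pool.Agent.Lib.SD

open Filter Topology Polynomial

private theorem St_compact (U : Ultrafilter ℕ) (f : ℕ → ℝ) (C : ℝ)
    (h : ∀ᶠ i in (U : Filter ℕ), |f i| ≤ C) : ∃ w : ℝ, Tendsto f (U : Filter ℕ) (𝓝 w) := by
  obtain ⟨w, -, hw⟩ := (isCompact_Icc (a := -C) (b := C)).ultrafilter_le_nhds (U.map f) (by
    rw [le_principal_iff]
    exact h.mono fun i hi => abs_le.1 hi)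
  exact ⟨w, hw⟩

section
variable {L : Type} [Field L] [Algebra ℚ L] {U : Ultrafilter ℕ} {v : L → ℕ → ℝ}

private theorem St_smul (hv : Vals U v) (q : ℚ) (φ : L) :
    ∀ᶠ i in (U : Filter ℕ), v (q • φ) i = q * v φ i := by
  filter_upwards [hv.mul (algebraMap ℚ L q) φ, hv.const q] with i h1 h2
  rw [Algebra.smul_def, h1, h2]

private theorem St_zero (hv : Vals U v) : ∀ᶠ i in (U : Filter ℕ), v 0 i = 0 := by
  filter_upwards [St_smul hv 0 0] with i h1
  rw [zero_smul, Rat.cast_zero, zero_mul] at h1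
  exact h1

/-- the functions which are `O(π^k)` -/
private def St_W (hv : Vals U v) (π : L) (k : ℤ) : Submodule ℚ L where
  carrier := {φ | ∃ C : ℝ, ∀ᶠ i in (U : Filter ℕ), |v φ i| ≤ C * |v π i| ^ k}
  add_mem' := by
    rintro φ ψ ⟨C, hC⟩ ⟨D, hD⟩
    refine ⟨C + D, ?_⟩
    filter_upwards [hC, hD, hv.add φ ψ] with i h1 h2 h3
    rw [h3, add_mul]
    exact (abs_add_le _ _).trans (add_le_add h1 h2)
  zero_mem' := by
    refine ⟨0, ?_⟩
    filter_upwards [St_zero hv] with i h1
    rw [h1, abs_zero, zero_mul]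
  smul_mem' := by
    rintro q φ ⟨C, hC⟩
    refine ⟨|(q : ℝ)| * C, ?_⟩
    filter_upwards [hC, St_smul hv q φ] with i h1 h2
    rw [h2, abs_mul, mul_assoc]
    exact mul_le_mul_of_nonneg_left h1 (abs_nonneg _)

private theorem St_mem (hv : Vals U v) (π : L) (k : ℤ) (φ : L) :
    φ ∈ St_W hv π k ↔ ∃ C : ℝ, ∀ᶠ i in (U : Filter ℕ), |v φ i| ≤ C * |v π i| ^ k := Iff.rfl

private theorem St_lim (hv : Vals U v) (π : L) (hne : ∀ᶠ i in (U : Filter ℕ), v π i ≠ 0) (k : ℤ)
    (φ : L) (hφ : φ ∈ St_W hv π k) :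
    ∃ x : ℝ, Tendsto (fun i => v φ i / v π i ^ k) (U : Filter ℕ) (𝓝 x) := by
  obtain ⟨C, hC⟩ := hφ
  apply St_compact U _ C
  filter_upwards [hC, hne] with i h1 h2
  rw [abs_div, abs_zpow, div_le_iff₀ (zpow_pos (abs_pos.2 h2) k)]
  exact h1

end

theorem tSt : VcStmt → StStmt := by
  intro hVc L _ _ U v T π m hpl F hF hfin
  obtain ⟨hne, hinv, -, -, -, hzpow, -, -, -⟩ := hVc L U v hpl.vals
  have hv := hpl.vals
  have hπ : ∀ᶠ i in (U : Filter ℕ), v π i ≠ 0 := hne π hpl.pine
  refine ⟨St_W hv π, St_mem hv π, ?_⟩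
  intro k W hW hWk
  choose x hx using fun φ : W => St_lim hv π hπ k (φ : L) (hWk φ.2)
  let lam : W →ₗ[ℚ] ℝ :=
    { toFun := x
      map_add' := by
        intro φ ψ
        refine tendsto_nhds_unique (hx (φ + ψ)) (((hx φ).add (hx ψ)).congr' ?_)
        filter_upwards [hv.add (φ : L) (ψ : L)] with i h1
        rw [Submodule.coe_add, h1, add_div]
      map_smul' := by
        intro q φ
        refine tendsto_nhds_unique (hx (q • φ)) ?_
        have h2 := (hx φ).const_mul (q : ℝ)
        rw [RingHom.id_apply, Rat.smul_def]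
        refine h2.congr' ?_
        filter_upwards [St_smul hv q (φ : L)] with i h1
        rw [Submodule.coe_smul, h1, mul_div_assoc] }
  have hlam : ∀ φ, lam φ = x φ := fun _ => rfl
  have hrange : LinearMap.range lam ≤ Subalgebra.toSubmodule F.toSubalgebra := by
    rintro _ ⟨φ, rfl⟩
    show x φ ∈ F
    rw [hF]
    refine ⟨(φ : L) * (π ^ k)⁻¹, ?_⟩
    refine (hx φ).congr' ?_
    filter_upwards [hv.mul (φ : L) (π ^ k)⁻¹, hinv (π ^ k), hzpow π k] with i h1 h2 h3
    rw [h1, h2, h3, div_eq_mul_inv]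
  have hfr : Module.finrank ℚ (LinearMap.range lam) ≤ Module.finrank ℚ F := by
    have h1 : FiniteDimensional ℚ (Subalgebra.toSubmodule F.toSubalgebra) := hfin
    exact Submodule.finrank_mono hrange
  have hker : Module.finrank ℚ (LinearMap.ker lam) ≤
      Module.finrank ℚ (W ⊓ St_W hv π (k + 1) : Submodule ℚ L) := by
    have hmem : ∀ φ : LinearMap.ker lam, ((φ : W) : L) ∈ (W ⊓ St_W hv π (k + 1) : Submodule ℚ L) := by
      rintro ⟨φ, hφ⟩
      refine ⟨φ.2, ?_⟩
      show (φ : L) ∈ St_W hv π (k + 1)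
      by_cases h0 : (φ : L) = 0
      · rw [h0]
        exact Submodule.zero_mem _
      obtain ⟨k', c, hc, hlim⟩ := hpl.ord (φ : L) h0
      have hx0 : Tendsto (fun i => v (φ : L) i / v π i ^ k) (U : Filter ℕ) (𝓝 0) := by
        have h1 := hx φ
        have h2 : x φ = 0 := hφ
        rwa [h2] at h1
      have hk' : k + 1 ≤ k' := by
        by_contra hcon
        have hle : k' ≤ k := by omega
        apply hc
        obtain ⟨r, hr⟩ := Int.eq_ofNat_of_zero_le (sub_nonneg.2 hle)
        have h1 := hx0.mul (hpl.pi0.pow r)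
        rw [zero_mul] at h1
        refine tendsto_nhds_unique hlim (h1.congr' ?_)
        filter_upwards [hπ] with i h2
        have e : v π i ^ k = v π i ^ r * v π i ^ k' := by
          rw [← zpow_natCast, ← zpow_add₀ h2]
          congr 1
          omega
        rw [e]
        have n1 : v π i ^ r ≠ 0 := pow_ne_zero _ h2
        have n2 : v π i ^ k' ≠ 0 := zpow_ne_zero _ h2
        field_simp
      refine ⟨|c| + 1, ?_⟩
      have h1 : ∀ᶠ i in (U : Filter ℕ), |v (φ : L) i / v π i ^ k'| < |c| + 1 :=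
        hlim.abs.eventually_lt_const (by linarith)
      have h2 : ∀ᶠ i in (U : Filter ℕ), |v π i| < 1 := by
        have := hpl.pi0.abs
        rw [abs_zero] at this
        exact this.eventually_lt_const one_pos
      filter_upwards [h1, h2, hπ] with i a1 a2 a3
      have hp : 0 < |v π i| := abs_pos.2 a3
      rw [abs_div, abs_zpow, div_lt_iff₀ (zpow_pos hp k')] at a1
      refine a1.le.trans ?_
      apply mul_le_mul_of_nonneg_left _ (by positivity)
      exact zpow_le_zpow_right_of_le_one₀ hp a2.le hk'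
    let j : LinearMap.ker lam →ₗ[ℚ] (W ⊓ St_W hv π (k + 1) : Submodule ℚ L) :=
      LinearMap.codRestrict _ (W.subtype.comp (LinearMap.ker lam).subtype) hmem
    have hj : Function.Injective j := by
      intro a b hab
      have h1 : (((a : W) : L)) = ((b : W) : L) :=
        congrArg (fun z : (W ⊓ St_W hv π (k + 1) : Submodule ℚ L) => (z : L)) hab
      exact Subtype.ext (Subtype.ext h1)
    have h2 : FiniteDimensional ℚ (W ⊓ St_W hv π (k + 1) : Submodule ℚ L) :=
      Submodule.finiteDimensional_inf_left W _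
    exact LinearMap.finrank_le_finrank_of_injective hj
  have hrn := LinearMap.finrank_range_add_finrank_ker lam
  omega

end Pool.Agent.Lib.SD
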