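import Pool.Agent.Lib.SD.Spec

/-!
# Lib/SD, module Tw: the residue field has degree at most two
-/

namespace Pool.Agent.Lib.SD

open Filter Topology Polynomial

private lemma Tw_ev2_map {R S : Type} [CommRing R] [CommRing S] (f : R →+* S) (a b : R)
    (G : Polynomial (Polynomial ℤ)) : f (ev2 a b G) = ev2 (f a) (f b) G := by
  unfold ev2
  rw [Polynomial.hom_eval₂]
  congr 1
  refine Polynomial.ringHom_ext' (RingHom.ext_int _ _) ?_
  rw [RingHom.comp_apply, coe_eval₂RingHom, coe_eval₂RingHom, Polynomial.eval₂_X,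
    Polynomial.eval₂_X]

/-- the value of a power series near zero -/
private lemma Tw_near {F : Type} [Field F] (emb : F →+* ℝ) (Φ : PowerSeries F) (C : ℝ)
    (hC : 0 ≤ C) (hb : ∀ b, |emb (PowerSeries.coeff b Φ)| ≤ C ^ (b + 1)) (s y : ℝ)
    (hs : C * |s| ≤ 1 / 2) (h : HasSum (fun b => emb (PowerSeries.coeff b Φ) * s ^ b) y) :
    |y - emb (PowerSeries.coeff 0 Φ)| ≤ 2 * C ^ 2 * |s| := by
  have h1 := (hasSum_nat_add_iff' 1).2 h
  rw [Finset.sum_range_one, pow_zero, mul_one] at h1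
  have h2 : HasSum (fun b : ℕ => C ^ 2 * |s| * (1 / 2 : ℝ) ^ b) (C ^ 2 * |s| * 2) := by
    have := (hasSum_geometric_two).mul_left (C ^ 2 * |s|)
    exact this
  have h3 : ∀ b : ℕ, ‖emb (PowerSeries.coeff (b + 1) Φ) * s ^ (b + 1)‖ ≤
      C ^ 2 * |s| * (1 / 2 : ℝ) ^ b := by
    intro b
    rw [Real.norm_eq_abs, abs_mul, abs_pow]
    calc |emb (PowerSeries.coeff (b + 1) Φ)| * |s| ^ (b + 1) ≤
        C ^ (b + 1 + 1) * |s| ^ (b + 1) :=
          mul_le_mul_of_nonneg_right (hb (b + 1)) (by positivity)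
      _ = C ^ 2 * |s| * (C * |s|) ^ b := by
          rw [mul_pow]
          ring
      _ ≤ C ^ 2 * |s| * (1 / 2 : ℝ) ^ b := by
          refine mul_le_mul_of_nonneg_left ?_ (by positivity)
          exact pow_le_pow_left₀ (by positivity) hs b
  have h4 := tsum_of_norm_bounded h2 h3
  rw [h1.tsum_eq, Real.norm_eq_abs] at h4
  linarith

theorem tTw : VcStmt → FuStmt → RiStmt → ExStmt → EsStmt → FoStmt → SbStmt → TwStmt := by
  intro hVc hFu _ hEx _ hFo hSb hcore L _ _ U v T π m S G d F N hdep hU hplc hprim hres hN hint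
    hnear hmd
  by_contra hcon
  push Not at hcon
  have hv := hplc.vals
  obtain ⟨hne, -, -, -, hpow, -, -, -, hev2⟩ := hVc L U _ hv
  have hfd : FiniteDimensional ℚ F :=
    ((hFu L U _ T π m S G d hplc hprim).2 F hres).1
  have : NumberField F := { to_charZero := inferInstance, to_finiteDimensional := hfd }
  have hs0 : Tendsto (fun i => ((v π i : ℚ) : ℝ)) (U : Filter ℕ) (𝓝 0) := hplc.pi0
  have hsne : ∀ᶠ i in (U : Filter ℕ), ((v π i : ℚ) : ℝ) ≠ 0 := hne π hplc.pine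
  have hsabs : Tendsto (fun i => |((v π i : ℚ) : ℝ)|) (U : Filter ℕ) (𝓝 0) := by
    have := hs0.abs
    rwa [abs_zero] at this
  have hs1 : ∀ᶠ i in (U : Filter ℕ), |((v π i : ℚ) : ℝ)| ≤ 1 :=
    (hsabs.eventually (gt_mem_nhds one_pos)).mono fun i hi => hi.le
  -- the expansion of T
  obtain ⟨cT, hcT, hT⟩ := hplc.ordT
  have hTval : ∀ᶠ i in (U : Filter ℕ), ((v (T * π ^ m) i : ℚ) : ℝ) =
      ((v T i : ℚ) : ℝ) * ((v π i : ℚ) : ℝ) ^ m := by
    filter_upwards [hv.mul T (π ^ m), hpow π m] with i h1 h2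
    rw [h1, h2]
  have hTbd : ∀ᶠ i in (U : Filter ℕ), |((v T i : ℚ) : ℝ) * ((v π i : ℚ) : ℝ) ^ m| ≤ |cT| + 1 :=
    (hT.abs.eventually (gt_mem_nhds (by linarith : |cT| < |cT| + 1))).mono fun i hi => hi.le
  obtain ⟨Xs, hXE, hXev⟩ := hEx L U _ T π m F hdep hplc hres (T * π ^ m) ⟨|cT| + 1, by
    filter_upwards [hTval, hTbd] with i h1 h2
    rw [h1]
    exact h2⟩
  have hXev' : ∀ᶠ i in (U : Filter ℕ), EvS (algebraMap F ℝ) Xs ((v π i : ℚ) : ℝ)
      (((v T i : ℚ) : ℝ) * ((v π i : ℚ) : ℝ) ^ m) := by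
    filter_upwards [hXev, hTval] with i h1 h2
    rw [← h2]
    exact h1
  -- the expansion of S
  have hSbd : ∃ (μ : ℕ) (C : ℝ), ∀ᶠ i in (U : Filter ℕ),
      |((v S i : ℚ) : ℝ) * ((v π i : ℚ) : ℝ) ^ μ| ≤ C := by
    by_cases hS : S = 0
    · refine ⟨0, 0, ?_⟩
      filter_upwards [hv.const 0] with i h1
      rw [map_zero, Rat.cast_zero] at h1
      rw [hS, h1, zero_mul, abs_zero]
    · obtain ⟨k, c, hc, hk⟩ := hplc.ord S hS
      obtain ⟨n, hn⟩ : ∃ n : ℕ, k + (k.natAbs : ℤ) = (n : ℤ) := ⟨(k + k.natAbs).toNat, by omega⟩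
      refine ⟨k.natAbs, |c| + 1, ?_⟩
      have h1 : ∀ᶠ i in (U : Filter ℕ), |((v S i : ℚ) : ℝ) / ((v π i : ℚ) : ℝ) ^ k| ≤ |c| + 1 :=
        (hk.abs.eventually (gt_mem_nhds (by linarith : |c| < |c| + 1))).mono fun i hi => hi.le
      filter_upwards [h1, hs1, hsne] with i h1 h2 h3
      have e : ((v S i : ℚ) : ℝ) * ((v π i : ℚ) : ℝ) ^ k.natAbs =
          (((v S i : ℚ) : ℝ) / ((v π i : ℚ) : ℝ) ^ k) * ((v π i : ℚ) : ℝ) ^ n := by
        have e1 : ((v π i : ℚ) : ℝ) ^ n = ((v π i : ℚ) : ℝ) ^ k *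
            ((v π i : ℚ) : ℝ) ^ k.natAbs := by
          rw [← zpow_natCast, ← hn, zpow_add₀ h3, zpow_natCast]
        rw [e1, ← mul_assoc, div_mul_cancel₀ _ (zpow_ne_zero k h3)]
      rw [e, abs_mul, abs_pow]
      calc |((v S i : ℚ) : ℝ) / ((v π i : ℚ) : ℝ) ^ k| * |((v π i : ℚ) : ℝ)| ^ n ≤
          (|c| + 1) * 1 :=
            mul_le_mul h1 (pow_le_one₀ (abs_nonneg _) h2) (by positivity) (by positivity)
        _ = |c| + 1 := mul_one _
  obtain ⟨μ, CS, hSbd⟩ := hSbd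
  have hSval : ∀ᶠ i in (U : Filter ℕ), ((v (S * π ^ μ) i : ℚ) : ℝ) =
      ((v S i : ℚ) : ℝ) * ((v π i : ℚ) : ℝ) ^ μ := by
    filter_upwards [hv.mul S (π ^ μ), hpow π μ] with i h1 h2
    rw [h1, h2]
  obtain ⟨Ys, hYE, hYev⟩ := hEx L U _ T π m F hdep hplc hres (S * π ^ μ) ⟨CS, by
    filter_upwards [hSval, hSbd] with i h1 h2
    rw [h1]
    exact h2⟩
  have hYev' : ∀ᶠ i in (U : Filter ℕ), EvS (algebraMap F ℝ) Ys ((v π i : ℚ) : ℝ)
      (((v S i : ℚ) : ℝ) * ((v π i : ℚ) : ℝ) ^ μ) := by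
    filter_upwards [hYev, hSval] with i h1 h2
    rw [← h2]
    exact h1
  -- the constant term
  have hX0 : PowerSeries.coeff 0 Xs ≠ 0 := by
    intro h0
    obtain ⟨D, C, hD, hC, hb⟩ := hXE
    have hCr : (0 : ℝ) ≤ (C : ℝ) := Nat.cast_nonneg C
    have hb' : ∀ b, |algebraMap F ℝ (PowerSeries.coeff b Xs)| ≤ (C : ℝ) ^ (b + 1) := by
      intro b
      have h1 := (hb b).2 ((Complex.ofRealHom).comp (algebraMap F ℝ))
      rw [RingHom.comp_apply, Complex.ofRealHom_eq_coe, Complex.norm_real, Real.norm_eq_abs] at h1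
      exact h1
    have h2 : ∀ᶠ i in (U : Filter ℕ), (C : ℝ) * |((v π i : ℚ) : ℝ)| ≤ 1 / 2 := by
      have h3 := hsabs.const_mul (C : ℝ)
      rw [mul_zero] at h3
      exact (h3.eventually (gt_mem_nhds (by norm_num : (0 : ℝ) < 1 / 2))).mono fun i hi => hi.le
    have h4 : Tendsto (fun i => ((v T i : ℚ) : ℝ) * ((v π i : ℚ) : ℝ) ^ m) (U : Filter ℕ)
        (𝓝 0) := by
      have h5 := hsabs.const_mul (2 * (C : ℝ) ^ 2)
      rw [mul_zero] at h5
      refine squeeze_zero_norm' ?_ h5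
      filter_upwards [hXev', h2] with i h6 h7
      have h8 := Tw_near (algebraMap F ℝ) Xs C hCr hb' _ _ h7 h6.2
      rw [h0, map_zero, sub_zero] at h8
      exact h8
    exact hcT (tendsto_nhds_unique hT h4)
  -- the equation
  have heqR : ∀ᶠ i in (U : Filter ℕ), ev2 ((v T i : ℚ) : ℝ) ((v S i : ℚ) : ℝ) G = 0 := by
    filter_upwards [hev2 T S G, hv.const 0] with i h1 h2
    rw [map_zero, Rat.cast_zero] at h2
    rw [hprim.root, h2] at h1
    exact h1.symm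
  have hformal := hFo F (algebraMap F ℝ) U (fun i => ((v π i : ℚ) : ℝ))
    (fun i => ((v T i : ℚ) : ℝ)) (fun i => ((v S i : ℚ) : ℝ)) Xs Ys m μ G hs0 hsne hXev' hYev' heqR
  -- size of T
  have hTs : ∀ᶠ i in (U : Filter ℕ), |((v T i : ℚ) : ℝ)| ≤
      |((v π i : ℚ) : ℝ)| ^ (-((m : ℝ) + 1)) := by
    have h1 : Tendsto (fun i => |((v T i : ℚ) : ℝ) * ((v π i : ℚ) : ℝ) ^ m| *
        |((v π i : ℚ) : ℝ)|) (U : Filter ℕ) (𝓝 (|cT| * 0)) := hT.abs.mul hsabs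
    rw [mul_zero] at h1
    filter_upwards [h1.eventually (gt_mem_nhds one_pos), hsne] with i h2 h3
    have h4 : 0 < |((v π i : ℚ) : ℝ)| := abs_pos.2 h3
    rw [Real.rpow_neg h4.le]
    have h5 : |((v π i : ℚ) : ℝ)| ^ ((m : ℝ) + 1) = |((v π i : ℚ) : ℝ)| ^ (m + 1) := by
      rw [← Real.rpow_natCast]
      push_cast
      rfl
    rw [h5, ← one_div, le_div_iff₀ (by positivity)]
    calc |((v T i : ℚ) : ℝ)| * |((v π i : ℚ) : ℝ)| ^ (m + 1) =
        |((v T i : ℚ) : ℝ) * ((v π i : ℚ) : ℝ) ^ m| * |((v π i : ℚ) : ℝ)| := by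
          rw [abs_mul, abs_pow]
          ring
      _ ≤ 1 := h2.le
  -- the subsequence
  obtain ⟨f, hf, hP, hQ⟩ := hSb U
    (fun i => ((v π i : ℚ) : ℝ) ≠ 0 ∧
      HasSum (fun b => algebraMap F ℝ (PowerSeries.coeff b Xs) * ((v π i : ℚ) : ℝ) ^ b)
        (((v T i : ℚ) : ℝ) * ((v π i : ℚ) : ℝ) ^ m) ∧
      HasSum (fun b => algebraMap F ℝ (PowerSeries.coeff b Ys) * ((v π i : ℚ) : ℝ) ^ b)
        (((v S i : ℚ) : ℝ) * ((v π i : ℚ) : ℝ) ^ μ) ∧
      ev2 (v T i) (v S i) G = 0 ∧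
      (∃ z : ℤ, (N i : ℚ) * v T i = z) ∧ ∃ z : ℤ, (N i : ℚ) * v S i = z)
    (fun k i => |((v π i : ℚ) : ℝ)| ≤ 1 / ((k : ℝ) + 1) ∧
      (N i : ℝ) ≤ |((v π i : ℚ) : ℝ)| ^ (-(1 / ((k : ℝ) + 1)))) hU
    (by
      filter_upwards [hsne, hXev', hYev', heqR, hint] with i h1 h2 h3 h4 h5
      refine ⟨h1, h2.2, h3.2, ?_, h5.1, h5.2⟩
      have h6 := Tw_ev2_map (Rat.castHom ℝ) (v T i) (v S i) G
      rw [Rat.coe_castHom, h4] at h6
      exact_mod_cast h6)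
    (by
      intro k
      have hk : (0 : ℝ) < 1 / ((k : ℝ) + 1) := by positivity
      have h1 : ∀ᶠ i in (U : Filter ℕ), |((v π i : ℚ) : ℝ)| ≤ 1 / ((k : ℝ) + 1) :=
        (hsabs.eventually (gt_mem_nhds hk)).mono fun i hi => hi.le
      have hm1 : (0 : ℝ) < (m : ℝ) + 1 := by positivity
      filter_upwards [h1, hTs, hnear (1 / (((m : ℝ) + 1) * ((k : ℝ) + 1))) (by positivity),
        hsne] with i h1 h2 h3 h4
      refine ⟨h1, h3.trans ?_⟩
      have h5 : 0 < |((v π i : ℚ) : ℝ)| := abs_pos.2 h4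
      calc |((v T i : ℚ) : ℝ)| ^ (1 / (((m : ℝ) + 1) * ((k : ℝ) + 1))) ≤
          (|((v π i : ℚ) : ℝ)| ^ (-((m : ℝ) + 1))) ^ (1 / (((m : ℝ) + 1) * ((k : ℝ) + 1))) :=
            Real.rpow_le_rpow (abs_nonneg _) h2 (by positivity)
        _ = |((v π i : ℚ) : ℝ)| ^ (-(1 / ((k : ℝ) + 1))) := by
            rw [← Real.rpow_mul h5.le]
            congr 1
            field_simp)
  have hlim : Tendsto (fun k => ((v π (f k) : ℚ) : ℝ)) atTop (𝓝 0) := by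
    refine squeeze_zero_norm (fun k => ?_) tendsto_one_div_add_atTop_nhds_zero_nat
    exact (hQ k k le_rfl).1
  refine hcore F (algebraMap F ℝ) m μ (Module.finrank ℚ F) G Xs Ys
    (fun k => ((v π (f k) : ℚ) : ℝ)) (fun k => v T (f k)) (fun k => v S (f k)) (fun k => N (f k))
    hplc.pos hcon rfl hprim.monic (hprim.deg.trans hmd.symm) hprim.irr hX0 hformal hXE hYE hlim
    (fun k => (hP k).1) (fun k => (hP k).2.1) (fun k => (hP k).2.2.1) (fun k => (hP k).2.2.2.1)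
    (fun k => hN _) (fun k => (hP k).2.2.2.2.1) (fun k => (hP k).2.2.2.2.2) ?_
  intro ε hε
  obtain ⟨K, hK⟩ := exists_nat_one_div_lt hε
  filter_upwards [Filter.eventually_ge_atTop K] with k hk
  have h1 := (hQ K k hk).2
  have h2 := (hQ 0 k (Nat.zero_le _)).1
  rw [Nat.cast_zero, zero_add, div_one] at h2
  have h3 : 0 < |((v π (f k) : ℚ) : ℝ)| := abs_pos.2 (hP k).1
  exact h1.trans (Real.rpow_le_rpow_of_exponent_ge h3 h2 (by linarith))

end Pool.Agent.Lib.SD
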