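import Pool.Agent.Lib.SD.Spec

/-!
# Lib/SD/Un: uniqueness of the valuation ring
-/

namespace Pool.Agent.Lib.SD

open Filter Topology Polynomial

private theorem Un_poly (q : ℚ[X]) :
    ∃ C : ℝ, 0 ≤ C ∧ ∀ t : ℝ, 1 ≤ |t| → |aeval t q| ≤ C * |t| ^ q.natDegree := by
  refine ⟨∑ j ∈ Finset.range (q.natDegree + 1), |(q.coeff j : ℝ)|,
    Finset.sum_nonneg fun _ _ => abs_nonneg _, fun t ht => ?_⟩
  rw [aeval_eq_sum_range, Finset.sum_mul]
  refine (Finset.abs_sum_le_sum_abs _ _).trans (Finset.sum_le_sum fun j hj => ?_)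
  rw [Rat.smul_def, abs_mul, abs_pow]
  exact mul_le_mul_of_nonneg_left
    (pow_le_pow_right₀ ht (Nat.lt_succ_iff.1 (Finset.mem_range.1 hj))) (abs_nonneg _)

section Val

variable {L : Type} [Field L] [Algebra ℚ L] {T : L} {V : ValuationSubring L}

private theorem Un_const (hVq : ∀ q : ℚ, algebraMap ℚ L q ∈ V) (a : ℚ) (ha : a ≠ 0) :
    V.valuation (algebraMap ℚ L a) = 1 := by
  apply le_antisymm
  · exact (V.valuation_le_one_iff _).2 (hVq a)
  · have h1 : V.valuation (algebraMap ℚ L a⁻¹) ≤ 1 := (V.valuation_le_one_iff _).2 (hVq a⁻¹)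
    rw [map_inv₀, map_inv₀] at h1
    have h0 : 0 < V.valuation (algebraMap ℚ L a) := by
      rw [zero_lt_iff, ne_eq, map_eq_zero, map_eq_zero]
      exact ha
    exact (inv_le_one₀ h0).1 h1

private theorem Un_le (hVq : ∀ q : ℚ, algebraMap ℚ L q ∈ V) (hT : 1 < V.valuation T)
    (p : ℚ[X]) (n : ℕ) (hp : p.natDegree ≤ n) :
    V.valuation (aeval T p) ≤ V.valuation T ^ n := by
  rw [aeval_eq_sum_range]
  refine V.valuation.map_sum_le fun j hj => ?_
  rw [Algebra.smul_def, map_mul, map_pow]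
  have h1 : V.valuation (algebraMap ℚ L (p.coeff j)) ≤ 1 := (V.valuation_le_one_iff _).2 (hVq _)
  have h2 : V.valuation T ^ j ≤ V.valuation T ^ n :=
    pow_le_pow_right₀ hT.le ((Nat.lt_succ_iff.1 (Finset.mem_range.1 hj)).trans hp)
  calc V.valuation (algebraMap ℚ L (p.coeff j)) * V.valuation T ^ j
      ≤ 1 * V.valuation T ^ n := mul_le_mul' h1 h2
    _ = _ := one_mul _

private theorem Un_eq (hVq : ∀ q : ℚ, algebraMap ℚ L q ∈ V) (hT : 1 < V.valuation T)
    (q : ℚ[X]) (hq : q ≠ 0) :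
    V.valuation (aeval T q) = V.valuation T ^ q.natDegree := by
  have hl : V.valuation (algebraMap ℚ L q.leadingCoeff) = 1 :=
    Un_const hVq _ (leadingCoeff_ne_zero.2 hq)
  rw [aeval_eq_sum_range, Finset.sum_range_succ]
  have h1 : V.valuation (q.coeff q.natDegree • T ^ q.natDegree) = V.valuation T ^ q.natDegree := by
    rw [Algebra.smul_def, map_mul, map_pow]
    change V.valuation (algebraMap ℚ L q.leadingCoeff) * _ = _
    rw [hl, one_mul]
  have h2 : V.valuation (∑ j ∈ Finset.range q.natDegree, q.coeff j • T ^ j)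
      < V.valuation (q.coeff q.natDegree • T ^ q.natDegree) := by
    rw [h1]
    have h0 : 0 < V.valuation T := zero_lt_one.trans hT
    refine V.valuation.map_sum_lt (pow_ne_zero _ h0.ne') fun j hj => ?_
    rw [Algebra.smul_def, map_mul, map_pow]
    have h3 : V.valuation (algebraMap ℚ L (q.coeff j)) ≤ 1 :=
      (V.valuation_le_one_iff _).2 (hVq _)
    have h4 : V.valuation T ^ j < V.valuation T ^ q.natDegree :=
      pow_lt_pow_right₀ hT (Finset.mem_range.1 hj)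
    calc V.valuation (algebraMap ℚ L (q.coeff j)) * V.valuation T ^ j
        ≤ 1 * V.valuation T ^ j := mul_le_mul_left h3 _
      _ = V.valuation T ^ j := one_mul _
      _ < _ := h4
  rw [V.valuation.map_add_eq_of_lt_right h2, h1]

/-- the bound for the valuation of a combination of the elements of a basis -/
private theorem Un_comb (hVq : ∀ q : ℚ, algebraMap ℚ L q ∈ V) (hT : 1 < V.valuation T)
    {α β : Type} [Fintype α] [Fintype β] (b : α → β → L) (B : V.ValueGroup)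
    (hb : ∀ k l, V.valuation (b k l) ≤ B) (q : ℚ[X]) (p : α → β → ℚ[X]) (hq : q ≠ 0)
    (hp : ∀ k l, (p k l).natDegree ≤ q.natDegree) (ψ : L)
    (h : aeval T q * ψ = ∑ k, ∑ l, aeval T (p k l) * b k l) : V.valuation ψ ≤ B := by
  have h1 : V.valuation (aeval T q * ψ) ≤ V.valuation T ^ q.natDegree * B := by
    rw [h]
    refine V.valuation.map_sum_le fun k _ => V.valuation.map_sum_le fun l _ => ?_
    rw [map_mul]
    exact mul_le_mul' (Un_le hVq hT _ _ (hp k l)) (hb k l)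
  rw [map_mul, Un_eq hVq hT q hq] at h1
  have h0 : 0 < V.valuation T ^ q.natDegree := pow_pos (zero_lt_one.trans hT) _
  exact le_of_mul_le_mul_left h1 h0

end Val

/-- a function with bounded values has numerators of small degree -/
private theorem Un_deg (hVc : VcStmt) (hKe : KeStmt) {L : Type} [Field L] [Algebra ℚ L]
    (U : Ultrafilter ℕ) (v : L → ℕ → ℝ) (T π : L) (m : ℕ) (hP : Plc U v T π m)
    (c₁ : ℝ) (hc₁ : 0 < c₁) (hc : ∀ᶠ i in (U : Filter ℕ), c₁ ≤ |v T i| * |v π i| ^ m)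
    (hT1 : ∀ᶠ i in (U : Filter ℕ), 1 ≤ |v T i|)
    (ι : Type) [Fintype ι] (ω : ι → L) (f : ι → ℝ)
    (hω : ∀ l, Tendsto (v (ω l)) (U : Filter ℕ) (𝓝 (f l))) (hf : LinearIndependent ℚ f)
    (ψ : L) (hψ : ∃ C : ℝ, ∀ᶠ i in (U : Filter ℕ), |v ψ i| ≤ C)
    (q : ℚ[X]) (p : Fin m → ι → ℚ[X])
    (h : aeval T q * ψ = ∑ k, ∑ l, aeval T (p k l) * (π ^ (k : ℕ) * ω l)) (k : Fin m) (l : ι) :
    (p k l).natDegree ≤ q.natDegree := by
  obtain ⟨vne, -, -, -, -, -, -, vaeval, -⟩ := hVc L U v hP.vals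
  by_contra hcon
  push Not at hcon
  obtain ⟨⟨k₁, l₁⟩, -, hmax⟩ := Finset.exists_max_image (Finset.univ : Finset (Fin m × ι))
    (fun x => (p x.1 x.2).natDegree) ⟨(k, l), Finset.mem_univ _⟩
  obtain ⟨n, hn⟩ : ∃ n, n = (p k₁ l₁).natDegree := ⟨_, rfl⟩
  have hnq : q.natDegree < n := by
    rw [hn]
    exact hcon.trans_le (hmax (k, l) (Finset.mem_univ _))
  have hpn : p k₁ l₁ ≠ 0 := by
    intro h0
    rw [h0, natDegree_zero] at hn
    omega
  obtain ⟨k₀, c, hk₀, hc0, hlim⟩ := hKe L U v T π m hP ι ω f hω hf p n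
    (fun k l => hn ▸ hmax (k, l) (Finset.mem_univ _))
    ⟨k₁, l₁, by rw [hn]; exact leadingCoeff_ne_zero.2 hpn⟩
  rw [← h] at hlim
  apply hc0
  obtain ⟨C₁, hC₁, hq⟩ := Un_poly q
  obtain ⟨C₂, hψ⟩ := hψ
  refine tendsto_nhds_unique hlim ?_
  have hs : Tendsto (fun i => C₁ * |C₂| / c₁ * |v π i| ^ (m - k₀)) (U : Filter ℕ) (𝓝 0) := by
    have h1 : Tendsto (fun i => |v π i| ^ (m - k₀)) (U : Filter ℕ) (𝓝 (|(0 : ℝ)| ^ (m - k₀))) :=
      (hP.pi0.abs).pow _
    rw [abs_zero, zero_pow (by omega)] at h1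
    simpa using h1.const_mul (C₁ * |C₂| / c₁)
  refine squeeze_zero_norm' ?_ hs
  filter_upwards [hψ, hc, hT1, vne π hP.pine, hP.vals.mul (aeval T q) ψ, vaeval T q] with
    i h1 h2 h3 h4 h5 h6
  rw [Real.norm_eq_abs, h5, h6, abs_div, abs_mul, abs_mul, abs_pow, abs_pow]
  have hπ : 0 < |v π i| := abs_pos.2 h4
  have hT : 0 < |v T i| := zero_lt_one.trans_le h3
  have h7 : |aeval (v T i) q| * |v ψ i| ≤ C₁ * |v T i| ^ (n - 1) * |C₂| := by
    refine mul_le_mul ((hq _ h3).trans ?_) (h1.trans (le_abs_self _)) (abs_nonneg _)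
      (mul_nonneg hC₁ (pow_nonneg hT.le _))
    exact mul_le_mul_of_nonneg_left (pow_le_pow_right₀ h3 (by omega)) hC₁
  rw [div_le_iff₀ (mul_pos (pow_pos hT _) (pow_pos hπ _))]
  refine h7.trans ?_
  have h8 : C₁ * |C₂| / c₁ * |v π i| ^ (m - k₀) * (|v T i| ^ n * |v π i| ^ k₀) =
      C₁ * |v T i| ^ (n - 1) * |C₂| * ((|v T i| * |v π i| ^ m) / c₁) := by
    have e1 : |v π i| ^ m = |v π i| ^ (m - k₀) * |v π i| ^ k₀ := by
      rw [← pow_add]
      congr 1
      omega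
    have e2 : |v T i| ^ n = |v T i| ^ (n - 1) * |v T i| := by
      rw [← pow_succ]
      congr 1
      omega
    rw [e1, e2]
    field_simp
  rw [h8]
  exact le_mul_of_one_le_right (mul_nonneg (mul_nonneg hC₁ (pow_nonneg hT.le _)) (abs_nonneg _))
    ((one_le_div hc₁).2 h2)

theorem tUn : VcStmt → SmStmt → KeStmt → FuStmt → UnStmt := by
  intro hVc hSm hKe hFu L _ _ U v T π m S G d F O V hP hPr hF hmd hO hVq hTV
  have hv : Vals U v := hP.vals
  obtain ⟨vne, vinv, vneg, vsub, vpow, -, -, vaeval, -⟩ := hVc L U v hv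
  have hT : 1 < V.valuation T := by
    rw [← not_le, V.valuation_le_one_iff]
    exact hTV
  -- the size of `T`
  obtain ⟨c, hc0, hc⟩ := hP.ordT
  have hc' : ∀ᶠ i in (U : Filter ℕ), |c| / 2 ≤ |v T i| * |v π i| ^ m := by
    have h1 := hc.abs
    have h2 : |c| / 2 < |c| := half_lt_self (abs_pos.2 hc0)
    filter_upwards [h1.eventually (lt_mem_nhds h2)] with i hi
    rw [abs_mul, abs_pow] at hi
    exact hi.le
  have hc2 : 0 < |c| / 2 := half_pos (abs_pos.2 hc0)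
  have hTinf : Tendsto (fun i => |v T i|) (U : Filter ℕ) atTop := by
    rw [tendsto_atTop]
    intro K
    have h1 : Tendsto (fun i => |v π i| ^ m * (|K| + 1)) (U : Filter ℕ) (𝓝 0) := by
      have h2 : Tendsto (fun i => |v π i| ^ m) (U : Filter ℕ) (𝓝 (|(0 : ℝ)| ^ m)) :=
        (hP.pi0.abs).pow _
      rw [abs_zero, zero_pow hP.pos.ne'] at h2
      simpa using h2.mul_const (|K| + 1)
    filter_upwards [hc', h1.eventually (gt_mem_nhds hc2), vne π hP.pine] with i h2 h3 h4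
    have h5 : 0 < |v π i| ^ m := pow_pos (abs_pos.2 h4) _
    by_contra h6
    push Not at h6
    have h7 : |v T i| * |v π i| ^ m ≤ |v π i| ^ m * (|K| + 1) := by
      rw [mul_comm]
      refine mul_le_mul_of_nonneg_left ?_ h5.le
      linarith [le_abs_self K]
    linarith
  have hT1 : ∀ᶠ i in (U : Filter ℕ), 1 ≤ |v T i| := hTinf.eventually_ge_atTop 1
  -- the basis
  obtain ⟨hfu1, hfu2⟩ := hFu L U v T π m S G d hP hPr
  obtain ⟨hFD, -⟩ := hfu2 F hF
  let bF := Module.finBasis ℚ F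
  have hlin : LinearIndependent ℚ (fun l => ((bF l : F) : ℝ)) :=
    bF.linearIndependent.map' (F.val.toLinearMap) (LinearMap.ker_eq_bot.2 F.val.injective)
  choose ω hω using fun l => (hF ((bF l : F) : ℝ)).1 (bF l).2
  have hspan := (hfu1 (Fin (Module.finrank ℚ F)) ω _ hω hlin).2 (by
    rw [Fintype.card_fin]
    exact hmd)
  have hdeg := Un_deg hVc hKe U v T π m hP (|c| / 2) hc2 hc' hT1 (Fin (Module.finrank ℚ F)) ω _
    hω hlin
  -- bounded functions
  have bmul : ∀ φ ψ : L, (∃ C : ℝ, ∀ᶠ i in (U : Filter ℕ), |v φ i| ≤ C) →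
      (∃ C : ℝ, ∀ᶠ i in (U : Filter ℕ), |v ψ i| ≤ C) →
      ∃ C : ℝ, ∀ᶠ i in (U : Filter ℕ), |v (φ * ψ) i| ≤ C := by
    intro φ ψ h1 h2
    rw [← hO] at h1 h2 ⊢
    exact mul_mem h1 h2
  have hbO : ∀ (k : Fin m) l, ∃ C : ℝ, ∀ᶠ i in (U : Filter ℕ), |v (π ^ (k : ℕ) * ω l) i| ≤ C := by
    intro k l
    rw [← hO]
    refine mul_mem (pow_mem ?_ _) ?_
    · rw [hO]
      refine ⟨1, ?_⟩
      have h1 := hP.pi0.abs
      rw [abs_zero] at h1
      exact (h1.eventually (gt_mem_nhds zero_lt_one)).mono fun i hi => hi.le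
    · rw [hO]
      have h1 := (hω l).abs
      exact ⟨_, (h1.eventually (gt_mem_nhds (lt_add_one _))).mono fun i hi => hi.le⟩
  -- claim 3
  have hm : 0 < m := hP.pos
  have he : 0 < Module.finrank ℚ F := Module.finrank_pos
  haveI : Nonempty (Fin m × Fin (Module.finrank ℚ F)) := ⟨(⟨0, hm⟩, ⟨0, he⟩)⟩
  obtain ⟨⟨k₁, l₁⟩, hmax⟩ := Finite.exists_max
    (fun x : Fin m × Fin (Module.finrank ℚ F) => V.valuation (π ^ (x.1 : ℕ) * ω x.2))
  have hA : ∀ (B : V.ValueGroup), (∀ (k : Fin m) l, V.valuation (π ^ (k : ℕ) * ω l) ≤ B) →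
      ∀ ψ : L, (∃ C : ℝ, ∀ᶠ i in (U : Filter ℕ), |v ψ i| ≤ C) → V.valuation ψ ≤ B := by
    intro B hB ψ hψ
    obtain ⟨q, p, hq, hqp⟩ := hspan ψ
    exact Un_comb hVq hT (fun (k : Fin m) l => π ^ (k : ℕ) * ω l) B hB q p hq
      (fun k l => hdeg ψ hψ q p hqp k l) ψ hqp
  have hB1 : V.valuation (π ^ (k₁ : ℕ) * ω l₁) ≤ 1 := by
    by_contra hcon
    push Not at hcon
    have h1 := hA _ (fun k l => hmax (k, l)) _ (bmul _ _ (hbO k₁ l₁) (hbO k₁ l₁))
    simp only [map_mul V.valuation (π ^ (k₁ : ℕ) * ω l₁)] at h1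
    have h0 : 0 < V.valuation (π ^ (k₁ : ℕ) * ω l₁) := zero_lt_one.trans hcon
    have h2 := (mul_lt_mul_iff_of_pos_left h0).2 hcon
    rw [mul_one] at h2
    exact absurd h1 (not_le.2 h2)
  have hOV : ∀ φ : L, φ ∈ O → φ ∈ V := by
    intro φ hφ
    rw [← V.valuation_le_one_iff]
    exact hA 1 (fun k l => (hmax (k, l)).trans hB1) φ ((hO φ).1 hφ)
  -- claim 4
  have hVO : ∀ φ : L, φ ∈ V → φ ∈ O := by
    intro φ hφ
    by_contra hφO
    have hφ0 : φ ≠ 0 := fun h => hφO (h ▸ zero_mem O)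
    have h1 : ∀ C : ℝ, ∀ᶠ i in (U : Filter ℕ), C < |v φ i| := by
      intro C
      by_contra h2
      have h3 := Ultrafilter.eventually_not.2 h2
      exact hφO ((hO φ).2 ⟨C, h3.mono fun i hi => not_lt.1 hi⟩)
    have h2 : Tendsto (v φ⁻¹) (U : Filter ℕ) (𝓝 0) := by
      have h3 : Tendsto (fun i => |v φ i|) (U : Filter ℕ) atTop := by
        rw [tendsto_atTop]
        exact fun K => (h1 K).mono fun i hi => hi.le
      rw [tendsto_zero_iff_abs_tendsto_zero]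
      refine (tendsto_inv_atTop_zero.comp h3).congr' ?_
      filter_upwards [vinv φ] with i hi
      simp [hi]
    obtain ⟨C, hC⟩ := hSm L U v T S G d hv hPr hTinf φ⁻¹ h2
    have h3 : T * φ⁻¹ ^ d ∈ V := by
      apply hOV
      rw [hO]
      refine ⟨C, ?_⟩
      filter_upwards [hC, hv.mul T (φ⁻¹ ^ d), vpow φ⁻¹ d] with i h4 h5 h6
      rw [h5, h6, abs_mul, abs_pow, mul_comm]
      exact h4
    apply hTV
    have h4 : T = T * φ⁻¹ ^ d * φ ^ d := by
      rw [mul_assoc, ← mul_pow, inv_mul_cancel₀ hφ0, one_pow, mul_one]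
    rw [h4]
    exact mul_mem h3 (pow_mem hφ _)
  exact le_antisymm (fun φ h => hVO φ h) (fun φ h => hOV φ h)

end Pool.Agent.Lib.SD
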