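import Pool.Agent.Lib.SD.Spec

/-!
# Lib/SD, module Vc: consequences of `Vals`
-/

namespace Pool.Agent.Lib.SD

open Filter Topology Polynomial

section
variable {L : Type} [Field L] [Algebra ℚ L] {U : Ultrafilter ℕ} {v : L → ℕ → ℝ}

private theorem Vc_const (h : Vals U v) (q : ℚ) (x : L) (hx : x = algebraMap ℚ L q) :
    ∀ᶠ i in (U : Filter ℕ), v x i = q := by
  rw [hx]
  exact h.const q

private theorem Vc_zero (h : Vals U v) : ∀ᶠ i in (U : Filter ℕ), v 0 i = 0 := by
  have := Vc_const h 0 0 (by rw [map_zero])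
  simpa using this

private theorem Vc_one (h : Vals U v) : ∀ᶠ i in (U : Filter ℕ), v 1 i = 1 := by
  have := Vc_const h 1 1 (by rw [map_one])
  simpa using this

private theorem Vc_int (h : Vals U v) (a : ℤ) : ∀ᶠ i in (U : Filter ℕ), v (a : L) i = a := by
  have := Vc_const h (a : ℚ) (a : L) (by rw [map_intCast])
  simpa using this

private theorem Vc_ne (h : Vals U v) (φ : L) (hφ : φ ≠ 0) : ∀ᶠ i in (U : Filter ℕ), v φ i ≠ 0 := by
  filter_upwards [h.mul φ φ⁻¹, Vc_one h] with i h1 h2 h3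
  rw [mul_inv_cancel₀ hφ, h2, h3, zero_mul] at h1
  exact one_ne_zero h1

private theorem Vc_inv (h : Vals U v) (φ : L) : ∀ᶠ i in (U : Filter ℕ), v φ⁻¹ i = (v φ i)⁻¹ := by
  by_cases hφ : φ = 0
  · rw [hφ, inv_zero]
    filter_upwards [Vc_zero h] with i h1
    rw [h1, inv_zero]
  · filter_upwards [h.mul φ φ⁻¹, Vc_one h] with i h1 h2
    rw [mul_inv_cancel₀ hφ, h2] at h1
    exact eq_inv_of_mul_eq_one_right h1.symm

private theorem Vc_neg (h : Vals U v) (φ : L) : ∀ᶠ i in (U : Filter ℕ), v (-φ) i = -v φ i := by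
  filter_upwards [h.add φ (-φ), Vc_zero h] with i h1 h2
  rw [add_neg_cancel, h2] at h1
  linarith

private theorem Vc_sub (h : Vals U v) (φ ψ : L) : ∀ᶠ i in (U : Filter ℕ), v (φ - ψ) i = v φ i - v ψ i := by
  filter_upwards [h.add φ (-ψ), Vc_neg h ψ] with i h1 h2
  rw [sub_eq_add_neg, h1, h2]
  ring

private theorem Vc_pow (h : Vals U v) (φ : L) (n : ℕ) : ∀ᶠ i in (U : Filter ℕ), v (φ ^ n) i = v φ i ^ n := by
  induction n with
  | zero =>
    filter_upwards [Vc_one h] with i h1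
    rw [pow_zero, pow_zero, h1]
  | succ n ih =>
    filter_upwards [ih, h.mul (φ ^ n) φ] with i h1 h2
    rw [pow_succ, pow_succ, h2, h1]

private theorem Vc_zpow (h : Vals U v) (φ : L) (n : ℤ) : ∀ᶠ i in (U : Filter ℕ), v (φ ^ n) i = v φ i ^ n := by
  obtain ⟨m, rfl | rfl⟩ := n.eq_nat_or_neg
  · filter_upwards [Vc_pow h φ m] with i h1
    rw [zpow_natCast, zpow_natCast, h1]
  · filter_upwards [Vc_pow h φ m, Vc_inv h (φ ^ m)] with i h1 h2
    rw [zpow_neg, zpow_neg, zpow_natCast, zpow_natCast, h2, h1]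

private theorem Vc_sum (h : Vals U v) (ι : Type) (s : Finset ι) (f : ι → L) :
    ∀ᶠ i in (U : Filter ℕ), v (∑ j ∈ s, f j) i = ∑ j ∈ s, v (f j) i := by
  classical
  induction s using Finset.induction_on with
  | empty =>
    filter_upwards [Vc_zero h] with i h1
    rw [Finset.sum_empty, Finset.sum_empty, h1]
  | insert a s ha ih =>
    filter_upwards [ih, h.add (f a) (∑ j ∈ s, f j)] with i h1 h2
    rw [Finset.sum_insert ha, Finset.sum_insert ha, h2, h1]

private theorem Vc_aeval (h : Vals U v) (φ : L) (p : ℚ[X]) :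
    ∀ᶠ i in (U : Filter ℕ), v (aeval φ p) i = aeval (v φ i) p := by
  induction p using Polynomial.induction_on' with
  | add p q hp hq =>
    filter_upwards [hp, hq, h.add (aeval φ p) (aeval φ q)] with i h1 h2 h3
    rw [map_add, map_add, h3, h1, h2]
  | monomial n a =>
    filter_upwards [h.mul (algebraMap ℚ L a) (φ ^ n), h.const a, Vc_pow h φ n] with i h1 h2 h3
    rw [aeval_monomial, aeval_monomial, h1, h2, h3]
    rfl

private theorem Vc_inner (h : Vals U v) (φ : L) (g : ℤ[X]) :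
    ∀ᶠ i in (U : Filter ℕ), v (eval₂RingHom (Int.castRingHom L) φ g) i =
      eval₂RingHom (Int.castRingHom ℝ) (v φ i) g := by
  induction g using Polynomial.induction_on' with
  | add p q hp hq =>
    filter_upwards [hp, hq, h.add (eval₂RingHom (Int.castRingHom L) φ p)
      (eval₂RingHom (Int.castRingHom L) φ q)] with i h1 h2 h3
    rw [map_add, map_add, h3, h1, h2]
  | monomial n a =>
    filter_upwards [h.mul (a : L) (φ ^ n), Vc_int h a, Vc_pow h φ n] with i h1 h2 h3
    rw [coe_eval₂RingHom, coe_eval₂RingHom, eval₂_monomial, eval₂_monomial, eq_intCast, eq_intCast, h1, h2, h3]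

private theorem Vc_ev2 (h : Vals U v) (φ ψ : L) (G : Polynomial (Polynomial ℤ)) :
    ∀ᶠ i in (U : Filter ℕ), v (ev2 φ ψ G) i = ev2 (v φ i) (v ψ i) G := by
  unfold ev2
  induction G using Polynomial.induction_on' with
  | add p q hp hq =>
    filter_upwards [hp, hq, h.add (eval₂ (eval₂RingHom (Int.castRingHom L) φ) ψ p)
      (eval₂ (eval₂RingHom (Int.castRingHom L) φ) ψ q)] with i h1 h2 h3
    rw [eval₂_add, eval₂_add, h3, h1, h2]
  | monomial n a =>
    filter_upwards [h.mul (eval₂RingHom (Int.castRingHom L) φ a) (ψ ^ n), Vc_inner h φ a, Vc_pow h ψ n] with i h1 h2 h3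
    rw [eval₂_monomial, eval₂_monomial, h1, h2, h3]

end

theorem tVc : VcStmt := by
  intro L _ _ U v h
  exact ⟨Vc_ne h, Vc_inv h, Vc_neg h, Vc_sub h, Vc_pow h, Vc_zpow h, Vc_sum h, Vc_aeval h, Vc_ev2 h⟩

end Pool.Agent.Lib.SD
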