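import Pool.Agent.Lib.SD.Ad
import Pool.Agent.Lib.SD.En
import Pool.Agent.Lib.SD.Ev
import Pool.Agent.Lib.SD.Vc
import Pool.Agent.Lib.SD.Fd
import Pool.Agent.Lib.SD.Pe
import Pool.Agent.Lib.SD.Rl
import Pool.Agent.Lib.SD.Sm
import Pool.Agent.Lib.SD.Gr
import Pool.Agent.Lib.SD.Lg
import Pool.Agent.Lib.SD.Pl
import Pool.Agent.Lib.SD.Rg
import Pool.Agent.Lib.SD.Ke
import Pool.Agent.Lib.SD.Fu
import Pool.Agent.Lib.SD.St
import Pool.Agent.Lib.SD.Ru
import Pool.Agent.Lib.SD.Ri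
import Pool.Agent.Lib.SD.Un
import Pool.Agent.Lib.SD.Li
import Pool.Agent.Lib.SD.Dg
import Pool.Agent.Lib.SD.Se
import Pool.Agent.Lib.SD.Or
import Pool.Agent.Lib.SD.Nf
import Pool.Agent.Lib.SD.Fx
import Pool.Agent.Lib.SD.Fi
import Pool.Agent.Lib.SD.Fb
import Pool.Agent.Lib.SD.Es
import Pool.Agent.Lib.SD.Cv
import Pool.Agent.Lib.SD.Ex
import Pool.Agent.Lib.SD.Fo
import Pool.Agent.Lib.SD.Sb
import Pool.Agent.Lib.SD.Tw
import Pool.Agent.Lib.SD.Ni
import Pool.Agent.Lib.SD.Mn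
import Pool.Agent.Lib.SD.Cn

/-!
# Lib/SD: assembly of the reduction `CoreStmt → MainStmt → SDStmt`
-/

namespace Pool.Agent.Lib.SD

theorem aKe : KeStmt := tKe tVc
theorem aFu : FuStmt := tFu tVc tRl aKe
theorem aSm : SmStmt := tSm tVc tRl
theorem aGr : GrStmt := tGr tVc tRl
theorem aLg : LgStmt := tLg tVc aSm aGr
theorem aPl : PlStmt := tPl tVc aLg
theorem aRg : RgStmt := tRg tVc
theorem aSt : StStmt := tSt tVc
theorem aRu : RuStmt := tRu tVc aFu aSt
theorem aRi : RiStmt := tRi tVc aSm aFu aRu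
theorem aUn : UnStmt := tUn tVc aSm aKe aFu
theorem aLi : LiStmt := tLi tVc
theorem aDg : DgStmt := tDg tVc aLi
theorem aNf : NfStmt := tNf tOr
theorem aCv : CvStmt := tCv tFb tEs
theorem aEx : ExStmt := tEx tVc aDg tSe aNf tFx tFi tFb tEs aCv
theorem aFo : FoStmt := tFo tEs
theorem aTw : TwStmt := tTw tVc aFu aRi aEx tEs aFo tSb
theorem aNi : NiStmt := tNi tVc aGr

/-- The main statement from the core statement. -/
theorem main_of_core (h : CoreStmt) : MainStmt :=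
  tMn tAd tEn tEv tVc tFd tPe aPl aRg aFu aRi aUn aTw aNi h

/-- The statement used in part L from the core statement. -/
theorem sd_of_core (h : CoreStmt) : MP9f7b43.L.SDStmt := tCn (main_of_core h)

end Pool.Agent.Lib.SD
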