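import Pool.Agent.Lib.SD.Spec

/-! Module Ad: a field of transcendence degree at most one has no two algebraically independent elements. -/

namespace Pool.Agent.Lib.SD

open Filter Topology Polynomial

private theorem Ad_hom {L : Type} [Field L] [Algebra ℚ L] (φ ψ : L) (P : MvPolynomial (Fin 2) ℚ) :
    eval₂ ((aeval φ : ℚ[X] →ₐ[ℚ] L) : ℚ[X] →+* L) ψ
      ((MvPolynomial.finSuccEquiv ℚ 1 P).map
        ((MvPolynomial.uniqueAlgEquiv ℚ (Fin 1) : MvPolynomial (Fin 1) ℚ ≃ₐ[ℚ] ℚ[X]) :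
          MvPolynomial (Fin 1) ℚ →+* ℚ[X])) = MvPolynomial.aeval ![ψ, φ] P := by
  have h : (((eval₂RingHom ((aeval φ : ℚ[X] →ₐ[ℚ] L) : ℚ[X] →+* L) ψ).comp
      (mapRingHom ((MvPolynomial.uniqueAlgEquiv ℚ (Fin 1) : MvPolynomial (Fin 1) ℚ ≃ₐ[ℚ] ℚ[X]) :
          MvPolynomial (Fin 1) ℚ →+* ℚ[X]))).comp
      ((MvPolynomial.finSuccEquiv ℚ 1 : MvPolynomial (Fin 2) ℚ ≃ₐ[ℚ] _) :
        MvPolynomial (Fin 2) ℚ →+* Polynomial (MvPolynomial (Fin 1) ℚ))) =
      ((MvPolynomial.aeval ![ψ, φ] : MvPolynomial (Fin 2) ℚ →ₐ[ℚ] L) :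
        MvPolynomial (Fin 2) ℚ →+* L) := by
    refine MvPolynomial.ringHom_ext' (Subsingleton.elim _ _) ?_
    intro i
    refine Fin.cases ?_ (fun j => ?_) i
    · show eval₂ _ ψ (Polynomial.map _ (MvPolynomial.finSuccEquiv ℚ 1 (MvPolynomial.X 0))) =
        MvPolynomial.aeval ![ψ, φ] (MvPolynomial.X 0)
      rw [MvPolynomial.finSuccEquiv_X_zero, Polynomial.map_X, eval₂_X, MvPolynomial.aeval_X]
      rfl
    · show eval₂ _ ψ (Polynomial.map _ (MvPolynomial.finSuccEquiv ℚ 1 (MvPolynomial.X j.succ))) =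
        MvPolynomial.aeval ![ψ, φ] (MvPolynomial.X j.succ)
      rw [MvPolynomial.finSuccEquiv_X_succ, Polynomial.map_C, eval₂_C, MvPolynomial.aeval_X]
      have hj : j = 0 := Subsingleton.elim _ _
      subst hj
      show (aeval φ) (MvPolynomial.uniqueAlgEquiv ℚ (Fin 1) (MvPolynomial.X 0)) = φ
      have hX : MvPolynomial.uniqueAlgEquiv ℚ (Fin 1) (MvPolynomial.X 0) = (X : ℚ[X]) := by
        simp [MvPolynomial.uniqueAlgEquiv]
      rw [hX, aeval_X]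
  exact DFunLike.congr_fun h P

theorem tAd : AdStmt := by
  intro L _ _ hL φ ψ
  have h1 : ¬ AlgebraicIndependent ℚ ![ψ, φ] := by
    intro h
    have h2 := h.lift_cardinalMk_le_trdeg
    have h3 : Cardinal.lift.{0} (Cardinal.mk (Fin 2)) ≤ Cardinal.lift.{0} (1 : Cardinal) :=
      h2.trans (Cardinal.lift_le.2 hL)
    rw [Cardinal.mk_fin, Cardinal.lift_natCast, Cardinal.lift_one] at h3
    have h4 : (2 : ℕ) ≤ 1 := by exact_mod_cast h3
    omega
  rw [algebraicIndependent_iff] at h1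
  push Not at h1
  obtain ⟨P, hP, hP0⟩ := h1
  refine ⟨_, ?_, (Ad_hom φ ψ P).trans hP⟩
  intro h
  apply hP0
  have h5 : Function.Injective ((MvPolynomial.uniqueAlgEquiv ℚ (Fin 1) :
      MvPolynomial (Fin 1) ℚ ≃ₐ[ℚ] ℚ[X]) : MvPolynomial (Fin 1) ℚ →+* ℚ[X]) :=
    (MvPolynomial.uniqueAlgEquiv ℚ (Fin 1)).injective
  have h6 : MvPolynomial.finSuccEquiv ℚ 1 P = 0 := by
    apply Polynomial.map_injective _ h5
    rw [h, Polynomial.map_zero]
  exact (MvPolynomial.finSuccEquiv ℚ 1).injective (by rw [h6, map_zero])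

end Pool.Agent.Lib.SD
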