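import Pool.Agent.Lib.SD.Defs

/-!
# Lib/SD: common definitions and the four interface statements of the core

`SiegStmt` (auxiliary polynomial), `ZeroStmt` (nonvanishing), `EstStmt` (estimates),
`ParStmt : SiegStmt → ZeroStmt → EstStmt → CoreStmt` (choice of the parameters).
-/

namespace Pool.Agent.Lib.SD

open Filter Topology

/-- The coefficients of the auxiliary polynomial `∑ p a j b k T₁^a S₁^j T₂^b S₂^k`. -/
abbrev Cf : Type := ℕ → ℕ → ℕ → ℕ → ℤ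

/-- The sum over the index set `a ≤ n₁`, `j < d`, `b ≤ n₂`, `k < d`. -/
def sm {R : Type} [AddCommMonoid R] (d n₁ n₂ : ℕ) (f : ℕ → ℕ → ℕ → ℕ → R) : R :=
  ∑ a ∈ Finset.range (n₁ + 1), ∑ j ∈ Finset.range d,
    ∑ b ∈ Finset.range (n₂ + 1), ∑ k ∈ Finset.range d, f a j b k

/-- The power series `t^(m n + μ (d-1)) T^a S^j`, where `T = t^(-m) X`, `S = t^(-μ) Y`
(for `a ≤ n`, `j < d`). -/
noncomputable def phi {F : Type} [Field F] (m μ d : ℕ) (X Y : PowerSeries F) (n a j : ℕ) :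
    PowerSeries F :=
  PowerSeries.X ^ (m * (n - a) + μ * (d - 1 - j)) * X ^ a * Y ^ j

/-- The coefficient of `t₁^i t₂^l` of `∑ p a j b k φ_aj(t₁) φ_bk(t₂)`. -/
noncomputable def cc {F : Type} [Field F] (m μ d : ℕ) (X Y : PowerSeries F) (n₁ n₂ : ℕ) (p : Cf)
    (i l : ℕ) : F :=
  sm d n₁ n₂ fun a j b k => (p a j b k : F) *
    (PowerSeries.coeff i (phi m μ d X Y n₁ a j) * PowerSeries.coeff l (phi m μ d X Y n₂ b k))

/-- The index at the place is at least `τ` (weights `m n₁`, `m n₂`). -/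
def IdxGe {F : Type} [Field F] (m μ d : ℕ) (X Y : PowerSeries F) (n₁ n₂ : ℕ) (p : Cf) (τ : ℝ) :
    Prop :=
  ∀ i l : ℕ, (i : ℝ) / (m * n₁) + (l : ℝ) / (m * n₂) < τ → cc m μ d X Y n₁ n₂ p i l = 0

/-- `s` is the local expansion of `S` at the point `(T₀, S₀)` in the parameter `h = T - T₀`. -/
def LocS {K : Type} [Field K] (G : Polynomial (Polynomial ℤ)) (T₀ S₀ : K) (s : PowerSeries K) :
    Prop :=
  PowerSeries.constantCoeff s = S₀ ∧ ev2 (PowerSeries.C T₀ + PowerSeries.X) s G = 0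

/-- The coefficient of `h₁^κ₁ h₂^κ₂` of the local expansion of the auxiliary polynomial. -/
noncomputable def pt (d n₁ n₂ : ℕ) (p : Cf) (T₁ T₂ : ℚ) (s₁ s₂ : PowerSeries ℚ)
    (κ₁ κ₂ : ℕ) : ℚ :=
  sm d n₁ n₂ fun a j b k => (p a j b k : ℚ) *
    (PowerSeries.coeff κ₁ ((PowerSeries.C T₁ + PowerSeries.X) ^ a * s₁ ^ j) *
      PowerSeries.coeff κ₂ ((PowerSeries.C T₂ + PowerSeries.X) ^ b * s₂ ^ k))

/-- Nonzero coefficients in the index range. -/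
def NonZ (d n₁ n₂ : ℕ) (p : Cf) : Prop :=
  ∃ a ≤ n₁, ∃ j < d, ∃ b ≤ n₂, ∃ k < d, p a j b k ≠ 0

/-- The fixed data of the core (everything except the points). -/
structure Core {F : Type} [Field F] [NumberField F] (emb : F →+* ℝ) (m μ e : ℕ)
    (G : Polynomial (Polynomial ℤ)) (X Y : PowerSeries F) : Prop where
  mpos : 0 < m
  epos : 3 ≤ e
  fr : Module.finrank ℚ F = e
  monic : G.Monic
  deg : G.natDegree = m * e
  irr : Irreducible (ratG G)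
  lead : PowerSeries.coeff 0 X ≠ 0
  eqn : ev2 (lau m X) (lau μ Y) G = 0
  ex : EisBd X
  ey : EisBd Y

/-- A rational point near the place. -/
structure Pt {F : Type} [Field F] (emb : F →+* ℝ) (m μ : ℕ) (G : Polynomial (Polynomial ℤ))
    (X Y : PowerSeries F) (t : ℝ) (T S : ℚ) (N : ℕ) : Prop where
  tne : t ≠ 0
  hX : HasSum (fun b => emb (PowerSeries.coeff b X) * t ^ b) ((T : ℝ) * t ^ m)
  hY : HasSum (fun b => emb (PowerSeries.coeff b Y) * t ^ b) ((S : ℝ) * t ^ μ)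
  root : ev2 T S G = 0
  simple : ev2 T S (Polynomial.derivative G) ≠ 0
  pos : 0 < N
  intT : ∃ z : ℤ, (N : ℚ) * T = z
  intS : ∃ z : ℤ, (N : ℚ) * S = z

/-- **(a) Siegel's lemma.**  Auxiliary polynomial with index `12/5` at the place. -/
def SiegStmt : Prop :=
  ∀ (F : Type) [Field F] [NumberField F] (emb : F →+* ℝ) (m μ e : ℕ)
    (G : Polynomial (Polynomial ℤ)) (X Y : PowerSeries F), Core emb m μ e G X Y →
    ∃ C : ℕ, 1 ≤ C ∧ ∀ n₁ n₂ : ℕ, C ≤ n₂ → n₂ ≤ n₁ →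
      ∃ p : Cf, NonZ (m * e) n₁ n₂ p ∧ (∀ a j b k, |p a j b k| ≤ (C : ℤ) ^ n₁) ∧
        IdxGe m μ (m * e) X Y n₁ n₂ p (12 / 5)

/-- **(c) Zero estimate** (helper14).  `n₂` is fixed and `n₁ → ∞`. -/
def ZeroStmt : Prop :=
  ∀ (G : Polynomial (Polynomial ℤ)) (d : ℕ), G.Monic → G.natDegree = d → 0 < d →
    Irreducible (ratG G) → ∀ (n₂ : ℕ) (ε : ℝ), 0 < ε →
    ∃ C : ℝ, 1 ≤ C ∧ ∀ (n₁ : ℕ) (B : ℝ), C ≤ n₁ → 2 ≤ B → ∀ p : Cf, NonZ d n₁ n₂ p →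
      (∀ a j b k, (|p a j b k| : ℝ) ≤ B ^ n₁) →
      ∀ (T₁ S₁ T₂ S₂ : ℚ) (s₁ s₂ : PowerSeries ℚ), LocS G T₁ S₁ s₁ → LocS G T₂ S₂ s₂ →
        ev2 T₁ S₁ (Polynomial.derivative G) ≠ 0 → ev2 T₂ S₂ (Polynomial.derivative G) ≠ 0 →
        C * Real.log B ≤ Real.log |(T₁ : ℝ)| → C * n₁ * Real.log B ≤ n₂ * Real.log |(T₂ : ℝ)| →
        ∃ κ₁ κ₂ : ℕ, (κ₁ : ℝ) ≤ ε * n₁ ∧ (κ₂ : ℝ) ≤ ε * n₂ ∧
          pt d n₁ n₂ p T₁ T₂ s₁ s₂ κ₁ κ₂ ≠ 0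

/-- **(b) Estimates** (helper2).  At a nonvanishing coefficient of minimal weight. -/
def EstStmt : Prop :=
  ∀ (F : Type) [Field F] [NumberField F] (emb : F →+* ℝ) (m μ e : ℕ)
    (G : Polynomial (Polynomial ℤ)) (X Y : PowerSeries F), Core emb m μ e G X Y →
    ∃ C : ℕ, 1 ≤ C ∧ ∀ (n₁ n₂ : ℕ) (p : Cf) (Pb τ η Q : ℝ), 0 < n₁ → 0 < n₂ → 0 ≤ τ → 0 < η →
      η < 1 → 1 ≤ Q → (∀ a j b k, (|p a j b k| : ℝ) ≤ Pb) → IdxGe m μ (m * e) X Y n₁ n₂ p τ →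
      ∀ (t₁ t₂ : ℝ) (T₁ S₁ T₂ S₂ : ℚ) (N₁ N₂ : ℕ) (s₁ s₂ : PowerSeries ℚ),
        Pt emb m μ G X Y t₁ T₁ S₁ N₁ → Pt emb m μ G X Y t₂ T₂ S₂ N₂ →
        LocS G T₁ S₁ s₁ → LocS G T₂ S₂ s₂ →
        C * |t₁| < 1 → C * |t₂| < 1 → (C * |t₁|) ^ η ≤ 1 / 2 → (C * |t₂|) ^ η ≤ 1 / 2 →
        (C * |t₁|) ^ (m * n₁) ≤ 1 / Q → (C * |t₂|) ^ (m * n₂) ≤ 1 / Q →
        ∀ κ₁ κ₂ : ℕ, pt (m * e) n₁ n₂ p T₁ T₂ s₁ s₂ κ₁ κ₂ ≠ 0 →
        (∀ k₁ k₂ : ℕ, (k₁ : ℝ) / n₁ + (k₂ : ℝ) / n₂ < (κ₁ : ℝ) / n₁ + (κ₂ : ℝ) / n₂ →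
          pt (m * e) n₁ n₂ p T₁ T₂ s₁ s₂ k₁ k₂ = 0) →
        1 ≤ Pb * (C : ℝ) ^ (n₁ + n₂) * (N₁ : ℝ) ^ (n₁ + C + C * κ₁) *
          (N₂ : ℝ) ^ (n₂ + C + C * κ₂) * (|t₁|⁻¹) ^ (m * n₁ + C + C * κ₁) *
          (|t₂|⁻¹) ^ (m * n₂ + C + C * κ₂) * Q ^ (-((1 - η) * τ))

/-- Existence of the local expansion at a simple root (used by everybody). -/
def LocStmt : Prop :=
  ∀ (K : Type) [Field K] (G : Polynomial (Polynomial ℤ)) (T₀ S₀ : K), ev2 T₀ S₀ G = 0 →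
    ev2 T₀ S₀ (Polynomial.derivative G) ≠ 0 → ∃! s : PowerSeries K, LocS G T₀ S₀ s

/-- `G_S` does not vanish at points with large `T`. -/
def DscStmt : Prop :=
  ∀ (G : Polynomial (Polynomial ℤ)), G.Monic → Irreducible (ratG G) →
    ∃ C : ℝ, ∀ (K : Type) [Field K] [CharZero K] (f : K →+* ℝ) (T S : K), ev2 T S G = 0 →
      C ≤ |f T| → ev2 T S (Polynomial.derivative G) ≠ 0

/-- **(d) Parameters** (helper57). -/
def ParStmt : Prop := SiegStmt → ZeroStmt → EstStmt → LocStmt → DscStmt → CoreStmt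

end Pool.Agent.Lib.SD
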