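import Mathlib

/-!
# Lib/SD: near-integral points on curves over ℚ (Thue - Siegel - Dyson): definitions and statements

`MainStmt` is the theorem used by other developments; `CoreStmt` is its two-variable arithmetic
core, a purely numeric statement.
-/

namespace Pool.Agent.Lib.SD

open Filter Topology

/-! ## The main statement -/

/-- A sequence of pairwise different near-integral points of the affine curve with the coordinate
ring `A = ℚ[x]`: `N i` is a common denominator of the coordinates of the point `ev i`, smaller than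
every positive power of their size. -/
structure NearInt {A κ : Type} [CommRing A] [Algebra ℚ A] [Fintype κ] (x : κ → A)
    (ev : ℕ → A →ₐ[ℚ] ℚ) (N : ℕ → ℕ) : Prop where
  gen : Algebra.adjoin ℚ (Set.range x) = ⊤
  inj : Function.Injective ev
  tends : Tendsto (fun i => ∑ j, |((ev i (x j) : ℚ) : ℝ)|) atTop atTop
  pos : ∀ i, 0 < N i
  int : ∀ i j, ∃ z : ℤ, (N i : ℚ) * ev i (x j) = z
  near : ∀ ε : ℝ, 0 < ε → ∀ᶠ i in atTop, (N i : ℝ) ≤ (∑ j, |((ev i (x j) : ℚ) : ℝ)|) ^ ε

section
variable {A L : Type} [CommRing A] [Algebra ℚ A] [Field L] [Algebra A L]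

/-- `φ` is bounded on the points `ev i` along the ultrafilter `U`. -/
def Bdd (L : Type) [Field L] [Algebra A L] (ev : ℕ → A →ₐ[ℚ] ℚ) (U : Ultrafilter ℕ) (φ : L) :
    Prop :=
  ∃ C : ℝ, ∀ a b : A, algebraMap A L b ≠ 0 → algebraMap A L a / algebraMap A L b = φ →
    ∀ᶠ i in (U : Filter ℕ), |((ev i a : ℚ) : ℝ)| ≤ C * |((ev i b : ℚ) : ℝ)|

/-- The values of `φ` at the points `ev i` tend to `r` along the ultrafilter `U`. -/
def LimTo (L : Type) [Field L] [Algebra A L] (ev : ℕ → A →ₐ[ℚ] ℚ) (U : Ultrafilter ℕ) (φ : L)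
    (r : ℝ) : Prop :=
  ∀ a b : A, algebraMap A L b ≠ 0 → algebraMap A L a / algebraMap A L b = φ →
    Tendsto (fun i => ((ev i a : ℚ) : ℝ) / ((ev i b : ℚ) : ℝ)) (U : Filter ℕ) (𝓝 r)

end

/-- **Main statement.**  Near-integral points on an affine curve over `ℚ`, `U` a nonprincipal
ultrafilter: the functions which are bounded along `U` form a valuation ring `O`, it is the only
valuation ring of the function field `L` over `ℚ` which does not contain the coordinate ring, and
the limits along `U` define a ring homomorphism from `O` onto a real field of degree at most `2`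
over `ℚ`. -/
def MainStmt : Prop :=
  ∀ (A L κ : Type) [CommRing A] [IsDomain A] [Algebra ℚ A] [Field L] [Algebra ℚ L] [Algebra A L]
    [IsScalarTower ℚ A L] [IsFractionRing A L] [Fintype κ] (x : κ → A) (ev : ℕ → A →ₐ[ℚ] ℚ)
    (N : ℕ → ℕ), Algebra.trdeg ℚ L ≤ 1 → NearInt x ev N →
    ∀ U : Ultrafilter ℕ, (U : Filter ℕ) ≤ atTop →
    ∃ (O : ValuationSubring L) (F : IntermediateField ℚ ℝ) (r : O →+* ℝ),
      (∀ φ : L, φ ∈ O ↔ Bdd L ev U φ) ∧
      (∀ φ : O, LimTo L ev U (φ : L) (r φ)) ∧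
      (∀ φ : O, r φ = 0 ↔ ((φ : L) = 0 ∨ (φ : L)⁻¹ ∉ O)) ∧
      (r.range : Set ℝ) = F ∧ FiniteDimensional ℚ F ∧ Module.finrank ℚ F ≤ 2 ∧
      O ≠ ⊤ ∧ (∀ q : ℚ, algebraMap ℚ L q ∈ O) ∧ (∃ j, algebraMap A L (x j) ∉ O) ∧
      ∀ V : ValuationSubring L, (∀ q : ℚ, algebraMap ℚ L q ∈ V) →
        (∃ j, algebraMap A L (x j) ∉ V) → V = O

/-! ## The core statement -/

/-- Bounds of Eisenstein type for the coefficients of a power series over a number field. -/
def EisBd {F : Type} [Field F] (X : PowerSeries F) : Prop :=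
  ∃ D C : ℕ, 0 < D ∧ 0 < C ∧ ∀ b : ℕ,
    IsIntegral ℤ ((D : F) ^ (b + 1) * PowerSeries.coeff b X) ∧
    ∀ σ : F →+* ℂ, ‖σ (PowerSeries.coeff b X)‖ ≤ (C : ℝ) ^ (b + 1)

/-- The value at `(a, b)` of a polynomial in two variables with integer coefficients
(`a` for the inner variable, `b` for the outer variable). -/
noncomputable def ev2 {R : Type} [CommRing R] (a b : R) (G : Polynomial (Polynomial ℤ)) : R :=
  Polynomial.eval₂ (Polynomial.eval₂RingHom (Int.castRingHom R) a) b G

/-- `G` as a polynomial in the outer variable over `ℚ(T)`. -/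
noncomputable def ratG (G : Polynomial (Polynomial ℤ)) : Polynomial (RatFunc ℚ) :=
  G.map ((algebraMap (Polynomial ℚ) (RatFunc ℚ)).comp (Polynomial.mapRingHom (Int.castRingHom ℚ)))

/-- The Laurent series `t^(-m) X(t)`. -/
noncomputable def lau {F : Type} [Field F] (m : ℕ) (X : PowerSeries F) : LaurentSeries F :=
  HahnSeries.single (-(m : ℤ)) 1 * (X : LaurentSeries F)

/-- **Core statement** (two-variable Thue - Siegel - Dyson method).  There is no sequence of
near-integral points `(T i, S i)` of the curve `G(T, S) = 0` which converge to a place at infinity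
with the local parameter `t`, ramification index `m` and a real residue field `F` of degree
`e ≥ 3`, if `[L : ℚ(T)] = m e`. -/
def CoreStmt : Prop :=
  ∀ (F : Type) [Field F] [NumberField F] (emb : F →+* ℝ) (m μ e : ℕ)
    (G : Polynomial (Polynomial ℤ)) (X Y : PowerSeries F) (t : ℕ → ℝ) (T S : ℕ → ℚ) (N : ℕ → ℕ),
    0 < m → 3 ≤ e → Module.finrank ℚ F = e →
    G.Monic → G.natDegree = m * e →
    Irreducible (ratG G) →
    PowerSeries.coeff 0 X ≠ 0 →
    ev2 (lau m X) (lau μ Y) G = 0 →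
    EisBd X → EisBd Y →
    Tendsto t atTop (𝓝 0) → (∀ i, t i ≠ 0) →
    (∀ i, HasSum (fun b => emb (PowerSeries.coeff b X) * t i ^ b) ((T i : ℝ) * t i ^ m)) →
    (∀ i, HasSum (fun b => emb (PowerSeries.coeff b Y) * t i ^ b) ((S i : ℝ) * t i ^ μ)) →
    (∀ i, ev2 (T i) (S i) G = 0) →
    (∀ i, 0 < N i) → (∀ i, ∃ z : ℤ, (N i : ℚ) * T i = z) → (∀ i, ∃ z : ℤ, (N i : ℚ) * S i = z) →
    (∀ ε : ℝ, 0 < ε → ∀ᶠ i in atTop, (N i : ℝ) ≤ |t i| ^ (-ε)) →
    False

end Pool.Agent.Lib.SD
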