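import Pool.Agent.Lib.SD.Spec

/-!
# Lib/SD, module Mn: the main statement from the core statement
-/

namespace Pool.Agent.Lib.SD

open Filter Topology Polynomial

theorem tMn : AdStmt → EnStmt → EvStmt → VcStmt → FdStmt → PeStmt → PlStmt → RgStmt → FuStmt →
    RiStmt → UnStmt → TwStmt → NiStmt → MnStmt := by
  intro hAd hEn hEv hVc hFd hPe hPl hRg hFu hRi hUn hTw hNi hcore A L κ _ _ _ _ _ _ _ _ _ x ev N
    htr hNI U hU
  have hdep := hAd L htr
  have hnz := hEn A L κ x ev hdep hNI.gen hNI.inj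
  obtain ⟨v, hv1, hv2⟩ := hEv A L ev hnz
  have hv := hv2 U hU
  obtain ⟨O, r, F, hO, hr, hr0, hrF, hres⟩ := hRg L U _ hv
  have hinj : Function.Injective (algebraMap A L) := IsFractionRing.injective A L
  -- values of fractions
  have hval : ∀ (a b : A) (φ : L), algebraMap A L b ≠ 0 → algebraMap A L a / algebraMap A L b = φ →
      ∀ᶠ i in (U : Filter ℕ), v φ i = ev i a / ev i b ∧ ev i b ≠ 0 := by
    intro a b φ hb hφ
    have hb0 : b ≠ 0 := by
      rintro rfl
      exact hb (map_zero _)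
    have h1 := hU (hv1 a b hb0)
    have h2 := hU (hnz b hb0)
    rw [hφ] at h1
    filter_upwards [h1, h2] with i h1 h2
    exact ⟨h1, h2⟩
  have hvalA : ∀ a : A, ∀ᶠ i in (U : Filter ℕ), v (algebraMap A L a) i = ev i a := by
    intro a
    have h1 := hval a 1 (algebraMap A L a) (by rw [map_one]; exact one_ne_zero)
      (by rw [map_one, div_one])
    filter_upwards [h1] with i h1
    rw [h1.1, map_one, div_one]
  have hOB : ∀ φ : L, φ ∈ O ↔ Bdd L ev U φ := by
    intro φ
    rw [hO]
    constructor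
    · rintro ⟨C, hC⟩
      refine ⟨C, fun a b hb hφ => ?_⟩
      filter_upwards [hC, hval a b φ hb hφ] with i h1 h2
      have h3 : (0 : ℝ) < |((ev i b : ℚ) : ℝ)| := abs_pos.2 (by exact_mod_cast h2.2)
      rw [h2.1, Rat.cast_div, abs_div, div_le_iff₀ h3] at h1
      exact h1
    · rintro ⟨C, hC⟩
      obtain ⟨a, b, hb, hφ⟩ := IsFractionRing.div_surjective (A := A) φ
      have hb0 : algebraMap A L b ≠ 0 := by
        intro h
        exact (nonZeroDivisors.ne_zero hb) (hinj (h.trans (map_zero _).symm))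
      refine ⟨C, ?_⟩
      filter_upwards [hC a b hb0 hφ, hval a b φ hb0 hφ] with i h1 h2
      have h3 : (0 : ℝ) < |((ev i b : ℚ) : ℝ)| := abs_pos.2 (by exact_mod_cast h2.2)
      rw [h2.1, Rat.cast_div, abs_div, div_le_iff₀ h3]
      exact h1
  have hlimO : ∀ φ : O, LimTo L ev U (φ : L) (r φ) := by
    intro φ a b hb hφ
    refine (hr φ).congr' ?_
    filter_upwards [hval a b (φ : L) hb hφ] with i h1
    rw [h1.1, Rat.cast_div]
  have hq : ∀ q : ℚ, algebraMap ℚ L q ∈ O := by
    intro q
    rw [hO]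
    refine ⟨|(q : ℝ)|, ?_⟩
    filter_upwards [hv.const q] with i h1
    rw [h1]
  -- some coordinate is not bounded
  have hx : ∃ j, algebraMap A L (x j) ∉ O := by
    by_contra hcon
    push Not at hcon
    have h1 : ∀ j, ∃ C : ℝ, ∀ᶠ i in (U : Filter ℕ),
        |((v (algebraMap A L (x j)) i : ℚ) : ℝ)| ≤ C := fun j => (hO _).1 (hcon j)
    choose C hC using h1
    have h2 : ∀ᶠ i in (U : Filter ℕ), ∀ j ∈ (Finset.univ : Finset κ),
        |((ev i (x j) : ℚ) : ℝ)| ≤ C j := by
      rw [Filter.eventually_all_finset]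
      intro j _
      filter_upwards [hC j, hvalA (x j)] with i h3 h4
      rw [← h4]
      exact h3
    have h3 : ∀ᶠ i in (U : Filter ℕ), ∑ j, C j < ∑ j, |((ev i (x j) : ℚ) : ℝ)| :=
      (hNI.tends.mono_left hU).eventually_gt_atTop _
    obtain ⟨i, h4, h5⟩ := (h2.and h3).exists
    exact absurd h5 (not_lt.2 (Finset.sum_le_sum h4))
  -- everything about an unbounded element
  have key : ∀ T : A, algebraMap A L T ∉ O → FiniteDimensional ℚ F ∧ Module.finrank ℚ F ≤ 2 ∧
      ∀ V : ValuationSubring L, (∀ q : ℚ, algebraMap ℚ L q ∈ V) → algebraMap A L T ∉ V →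
        V = O := by
    intro T hT
    have htend : Tendsto (fun i => |((v (algebraMap A L T) i : ℚ) : ℝ)|) (U : Filter ℕ) atTop := by
      rw [Filter.tendsto_atTop]
      intro C
      have h1 : ¬ ∀ᶠ i in (U : Filter ℕ), |((v (algebraMap A L T) i : ℚ) : ℝ)| ≤ C :=
        fun h => hT ((hO _).2 ⟨C, h⟩)
      have h2 := Ultrafilter.eventually_not.2 h1
      exact h2.mono fun i hi => (not_le.1 hi).le
    have htrans : Transcendental ℚ (algebraMap A L T) := by
      intro hal
      have hint : IsIntegral ℚ (algebraMap A L T) := hal.isIntegral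
      obtain ⟨-, -, -, -, -, -, -, hpol, -⟩ := hVc L U _ hv
      have h1 : ∀ᶠ i in (U : Filter ℕ), ‖((minpoly ℚ (algebraMap A L T)).map
          (algebraMap ℚ ℝ)).eval ((v (algebraMap A L T) i : ℚ) : ℝ)‖ = 0 := by
        filter_upwards [hpol (algebraMap A L T) (minpoly ℚ (algebraMap A L T)), hv.const 0]
          with i h2 h3
        rw [map_zero, Rat.cast_zero] at h3
        rw [minpoly.aeval, h3, Polynomial.aeval_def, ← Polynomial.eval_map] at h2
        rw [← h2, norm_zero]
      have h2 : 0 < ((minpoly ℚ (algebraMap A L T)).map (algebraMap ℚ ℝ)).degree := by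
        rw [Polynomial.degree_map]
        exact minpoly.degree_pos hint
      have h3 := Polynomial.tendsto_norm_atTop _ h2
        (l := (U : Filter ℕ)) (z := fun i => ((v (algebraMap A L T) i : ℚ) : ℝ)) htend
      obtain ⟨i, h4, h5⟩ := (h1.and (h3.eventually_gt_atTop 0)).exists
      rw [h4] at h5
      exact lt_irrefl _ h5
    obtain ⟨S, G, d, hprim⟩ := hPe L (algebraMap A L T) htrans
      (hFd A L κ x hdep hNI.gen (algebraMap A L T) htrans)
    obtain ⟨π, m, hplc⟩ := hPl L U _ (algebraMap A L T) S G d hv hprim htend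
    obtain ⟨N', hN', hint, hnear⟩ := hNi A L κ x ev N U v hNI hU hv1 hv T S G d hprim htend
    have hint' : ∀ᶠ i in (U : Filter ℕ),
        (∃ z : ℤ, (N' i : ℝ) * ((v (algebraMap A L T) i : ℚ) : ℝ) = z) ∧
          ∃ z : ℤ, (N' i : ℝ) * ((v S i : ℚ) : ℝ) = z := by
      filter_upwards [hint] with i h1
      obtain ⟨⟨z, hz⟩, ⟨w, hw⟩⟩ := h1
      exact ⟨⟨z, by exact_mod_cast hz⟩, ⟨w, by exact_mod_cast hw⟩⟩
    have hmd := hRi L U _ (algebraMap A L T) π m S G d F N' hplc hprim hres hN' hint' hnear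
    refine ⟨((hFu L U _ (algebraMap A L T) π m S G d hplc hprim).2 F hres).1,
      hTw hcore L U v (algebraMap A L T) π m S G d F N' hdep hU hplc hprim hres hN' hint hnear hmd,
      ?_⟩
    intro V hqV hTV
    exact hUn L U _ (algebraMap A L T) π m S G d F O V hplc hprim hres hmd hO hqV hTV
  obtain ⟨j, hj⟩ := hx
  obtain ⟨k1, k2, k3⟩ := key (x j) hj
  refine ⟨O, F, r, hOB, hlimO, hr0, hrF, k1, k2, ?_, hq, ⟨j, hj⟩, ?_⟩
  · rintro rfl
    exact hj (ValuationSubring.mem_top _)
  · rintro V hqV ⟨k, hk⟩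
    by_cases h1 : algebraMap A L (x j) ∈ V
    · by_cases h2 : algebraMap A L (x k) ∈ O
      · refine (key (x j + x k) ?_).2.2 V hqV ?_
        · rw [map_add]
          intro h3
          apply hj
          have h4 := sub_mem h3 h2
          rwa [add_sub_cancel_right] at h4
        · rw [map_add]
          intro h3
          apply hk
          have h4 := sub_mem h3 h1
          rwa [add_sub_cancel_left] at h4
      · exact (key (x k) h2).2.2 V hqV hk
    · exact k3 V hqV h1

end Pool.Agent.Lib.SD
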