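import Pool.Agent.Lib.SD.Spec

/-!
# Lib/SD: Runge with near-integral values
-/

namespace Pool.Agent.Lib.SD

open Filter Topology Polynomial

private lemma Ri_den (p : ℚ[X]) :
    ∃ M : ℕ, 0 < M ∧ ∀ a, ∃ z : ℤ, (M : ℚ) * p.coeff a = z := by
  refine ⟨∏ a ∈ Finset.range (p.natDegree + 1), (p.coeff a).den,
    Finset.prod_pos fun a _ => (p.coeff a).den_pos, fun a => ?_⟩
  by_cases ha : a ≤ p.natDegree
  · have hd : (p.coeff a).den ∣ ∏ a ∈ Finset.range (p.natDegree + 1), (p.coeff a).den :=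
      Finset.dvd_prod_of_mem (fun a => (p.coeff a).den) (Finset.mem_range.2 (by omega))
    obtain ⟨k, hk⟩ := hd
    refine ⟨k * (p.coeff a).num, ?_⟩
    rw [hk]
    push_cast
    have h1 : ((p.coeff a).den : ℚ) * p.coeff a = (p.coeff a).num := Rat.den_mul_eq_num _
    rw [mul_comm ((p.coeff a).den : ℚ) (k : ℚ), mul_assoc, h1]
  · exact ⟨0, by rw [coeff_eq_zero_of_natDegree_lt (by omega)]; simp⟩

private lemma Ri_den' {d : ℕ} (p : Fin d → ℚ[X]) :
    ∃ M : ℕ, 0 < M ∧ ∀ j a, ∃ z : ℤ, (M : ℚ) * (p j).coeff a = z := by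
  choose M hM0 hM using fun j => Ri_den (p j)
  refine ⟨∏ j, M j, Finset.prod_pos fun j _ => hM0 j, fun j a => ?_⟩
  obtain ⟨k, hk⟩ := Finset.dvd_prod_of_mem M (Finset.mem_univ j)
  obtain ⟨z, hz⟩ := hM j a
  refine ⟨k * z, ?_⟩
  rw [hk]
  push_cast
  rw [mul_comm (M j : ℚ) (k : ℚ), mul_assoc, hz]

private lemma Ri_int (p : ℚ[X]) (j D M n : ℕ) (hM : ∀ a, ∃ z : ℤ, (M : ℚ) * p.coeff a = z)
    (hD : p.natDegree + j ≤ D) (t s : ℝ) (hz : ∃ z : ℤ, (n : ℝ) * t = z)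
    (hw : ∃ z : ℤ, (n : ℝ) * s = z) :
    (M : ℝ) * (n : ℝ) ^ D * (aeval t p * s ^ j) ∈ (Int.castRingHom ℝ).range := by
  rw [aeval_eq_sum_range, Finset.sum_mul, Finset.mul_sum]
  refine Subring.sum_mem _ fun a ha => ?_
  have ha' : a ≤ p.natDegree := by
    have := Finset.mem_range.1 ha
    omega
  obtain ⟨z, hz⟩ := hz
  obtain ⟨w, hw⟩ := hw
  obtain ⟨y, hy⟩ := hM a
  have hy' : (M : ℝ) * (p.coeff a : ℝ) = y := by exact_mod_cast congrArg (fun q : ℚ => (q : ℝ)) hy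
  have e1 : (M : ℝ) * (n : ℝ) ^ D * (p.coeff a • t ^ a * s ^ j) =
      ((M : ℝ) * (p.coeff a : ℝ)) * (n : ℝ) ^ (D - a - j) * ((n : ℝ) * t) ^ a *
        ((n : ℝ) * s) ^ j := by
    have : D = (D - a - j) + a + j := by omega
    conv_lhs => rw [this]
    rw [Rat.smul_def, mul_pow, mul_pow, pow_add, pow_add]
    ring
  rw [e1, hy', hz, hw]
  have hc : ∀ b : ℤ, (b : ℝ) ∈ (Int.castRingHom ℝ).range := fun b => ⟨b, rfl⟩
  have hn : (n : ℝ) ∈ (Int.castRingHom ℝ).range := ⟨n, by simp⟩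
  exact mul_mem (mul_mem (mul_mem (hc _) (pow_mem hn _)) (pow_mem (hc _) _)) (pow_mem (hc _) _)

private lemma Ri_top {L : Type} [Field L] [Algebra ℚ L] (U : Ultrafilter ℕ) (v : L → ℕ → ℝ)
    (T π : L) (m : ℕ) (hV : VcStmt) (h : Plc U v T π m) :
    Tendsto (fun i => |v T i|) (U : Filter ℕ) atTop := by
  obtain ⟨hne, -⟩ := hV L U v h.vals
  obtain ⟨c, hc, hT⟩ := h.ordT
  have h1 : Tendsto (fun i => |v T i * v π i ^ m|) (U : Filter ℕ) (𝓝 |c|) := hT.abs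
  have h2 : Tendsto (fun i => |v π i| ^ m) (U : Filter ℕ) (𝓝[>] 0) := by
    refine tendsto_nhdsWithin_iff.2 ⟨?_, ?_⟩
    · have := (h.pi0.abs).pow m
      simpa [h.pos.ne'] using this
    · filter_upwards [hne π h.pine] with i hi
      exact pow_pos (abs_pos.2 hi) m
  have h3 : Tendsto (fun i => (|v π i| ^ m)⁻¹) (U : Filter ℕ) atTop :=
    tendsto_inv_nhdsGT_zero.comp h2
  have h4 := Tendsto.pos_mul_atTop (abs_pos.2 hc) h1 h3
  refine h4.congr' ?_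
  filter_upwards [hne π h.pine] with i hi
  have : |v π i| ^ m ≠ 0 := pow_ne_zero _ (abs_ne_zero.2 hi)
  rw [abs_mul, abs_pow, mul_assoc, mul_inv_cancel₀ this, mul_one]

/-- **Ri.** -/
theorem tRi : VcStmt → SmStmt → FuStmt → RuStmt → RiStmt := by
  intro hVc hSm hFu hRu L _ _ U v T π m S G d F N hP hPr hF hN hint hnear
  obtain ⟨hfin, hle⟩ := (hFu L U v T π m S G d hP hPr).2 F hF
  refine le_antisymm hle (not_lt.1 fun hlt => ?_)
  obtain ⟨p, hne, h0⟩ := hRu L U v T π m S G d F hP hPr hF hlt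
  have htop := Ri_top U v T π m hVc hP
  obtain ⟨C, hC⟩ := hSm L U v T S G d hP.vals hPr htop _ h0
  obtain ⟨hv0, -, -, -, hvpow, -, hvsum, hvaev, -⟩ := hVc L U v hP.vals
  obtain ⟨M, hM0, hM⟩ := Ri_den' p
  have hd0 : 0 < d := hPr.pos
  -- the degree bound
  set D : ℕ := ∑ j : Fin d, ((p j).natDegree + j) with hD
  have hDj : ∀ j : Fin d, (p j).natDegree + j ≤ D := fun j =>
    Finset.single_le_sum (f := fun j : Fin d => (p j).natDegree + (j : ℕ))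
      (fun _ _ => Nat.zero_le _) (Finset.mem_univ j)
  set φ : L := ∑ j, aeval T (p j) * S ^ (j : ℕ) with hφ
  have hval : ∀ᶠ i in (U : Filter ℕ), v φ i = ∑ j : Fin d, aeval (v T i) (p j) * v S i ^ (j : ℕ) := by
    have h1 : ∀ᶠ i in (U : Filter ℕ), ∀ j : Fin d,
        v (aeval T (p j) * S ^ (j : ℕ)) i = aeval (v T i) (p j) * v S i ^ (j : ℕ) := by
      refine eventually_all.2 fun j => ?_
      filter_upwards [hP.vals.mul (aeval T (p j)) (S ^ (j : ℕ)), hvaev T (p j),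
        hvpow S (j : ℕ)] with i h1 h2 h3
      rw [h1, h2, h3]
    filter_upwards [h1, hvsum (Fin d) Finset.univ fun j => aeval T (p j) * S ^ (j : ℕ)] with i h1 h2
    rw [hφ, h2]
    exact Finset.sum_congr rfl fun j _ => h1 j
  have hone : ∀ᶠ i in (U : Filter ℕ), 1 ≤ (M : ℝ) * (N i : ℝ) ^ D * |v φ i| := by
    filter_upwards [hval, hv0 φ hne, hint] with i h1 h2 h3
    have h4 : (M : ℝ) * (N i : ℝ) ^ D * v φ i ∈ (Int.castRingHom ℝ).range := by
      rw [h1, Finset.mul_sum]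
      exact Subring.sum_mem _ fun j _ =>
        Ri_int (p j) j D M (N i) (hM j) (hDj j) (v T i) (v S i) h3.1 h3.2
    obtain ⟨z, hz⟩ := h4
    have hMN : (0 : ℝ) < (M : ℝ) * (N i : ℝ) ^ D :=
      mul_pos (Nat.cast_pos.2 hM0) (pow_pos (Nat.cast_pos.2 (hN i)) D)
    have hz' : (z : ℝ) = (M : ℝ) * (N i : ℝ) ^ D * v φ i := by simpa using hz
    have hz0 : z ≠ 0 := by
      intro h
      rw [h] at hz'
      exact mul_ne_zero hMN.ne' h2 (by simpa using hz'.symm)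
    have h5 : (1 : ℝ) ≤ |(z : ℝ)| := by
      have : (1 : ℤ) ≤ |z| := Int.one_le_abs hz0
      exact_mod_cast this
    rw [hz', abs_mul, abs_of_pos hMN] at h5
    exact h5
  -- the growth of the denominators
  set ε : ℝ := 1 / (2 * d * (D + 1)) with hε
  have hd0' : (0 : ℝ) < d := Nat.cast_pos.2 hd0
  have hD0 : (0 : ℝ) ≤ D := Nat.cast_nonneg D
  have hε0 : 0 < ε := by positivity
  have hεle : ε * ((D : ℝ) * d) ≤ 1 / 2 := by
    rw [hε, div_mul_eq_mul_div, one_mul, div_le_div_iff₀ (by positivity) (by norm_num)]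
    nlinarith [mul_nonneg hD0 hd0'.le]
  have hC0 : Tendsto (fun i => |v T i| ^ (1 / 2 : ℝ)) (U : Filter ℕ) atTop :=
    (tendsto_rpow_atTop (by norm_num)).comp htop
  have hcontra : ∀ᶠ i in (U : Filter ℕ), |v T i| ^ (1 / 2 : ℝ) ≤ (M : ℝ) ^ d * C := by
    filter_upwards [hone, hC, hnear ε hε0, htop.eventually_ge_atTop 1] with i h1 h2 h3 h4
    have hT0 : (0 : ℝ) < |v T i| := by linarith
    have hN1 : (0 : ℝ) ≤ (N i : ℝ) := Nat.cast_nonneg _
    have h5 : (1 : ℝ) ≤ ((M : ℝ) * (N i : ℝ) ^ D * |v φ i|) ^ d := one_le_pow₀ h1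
    have h6 : ((N i : ℝ) ^ D) ^ d ≤ |v T i| ^ (1 / 2 : ℝ) := by
      rw [← pow_mul]
      calc (N i : ℝ) ^ (D * d) ≤ (|v T i| ^ ε) ^ (D * d) := pow_le_pow_left₀ hN1 h3 _
        _ = |v T i| ^ (ε * ((D : ℝ) * d)) := by
            rw [← Real.rpow_natCast, ← Real.rpow_mul hT0.le]
            push_cast
            ring_nf
        _ ≤ |v T i| ^ (1 / 2 : ℝ) := Real.rpow_le_rpow_of_exponent_le h4 hεle
    have h7 : |v T i| = |v T i| ^ (1 / 2 : ℝ) * |v T i| ^ (1 / 2 : ℝ) := by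
      rw [← Real.rpow_add hT0]
      norm_num
    have h8 : |v T i| ≤ |v T i| ^ (1 / 2 : ℝ) * ((M : ℝ) ^ d * C) := by
      calc |v T i| = 1 * |v T i| := (one_mul _).symm
        _ ≤ ((M : ℝ) * (N i : ℝ) ^ D * |v φ i|) ^ d * |v T i| :=
            mul_le_mul_of_nonneg_right h5 hT0.le
        _ = ((N i : ℝ) ^ D) ^ d * ((M : ℝ) ^ d * (|v φ i| ^ d * |v T i|)) := by
            rw [mul_pow, mul_pow]; ring
        _ ≤ |v T i| ^ (1 / 2 : ℝ) * ((M : ℝ) ^ d * C) := by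
            refine mul_le_mul h6 ?_ (by positivity) (by positivity)
            exact mul_le_mul_of_nonneg_left h2 (by positivity)
    have h9 : (0 : ℝ) < |v T i| ^ (1 / 2 : ℝ) := Real.rpow_pos_of_pos hT0 _
    rw [h7] at h8
    rw [← h7] at h8
    refine le_of_mul_le_mul_left ?_ h9
    rw [← h7]
    exact h8
  obtain ⟨i, h1, h2⟩ := (hcontra.and (hC0.eventually_gt_atTop ((M : ℝ) ^ d * C))).exists
  exact absurd h1 (not_le.2 h2)

end Pool.Agent.Lib.SD
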