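import Pool.Agent.Lib.SD.Defs

/-!
# Lib/SD: specification of the part valuation - Runge - expansions - assembly

Every `def XStmt : Prop` is one module; its docstring contains the complete proof.  The theorem of
the module `X` is called `tX` and lives in `Pool/Agent/Lib/SD/X.lean`.
-/

namespace Pool.Agent.Lib.SD

open Filter Topology Polynomial

/-! ## Definitions -/

/-- `v φ i` is the value of the function `φ` at the `i`-th point: a ring homomorphism up to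
`U`-small sets. -/
structure Vals {L : Type} [Field L] [Algebra ℚ L] (U : Ultrafilter ℕ) (v : L → ℕ → ℝ) : Prop where
  add : ∀ φ ψ : L, ∀ᶠ i in (U : Filter ℕ), v (φ + ψ) i = v φ i + v ψ i
  mul : ∀ φ ψ : L, ∀ᶠ i in (U : Filter ℕ), v (φ * ψ) i = v φ i * v ψ i
  const : ∀ q : ℚ, ∀ᶠ i in (U : Filter ℕ), v (algebraMap ℚ L q) i = q

/-- Any two elements of `L` are algebraically dependent over `ℚ`. -/
def Dep (L : Type) [Field L] [Algebra ℚ L] : Prop :=
  ∀ φ ψ : L, ∃ p : Polynomial ℚ[X], p ≠ 0 ∧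
    eval₂ ((aeval φ : ℚ[X] →ₐ[ℚ] L) : ℚ[X] →+* L) ψ p = 0

/-- `S` is a primitive element of `L` over `ℚ(T)`, integral over `ℤ[T]` with the minimal polynomial
`G`, `[L : ℚ(T)] = d`. -/
structure Prim {L : Type} [Field L] [Algebra ℚ L] (T S : L) (G : Polynomial (Polynomial ℤ))
    (d : ℕ) : Prop where
  tr : Transcendental ℚ T
  monic : G.Monic
  deg : G.natDegree = d
  pos : 0 < d
  root : ev2 T S G = 0
  irr : Irreducible (ratG G)
  span : ∀ φ : L, ∃ (q : ℚ[X]) (p : Fin d → ℚ[X]), q ≠ 0 ∧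
    aeval T q * φ = ∑ j, aeval T (p j) * S ^ (j : ℕ)
  indep : ∀ p : Fin d → ℚ[X], ∑ j, aeval T (p j) * S ^ (j : ℕ) = 0 → ∀ j, p j = 0

/-- The place defined by the ultrafilter `U`: uniformizer `π`, pole order `m` of `T`. -/
structure Plc {L : Type} [Field L] [Algebra ℚ L] (U : Ultrafilter ℕ) (v : L → ℕ → ℝ) (T π : L)
    (m : ℕ) : Prop where
  vals : Vals U v
  pos : 0 < m
  pine : π ≠ 0
  pi0 : Tendsto (v π) (U : Filter ℕ) (𝓝 0)
  ord : ∀ φ : L, φ ≠ 0 → ∃ (k : ℤ) (c : ℝ), c ≠ 0 ∧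
    Tendsto (fun i => v φ i / v π i ^ k) (U : Filter ℕ) (𝓝 c)
  ordT : ∃ c : ℝ, c ≠ 0 ∧ Tendsto (fun i => v T i * v π i ^ m) (U : Filter ℕ) (𝓝 c)

/-- `F` is the residue field: the set of the limits of the elements of `L`. -/
def ResF {L : Type} (U : Ultrafilter ℕ) (v : L → ℕ → ℝ) (F : IntermediateField ℚ ℝ) : Prop :=
  ∀ x : ℝ, x ∈ F ↔ ∃ φ : L, Tendsto (v φ) (U : Filter ℕ) (𝓝 x)

/-- The value at `(s, z)` of a polynomial in two variables over a field `F` with an embedding into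
`ℝ` (`s` for the inner variable). -/
noncomputable def evF {F : Type} [Field F] (emb : F →+* ℝ) (s z : ℝ) (g : Polynomial F[X]) : ℝ :=
  eval₂ (eval₂RingHom emb s) z g

/-- `y` is the sum at `s` of the power series `Φ`, which converges absolutely there. -/
def EvS {F : Type} [Field F] (emb : F →+* ℝ) (Φ : PowerSeries F) (s y : ℝ) : Prop :=
  Summable (fun b => |emb (PowerSeries.coeff b Φ) * s ^ b|) ∧
    HasSum (fun b => emb (PowerSeries.coeff b Φ) * s ^ b) y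

/-! ## Algebra -/

/-- **Ad.**  `trdeg ≤ 1` gives `Dep`.
PROOF. Let `φ, ψ : L`.  If `![φ, ψ]` were algebraically independent over `ℚ` then
`2 = #(Fin 2) ≤ trdeg` (`AlgebraicIndependent.lift_cardinalMk_le_trdeg` or
`AlgebraicIndependent.cardinalMk_le_trdeg`), contradiction.  So there is `P ≠ 0` in
`MvPolynomial (Fin 2) ℚ` with `aeval ![φ, ψ] P = 0`.  Transport it by an isomorphism
`MvPolynomial (Fin 2) ℚ ≃ ℚ[X][X]` (for example `MvPolynomial.finSuccEquiv ℚ 1`, with the variable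
`0` as the outer variable `ψ` (use `![ψ, φ]`), followed by the map on coefficients of
`MvPolynomial (Fin 1) ℚ ≃ ℚ[X]`, for example `MvPolynomial.uniqueAlgEquiv` /
`MvPolynomial.pUnitAlgEquiv`).  Alternative without isomorphisms: if `φ` is algebraic over `ℚ` take
`p = C q` with `q(φ) = 0`; otherwise `ψ` is algebraic over `ℚ(φ)` or over the subalgebra `ℚ[φ]`
(`trdeg ≤ 1`), clear denominators.  About 60 lines. -/
def AdStmt : Prop :=
  ∀ (L : Type) [Field L] [Algebra ℚ L], Algebra.trdeg ℚ L ≤ 1 → Dep L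

/-- **En.**  A nonzero element of `A` vanishes at finitely many of the points.
PROOF. Let `0 ≠ b ∈ A`.  Work in `A` with the dependence relation transported from `L`
(`algebraMap A L` is injective).
Case 1: `b` algebraic over `ℚ` (as an element of `L`).  There is `q ∈ ℚ[X]` with `q(b) = 0` and
`q(0) ≠ 0` (divide by a power of `X`, `b ≠ 0`), so `b * c = -q(0)` for some `c ∈ A`
(`q = C (q 0) + X * q'`, `Polynomial.divX`), hence `ev i b * ev i c = -q(0) ≠ 0` for all `i`.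
Case 2: `b` transcendental.  For each `j` take `p_j ≠ 0` in `ℚ[X][X]` with `p_j(b, x_j) = 0` (`Dep`),
divided by the highest power of the inner variable `X` which divides all its coefficients: so
`p_j.map (evalRingHom 0) ≠ 0` and still `p_j(b, x_j) = 0` because `b ^ k ≠ 0` (choose `p_j` of
minimal total size or use strong induction on, say, `∑ natDegree` of the coefficients: if all
coefficients are divisible by `X`, `p = C X * p'`).  If `ev i b = 0`, apply `ev i` to the relation: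
`(p_j.map (evalRingHom 0)).eval (ev i (x j)) = 0`, so `ev i (x j)` is in the finite root set `R_j`.
The map `i ↦ (ev i (x j))_j` is injective (`ev` injective, `ev i` is determined on the generators:
`AlgHom.ext_of_adjoin_eq_top`), so `{i | ev i b = 0}` is finite (`Set.Finite.pi`,
`Set.Finite.of_injOn` or preimage).  A finite set of `ℕ` is eventually avoided.  About 120 lines. -/
def EnStmt : Prop :=
  ∀ (A L κ : Type) [CommRing A] [IsDomain A] [Algebra ℚ A] [Field L] [Algebra ℚ L] [Algebra A L]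
    [IsScalarTower ℚ A L] [IsFractionRing A L] [Fintype κ] (x : κ → A) (ev : ℕ → A →ₐ[ℚ] ℚ),
    Dep L → Algebra.adjoin ℚ (Set.range x) = ⊤ → Function.Injective ev →
    ∀ b : A, b ≠ 0 → ∀ᶠ i in atTop, ev i b ≠ 0

/-- **Ev.**  The values of the elements of `L`.  PROOF.  For `φ ∈ L` choose `a, b ∈ A`, `b ≠ 0`,
`φ = a / b` (`IsFractionRing.div_surjective`) and put `v φ i := ev i a / ev i b`.  If also
`φ = a' / b'`, then `a b' = a' b` in `A` (injectivity of `algebraMap A L`), so for all large `i`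
(hypothesis: `ev i b`, `ev i b'` are eventually `≠ 0`) `ev i a / ev i b = ev i a' / ev i b'`: this is
the first property.  Vals: for `φ = a / b`, `ψ = c / d` the representation
`φ + ψ = (a d + b c) / (b d)` gives `add` (for large `i`, hence `U`-eventually because `U ≤ atTop`),
`φ ψ = (a c) / (b d)` gives `mul`, `q = (algebraMap ℚ A q) / 1` gives `const`
(`AlgHom.commutes`).  About 80 lines. -/
def EvStmt : Prop :=
  ∀ (A L : Type) [CommRing A] [IsDomain A] [Algebra ℚ A] [Field L] [Algebra ℚ L] [Algebra A L]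
    [IsScalarTower ℚ A L] [IsFractionRing A L] (ev : ℕ → A →ₐ[ℚ] ℚ),
    (∀ b : A, b ≠ 0 → ∀ᶠ i in atTop, ev i b ≠ 0) →
    ∃ v : L → ℕ → ℚ,
      (∀ a b : A, b ≠ 0 → ∀ᶠ i in atTop, v (algebraMap A L a / algebraMap A L b) i
        = ev i a / ev i b) ∧
      ∀ U : Ultrafilter ℕ, (U : Filter ℕ) ≤ atTop → Vals U (fun (φ : L) i => ((v φ i : ℚ) : ℝ))

/-- **Vc.**  Consequences of `Vals`: nonzero elements, inverses, powers, sums, polynomials.
PROOF. `v 0 =ᶠ 0`, `v 1 =ᶠ 1` from `const`.  `φ ≠ 0`: `v φ i * v φ⁻¹ i = v 1 i = 1`, hence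
`v φ i ≠ 0` and `v φ⁻¹ i = (v φ i)⁻¹`; for `φ = 0`, `v 0 i = 0` and `0⁻¹ = 0`.  `neg`: from
`φ + (-φ) = 0`; `sub`: `φ - ψ = φ + (-ψ)`.  Powers by induction, integer powers from the inverse.
Sums by induction over the finset.  Polynomials: `aeval φ p = ∑ algebraMap (p.coeff n) * φ ^ n`
(`Polynomial.aeval_eq_sum_range`), `ev2` is a double sum of integer constants times powers (or
induction on the polynomial, `Polynomial.induction_on'`).  Shorter: build the ring homomorphism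
`L →+* Filter.Germ (U : Filter ℕ) ℝ`, `φ ↦ ↑(v φ)`, and use `map_sum`, `map_pow`, `hom_eval₂`.
About 100 lines. -/
def VcStmt : Prop :=
  ∀ (L : Type) [Field L] [Algebra ℚ L] (U : Ultrafilter ℕ) (v : L → ℕ → ℝ), Vals U v →
    (∀ φ : L, φ ≠ 0 → ∀ᶠ i in (U : Filter ℕ), v φ i ≠ 0) ∧
    (∀ φ : L, ∀ᶠ i in (U : Filter ℕ), v φ⁻¹ i = (v φ i)⁻¹) ∧
    (∀ φ : L, ∀ᶠ i in (U : Filter ℕ), v (-φ) i = -v φ i) ∧
    (∀ φ ψ : L, ∀ᶠ i in (U : Filter ℕ), v (φ - ψ) i = v φ i - v ψ i) ∧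
    (∀ (φ : L) (n : ℕ), ∀ᶠ i in (U : Filter ℕ), v (φ ^ n) i = v φ i ^ n) ∧
    (∀ (φ : L) (n : ℤ), ∀ᶠ i in (U : Filter ℕ), v (φ ^ n) i = v φ i ^ n) ∧
    (∀ (ι : Type) (s : Finset ι) (f : ι → L), ∀ᶠ i in (U : Filter ℕ),
      v (∑ j ∈ s, f j) i = ∑ j ∈ s, v (f j) i) ∧
    (∀ (φ : L) (p : ℚ[X]), ∀ᶠ i in (U : Filter ℕ), v (aeval φ p) i = aeval (v φ i) p) ∧
    (∀ (φ ψ : L) (G : Polynomial (Polynomial ℤ)), ∀ᶠ i in (U : Filter ℕ),
      v (ev2 φ ψ G) i = ev2 (v φ i) (v ψ i) G)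

/-- **Fd.**  `L` is finite over `ℚ(T)`.  Here `L` is an algebra over `RatFunc ℚ` by the
homomorphism `f` with `f (algebraMap p) = aeval T p`.
PROOF. `L` is algebraic over `RatFunc ℚ`: for `φ ∈ L` take `p ≠ 0` with `p(T, φ) = 0` (`Dep`); its
image in `(RatFunc ℚ)[X]` is nonzero and kills `φ`.  As a field `L` is generated over `ℚ`, hence over
`RatFunc ℚ`, by the finitely many `x j`: the intermediate field generated by them contains the image
of `A` (`Algebra.adjoin_le`, hypothesis `gen`), hence all quotients.  Finitely many algebraic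
elements generate a finite extension (`IntermediateField.finiteDimensional_adjoin` /
`IntermediateField.finiteDimensional_iSup_of_finite`), and it is `⊤`.  About 60 lines. -/
def FdStmt : Prop :=
  ∀ (A L κ : Type) [CommRing A] [IsDomain A] [Algebra ℚ A] [Field L] [Algebra ℚ L] [Algebra A L]
    [IsScalarTower ℚ A L] [IsFractionRing A L] [Fintype κ] (x : κ → A),
    Dep L → Algebra.adjoin ℚ (Set.range x) = ⊤ → ∀ T : L, Transcendental ℚ T →
    ∃ f : RatFunc ℚ →+* L, (∀ p : ℚ[X], f (algebraMap ℚ[X] (RatFunc ℚ) p) = aeval T p) ∧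
      @Module.Finite (RatFunc ℚ) L _ _ f.toAlgebra.toModule

/-- **Pe.**  Primitive element, integral over `ℤ[T]`.
PROOF. Let `K = RatFunc ℚ`, `L` a finite extension of `K` by `f` (characteristic `0`, separable),
`d = finrank K L`.  `Field.exists_primitive_element` gives `S₀` with `K⟮S₀⟯ = ⊤`;
`P = minpoly K S₀` is monic, irreducible of degree `d`.  Choose `q ∈ ℤ[X]`, `q ≠ 0`, such that
`q * P.coeff j` is the image of an element of `ℤ[X]` for every `j` (a common denominator in `ℚ[X]`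
of the finitely many elements of `K`, `IsLocalization.exist_integer_multiples_of_finset`, then a
common integer denominator).  Put `S = q(T) S₀` and `P' = P.scaleRoots q`: coefficients
`P.coeff j * q ^ (d - j)`, images of elements of `ℤ[X]` for `j < d`, leading coefficient `1`; so
`P' = ratG G` with `G` monic of degree `d`, and `P'(S) = 0` (`Polynomial.scaleRoots_aeval_eq_zero`).
`K⟮S⟯ = K⟮S₀⟯ = ⊤` because `q ≠ 0`, so `minpoly K S` has degree `d` and divides `P'`, both monic: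
`P' = minpoly K S` is irreducible.  `root`: `ev2 T S G = P'(S)` (unfold, `Polynomial.eval₂_map`).
`span`, `indep`: `1, S, …, S^(d-1)` is a basis of `L` over `K` (`PowerBasis`,
`IntermediateField.adjoin.powerBasis`, `IntermediateField.powerBasisAux` ...); for `φ ∈ L` write
`φ = ∑ c_j S^j`, `c_j ∈ K`, and clear denominators; independence over `K` gives independence over
`ℚ[T]`.  `pos`: `d = finrank > 0`.  About 200 lines (can be done in two files). -/
def PeStmt : Prop :=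
  ∀ (L : Type) [Field L] [Algebra ℚ L] (T : L), Transcendental ℚ T →
    (∃ f : RatFunc ℚ →+* L, (∀ p : ℚ[X], f (algebraMap ℚ[X] (RatFunc ℚ) p) = aeval T p) ∧
      @Module.Finite (RatFunc ℚ) L _ _ f.toAlgebra.toModule) →
    ∃ (S : L) (G : Polynomial (Polynomial ℤ)) (d : ℕ), Prim T S G d

/-- **Rl.**  Linear algebra over `ℚ(T)`: more than `d` elements are dependent, `d` independent
elements are a basis.
PROOF. (a) `ι` finite with more than `d` elements, `φ : ι → L`.  By `span` write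
`q_j(T) φ_j = ∑_k p_jk(T) S^k`.  The vectors `(p_jk)_k ∈ ℚ[X]^d`, `j ∈ ι`, are linearly dependent
over `ℚ[X]` (more than `d` vectors in `ℚ[X]^d`; for a matrix `ι × Fin d` over a domain with
`card ι > d` there is a nonzero vector in the left kernel: `Matrix.exists_mulVec_eq_zero_iff` needs
a square matrix; use `exists_nontrivial_relation...` over the fraction field, or
`Module.exists_nontrivial_relation_of_finrank_lt_card` over `RatFunc ℚ` and clear denominators, or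
the rank condition `LinearIndependent.fintype_card_le_finrank` for the free `ℚ[X]`-module
`Fin d → ℚ[X]`): `∑_j b_j p_jk = 0` for all `k`, some `b_j ≠ 0`.  Then
`∑_j b_j(T) q_j(T) φ_j = ∑_k (∑_j b_j p_jk)(T) S^k = 0`; `a_j = b_j q_j`, `a_j ≠ 0` if `b_j ≠ 0`.
(b) Apply (a) to the family `Option ι → L`, `none ↦ ψ`, `some j ↦ φ_j` of `d + 1` elements; the
coefficient of `ψ` is nonzero, otherwise the `φ_j` would be dependent; move the others to the right
hand side.  About 90 lines. -/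
def RlStmt : Prop :=
  ∀ (L : Type) [Field L] [Algebra ℚ L] (T S : L) (G : Polynomial (Polynomial ℤ)) (d : ℕ),
    Prim T S G d →
    (∀ (ι : Type) [Fintype ι] (φ : ι → L), d < Fintype.card ι →
      ∃ a : ι → ℚ[X], (∃ j, a j ≠ 0) ∧ ∑ j, aeval T (a j) * φ j = 0) ∧
    (∀ (ι : Type) [Fintype ι] (φ : ι → L), Fintype.card ι = d →
      (∀ a : ι → ℚ[X], ∑ j, aeval T (a j) * φ j = 0 → ∀ j, a j = 0) →
      ∀ ψ : L, ∃ (q : ℚ[X]) (p : ι → ℚ[X]), q ≠ 0 ∧
        aeval T q * ψ = ∑ j, aeval T (p j) * φ j)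

/-! ## The valuation -/

/-- **Sm.**  Small functions are smaller than a fixed negative power of `|T|`.
PROOF. `RlStmt` (a) for the `d + 1` elements `1, φ, …, φ^d` (index type `Fin (d+1)`) gives
`∑_{j ≤ d} a_j(T) φ^j = 0` with `a_j ∈ ℚ[X]` not all zero.  Let `n` be the maximum of the degrees and
`α_j = coeff n (a_j)`: some `α_j ≠ 0`; let `j₀` be the smallest `j` with `α_j ≠ 0`.  Write
`t_i = v T i`, `y_i = v φ i`; for `U`-most `i`: `∑_j (a_j(t_i) / t_i^n) y_i^j = 0` (`VcStmt`).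
As `|t_i| → ∞`: `a_j(t_i) / t_i^n → α_j`, and for `j < j₀` (degree `< n`, or `n = 0` and `a_j = 0`)
`|a_j(t_i) / t_i^n| ≤ C / |t_i|`.  Since `y_i → 0`,
`∑_{j ≥ j₀} (a_j(t_i)/t_i^n) y_i^(j - j₀) → α_{j₀} ≠ 0`, so its absolute value is
`≥ |α_{j₀}| / 2` eventually, hence `|y_i|^{j₀} |α_{j₀}| / 2 ≤ ∑_{j<j₀} C / |t_i| ≤ C' / |t_i|`
(using `|y_i| ≤ 1`).  As `|y_i| ≤ 1` and `j₀ ≤ d`: `|y_i|^d ≤ |y_i|^{j₀}`.  (If `j₀ = 0` the sum over
`j < j₀` is empty and `|α_0|/2 ≤ 0` is a contradiction, in particular the claim holds.)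
About 120 lines. -/
def SmStmt : Prop :=
  ∀ (L : Type) [Field L] [Algebra ℚ L] (U : Ultrafilter ℕ) (v : L → ℕ → ℝ) (T S : L)
    (G : Polynomial (Polynomial ℤ)) (d : ℕ), Vals U v → Prim T S G d →
    Tendsto (fun i => |v T i|) (U : Filter ℕ) atTop →
    ∀ φ : L, Tendsto (v φ) (U : Filter ℕ) (𝓝 0) →
      ∃ C : ℝ, ∀ᶠ i in (U : Filter ℕ), |v φ i| ^ d * |v T i| ≤ C

/-- **Gr.**  Every function grows at most like a power of `|T|`.
PROOF. Relation `∑_{j ≤ d} a_j(T) φ^j = 0` as in `Sm`.  Let `J` be the largest `j` with `a_J ≠ 0`.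
`J ≥ 1`, otherwise `a_0(T) = 0` contradicts the transcendence of `T`.  Since `|t_i| → ∞` and
`a_J ≠ 0`, eventually `|a_J(t_i)| ≥ c > 0` (the absolute value of a nonzero polynomial at `t_i` tends
to a nonzero constant or to infinity), and `|a_j(t_i)| ≤ |t_i|^K` for all `j` eventually.  If
`|y_i| ≥ 1`, divide `a_J y^J = -∑_{j<J} a_j y^j` by `y^(J-1)`:
`c |y_i| ≤ ∑_{j<J} |a_j(t_i)| ≤ (d+1) |t_i|^K`; so `|y_i| ≤ |t_i|^(K+1)` eventually.  If `|y_i| < 1`
it is trivial because `|t_i| ≥ 1` eventually.  About 80 lines. -/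
def GrStmt : Prop :=
  ∀ (L : Type) [Field L] [Algebra ℚ L] (U : Ultrafilter ℕ) (v : L → ℕ → ℝ) (T S : L)
    (G : Polynomial (Polynomial ℤ)) (d : ℕ), Vals U v → Prim T S G d →
    Tendsto (fun i => |v T i|) (U : Filter ℕ) atTop →
    ∀ φ : L, ∃ k : ℕ, ∀ᶠ i in (U : Filter ℕ), |v φ i| ≤ |v T i| ^ k

/-- **Lg.**  Growth exponents.
PROOF. Let `φ ≠ 0`, `y_i = v φ i`, `t_i = v T i`.  `Gr` for `φ` and for `φ⁻¹` (`VcStmt`: values are
eventually nonzero and inverse) gives `|t_i|^(-k) ≤ |y_i| ≤ |t_i|^k`, so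
`log |y_i| / log |t_i| ∈ [-k, k]` for `U`-most `i` (`log |t_i| > 0`); an ultrafilter on a compact set
converges (`isCompact_Icc.ultrafilter_le_nhds` applied to `U.map`): limit `w`.
(1) `w < 0`: eventually `log |y_i| ≤ (w/2) log |t_i|`, which tends to `-∞`, so `y_i → 0`.
(2) if `y_i → 0`, `Sm`: `d log |y_i| + log |t_i| ≤ log C`, divide by `log |t_i| → ∞`:
`d w + 1 ≤ 0`, so `w ≤ -1/d`.  (3) `w ≠ 0`: if `w < 0` then (1), (2) give `|w| ≥ 1/d`; if `w > 0`
apply this to `φ⁻¹`, whose limit is `-w`.  (4) `w = 0`: by (2) `y_i` does not tend to `0`, and by (2)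
for `φ⁻¹` neither does `y_i⁻¹`.  For an ultrafilter: `y_i` is `U`-bounded (otherwise for every `C`
`U`-eventually `|y_i| > C`, i.e. `y_i⁻¹ → 0`), so it converges to some `c`, and `c ≠ 0`.
About 130 lines. -/
def LgStmt : Prop :=
  ∀ (L : Type) [Field L] [Algebra ℚ L] (U : Ultrafilter ℕ) (v : L → ℕ → ℝ) (T S : L)
    (G : Polynomial (Polynomial ℤ)) (d : ℕ), Vals U v → Prim T S G d →
    Tendsto (fun i => |v T i|) (U : Filter ℕ) atTop →
    ∀ φ : L, φ ≠ 0 → ∃ w : ℝ,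
      Tendsto (fun i => Real.log |v φ i| / Real.log |v T i|) (U : Filter ℕ) (𝓝 w) ∧
      (w < 0 → Tendsto (v φ) (U : Filter ℕ) (𝓝 0)) ∧
      (w ≠ 0 → 1 / (d : ℝ) ≤ |w|) ∧
      (w = 0 → ∃ c : ℝ, c ≠ 0 ∧ Tendsto (v φ) (U : Filter ℕ) (𝓝 c))

/-- **Pl.**  Existence of a uniformizer.
PROOF. `w(φ)` from `Lg` (for `φ ≠ 0`; the limit is unique, `tendsto_nhds_unique`).  The set
`H = {w(φ) : φ ≠ 0}` is an additive subgroup of `ℝ` (`log |y y'| = log |y| + log |y'|`, inverses) and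
contains `1 = w(T)` (`T ≠ 0`, eventually `log |t_i| ≠ 0`); no element of `H` lies in `(0, 1/d)`.
Hence `H` is generated by some `w₀ > 0` (`AddSubgroup.cyclic_of_isolated_zero` gives
`H = closure {b}`, take `w₀ = |b|`, `b ≠ 0` because `1 ∈ H`).  `1 = m w₀` with an integer `m`, `m > 0`.
Let `π ≠ 0` with `w(π) = -w₀ < 0`; `v π → 0` by `Lg`.  For `φ ≠ 0`: `w(φ) = -k w₀`, `k ∈ ℤ`,
so `w(φ / π^k) = 0` and `v φ i / v π i ^ k = v (φ / π^k) i → c ≠ 0` (`Lg`, `VcStmt`).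
`w(T π^m) = 1 - m w₀ = 0`, the same.  About 110 lines. -/
def PlStmt : Prop :=
  ∀ (L : Type) [Field L] [Algebra ℚ L] (U : Ultrafilter ℕ) (v : L → ℕ → ℝ) (T S : L)
    (G : Polynomial (Polynomial ℤ)) (d : ℕ), Vals U v → Prim T S G d →
    Tendsto (fun i => |v T i|) (U : Filter ℕ) atTop →
    ∃ (π : L) (m : ℕ), Plc U v T π m

/-- **Rg.**  The valuation ring and the residue field.
PROOF. `O = {φ | ∃ C, ∀ᶠ i in U, |v φ i| ≤ C}` is a subring (sums, products, negatives of bounded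
sequences, constants).  For `φ ∈ L`: `U`-eventually `|v φ i| ≤ 1` or `U`-eventually `|v φ i| > 1`
(`Ultrafilter.eventually_or` / `Ultrafilter.em`), in the second case `|v φ⁻¹ i| ≤ 1`: a valuation
subring.  A `U`-bounded real sequence converges along `U` (compactness of `Icc (-C) C`); `r φ` = the
limit; ring homomorphism by uniqueness of limits and `Vals` (`Tendsto.congr'`).  `r φ = 0` iff
`φ = 0` or `φ⁻¹ ∉ O`: if `φ ≠ 0` and `φ⁻¹ ∈ O` then `r φ * r φ⁻¹ = 1`; if `r φ = 0`, `φ ≠ 0` and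
`φ⁻¹ ∈ O` contradiction; if `φ ≠ 0`, `φ⁻¹ ∉ O`, `r φ ≠ 0` then `v φ⁻¹ i = (v φ i)⁻¹` converges, so it
is bounded, contradiction.  `F` = the set of all limits of elements of `L` along `U` = range of `r`
(a sequence convergent along `U` is `U`-bounded); it is a subfield containing `ℚ`: `x ≠ 0` the limit
of `v φ`, then `x⁻¹` is the limit of `v φ⁻¹`.  About 150 lines. -/
def RgStmt : Prop :=
  ∀ (L : Type) [Field L] [Algebra ℚ L] (U : Ultrafilter ℕ) (v : L → ℕ → ℝ), Vals U v →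
    ∃ (O : ValuationSubring L) (r : O →+* ℝ) (F : IntermediateField ℚ ℝ),
      (∀ φ : L, φ ∈ O ↔ ∃ C : ℝ, ∀ᶠ i in (U : Filter ℕ), |v φ i| ≤ C) ∧
      (∀ φ : O, Tendsto (v (φ : L)) (U : Filter ℕ) (𝓝 (r φ))) ∧
      (∀ φ : O, r φ = 0 ↔ ((φ : L) = 0 ∨ (φ : L)⁻¹ ∉ O)) ∧
      (r.range : Set ℝ) = F ∧ ResF U v F

/-- **Ke.**  Leading terms of `∑_{k<m, l} a_kl(T) π^k ω_l` when the residues of the `ω_l` are
independent over `ℚ`.
PROOF. `t_i = v T i`, `s_i = v π i`: `s_i → 0`, `s_i ≠ 0` eventually, `t_i s_i^m → c₁ ≠ 0`, so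
`|t_i| → ∞` and `1 / t_i = O(s_i^m)`.  `α_kl = coeff n (a_kl)`, some `α_kl ≠ 0`; `k₀` = the smallest
`k` such that `α_kl ≠ 0` for some `l`.  The quotient in question is `U`-eventually the finite sum of
`(a_kl(t_i) / t_i^n) s_i^(k - k₀) v(ω_l)_i` (integer exponent `k - k₀`).  `a_kl(t_i)/t_i^n → α_kl`,
`v ω_l → f_l`.  `k > k₀`: the term tends to `0`.  `k = k₀`: it tends to `α_{k₀ l} f_l`.  `k < k₀`:
`α_kl = 0`, so `deg a_kl < n` and `|a_kl(t_i)/t_i^n| ≤ C/|t_i| ≤ C' |s_i|^m`; times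
`|s_i|^(k - k₀)`: exponent `m + k - k₀ ≥ 1` because `k₀ < m`; tends to `0`.  (If `n = 0` and
`α_kl = 0` then `a_kl = 0`.)  So the limit is `c = ∑_l α_{k₀ l} f_l ≠ 0` by the linear independence.
About 130 lines. -/
def KeStmt : Prop :=
  ∀ (L : Type) [Field L] [Algebra ℚ L] (U : Ultrafilter ℕ) (v : L → ℕ → ℝ) (T π : L) (m : ℕ),
    Plc U v T π m →
    ∀ (ι : Type) [Fintype ι] (ω : ι → L) (f : ι → ℝ),
      (∀ l, Tendsto (v (ω l)) (U : Filter ℕ) (𝓝 (f l))) → LinearIndependent ℚ f →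
      ∀ (a : Fin m → ι → ℚ[X]) (n : ℕ), (∀ k l, (a k l).natDegree ≤ n) →
        (∃ k l, (a k l).coeff n ≠ 0) →
        ∃ (k₀ : ℕ) (c : ℝ), k₀ < m ∧ c ≠ 0 ∧
          Tendsto (fun i => v (∑ k, ∑ l, aeval T (a k l) * (π ^ (k : ℕ) * ω l)) i /
            (v T i ^ n * v π i ^ k₀)) (U : Filter ℕ) (𝓝 c)

/-- **Fu.**  The fundamental inequality `m e ≤ d`, finiteness of the residue field, and a basis.
PROOF. (a) Independence: if `∑_{k,l} aeval T (a_kl) π^k ω_l = 0` with some `a_kl ≠ 0`, let `n` be the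
maximal degree of the nonzero `a_kl`; `Ke` gives a sequence which is `U`-eventually `0` (`v 0 = 0`)
and tends to `c ≠ 0`, contradiction.  So by `RlStmt` (a) `m * card ι ≤ d` (index type `Fin m × ι`).
(b) Hence every `ℚ`-linearly independent finite family in `F` has at most `d / m ≤ d` elements
(lifts `ω_l` exist by `ResF`), so `F` is finite dimensional and `m * finrank ℚ F ≤ d` (apply (a) to
a basis of `F` indexed by `Fin (finrank ℚ F)`, or to independent families if `F` is not known to be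
finite dimensional: `Module.finite_of_...`, `rank_le`).  (c) as stated: the family is independent
over `ℚ(T)` and if `m * card ι = d` it is a basis by `RlStmt` (b).  About 110 lines. -/
def FuStmt : Prop :=
  ∀ (L : Type) [Field L] [Algebra ℚ L] (U : Ultrafilter ℕ) (v : L → ℕ → ℝ) (T π : L) (m : ℕ)
    (S : L) (G : Polynomial (Polynomial ℤ)) (d : ℕ),
    Plc U v T π m → Prim T S G d →
    (∀ (ι : Type) [Fintype ι] (ω : ι → L) (f : ι → ℝ),
      (∀ l, Tendsto (v (ω l)) (U : Filter ℕ) (𝓝 (f l))) → LinearIndependent ℚ f →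
      m * Fintype.card ι ≤ d ∧
      (m * Fintype.card ι = d → ∀ ψ : L, ∃ (q : ℚ[X]) (p : Fin m → ι → ℚ[X]), q ≠ 0 ∧
        aeval T q * ψ = ∑ k, ∑ l, aeval T (p k l) * (π ^ (k : ℕ) * ω l))) ∧
    ∀ F : IntermediateField ℚ ℝ, ResF U v F →
      FiniteDimensional ℚ F ∧ m * Module.finrank ℚ F ≤ d

/-! ## Runge's method -/

/-- **St.**  One step of the filtration by the order at the place: the functions in a finite
dimensional space `W` which are `O(π^k)`; those which are `O(π^(k+1))` have codimension at most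
`e`.
PROOF. For `φ ∈ W`, `v φ i / v π i ^ k` is `U`-bounded, so it converges along `U` (compactness);
the limit `λ(φ)` is the limit of `v (φ / π^k)` (`VcStmt`), so it lies in `F` (`ResF`).  `λ : W → F` is
`ℚ`-linear.  If `λ(φ) = 0` and `φ ≠ 0`: by `Plc.ord` `v φ i / v π i ^ k' → c ≠ 0` for some `k'`, and
`v φ i / v π i ^ k → 0` forces `k' ≥ k + 1` (if `k' ≤ k`, then
`v φ i / v π i ^ k = (v φ i / v π i ^ k') * v π i ^ (k' - k)` does not tend to `0` as
`|v π i ^ (k'-k)| ≥ 1`), hence `|v φ i| ≤ C |v π i|^(k+1)`.  So the kernel of `λ` is contained in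
`W ⊓ W'` (`W'` = the submodule in the statement) and
`finrank W = finrank (range λ) + finrank (ker λ) ≤ e + finrank (W ⊓ W')`.  About 110 lines. -/
def StStmt : Prop :=
  ∀ (L : Type) [Field L] [Algebra ℚ L] (U : Ultrafilter ℕ) (v : L → ℕ → ℝ) (T π : L) (m : ℕ),
    Plc U v T π m → ∀ F : IntermediateField ℚ ℝ, ResF U v F → FiniteDimensional ℚ F →
    ∃ W' : ℤ → Submodule ℚ L,
      (∀ (k : ℤ) (φ : L), φ ∈ W' k ↔ ∃ C : ℝ, ∀ᶠ i in (U : Filter ℕ), |v φ i| ≤ C * |v π i| ^ k) ∧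
      ∀ (k : ℤ) (W : Submodule ℚ L), FiniteDimensional ℚ W → W ≤ W' k →
        Module.finrank ℚ W ≤ Module.finrank ℚ F + Module.finrank ℚ (W ⊓ W' (k + 1) : Submodule ℚ L)

/-- **Ru.**  Runge: if `m e < d` there is a nonzero polynomial in `T, S` which tends to `0`.
PROOF. `W_n` = the span of `T^a S^j`, `a ≤ n`, `j < d`: dimension `d (n+1)` (independence from
`Prim.indep`: a relation `∑ c_aj T^a S^j = 0` is `∑_j p_j(T) S^j = 0`, `p_j = ∑_a c_aj X^a`).  By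
`Plc.ord` for `S ≠ 0` (or `S = 0`, then bounded) and `Plc.ordT`: there is `c₀ ∈ ℕ` with
`|v (T^a S^j) i| ≤ C |v π i|^(-(m n + c₀))` for `a ≤ n`, `j < d`, so `W_n ≤ W' (-(m n + c₀))`
(`St`).  Applying `St` `m n + c₀ + 1` times (intersections `W_n ⊓ W' k` remain finite dimensional
and `W' (k+1) ≤ W' k` because `|v π i| ≤ 1`): `d (n+1) ≤ e (m n + c₀ + 1) + finrank (W_n ⊓ W' 1)`.
With `d ≥ m e + 1` and `n = e (c₀ + 1)` (or any `n > e (c₀+1)`) the left side is larger than the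
first term, so `W_n ⊓ W' 1 ≠ ⊥`: `0 ≠ φ ∈ W_n`, `|v φ i| ≤ C |v π i| → 0`, and
`φ = ∑_j p_j(T) S^j`.  About 150 lines. -/
def RuStmt : Prop :=
  ∀ (L : Type) [Field L] [Algebra ℚ L] (U : Ultrafilter ℕ) (v : L → ℕ → ℝ) (T π : L) (m : ℕ)
    (S : L) (G : Polynomial (Polynomial ℤ)) (d : ℕ) (F : IntermediateField ℚ ℝ),
    Plc U v T π m → Prim T S G d → ResF U v F → m * Module.finrank ℚ F < d →
    ∃ p : Fin d → ℚ[X], ∑ j, aeval T (p j) * S ^ (j : ℕ) ≠ 0 ∧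
      Tendsto (v (∑ j, aeval T (p j) * S ^ (j : ℕ))) (U : Filter ℕ) (𝓝 0)

/-- **Ri.**  With near-integral values of `T` and `S`: `m e = d`.
PROOF. `m e ≤ d` is `Fu`.  Suppose `m e < d` and take `φ = ∑ p_j(T) S^j ≠ 0` from `Ru`, `v φ → 0`.
`Sm`: `|v φ i|^d |v T i| ≤ C`.  Let `M ≥ 1` be a common denominator of all coefficients of the `p_j`
and `D` the maximum of `natDegree (p_j) + j`.  For `U`-most `i`: `M (N i)^D v φ i` is an integer
(sum of integers `M c_ja (N i)^(D-a-j) (N_i v T i)^a (N_i v S i)^j`) and nonzero (`φ ≠ 0`, `VcStmt`,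
`N i > 0`), so `1 ≤ M (N i)^D |v φ i|`.  Take `ε = 1/(2 d (D+1))`: `N i ≤ |v T i|^ε` eventually, so
`1 ≤ M^d (N i)^(D d) |v φ i|^d ≤ M^d |v T i|^(1/2) C / |v T i| = C M^d |v T i|^(-1/2)`,
contradiction when `|v T i| → ∞` (which follows from `Plc.ordT` and `Plc.pi0`).  About 130 lines. -/
def RiStmt : Prop :=
  ∀ (L : Type) [Field L] [Algebra ℚ L] (U : Ultrafilter ℕ) (v : L → ℕ → ℝ) (T π : L) (m : ℕ)
    (S : L) (G : Polynomial (Polynomial ℤ)) (d : ℕ) (F : IntermediateField ℚ ℝ) (N : ℕ → ℕ),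
    Plc U v T π m → Prim T S G d → ResF U v F →
    (∀ i, 0 < N i) →
    (∀ᶠ i in (U : Filter ℕ), (∃ z : ℤ, (N i : ℝ) * v T i = z) ∧ ∃ z : ℤ, (N i : ℝ) * v S i = z) →
    (∀ ε : ℝ, 0 < ε → ∀ᶠ i in (U : Filter ℕ), (N i : ℝ) ≤ |v T i| ^ ε) →
    m * Module.finrank ℚ F = d

/-- **Un.**  Uniqueness of the valuation ring.
PROOF. `F` is finite dimensional (`Fu`), `e = finrank`; basis `f_l` of `F` (`l : Fin e`), lifts
`ω_l ∈ L`, `b_kl = π^k ω_l` (`k < m`), nonzero (`f_l ≠ 0`).  By `Fu` every `ψ ∈ L` satisfies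
`q(T) ψ = ∑ p_kl(T) b_kl`, `q ≠ 0`.
Claim 1: if `v ψ` is `U`-bounded then `deg p_kl ≤ deg q` for all `k, l`.  Otherwise let `n > deg q` be
the maximal degree of the `p_kl`; by `Ke` `v(q(T) ψ)_i / (t_i^n s_i^{k₀}) → c ≠ 0`; but
`|q(t_i)| ≤ C |t_i|^(n-1)`, `|t_i|^(-1) ≤ C |s_i|^m`, `k₀ ≤ m - 1`, so the quotient is
`O(|s_i|^(m - k₀)) → 0`, contradiction.
Claim 2: `V` a valuation subring with `ℚ ⊆ V`, `T ∉ V`: then `u = T⁻¹ ∈ V` is a nonunit of `V`, and for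
`deg p ≤ deg q`, `q ≠ 0`: `p(T)/q(T) ∈ V` (with `n = deg q`: `p(T)/T^n` is a polynomial in `u` with
rational coefficients, in `V`; `q(T)/T^n = lead + u * (...)` is a unit of `V`: its inverse is in `V`,
otherwise it would be a nonunit, and then `lead` would be a nonunit of `V`).
Claim 3: all `b_kl ∈ V`.  Choose `b*` among the finitely many `b_kl` with `b_kl / b* ∈ V` for all
`k, l` (total order by divisibility; finite set, nonempty).  `b_kl` and `b*²` have `U`-bounded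
values, so by Claims 1, 2 `b*² = ∑ r_kl b_kl` with `r_kl ∈ V`, so `b* = ∑ r_kl (b_kl / b*) ∈ V`, and
`b_kl = b* (b_kl/b*) ∈ V`.  Hence `O ⊆ V` (every `ψ ∈ O` is `∑ r_kl b_kl`).
Claim 4: `V ⊆ O`.  Let `f ∈ V`, `f ∉ O`: `|v f i| → ∞` along `U`, `v f⁻¹ → 0`, `Sm`:
`|v f i|^(-d) |v T i| ≤ C`, that is `|v T i| ≤ C |v f i|^d`, so `T / f^d ∈ O ⊆ V` and `f^d ∈ V`, so
`T ∈ V`, contradiction.  About 220 lines (may be split: Claims 1 - 3 and Claim 4). -/
def UnStmt : Prop :=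
  ∀ (L : Type) [Field L] [Algebra ℚ L] (U : Ultrafilter ℕ) (v : L → ℕ → ℝ) (T π : L) (m : ℕ)
    (S : L) (G : Polynomial (Polynomial ℤ)) (d : ℕ) (F : IntermediateField ℚ ℝ)
    (O V : ValuationSubring L),
    Plc U v T π m → Prim T S G d → ResF U v F → m * Module.finrank ℚ F = d →
    (∀ φ : L, φ ∈ O ↔ ∃ C : ℝ, ∀ᶠ i in (U : Filter ℕ), |v φ i| ≤ C) →
    (∀ q : ℚ, algebraMap ℚ L q ∈ V) → T ∉ V → V = O

/-! ## Expansions at the place -/

/-- **Li.**  Algebraic residues can be lifted to any order (Newton's method).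
PROOF. Let `g = minpoly ℚ x`, separable: `g(x) = 0`, `g'(x) ≠ 0`.  Induction on `n ≥ 1` (for `n = 0`
take `φ` with `v φ → x`, bounded).  `n = 1`: `v φ → x`.  `g(φ) ∈ L` has values `g(v φ i) → g(x) = 0`.
If `g(φ) = 0` in `L` then `g(v φ i) = 0` eventually, and as the roots of `g` are finitely many and
`v φ i → x`, `v φ i = x` eventually: any bound holds.  Otherwise `Plc.ord` for `g(φ)`:
`g(v φ i)/s_i^k → c ≠ 0` with `k ≥ 1` (as it tends to `0` and `s_i → 0`), so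
`|g(v φ i)| ≤ C |s_i|`; write `g = (X - C x) h` over `ℝ`, `h(x) = g'(x) ≠ 0`:
`|v φ i - x| ≤ |g(v φ i)| / |h(v φ i)| ≤ C' |s_i|` eventually.  Step: let `|δ_i| ≤ C |s_i|^n`,
`δ_i = v φ i - x`, `n ≥ 1`, and put `φ' = φ - g(φ) / g'(φ)` (`g'(φ) ≠ 0` in `L` because its values
tend to `g'(x) ≠ 0`).  `v φ' i - x = δ_i (1 - h(y_i)/g'(y_i))` with `y_i = v φ i`, and
`g' - h = (X - C x) h'` gives `1 - h(y_i)/g'(y_i) = δ_i h'(y_i) / g'(y_i)`, so
`|v φ' i - x| ≤ C'' δ_i² ≤ C''' |s_i|^(2n) ≤ C''' |s_i|^(n+1)`.  About 130 lines. -/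
def LiStmt : Prop :=
  ∀ (L : Type) [Field L] [Algebra ℚ L] (U : Ultrafilter ℕ) (v : L → ℕ → ℝ) (T π : L) (m : ℕ),
    Plc U v T π m → ∀ x : ℝ, IsAlgebraic ℚ x →
    (∃ φ : L, Tendsto (v φ) (U : Filter ℕ) (𝓝 x)) →
    ∀ n : ℕ, ∃ (φ : L) (C : ℝ), ∀ᶠ i in (U : Filter ℕ), |v φ i - x| ≤ C * |v π i| ^ n

/-- **Dg.**  Digits: bounded functions are polynomials in `π` over `F` up to `O(π^n)`.
PROOF. Induction on `n`, for all `φ` with `U`-bounded values; `n = 0`: `p = 0`.  Step `n → n+1`: `v φ`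
converges (bounded, ultrafilter) to `x ∈ F` (`ResF`), `x` is algebraic (`F` finite over `ℚ`).  By
`Li` take `φ₀ ∈ L` with `|v φ₀ i - x| ≤ C |s_i|^(n+1)`.  `φ - φ₀` has values tending to `0`; put
`ψ = (φ - φ₀)/π`; its values are `U`-bounded: if `φ ≠ φ₀`, by `Plc.ord`
`v(φ - φ₀)_i / s_i^k → c ≠ 0` and the limit `0` of `v (φ - φ₀)` forces `k ≥ 1`.  Induction
hypothesis for `ψ`: `|v ψ i - q(s_i)| ≤ C |s_i|^n`, so with `p = C x + X q`:
`|v φ i - p(s_i)| ≤ |v φ₀ i - x| + |s_i| |v ψ i - q(s_i)| ≤ C |s_i|^(n+1)`.  About 80 lines. -/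
def DgStmt : Prop :=
  ∀ (L : Type) [Field L] [Algebra ℚ L] (U : Ultrafilter ℕ) (v : L → ℕ → ℝ) (T π : L) (m : ℕ)
    (F : IntermediateField ℚ ℝ), Plc U v T π m → ResF U v F → FiniteDimensional ℚ F →
    ∀ φ : L, (∃ C : ℝ, ∀ᶠ i in (U : Filter ℕ), |v φ i| ≤ C) →
    ∀ n : ℕ, ∃ (p : Polynomial F) (C : ℝ), ∀ᶠ i in (U : Filter ℕ),
      |v φ i - eval₂ (algebraMap F ℝ) (v π i) p| ≤ C * |v π i| ^ n

/-- **Se.**  A separable equation.
PROOF. Among all nonzero `p ∈ ℚ[X][X]` with `p(π, φ) = 0` (they exist: `Dep`) choose one with the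
smallest `natDegree` (outer variable).  The degree is `≥ 1`: if it is `0`, `p = C q`, `q ≠ 0`,
`q(π) = 0` contradicts the transcendence of `π`.  `p.derivative ≠ 0` in characteristic `0`
(`Polynomial.natDegree_eq_zero_of_derivative_eq_zero`) and has smaller degree
(`natDegree_derivative_lt`), so by minimality `p.derivative(π, φ) ≠ 0`.  About 40 lines. -/
def SeStmt : Prop :=
  ∀ (L : Type) [Field L] [Algebra ℚ L], Dep L → ∀ π φ : L, Transcendental ℚ π →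
    ∃ p : Polynomial ℚ[X], eval₂ ((aeval π : ℚ[X] →ₐ[ℚ] L) : ℚ[X] →+* L) φ p = 0 ∧
      eval₂ ((aeval π : ℚ[X] →ₐ[ℚ] L) : ℚ[X] →+* L) φ (derivative p) ≠ 0

/-- **Or.**  A polynomial which is `O(s^k)` on a sequence `s → 0`, `s ≠ 0`, is divisible by `X^k`;
and its leading behaviour.
PROOF. (a) Induction on `k`.  `k + 1`: by induction `a = X^k b`; eventually
`|s_i|^k |b(s_i)| ≤ C |s_i|^(k+1)`, so `|b(s_i)| ≤ C |s_i| → 0`, while `b(s_i) → emb (b(0))` by
continuity; `b(0) = 0` (`emb` injective), `X ∣ b` (`Polynomial.X_dvd_iff`).  (b) If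
`a(s_i)/s_i^κ → c` then `|a(s_i)| ≤ (|c|+1) |s_i|^κ`, so `a = X^κ u` by (a) and
`u(s_i) = a(s_i)/s_i^κ → emb (u(0)) = c`.  About 60 lines. -/
def OrStmt : Prop :=
  ∀ (F : Type) [Field F] (emb : F →+* ℝ) (U : Ultrafilter ℕ) (s : ℕ → ℝ),
    Tendsto s (U : Filter ℕ) (𝓝 0) → (∀ᶠ i in (U : Filter ℕ), s i ≠ 0) → ∀ (a : F[X]),
    (∀ (k : ℕ) (C : ℝ), (∀ᶠ i in (U : Filter ℕ), |eval₂ emb (s i) a| ≤ C * |s i| ^ k) →
      X ^ k ∣ a) ∧
    (∀ (k : ℕ) (c : ℝ), Tendsto (fun i => eval₂ emb (s i) a / s i ^ k) (U : Filter ℕ) (𝓝 c) →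
      ∃ u : F[X], a = X ^ k * u ∧ emb (u.coeff 0) = c)

/-- **Nf.**  Normal form `z = s g(s, z)` of the equation of an algebraic function.
PROOF. Let `p` be the digit polynomial for `n = κ + 2`: `|y_i - p(s_i)| ≤ C |s_i|^(κ+2)`, `k = κ + 1`,
`z_i = (y_i - p(s_i)) / s_i^(κ+1)`, so `|z_i| ≤ C |s_i|`, `z_i → 0`.  Let `A_j ∈ F[X]` be the
coefficients of `taylor p H` (`p` an element of the coefficient ring `F[X]` of `H`), so for all
`s, z`: `H(s, p(s) + z) = ∑_j A_j(s) z^j` (`Polynomial.taylor_eval`, apply the ring homomorphism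
evaluation at `s` to the coefficients), and `H_Y(s, p(s) + z) = ∑_{j≥1} j A_j(s) z^(j-1)`
(derivative of the taylor expansion: `Polynomial.taylor` commutes with `derivative`, or
differentiate the polynomial identity).  With `z = s_i^(κ+1) z_i = O(s_i^(κ+2))`:
`A_1(s_i) = H_Y(s_i, y_i) + O(s_i^(κ+2))`, so `A_1(s_i)/s_i^κ → c`; `Or` (b): `A_1 = X^κ u`,
`emb u(0) = c ≠ 0`; write `u = C u₀ + X u₁`.
`A_0(s_i) = H(s_i, y_i) - ∑_{j≥1} A_j(s_i) (s_i^(κ+1) z_i)^j = O(s_i^(2κ+2))`: for `j = 1`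
`|A_1(s_i)| |s_i|^(κ+1) |z_i| = O(s^(κ + κ+1 + 1))`, for `j ≥ 2` `O(s^(2(κ+2)))`; `Or` (a):
`A_0 = X^(2κ+2) b`.  Divide `0 = H(s_i, y_i) = ∑ A_j(s_i) s_i^((κ+1)j) z_i^j` by `s_i^(2κ+1)`:
`0 = s_i b(s_i) + (u₀ + s_i u₁(s_i)) z_i + ∑_{j≥2} A_j(s_i) s_i^((κ+1)(j-2)+1) z_i^j`.  Hence
`z_i = s_i g(s_i, z_i)` with
`g = -(1/u₀) (b + u₁ Z + ∑_{j≥2} A_j X^((κ+1)(j-2)) Z^j)` (`Z` the outer variable).
About 220 lines. -/
def NfStmt : Prop :=
  ∀ (F : Type) [Field F] (emb : F →+* ℝ) (U : Ultrafilter ℕ) (s y : ℕ → ℝ)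
    (H : Polynomial F[X]) (κ : ℕ) (c : ℝ),
    Tendsto s (U : Filter ℕ) (𝓝 0) → (∀ᶠ i in (U : Filter ℕ), s i ≠ 0) →
    (∀ᶠ i in (U : Filter ℕ), evF emb (s i) (y i) H = 0) → c ≠ 0 →
    Tendsto (fun i => evF emb (s i) (y i) (derivative H) / s i ^ κ) (U : Filter ℕ) (𝓝 c) →
    (∀ n : ℕ, ∃ (p : F[X]) (C : ℝ), ∀ᶠ i in (U : Filter ℕ),
      |y i - eval₂ emb (s i) p| ≤ C * |s i| ^ n) →
    ∃ (p : F[X]) (g : Polynomial F[X]) (k : ℕ),
      Tendsto (fun i => (y i - eval₂ emb (s i) p) / s i ^ k) (U : Filter ℕ) (𝓝 0) ∧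
      ∀ᶠ i in (U : Filter ℕ), (y i - eval₂ emb (s i) p) / s i ^ k
        = s i * evF emb (s i) ((y i - eval₂ emb (s i) p) / s i ^ k) g

/-- **Fx.**  The formal solution of `Z = X g(X, Z)`.
PROOF. Let `Φ(Z) = X * g(X, Z)` on `F⟦X⟧` (evaluate `g` by `eval₂ coeToPowerSeries.ringHom Z`).  If
`Z ≡ Z' mod X^n` then `Φ(Z) ≡ Φ(Z') mod X^(n+1)` (`Z - Z'` divides `g(X, Z) - g(X, Z')`:
`Polynomial.sub_dvd_eval_sub` after mapping `g` to `F⟦X⟧[Y]`).  `Z_0 = 0`, `Z_{n+1} = Φ(Z_n)`: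
`Z_{n+1} ≡ Z_n mod X^(n+1)` by induction (`Z_1 - Z_0` is divisible by `X`).  Define
`Z = mk (fun n => coeff n (Z_n))`; then `Z ≡ Z_n mod X^(n+1)`, so
`Φ(Z) ≡ Φ(Z_n) = Z_{n+1} ≡ Z mod X^(n+1)` for all `n`, hence `Φ(Z) = Z`.  About 70 lines. -/
def FxStmt : Prop :=
  ∀ (F : Type) [Field F] (g : Polynomial F[X]), ∃ Z : PowerSeries F,
    Z = PowerSeries.X * eval₂ (Polynomial.coeToPowerSeries.ringHom) Z g

/-- **Fi.**  Denominators of the coefficients of the solution.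
PROOF. `Z = X g(X, Z)` gives `coeff 0 Z = 0`.  Let `D ≥ 1` be an integer with `D * g_ab` integral over
`ℤ` for all coefficients `g_ab` of `g` (`g_ab` is algebraic over `ℚ`, so it has a denominator:
`exists_integral_multiple` or `IsIntegral` of a multiple; finitely many).  Say that a power series
`W` is `n`-good if `D^k * coeff k W` is integral over `ℤ` for all `k ≤ n`.  Sums and products
(`PowerSeries.coeff_mul`, antidiagonal) of `n`-good series are `n`-good, `1` is good.  Claim: `Z` is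
`n`-good for all `n`.  `n = 0` clear.  Step:
`coeff (n+1) Z = coeff n (g(X,Z)) = ∑_{a,b} g_ab coeff n (X^a Z^b)`,
`D^(n+1) coeff (n+1) Z = ∑ (D g_ab) * D^n coeff n (X^a Z^b)`; `X^a Z^b` is `n`-good (`X` is good:
`D^1 * 1`).  So `D^n * coeff n Z` is integral, a fortiori `D^(n+1) * coeff n Z`.
About 90 lines. -/
def FiStmt : Prop :=
  ∀ (F : Type) [Field F] [NumberField F] (g : Polynomial F[X]) (Z : PowerSeries F),
    Z = PowerSeries.X * eval₂ (Polynomial.coeToPowerSeries.ringHom) Z g →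
    ∃ D : ℕ, 0 < D ∧ ∀ n : ℕ, IsIntegral ℤ ((D : F) ^ n * PowerSeries.coeff n Z)

/-- **Fb.**  Size of the coefficients of the solution.
PROOF. Fix `σ`.  `M = ∑_{a,b} ‖σ g_ab‖`, `ρ = 1/(1+M) ≤ 1`.  For a power series `W` and `n` let
`|W|_n = ∑_{k ≤ n} ‖σ (coeff k W)‖ ρ^k`.  `|W W'|_n ≤ |W|_n |W'|_n` (Cauchy product, all pairs
`(k, l)` with `k + l ≤ n` are in the square), `|W + W'|_n ≤ |W|_n + |W'|_n`, `|C a|_n = ‖σ a‖`,
`|X|_n ≤ ρ ≤ 1`, `|1|_n = 1`.  Claim: `|Z|_n ≤ 1` for all `n`.  `n = 0`: `coeff 0 Z = 0`.  Step: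
`|Z|_{n+1} = ρ |g(X, Z)|_n ≤ ρ ∑ ‖σ g_ab‖ |X|_n^a |Z|_n^b ≤ ρ M ≤ 1`.  So
`‖σ (coeff n Z)‖ ≤ (1+M)^n`.  `C` = an integer above `1 + M`.  About 120 lines. -/
def FbStmt : Prop :=
  ∀ (F : Type) [Field F] (g : Polynomial F[X]) (Z : PowerSeries F) (σ : F →+* ℂ),
    Z = PowerSeries.X * eval₂ (Polynomial.coeToPowerSeries.ringHom) Z g →
    ∃ C : ℕ, 0 < C ∧ ∀ n : ℕ, ‖σ (PowerSeries.coeff n Z)‖ ≤ (C : ℝ) ^ n

/-- **Es.**  Absolutely convergent evaluation of power series is a ring homomorphism.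
PROOF. Sums: `Summable.add`, `HasSum.add` with the triangle inequality.  Products: the Cauchy
product of absolutely convergent series (`summable_norm_sum_mul_antidiagonal_of_summable_norm`,
`tsum_mul_tsum_eq_tsum_sum_antidiagonal_of_summable_norm`), `PowerSeries.coeff_mul`.  Constants and
`X`: finitely supported (`hasSum_single`, `hasSum_ite_eq`...); a polynomial `p` evaluates to
`eval₂ emb s p` (induction on `p`, or finite support).  Power series with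
`|emb (coeff b Φ)| ≤ C^(b+1)` and `C |s| < 1`: comparison with the geometric series
(`Summable.of_nonneg_of_le`).  About 110 lines. -/
def EsStmt : Prop :=
  ∀ (F : Type) [Field F] (emb : F →+* ℝ),
    (∀ (Φ Ψ : PowerSeries F) (s y z : ℝ), EvS emb Φ s y → EvS emb Ψ s z →
      EvS emb (Φ + Ψ) s (y + z)) ∧
    (∀ (Φ Ψ : PowerSeries F) (s y z : ℝ), EvS emb Φ s y → EvS emb Ψ s z →
      EvS emb (Φ * Ψ) s (y * z)) ∧
    (∀ (p : F[X]) (s : ℝ), EvS emb (p : PowerSeries F) s (eval₂ emb s p)) ∧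
    (∀ (Φ : PowerSeries F) (C : ℝ) (s : ℝ), 0 < C →
      (∀ b, |emb (PowerSeries.coeff b Φ)| ≤ C ^ (b + 1)) → C * |s| < 1 → ∃ y, EvS emb Φ s y) ∧
    (∀ (Φ : PowerSeries F) (g : Polynomial F[X]) (s y : ℝ), EvS emb Φ s y →
      EvS emb (eval₂ (Polynomial.coeToPowerSeries.ringHom) Φ g) s (evF emb s y g))

/-- **Cv.**  The solution of `z = s g(s, z)` with small `s` is the value of the formal solution.
PROOF. `Fb` for the embedding `σ = ofReal ∘ emb : F →+* ℂ`: `|emb (coeff n Z)| ≤ C^n`, so for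
`|s| < 1/(2C)` the series converges absolutely (`Es`) to some `Z(s)`, with
`|Z(s)| ≤ ∑_{n≥1} (C|s|)^n ≤ 2 C |s| ≤ 1` (`coeff 0 Z = 0`), and `Z(s) = s g(s, Z(s))` by `Es`
(evaluate both sides of the formal identity; uniqueness of sums).  Let `|z| ≤ 1`, `z = s g(s, z)`:
`|z - Z(s)| = |s| |g(s, z) - g(s, Z(s))| ≤ |s| Λ |z - Z(s)|` with `Λ = ∑ |emb g_ab| b` for `|s| ≤ 1`
(`|z^b - z'^b| ≤ b |z - z'|` for `|z|, |z'| ≤ 1`).  If `|s| Λ < 1` this gives `z = Z(s)`.  Take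
`s₀ = min (1/(2C)) (1/(Λ+1)) 1` (halved if necessary).  About 120 lines. -/
def CvStmt : Prop :=
  ∀ (F : Type) [Field F] (emb : F →+* ℝ) (g : Polynomial F[X]) (Z : PowerSeries F),
    Z = PowerSeries.X * eval₂ (Polynomial.coeToPowerSeries.ringHom) Z g →
    ∃ s₀ : ℝ, 0 < s₀ ∧ ∀ s z : ℝ, |s| < s₀ → |z| ≤ 1 → z = s * evF emb s z g → EvS emb Z s z

/-- **Ex.**  Expansion theorem: a bounded function `φ ∈ L` is a convergent power series in `π` with
coefficients in the residue field and with Eisenstein bounds.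
PROOF. `s_i = v π i` (eventually `≠ 0`, `→ 0`), `y_i = v φ i`.  `π` is transcendental: if `q(π) = 0`,
`q ∈ ℚ[X]`, `q ≠ 0`, divide by a power of `X` (`π ≠ 0`): `q(0) ≠ 0`, and `q(s_i) = 0` eventually, but
`q(s_i) → q(0)`.  `Se`: `p(π, φ) = 0`, `p'(π, φ) ≠ 0`; let `H` be the image of `p` in `F[X][X]`.
`Vals` give `evF emb s_i y_i H = 0` eventually, and `evF emb s_i y_i (derivative H) = v(p'(π,φ))_i`,
by `Plc.ord` divided by `s_i^k` it tends to `c ≠ 0`, `k ∈ ℤ`; `k ≥ 0` because the left side is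
bounded (`s_i`, `y_i` bounded) and for `k < 0` `|v(..)_i| = |s_i|^k |c + o(1)| → ∞`.  `Dg` gives the
digit polynomials (`emb = algebraMap F ℝ`).  `Nf`: `p₁, g, k`, `z_i → 0`, `z_i = s_i g(s_i, z_i)`.
`Fx`: `Z`.  `Cv`: `EvS emb Z s_i z_i` eventually.  `Φ = p₁ + X^k Z`:
`EvS emb Φ s_i (p₁(s_i) + s_i^k z_i)` (`Es`), and `p₁(s_i) + s_i^k z_i = y_i`.  `EisBd Φ`: from `Fi`
and `Fb` (for all of the finitely many `σ : F →+* ℂ`, take the maximum of the constants) for `Z`;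
`X^k Z` shifts the coefficients: `D^(b+1) coeff (b-k) Z` is integral, size `C^(b+1)`; add the finitely
many coefficients of `p₁` (multiply `D` by a common denominator of the coefficients of `p₁`, enlarge
`C` to at least `2 + max ‖σ coeff‖` and so on: `C₁^(b+1) + C₂^(b+1) ≤ (C₁ + C₂)^(b+1)`).
About 200 lines. -/
def ExStmt : Prop :=
  ∀ (L : Type) [Field L] [Algebra ℚ L] (U : Ultrafilter ℕ) (v : L → ℕ → ℝ) (T π : L) (m : ℕ)
    (F : IntermediateField ℚ ℝ) [NumberField F], Dep L → Plc U v T π m → ResF U v F →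
    ∀ φ : L, (∃ C : ℝ, ∀ᶠ i in (U : Filter ℕ), |v φ i| ≤ C) →
    ∃ Φ : PowerSeries F, EisBd Φ ∧
      ∀ᶠ i in (U : Filter ℕ), EvS (algebraMap F ℝ) Φ (v π i) (v φ i)

/-- **Fo.**  The formal equation of the curve.
PROOF. Let `x, y` be the two outer arguments.  Let `K` be a natural number with `m a + μ b ≤ K` for all
exponents `(a, b)` occurring in `G = ∑ g_ab T^a S^b` and
`Q = ∑ g_ab X^(K - m a - μ b) * Xs^a * Ys^b ∈ F⟦X⟧`.  Then `(Q : LaurentSeries F)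
= single K 1 * ev2 (lau m Xs) (lau μ Ys) G` (multiply out, `HahnSeries.single_mul_single`,
exponents in `ℤ`).  For `U`-most `i`: `EvS emb Q s_i (s_i^K G(T_i, S_i))`, that is
`EvS emb Q s_i 0` (`Es`, `Xs(s_i)^a = T_i^a s_i^(m a)` etc.).  If `Q ≠ 0` let `k` be the order of `Q`,
`q_k ≠ 0`; `∑_b |emb q_b| r^b < ∞` for `r = |s_{i₀}| > 0` (one fixed index `i₀` of the `U`-large set);
for `|s_i| ≤ r/2`, `0 = |Q(s_i)| ≥ |s_i|^k (|emb q_k| - |s_i| C')` with
`C' = ∑_{b>k} |emb q_b| r^(b-k-1)`, so `|emb q_k| ≤ C' |s_i| → 0`, contradiction.  So `Q = 0` and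
`ev2 (lau m Xs) (lau μ Ys) G = 0` (`single K 1` is a unit).  About 180 lines. -/
def FoStmt : Prop :=
  ∀ (F : Type) [Field F] (emb : F →+* ℝ) (U : Ultrafilter ℕ) (s T S : ℕ → ℝ)
    (Xs Ys : PowerSeries F) (m μ : ℕ) (G : Polynomial (Polynomial ℤ)),
    Tendsto s (U : Filter ℕ) (𝓝 0) → (∀ᶠ i in (U : Filter ℕ), s i ≠ 0) →
    (∀ᶠ i in (U : Filter ℕ), EvS emb Xs (s i) (T i * s i ^ m)) →
    (∀ᶠ i in (U : Filter ℕ), EvS emb Ys (s i) (S i * s i ^ μ)) →
    (∀ᶠ i in (U : Filter ℕ), ev2 (T i) (S i) G = 0) →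
    ev2 (lau m Xs) (lau μ Ys) G = 0

/-- **Sb.**  Subsequences: properties which hold along `U` hold along a sequence.
PROOF. For `k ∈ ℕ` the set `E_k` of all `i` with `P i` and `Q k' i` for all `k' ≤ k` is in `U`
(finite intersection), hence nonempty, and infinite because `U ≤ atTop` (`{i | n < i} ∈ U`).  Choose
recursively `f 0 ∈ E_0`, `f (k+1) ∈ E_{k+1}` with `f (k+1) > f k`.  Then `P (f k)` for all `k` and
`Q k' (f k)` for all `k ≥ k'`.  About 40 lines. -/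
def SbStmt : Prop :=
  ∀ (U : Ultrafilter ℕ) (P : ℕ → Prop) (Q : ℕ → ℕ → Prop), (U : Filter ℕ) ≤ atTop →
    (∀ᶠ i in (U : Filter ℕ), P i) → (∀ k, ∀ᶠ i in (U : Filter ℕ), Q k i) →
    ∃ f : ℕ → ℕ, StrictMono f ∧ (∀ k, P (f k)) ∧ ∀ k' k, k' ≤ k → Q k' (f k)

/-- **Tw.**  The residue field has degree at most `2`.
PROOF. Suppose `e = finrank ℚ F ≥ 3`.  `m e = d` by `Ri`.  `F` is a number field (finite over `ℚ` by
`Fu`, characteristic `0`).  Choose `μ ∈ ℕ` with `v (S π^μ)` `U`-bounded (`Plc.ord`).  `Ex` for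
`φ = T π^m` (bounded by `Plc.ordT`) and `φ = S π^μ`: power series `Xs`, `Ys` with `EisBd`, and
`U`-eventually `EvS _ Xs s_i (T_i s_i^m)`, `EvS _ Ys s_i (S_i s_i^μ)` with `s_i = v π i`,
`T_i = v T i`, `S_i = v S i` (rational numbers).  `coeff 0 Xs ≠ 0`: the limit `c ≠ 0` of `T_i s_i^m` is
`emb (coeff 0 Xs)` (for `|s_i| ≤ r`: `|Xs(s_i) - emb (coeff 0 Xs)| ≤ C |s_i|`).  `Fo`: formal
equation, because `G(T_i, S_i) = v (ev2 T S G) i = 0` eventually.  Apply `Sb` with `P i` = all these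
properties at `i` (`s_i ≠ 0`, the two `HasSum`, the equation `ev2 (T_i) (S_i) G = 0` in `ℚ`, the
integrality), `Q k i` = `|s_i| ≤ 1/(k+1)` and `(N i : ℝ) ≤ |s_i|^(-1/(k+1))` (from
`N i ≤ |T_i|^ε` and `|T_i| ≤ C |s_i|^(-m)`, `ε = 1/(2 m (k+1))`), and then `CoreStmt` with
`t k = s_{f k}`, `T k = T_{f k}` ...: `False`.  For given `ε > 0` and `k ≥ 1/ε`:
`N (f k) ≤ |s|^(-1/(k+1)) ≤ |s|^(-ε)` because `|s| ≤ 1`.  About 200 lines. -/
def TwStmt : Prop :=
  CoreStmt → ∀ (L : Type) [Field L] [Algebra ℚ L] (U : Ultrafilter ℕ) (v : L → ℕ → ℚ) (T π : L)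
    (m : ℕ) (S : L) (G : Polynomial (Polynomial ℤ)) (d : ℕ) (F : IntermediateField ℚ ℝ)
    (N : ℕ → ℕ), Dep L → (U : Filter ℕ) ≤ atTop →
    Plc U (fun (φ : L) i => ((v φ i : ℚ) : ℝ)) T π m → Prim T S G d →
    ResF U (fun (φ : L) i => ((v φ i : ℚ) : ℝ)) F → (∀ i, 0 < N i) →
    (∀ᶠ i in (U : Filter ℕ), (∃ z : ℤ, (N i : ℚ) * v T i = z) ∧ ∃ z : ℤ, (N i : ℚ) * v S i = z) →
    (∀ ε : ℝ, 0 < ε → ∀ᶠ i in (U : Filter ℕ), (N i : ℝ) ≤ |((v T i : ℚ) : ℝ)| ^ ε) →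
    m * Module.finrank ℚ F = d → Module.finrank ℚ F ≤ 2

/-! ## Assembly -/

/-- **Ni.**  Near-integrality of `T ∈ A` and of `S` integral over `ℤ[T]`.
PROOF. `T ∈ A = ℚ[x]`: `T = aeval x P`, `P ∈ MvPolynomial κ ℚ` (`gen`), of total degree `≤ D`, `M ≥ 1` a
common denominator of its coefficients: `M (N i)^D ev i T ∈ ℤ`.  `K = M (N i)^D`.  `S`:
`G = ∑_b g_b(T) S^b` monic of degree `d`, `g_b ∈ ℤ[X]` of degree `≤ D'`; `K' = K^(D')`:
`K' g_b(T_i) ∈ ℤ`.  From `G(T_i, S_i) = 0` (eventually): `(K' S_i)^d = -∑_{b<d} K'^(d-b) g_b(T_i)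
(K' S_i)^b`, so the rational number `K' S_i` is integral over `ℤ`, hence an integer
(`IsIntegrallyClosed ℤ`).  Put `N' i = M^(D'+1) (N i)^(D (D'+1))` (a multiple of `K` and of `K'`).
Size: `N' i ≤ C (N i)^(D'')`, `N i ≤ (∑_j |x_j(i)|)^ε`, and `∑_j |v x_j i| ≤ |v T i|^(k)` for some `k`
(`Gr` for each `x_j`, finitely many, `|v T i| ≥ 2` eventually), so for each `ε > 0` eventually
`N' i ≤ |v T i|^ε` (`C ≤ |v T i|^(ε/2)` eventually).  About 180 lines. -/
def NiStmt : Prop :=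
  ∀ (A L κ : Type) [CommRing A] [IsDomain A] [Algebra ℚ A] [Field L] [Algebra ℚ L] [Algebra A L]
    [IsScalarTower ℚ A L] [IsFractionRing A L] [Fintype κ] (x : κ → A) (ev : ℕ → A →ₐ[ℚ] ℚ)
    (N : ℕ → ℕ) (U : Ultrafilter ℕ) (v : L → ℕ → ℚ), NearInt x ev N → (U : Filter ℕ) ≤ atTop →
    (∀ a b : A, b ≠ 0 → ∀ᶠ i in atTop, v (algebraMap A L a / algebraMap A L b) i
        = ev i a / ev i b) →
    Vals U (fun (φ : L) i => ((v φ i : ℚ) : ℝ)) →
    ∀ (T : A) (S : L) (G : Polynomial (Polynomial ℤ)) (d : ℕ), Prim (algebraMap A L T) S G d →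
    Tendsto (fun i => |((v (algebraMap A L T) i : ℚ) : ℝ)|) (U : Filter ℕ) atTop →
    ∃ N' : ℕ → ℕ, (∀ i, 0 < N' i) ∧
      (∀ᶠ i in (U : Filter ℕ), (∃ z : ℤ, (N' i : ℚ) * v (algebraMap A L T) i = z) ∧
        ∃ z : ℤ, (N' i : ℚ) * v S i = z) ∧
      ∀ ε : ℝ, 0 < ε → ∀ᶠ i in (U : Filter ℕ),
        (N' i : ℝ) ≤ |((v (algebraMap A L T) i : ℚ) : ℝ)| ^ ε

/-- **Mn.**  The main statement from the core statement.
PROOF. `Ad`: `Dep L`.  `En`, `Ev`: `v`, `Vals`.  `Rg`: `O, r, F`.  `φ ∈ O ↔ Bdd`: for `φ = a/b` the values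
`v φ i` and `ev i a / ev i b` agree for large `i` (`ev i b ≠ 0`).  `LimTo` in the same way.
(1) some `x_j ∉ O`: otherwise all `v x_j` are `U`-bounded, contradiction to
`∑_j |ev i x_j| → ∞`.  (2) Let `T ∈ A` with `algebraMap T ∉ O`.  Then `|v T i| → ∞` along `U`
(ultrafilter: for every `C`, `U`-eventually `|v T i| > C`), `T` is transcendental (if `q(T) = 0`,
`q ∈ ℚ[X]` nonzero, the values lie in the finite root set, so they are bounded).  `Fd`, `Pe`:
`Prim T S G d`; `Pl`: `Plc`; `Fu`: `F` finite; `Ni`: `N'`; `Ri`: `m e = d`.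
(3) With `T = x_j`: `Tw` gives `finrank ℚ F ≤ 2`.  (4) `V ∌ x_k`, `ℚ ⊆ V`: there is `T ∈ A` with
`T ∉ O` and `T ∉ V`: `x_j` (from (1)) if `x_j ∉ V`; else `x_k` if `x_k ∉ O`; else `x_j + x_k`
(`x_j ∈ V`, `x_k ∉ V`, so the sum is `∉ V`; `x_j ∉ O`, `x_k ∈ O`, so it is `∉ O`).  `Un`: `V = O`.
`O ≠ ⊤` by (1); `ℚ ⊆ O` (constants are bounded).  About 200 lines. -/
def MnStmt : Prop := CoreStmt → MainStmt

end Pool.Agent.Lib.SD
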