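import Pool.Agent.Lib.SD.Spec
import Pool.Agent.Lib.MP_9f7b43_nt.L.Defs

/-!
# Lib/SD: from `MainStmt` to the hyperreal form `MP9f7b43.L.SDStmt`
-/

namespace Pool.Agent.Lib.SD

open Filter Topology Polynomial

/-- **Cn.**  `MainStmt → MP9f7b43.L.SDStmt`.
PROOF. Let `A = Algebra.adjoin ℚ (Set.range x)`, a subalgebra of `L` (`CommRing`, `IsDomain`,
`Algebra A L`, `IsScalarTower ℚ A L`), generators `x' i = ⟨x i, _⟩`, `adjoin ℚ (range x') = ⊤`
(`Algebra.adjoin_adjoin_coe_preimage` or `Subalgebra` map/comap, or `Algebra.adjoin_eq_range`).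
`A` is the range of `aeval x : MvPolynomial ι ℚ →ₐ[ℚ] L`; `IsFractionRing A L`: `map_units` and
`exists_of_eq` from injectivity of the inclusion, `surj` from `CurveField.frac`
(`IsFractionRing` of a subring of a field: `IsLocalization` constructor, or
`IsFractionRing.of_field`).  `ev n : A →ₐ[ℚ] ℚ`: `g(x) ↦ g(p n)`, well defined by `Specs.spec`
(`Ideal.Quotient.liftₐ` on the kernel of `aeval x` composed with
`Ideal.quotientKerAlgEquivOfSurjective` / `AlgHom.liftOfSurjective` for `(aeval x).rangeRestrict`).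
So `ev n (x' i) = p n i`; `ev` is injective because `p` is.  `NearInt x' ev N` is immediate;
`trdeg ≤ 1`.  Apply `MainStmt` with `U = hyperfilter ℕ` (`Nat.hyperfilter_le_atTop` or
`hyperfilter_le_cofinite` and `Nat.cofinite_eq_atTop`): `O, F, r`.
For `b = g(x) ∈ A`: `Φ (b : L) = ofSeq (fun n => (ev n b : ℝ))`: both sides are ring homomorphisms
in `g` which agree on the variables and on constants (`Φ (algebraMap ℚ L q) = q`;
`MvPolynomial.induction_on`, `Hyperreal.ofSeq` is a ring homomorphism: `Filter.Germ` operations).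
Let `y = a / b ∈ L`.  `y ∈ O ↔ Bdd ... y`: if `Bdd` with `C`, then `|ev n a| ≤ C |ev n b|` eventually,
so `|Φ a| ≤ C |Φ b|` and `|Φ y| ≤ C` (`Φ b ≠ 0`), so `0 ≤ mk (Φ y)`
(`ArchimedeanClass.mk_nonneg_iff...`, see `Pool/Agent/Lib/MP_9f7b43_nt/L/Plc.lean` for the lemmas on
finite hyperreals); conversely `0 ≤ mk (Φ y)` gives a natural number `C` with `|Φ y| ≤ C`, hence
`|Φ a'| ≤ C |Φ b'|` for every representation `y = a' / b'` and the inequality holds
`U`-eventually (`Filter.Germ.coe_le`).  So `O = {y | 0 ≤ mk (Φ y)}`; the last clause of `MainStmt`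
gives the first conclusion.  Second conclusion: `F`; for `0 ≤ mk (Φ y)`, `y ∈ O`,
`LimTo L ev U y (r y)`, so `Φ y = Φ a / Φ b` is the germ of a sequence with limit `r y` along `U`,
hence `stdPart (Φ y) = r y ∈ range r = F` (for all `ε > 0`, `|Φ y - r y| < ε`;
`ArchimedeanClass.stdPart` of such an element is `r y`, e.g. `stdPart_eq` or
`Hyperreal.stdPart_of_tendsto`...).  About 150 lines. -/
def CnStmt : Prop := MainStmt → MP9f7b43.L.SDStmt

end Pool.Agent.Lib.SD
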